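import Pool.Agent.W_7d29a1_KZ.DefsA70
import Pool.Agent.W_7d29a1_KL.LeafV21
import Pool.Agent.W_7d29a1_SD.SubG20
import Pool.Agent.W_7d29a1_SP.Bas15
import Pool.Agent.W_7d29a1_D2.Den67
import Pool.Agent.W_7d29a1_D2.TrF53
import Pool.Agent.W_7d29a1_UC.TrC19

/-!
Theorem KZ: the inequality `χ ≤ 2 ν - 1` in the letters of the problem.
-/

namespace Pool.Agent.W_7d29a1_KZ

open MeasureTheory ProbabilityTheory Filter Topology Pool.Agent.W_MP_7d29a1_pr
  Pool.Agent.W_7d29a1_h46 Pool.Agent.W_7d29a1_h46u Pool.Agent.W_7d29a1_D2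
  Pool.Agent.W_7d29a1_D2.B35 Pool.Agent.W_7d29a1_Q29 Pool.Agent.W_7d29a1_R34
  Pool.Agent.W_7d29a1_SP Pool.Agent.W_7d29a1_SD Pool.Agent.W_7d29a1_UC

variable {d : ℕ} {Ω : Type*} [MeasurableSpace Ω] {μ : Measure Ω} [IsProbabilityMeasure μ]
  {ρ : Measure ℝ} [IsProbabilityMeasure ρ] {ω : ℕ × Site d → Ω → ℝ} {β : ℝ}

/-- The tube of radius `n ^ a`, `a > ν`, in probability. -/
lemma tubeP19 (hd : 0 < d) (hω : IID μ ρ ω) {h v : Vec d} {a : ℝ}
    (ha : nuT μ β ω h v < a) {κ : ℝ} (hκ : 0 < κ) : ∀ᶠ n : ℕ in atTop,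
      (law d ρ).real {η | ¬ (1 - κ ≤ PolT β h η (tube d n v ((n : ℝ) ^ a)))} ≤ κ := by
  obtain ⟨n₀, hn₀⟩ := exists_n0T hd hω.meas (β := β) (h := h) (v := v) ha hκ
  filter_upwards [eventually_ge_atTop n₀] with n hn
  have hSm : MeasurableSet {η : Env d | ¬ (1 - κ ≤
      PolT β h η (tube d n v ((n : ℝ) ^ a)))} :=
    (measurableSet_le measurable_const (measurable_PolT β h _)).compl
  rw [← (mp_env hω).measureReal_preimage hSm.nullMeasurableSet]
  exact hn₀ n hn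

/-- The mean mass outside the tube of radius `n ^ a`, `a > ν`, tends to `0`. -/
lemma tube0_19 (hd : 0 < d) (hω : IID μ ρ ω) {h v : Vec d} {a : ℝ}
    (ha : nuT μ β ω h v < a) {ε : ℝ} (hε : 0 < ε) : ∀ᶠ n : ℕ in atTop,
      ∫ η, (1 - PolT β h η (tube d n v ((n : ℝ) ^ a))) ∂(law d ρ) ≤ ε := by
  filter_upwards [tubeP19 hd hω ha (half_pos hε)] with n hP
  obtain ⟨S, hS⟩ : ∃ S : Set (Env d), S = {η | ¬ (1 - ε / 2 ≤
      PolT β h η (tube d n v ((n : ℝ) ^ a)))} := ⟨_, rfl⟩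
  have hSm : MeasurableSet S := by
    rw [hS]
    exact (measurableSet_le measurable_const (measurable_PolT β h _)).compl
  rw [← hS] at hP
  have hm : Measurable fun η : Env d => 1 - PolT β h η (tube d n v ((n : ℝ) ^ a)) :=
    measurable_const.sub (measurable_PolT β h _)
  have h0 : ∀ η : Env d, 0 ≤ 1 - PolT β h η (tube d n v ((n : ℝ) ^ a)) := fun η =>
    sub_nonneg.2 (PolT_le_one β h η _)
  have hi : Integrable (fun η : Env d => 1 - PolT β h η (tube d n v ((n : ℝ) ^ a)))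
      (law d ρ) := by
    refine Integrable.mono' (integrable_const (1 : ℝ)) hm.aestronglyMeasurable
      (ae_of_all _ fun η => ?_)
    rw [Real.norm_eq_abs, abs_of_nonneg (h0 η)]
    linarith [PolT_nonneg β h η (tube d n v ((n : ℝ) ^ a))]
  have hi2 : Integrable (fun η : Env d => ε / 2 + S.indicator (fun _ => (1 : ℝ)) η)
      (law d ρ) :=
    (integrable_const _).add ((integrable_const (1 : ℝ)).indicator hSm)
  have h1 : ∫ η, (1 - PolT β h η (tube d n v ((n : ℝ) ^ a))) ∂(law d ρ) ≤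
      ∫ η, (ε / 2 + S.indicator (fun _ => (1 : ℝ)) η) ∂(law d ρ) := by
    refine integral_mono hi hi2 fun η => ?_
    show 1 - PolT β h η (tube d n v ((n : ℝ) ^ a)) ≤ ε / 2 + S.indicator (fun _ => (1 : ℝ)) η
    by_cases hη : η ∈ S
    · rw [Set.indicator_of_mem hη]
      linarith [PolT_nonneg β h η (tube d n v ((n : ℝ) ^ a))]
    · rw [Set.indicator_of_notMem hη]
      rw [hS] at hη
      have h2 : 1 - ε / 2 ≤ PolT β h η (tube d n v ((n : ℝ) ^ a)) := by
        by_contra h3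
        exact hη h3
      linarith
  have h2 : ∫ η, (ε / 2 + S.indicator (fun _ => (1 : ℝ)) η) ∂(law d ρ) =
      ε / 2 + (law d ρ).real S := by
    rw [integral_add (integrable_const _) ((integrable_const (1 : ℝ)).indicator hSm),
      integral_indicator_const (1 : ℝ) hSm]
    simp
  linarith

/-- The tube property of the frame, from the definition of `ν`. -/
theorem halfD19 (hd : 0 < d) (hω : IID μ ρ ω) {h v : Vec d} {a : ℝ}
    (ha : nuT μ β ω h v < a) : HalfD ρ β h v (a - 1 / 2) := by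
  intro ε hε
  filter_upwards [tube0_19 hd hω ha hε, eventually_ge_atTop 1] with n hn hn1
  have hn0 : (0 : ℝ) < n := by exact_mod_cast hn1
  have e : (n : ℝ) ^ (a - 1 / 2) * Real.sqrt n = (n : ℝ) ^ a := by
    rw [Real.sqrt_eq_rpow, ← Real.rpow_add hn0]
    congr 1
    ring
  unfold Tb
  rw [e]
  exact hn

/-- A velocity with `ν < 1` is a slope of the free energy. -/
theorem slope19 (hd : 0 < d) (hω : IID μ ρ ω) (hρ : EM ρ) {h v : Vec d}
    (hν : nuT μ β ω h v < 1) (k : Vec d) :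
    lam ρ β h + inner ℝ v k ≤ lam ρ β (h + k) := by
  obtain ⟨a, ha, ha1⟩ := exists_between hν
  refine coreG20 hd hρ h v k (θ := 1 / 2) (α := 1 / 2) (by norm_num) (by norm_num)
    (fun n => (n : ℝ) ^ a) ?_ ?_
  · have t3 : Tendsto (fun n : ℕ => (n : ℝ) ^ (-(1 - a))) atTop (𝓝 0) :=
      (tendsto_rpow_neg_atTop (by linarith : (0 : ℝ) < 1 - a)).comp
        (tendsto_natCast_atTop_atTop (R := ℝ))
    refine t3.congr' ?_
    filter_upwards [eventually_ge_atTop 1] with n hn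
    have hn0 : (0 : ℝ) < n := by exact_mod_cast hn
    rw [eq_div_iff hn0.ne']
    nth_rewrite 2 [← Real.rpow_one (n : ℝ)]
    rw [← Real.rpow_add hn0]
    congr 1
    ring
  · filter_upwards [tubeP19 hd hω ha (κ := 1 / 2) (by norm_num)] with n hn
    have hms : MeasurableSet {η : Env d | 1 / 2 ≤ PolT β h η (tube d n v ((n : ℝ) ^ a))} :=
      measurableSet_le measurable_const (measurable_PolT β h _)
    have h1 : {η : Env d | ¬ (1 - 1 / 2 ≤ PolT β h η (tube d n v ((n : ℝ) ^ a)))} =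
        {η : Env d | 1 / 2 ≤ PolT β h η (tube d n v ((n : ℝ) ^ a))}ᶜ := by
      ext η
      rw [Set.mem_compl_iff, Set.mem_ofPred_eq, Set.mem_ofPred_eq,
        show (1 : ℝ) - 1 / 2 = 1 / 2 by norm_num]
    rw [h1, probReal_compl_eq_one_sub hms] at hn
    linarith

/-- At almost every velocity `v` and every tilt the wandering exponent is at least `1 / 2`. -/
theorem nu_half19 (hd : 0 < d) (hω : IID μ ρ ω) (hρ : EM ρ) :
    ∀ᵐ v : Vec d, ∀ h : Vec d, 1 / 2 ≤ nuT μ β ω h v := by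
  filter_upwards [W_7d29a1_KL.LeafV21.leafV21 (β := β) hd hω hρ] with v hv h
  rcases lt_or_ge (nuT μ β ω h v) 1 with h1 | h1
  · exact hv h fun k => slope19 hd hω hρ h1 k
  · linarith

/-- The variance of the problem is `Va`. -/
lemma varV19 (hd : 0 < d) (hω : IID μ ρ ω) (hρ : EM ρ) (h : Vec d) (n : ℕ) :
    Var[fun y => Real.log (Zn β h (fun p => ω p y) n); μ] = Va ρ β h n := by
  rw [K67.var67 hd hω hρ]
  unfold Va
  simp only [sq_abs]

/-- The nonrandom fluctuation is at most linear. -/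
lemma en_lin19 (hd : 0 < d) (hρ : EM ρ) (h : Vec d) (n : ℕ) :
    En ρ β h n ≤ n * En ρ β h 1 := by
  induction n with
  | zero => rw [En_zero15]; simp
  | succ n ih =>
    have h1 := En_add15 (ρ := ρ) hd hρ β h n 1
    push_cast
    linarith

/-- Powers beat logarithms. -/
lemma log_pow19 {x : ℝ} (hx : 0 < x) (C : ℝ) : ∀ᶠ n : ℕ in atTop,
    C * Real.log (n + 2) ≤ (n : ℝ) ^ x ∧ C * Real.log (n + 2) ^ 2 ≤ (n : ℝ) ^ (2 * x) := by
  obtain ⟨D, hD⟩ : ∃ D : ℝ, D = |C| + 1 := ⟨_, rfl⟩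
  have hD1 : 1 ≤ D := by
    rw [hD]
    linarith [abs_nonneg C]
  have hD0 : 0 < D := by linarith
  have h3 : 0 < (3 : ℝ) ^ x := Real.rpow_pos_of_pos (by norm_num) _
  have hc : 0 < 1 / (D * 3 ^ x) := by positivity
  have h1 := (isLittleO_log_rpow_atTop hx).def hc
  have h2 : Tendsto (fun n : ℕ => (n : ℝ) + 2) atTop atTop :=
    tendsto_atTop_add_const_right _ _ tendsto_natCast_atTop_atTop
  filter_upwards [h2.eventually h1, eventually_ge_atTop 1] with n hn hn1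
  have hn1' : (1 : ℝ) ≤ n := by exact_mod_cast hn1
  have hl : 0 ≤ Real.log ((n : ℝ) + 2) := Real.log_nonneg (by linarith)
  rw [Real.norm_eq_abs, Real.norm_eq_abs, abs_of_nonneg hl,
    abs_of_nonneg (Real.rpow_nonneg (by linarith : (0 : ℝ) ≤ (n : ℝ) + 2) x)] at hn
  have h4 : ((n : ℝ) + 2) ^ x ≤ 3 ^ x * (n : ℝ) ^ x := by
    rw [← Real.mul_rpow (by norm_num) (by linarith)]
    exact Real.rpow_le_rpow (by linarith) (by linarith) hx.le
  have h5 : D * Real.log ((n : ℝ) + 2) ≤ (n : ℝ) ^ x := by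
    calc D * Real.log ((n : ℝ) + 2) ≤ D * (1 / (D * 3 ^ x) * (3 ^ x * (n : ℝ) ^ x)) :=
          mul_le_mul_of_nonneg_left (hn.trans (mul_le_mul_of_nonneg_left h4 hc.le)) hD0.le
      _ = (n : ℝ) ^ x := by field_simp
  have hCD : C ≤ D := by
    rw [hD]
    linarith [le_abs_self C]
  constructor
  · exact (mul_le_mul_of_nonneg_right hCD hl).trans h5
  · have h6 : (D * Real.log ((n : ℝ) + 2)) ^ 2 ≤ ((n : ℝ) ^ x) ^ 2 :=
      pow_le_pow_left₀ (mul_nonneg hD0.le hl) h5 2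
    have h7 : ((n : ℝ) ^ x) ^ 2 = (n : ℝ) ^ (2 * x) := by
      rw [← Real.rpow_natCast ((n : ℝ) ^ x) 2, ← Real.rpow_mul (by linarith)]
      congr 1
      push_cast
      ring
    rw [h7] at h6
    refine le_trans ?_ h6
    rw [mul_pow]
    refine mul_le_mul_of_nonneg_right ?_ (sq_nonneg _)
    nlinarith

/-- The two fluctuations at a tilt, for all large `n`. -/
theorem upK19 (hd : 0 < d) (hω : IID μ ρ ω) (hρ : EM ρ) (hN : NvsP d ρ β) {h v : Vec d}
    (hK : VSD ρ β h → ∀ δ : ℝ, 0 ≤ δ → δ < 1 / 2 → HalfD ρ β h v δ → ∀ x : ℝ, 2 * δ < x →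
      ∀ᶠ n : ℕ in atTop, Va ρ β h n ≤ (n : ℝ) ^ (2 * x) ∧ En ρ β h n ≤ (n : ℝ) ^ x)
    (hn : 1 / 2 ≤ nuT μ β ω h v) {x : ℝ} (hx : 2 * nuT μ β ω h v - 1 < x) :
    ∀ᶠ n : ℕ in atTop, Va ρ β h n ≤ (n : ℝ) ^ (2 * x) ∧ En ρ β h n ≤ (n : ℝ) ^ x := by
  by_cases hV : VSD ρ β h
  · rcases lt_or_ge (nuT μ β ω h v) 1 with h1 | h1
    · obtain ⟨a, ha, ha1⟩ := exists_between
        (lt_min h1 (show nuT μ β ω h v < (1 + x) / 2 by linarith))
      have ha2 : a < 1 := ha1.trans_le (min_le_left _ _)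
      have ha3 : a < (1 + x) / 2 := ha1.trans_le (min_le_right _ _)
      exact hK hV (a - 1 / 2) (by linarith) (by linarith) (halfD19 hd hω ha) x (by linarith)
    · have hx1 : 1 < x := by linarith
      obtain ⟨-, hF⟩ := (mem_chiSetF (μ := μ) (β := β) hd hω hρ h (1 / 2)).1
        (half_mem_chiSetF hd hω hρ h)
      obtain ⟨C, hC⟩ := hF 2
      have ht : Tendsto (fun n : ℕ => (n : ℝ) ^ (x - 1)) atTop atTop :=
        (tendsto_rpow_atTop (by linarith)).comp tendsto_natCast_atTop_atTop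
      filter_upwards [ht.eventually_ge_atTop (|C| + |En ρ β h 1|), eventually_ge_atTop 1]
        with n hn hn1
      have hn1' : (1 : ℝ) ≤ n := by exact_mod_cast hn1
      have hn0 : (0 : ℝ) < n := by linarith
      have e1 : (n : ℝ) ^ x = (n : ℝ) ^ (x - 1) * n := by
        rw [← Real.rpow_add_one hn0.ne']
        congr 1
        ring
      have hxx : (n : ℝ) ^ x ≤ (n : ℝ) ^ (2 * x) :=
        Real.rpow_le_rpow_of_exponent_le hn1' (by linarith)
      have h3 : |C| * n ≤ (n : ℝ) ^ (x - 1) * n :=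
        mul_le_mul_of_nonneg_right (by linarith [abs_nonneg (En ρ β h 1)]) hn0.le
      have h4 : |En ρ β h 1| * n ≤ (n : ℝ) ^ (x - 1) * n :=
        mul_le_mul_of_nonneg_right (by linarith [abs_nonneg C]) hn0.le
      constructor
      · refine le_trans ?_ hxx
        rw [e1]
        refine le_trans ?_ h3
        have h6 := hC n hn1
        rw [show (1 / 2 * ((2 : ℕ) : ℝ)) = 1 by norm_num, Real.rpow_one] at h6
        have h7 : ∫ η, |X β h η n - A ρ β h n| ^ 2 ∂(law d ρ) = Va ρ β h n := by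
          unfold Va
          simp only [sq_abs]
        rw [h7] at h6
        exact h6.trans (mul_le_mul_of_nonneg_right (le_abs_self C) hn0.le)
      · rw [e1]
        refine le_trans ?_ h4
        calc En ρ β h n ≤ n * En ρ β h 1 := en_lin19 hd hρ h n
          _ ≤ n * |En ρ β h 1| := mul_le_mul_of_nonneg_left (le_abs_self _) hn0.le
          _ = |En ρ β h 1| * n := mul_comm _ _
  · obtain ⟨C, hC⟩ := hN h hV
    filter_upwards [log_pow19 (show 0 < x by linarith) C] with n hn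
    exact ⟨(hC n).1.trans hn.2, (hC n).2.trans hn.1⟩

/-- An upper bound of the variance for all large `n` bounds `χ`. -/
lemma chi_of19 {h : Vec d} {x : ℝ} (hx : 0 ≤ x) (H : ∀ᶠ n : ℕ in atTop,
    Var[fun y => Real.log (Zn β h (fun p => ω p y) n); μ] ≤ (n : ℝ) ^ (2 * x)) :
    chiT μ β ω h ≤ x := by
  refine K67.chiT67 (K := 1) hx fun N0 => ?_
  obtain ⟨n, hn, h3⟩ := (H.and (eventually_ge_atTop N0)).exists
  refine ⟨n, h3, ?_⟩
  rw [one_mul, ← Real.rpow_natCast ((n : ℝ) ^ x) 2, ← Real.rpow_mul (Nat.cast_nonneg n)]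
  refine hn.trans (le_of_eq ?_)
  congr 1
  push_cast
  ring

/-- **THEOREM KZ in the letters of the problem**: at almost every velocity `v` and EVERY tilt `h`,
`ν ≥ 1 / 2`, `χ ≤ 2 ν - 1`, and for every `x > 2 ν - 1`, for all large `n`, the variance is at most
`n ^ (2 x)` and the nonrandom fluctuation is between `0` and `n ^ x`. -/
theorem trKA19 (hd : 0 < d) (hω : IID μ ρ ω) (hρ : EM ρ) (hK : MainKA d ρ β)
    (hN : NvsP d ρ β) : ∀ᵐ v : Vec d, ∀ h : Vec d, 1 / 2 ≤ nuT μ β ω h v ∧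
      chiT μ β ω h ≤ 2 * nuT μ β ω h v - 1 ∧ ∀ x : ℝ, 2 * nuT μ β ω h v - 1 < x →
        ∀ᶠ n : ℕ in atTop,
          Var[fun y => Real.log (Zn β h (fun p => ω p y) n); μ] ≤ (n : ℝ) ^ (2 * x) ∧
          0 ≤ n * lamN ρ β h - ∫ y, Real.log (Zn β h (fun p => ω p y) n) ∂μ ∧
          n * lamN ρ β h - ∫ y, Real.log (Zn β h (fun p => ω p y) n) ∂μ ≤ (n : ℝ) ^ x := by
  have hK' : ∀ᵐ v : Vec d, ∀ h : Vec d, VSD ρ β h → ∀ δ : ℝ, 0 ≤ δ → δ < 1 / 2 →
      HalfD ρ β h v δ → ∀ x : ℝ, 2 * δ < x → ∀ᶠ n : ℕ in atTop,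
        Va ρ β h n ≤ (n : ℝ) ^ (2 * x) ∧ En ρ β h n ≤ (n : ℝ) ^ x := hK
  filter_upwards [hK', nu_half19 (β := β) hd hω hρ] with v hv hn h
  have key : ∀ x : ℝ, 2 * nuT μ β ω h v - 1 < x → ∀ᶠ n : ℕ in atTop,
      Var[fun y => Real.log (Zn β h (fun p => ω p y) n); μ] ≤ (n : ℝ) ^ (2 * x) ∧
        0 ≤ n * lamN ρ β h - ∫ y, Real.log (Zn β h (fun p => ω p y) n) ∂μ ∧
        n * lamN ρ β h - ∫ y, Real.log (Zn β h (fun p => ω p y) n) ∂μ ≤ (n : ℝ) ^ x := by
    intro x hx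
    filter_upwards [upK19 hd hω hρ hN (hv h) (hn h) hx] with n h2
    rw [varV19 hd hω hρ, en19 hd hω hρ]
    exact ⟨h2.1, En_nonneg15 hd hρ β h n, h2.2⟩
  refine ⟨hn h, ?_, key⟩
  refine le_of_forall_gt_imp_ge_of_dense fun x hx => ?_
  have h2 := hn h
  exact chi_of19 (by linarith) ((key x hx).mono fun n h3 => h3.1)

end Pool.Agent.W_7d29a1_KZ
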