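import Pool.Agent.W_7d29a1_KZ.Gap42
import Pool.Agent.W_7d29a1_NR.HalvA45
import Pool.Agent.W_7d29a1_NR.HaN41
import Pool.Agent.W_7d29a1_AM.AmpNU5

/-!
Theorem KZ, leaf GAP for every law with exponential moments: the halving of helper11 under a
resampling bound, with the amplification without moments in place of Ehrhard's inequality
(helper41).
-/

set_option autoImplicit false

namespace Pool.Agent.W_7d29a1_KZ

open MeasureTheory ProbabilityTheory Filter Topology Pool.Agent.W_MP_7d29a1_pr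
  Pool.Agent.W_7d29a1_h46 Pool.Agent.W_7d29a1_h46u Pool.Agent.W_7d29a1_D2.B35
  Pool.Agent.W_7d29a1_Q29 Pool.Agent.W_7d29a1_R34 Pool.Agent.W_7d29a1_SP Pool.Agent.W_7d29a1_SD
  Pool.Agent.W_7d29a1_SQ Pool.Agent.W_7d29a1_AM Pool.Agent.W_7d29a1_NR.L84
  Pool.Agent.W_7d29a1_NR.TrU41 Pool.Agent.W_7d29a1_NR.HaN41

/-- **The amplification of the sum over end points**, every law, no moment. -/
theorem ampW41 {d : ℕ} (hd : 0 < d) {ρ : Measure ℝ} [IsProbabilityMeasure ρ] {β : ℝ}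
    (hβ : 0 ≤ β) {D₁ C c : ℝ} (hC : 1 ≤ C) (hA : AmpDN ρ β D₁ C) (hD₁ : D₁ = 2 + 1 / c)
    (hc : 0 < c) (h : Vec d) (k m : ℕ) {D : Finset (Site d)} (hD : D.Nonempty)
    {w : Site d → ℝ} (hw : ∀ y ∈ D, 0 < w y) {r L M b : ℝ} (hr : 0 < r) (hr2 : r ≤ 1 / 2)
    (hb : C * (1 + Real.log (1 / r)) ≤ b) (hL : c * (L - (M + b)) ≤ b)
    (h0 : r ≤ (law d ρ).real {η | WD β h k m D w η ≤ M})
    (h1 : r ≤ (law d ρ).real {η | M + b ≤ WD β h k m D w η}) :
    r ^ C ≤ (law d ρ).real {η | L ≤ WD β h k m D w η} := by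
  have : Nonempty (Fin m → Step d) := ⟨fun _ => (⟨⟨0, hd⟩, true⟩ : Step d)⟩
  have : Nonempty {y // y ∈ D} := hD.to_subtype
  rw [wd84 hd β h k m D w hw] at h0 h1 ⊢
  have hlr : 0 ≤ Real.log (1 / r) := Real.log_nonneg (by rw [le_div_iff₀ hr]; linarith)
  have hb1 : 1 ≤ b := by nlinarith
  refine (ampLSN41 (d := d) (m := m) hβ hA (cW h m D w) (q := qW k m D) (qW_inj k m D)
    (r := r) (M := M) (b := b) hr hr2 hb h0 h1).trans (measureReal_mono fun η hη => ?_)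
  have hη' : D₁ * b ≤ Real.log (1 + Real.exp (LS β (cW h m D w) (qW k m D) η - M)) := hη
  show L ≤ LS β (cW h m D w) (qW k m D) η
  have k1 := Pool.Agent.W_7d29a1_NR.HaN41.log_le41 (LS β (cW h m D w) (qW k m D) η - M)
  have k2 : Real.log 2 < 1 := by
    have := Real.log_two_lt_d9
    linarith
  have k3 : D₁ * b = 2 * b + b / c := by rw [hD₁]; ring
  have k4 : L - (M + b) ≤ b / c := by
    rw [le_div_iff₀ hc]
    linarith
  have k5 : 0 ≤ b / c := by positivity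
  rw [k3] at hη'
  rcases le_total (LS β (cW h m D w) (qW k m D) η - M) 0 with k6 | k6
  · rw [max_eq_right k6] at k1
    linarith
  · rw [max_eq_left k6] at k1
    linarith

section Gap

variable {d : ℕ} {ρ : Measure ℝ} {β : ℝ}

/-- **Leaf GAP, every law.** -/
theorem gapKA41 [IsProbabilityMeasure ρ] (hd : 0 < d) (hρ : EM ρ) (hβ : 0 ≤ β)
    (hN : AmpCN ρ β) : GapK d ρ β := by
  classical
  intro η₁ hη
  obtain ⟨c, K, hc0, hc1, hK, hnum⟩ := num42 hd hη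
  have hci : 0 < 1 / c := by positivity
  obtain ⟨C, hC1, hC⟩ := hN (2 + 1 / c) (by linarith)
  obtain ⟨κ, hκ⟩ : ∃ κ : ℝ, κ = (1 / 4 : ℝ) ^ C := ⟨_, rfl⟩
  have hκ0 : 0 < κ := by rw [hκ]; exact Real.rpow_pos_of_pos (by norm_num) _
  have hκ1 : κ ≤ 1 / 4 := by
    rw [hκ]
    calc (1 / 4 : ℝ) ^ C ≤ (1 / 4) ^ (1 : ℝ) :=
          Real.rpow_le_rpow_of_exponent_ge (by norm_num) (by norm_num) hC1
      _ = 1 / 4 := Real.rpow_one _
  obtain ⟨b₀, hb₀⟩ : ∃ b₀ : ℝ, b₀ = C * (1 + Real.log (1 / (1 / 4))) := ⟨_, rfl⟩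
  have hl4 : 0 ≤ Real.log (1 / (1 / 4 : ℝ)) := Real.log_nonneg (by norm_num)
  have hb0 : 0 ≤ b₀ := by rw [hb₀]; nlinarith
  refine ⟨κ / 4, 1 + (3 + b₀) * K / c, by positivity, ?_, ?_⟩
  · have : 0 ≤ (3 + b₀) * K / c := by positivity
    linarith
  intro h k m M hk hm hM hRS
  obtain ⟨J, hJ1, hJ2⟩ := hnum k hk
  obtain ⟨η, ξ₀, h1, h2⟩ := rows42 hd hρ β h k m (ε := κ / 4) (by positivity) hRS
  have e4 : 4 * (κ / 4) = κ := by ring
  rw [e4] at h2
  obtain ⟨w, hw⟩ : ∃ w : Site d → ℝ, w = fun y => PP β h η k y / Z β h η k := ⟨_, rfl⟩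
  obtain ⟨V, hV⟩ : ∃ V : Site d → Env d → ℝ, V = fun y ξ => X β h (sh k y ξ) m := ⟨_, rfl⟩
  have hZ : 0 < Z β h η k := Z_pos hd β h η k
  have hw0 : ∀ y, 0 ≤ w y := fun y => by
    rw [hw]
    exact div_nonneg (Pool.Agent.W_7d29a1_NR.PP_nonneg45 hd β h η k y) hZ.le
  have hw1 : ∀ y, w y ≤ 1 := fun y => by
    rw [hw]
    exact (div_le_one hZ).2 (Pool.Agent.W_7d29a1_NR.PP_le_Z45 hd β h η k y)
  have hsum : ∑ y ∈ boxF d k, w y = 1 := by
    rw [hw]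
    simp only
    rw [← Finset.sum_div, ← Z_eq_sum]
    exact div_self hZ.ne'
  obtain ⟨S, hS⟩ : ∃ S : Finset (Site d), S = (boxF d k).filter fun y => 0 < w y := ⟨_, rfl⟩
  have hSw : ∀ y ∈ S, 0 < w y := by
    intro y hy
    rw [hS, Finset.mem_filter] at hy
    exact hy.2
  have hSsum : ∀ g : Site d → ℝ, ∑ y ∈ S, w y * g y = ∑ y ∈ boxF d k, w y * g y := by
    intro g
    rw [hS, Finset.sum_filter_of_ne]
    intro y _ hy
    rcases (hw0 y).eq_or_lt with h | h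
    · rw [← h, zero_mul] at hy
      exact absurd rfl hy
    · exact h
  have hSn : S.Nonempty := by
    by_contra hcon
    rw [Finset.not_nonempty_iff_eq_empty] at hcon
    have := hSsum fun _ => 1
    rw [hcon, Finset.sum_empty] at this
    simp only [mul_one, hsum] at this
    norm_num at this
  have hScard : S.card ≤ 2 ^ J := by
    refine le_trans ?_ hJ1
    rw [hS]
    refine (Finset.card_filter_le _ _).trans (le_of_eq ?_)
    exact_mod_cast card_boxF d k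
  have hVm : ∀ y ∈ S, Measurable (V y) := fun y _ => by
    rw [hV]
    exact (measurable_X β h m).comp (measurable_sh k y)
  have hWD : ∀ D : Finset (Site d), Pool.Agent.W_7d29a1_NR.WD45 w V D = WD β h k m D w := by
    intro D
    funext ξ
    rw [hV]
    rfl
  obtain ⟨t₀, ht₀⟩ : ∃ t₀ : ℝ, t₀ = X β h (spl (Pa d k) η ξ₀) (k + m) - X β h η k := ⟨_, rfl⟩
  have hWS : ∀ ξ, Pool.Agent.W_7d29a1_NR.WD45 w V S ξ = X β h (spl (Pa d k) η ξ) (k + m) - X β h η k := by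
    intro ξ
    have hg := Pool.Agent.W_7d29a1_NR.glue45 hd β h k m 0 η ξ
    show Real.log (∑ y ∈ S, w y * Real.exp (V y ξ)) = _
    rw [hSsum fun y => Real.exp (V y ξ), hw, hV]
    simp only [sub_zero] at hg ⊢
    exact hg
  have hWm : Measurable (Pool.Agent.W_7d29a1_NR.WD45 w V S) := by
    rw [hWD]
    exact measurable_WD hd β h k m S w hSw
  -- the typical value
  have hup : (law d ρ).real {ξ | |Pool.Agent.W_7d29a1_NR.WD45 w V S ξ - t₀| ≤ M}ᶜ < κ := by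
    refine lt_of_le_of_lt (measureReal_mono fun ξ hξ => ?_) h2
    have hξ' : ¬ |Pool.Agent.W_7d29a1_NR.WD45 w V S ξ - t₀| ≤ M := hξ
    rw [not_le, hWS, ht₀] at hξ'
    show M < |X β h (spl (Pa d k) η ξ₀) (k + m) - X β h (spl (Pa d k) η ξ) (k + m)|
    rw [abs_sub_comm]
    have e5 : X β h (spl (Pa d k) η ξ) (k + m) - X β h η k -
        (X β h (spl (Pa d k) η ξ₀) (k + m) - X β h η k) =
        X β h (spl (Pa d k) η ξ) (k + m) - X β h (spl (Pa d k) η ξ₀) (k + m) := by ring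
    rwa [e5] at hξ'
  have hms : MeasurableSet {ξ : Env d | |Pool.Agent.W_7d29a1_NR.WD45 w V S ξ - t₀| ≤ M} :=
    measurableSet_le (hWm.sub_const _).abs measurable_const
  have h4 : (law d ρ).real {ξ | (t₀ - M) + (2 * M + 1) ≤ Pool.Agent.W_7d29a1_NR.WD45 w V S ξ} < κ := by
    refine lt_of_le_of_lt (measureReal_mono fun ξ hξ => ?_) hup
    have hξ1 : (t₀ - M) + (2 * M + 1) ≤ Pool.Agent.W_7d29a1_NR.WD45 w V S ξ := hξ
    show ¬ |Pool.Agent.W_7d29a1_NR.WD45 w V S ξ - t₀| ≤ M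
    intro hcon
    linarith [(abs_le.1 hcon).2]
  have h5 : 1 / 2 ≤ (law d ρ).real {ξ | t₀ - M ≤ Pool.Agent.W_7d29a1_NR.WD45 w V S ξ} := by
    have h5' := probReal_compl_eq_one_sub (μ := law d ρ) hms
    have h6 : (law d ρ).real {ξ | |Pool.Agent.W_7d29a1_NR.WD45 w V S ξ - t₀| ≤ M} ≤
        (law d ρ).real {ξ | t₀ - M ≤ Pool.Agent.W_7d29a1_NR.WD45 w V S ξ} := by
      refine measureReal_mono fun ξ (hξ : |Pool.Agent.W_7d29a1_NR.WD45 w V S ξ - t₀| ≤ M) => ?_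
      show t₀ - M ≤ Pool.Agent.W_7d29a1_NR.WD45 w V S ξ
      linarith [(abs_le.1 hξ).1]
    linarith
  have hu : ∀ y ∈ S, ∀ u, A ρ β h m + 2 * Fn ρ β h m < u →
      (law d ρ).real {ξ | u ≤ V y ξ} < 1 / 2 := by
    intro y _ u hu
    rw [hV]
    exact tail42 hd hρ β h k m y hu
  have key := Pool.Agent.W_7d29a1_NR.halvB45 (law d ρ) hSn hSw (fun y _ => hw1 y) hVm (T := t₀ - M)
    (a := 2 * M + 1) (c := c) (κ := κ) (b₀ := b₀) (u₀ := A ρ β h m + 2 * Fn ρ β h m) hc0 hc1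
    (by linarith) hb0 hu ?_ h4 h5 hScard
  · have hF1 := Fn_nonneg15 (ρ := ρ) β h (k + m)
    have hF2 := Fn_nonneg15 (ρ := ρ) β h k
    have hF3 := Fn_nonneg15 (ρ := ρ) β h m
    have hkη : (1 : ℝ) ≤ (k : ℝ) ^ η₁ := Real.one_le_rpow (by exact_mod_cast hk) hη.le
    have h8 : (2 * M + 1 + b₀ + 2) / c * (1 + c) ^ J ≤
        (2 * M + 1 + b₀ + 2) / c * (K * (k : ℝ) ^ η₁) :=
      mul_le_mul_of_nonneg_left hJ2 (by positivity)
    have h9 : (2 * M + 1 + b₀ + 2) / c * (K * (k : ℝ) ^ η₁) ≤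
        (3 + b₀) * K / c * (k : ℝ) ^ η₁ * (M + 1) := by
      have e7 : (2 * M + 1 + b₀ + 2) / c * (K * (k : ℝ) ^ η₁) =
          K / c * (k : ℝ) ^ η₁ * (2 * M + 3 + b₀) := by ring
      have e8 : (3 + b₀) * K / c * (k : ℝ) ^ η₁ * (M + 1) =
          K / c * (k : ℝ) ^ η₁ * ((3 + b₀) * (M + 1)) := by ring
      rw [e7, e8]
      refine mul_le_mul_of_nonneg_left ?_ (by positivity)
      nlinarith
    have h11 : M + 1 ≤ (k : ℝ) ^ η₁ * (M + 1) := by nlinarith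
    rw [abs_lt] at h1
    have e8 : (1 + (3 + b₀) * K / c) * (k : ℝ) ^ η₁ * (M + 1) =
        (k : ℝ) ^ η₁ * (M + 1) + (3 + b₀) * K / c * (k : ℝ) ^ η₁ * (M + 1) := by ring
    rw [e8]
    have h12 := h1.1
    rw [ht₀] at key
    show A ρ β h (k + m) - A ρ β h k - A ρ β h m ≤ _
    linarith
  · intro D hDS hDn M' b hb hbb hcb hMT hq1 hq2 hq3
    rw [hWD] at hq1 hq2 hq3 ⊢
    rw [hκ]
    exact ampW41 hd hβ hC1 hC rfl hc0 h k m hDn (fun y hy => hSw y (hDS hy)) (r := 1 / 4)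
      (L := t₀ - M + (2 * M + 1)) (M := M') (b := b) (by norm_num) (by norm_num)
      (by rw [← hb₀]; exact hbb) hcb (by linarith) hq3

/-- **Leaf GAP, every law of the problem.** -/
theorem gapK41 [IsProbabilityMeasure ρ] (hd : 0 < d) (hρ : EM ρ) (hnc : ∀ c : ℝ, ρ {c} ≠ 1)
    (hβ : 0 < β) : GapK d ρ β := gapKA41 hd hρ hβ.le (ampCNAll5 hρ hnc hβ)

end Gap

end Pool.Agent.W_7d29a1_KZ
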