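import Pool.Agent.W_7d29a1_KZ.DefsZ70

/-!
Right records with an exponent: one above every time, and a bound at the right records is a bound at
all times (helper72).
-/

namespace Pool.Agent.W_7d29a1_KZ

open Filter Topology

/-- Above every time `T` there is a right record `n` with `f T ≤ f n * (T / n) ^ a`. -/
theorem rraAt72 {a b C : ℝ} {f : ℕ → ℝ} (hb : 0 < b) (hba : b < a) (hC : 0 ≤ C)
    (h1 : ∀ n, 1 ≤ f n) (hf : ∀ n : ℕ, f n ≤ 1 + C * (n : ℝ) ^ b) {T : ℕ} (hT : 1 ≤ T) :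
    ∃ n : ℕ, T ≤ n ∧ RRa a f n ∧ f T ≤ f n * ((T : ℝ) / n) ^ a := by
  have ha : 0 < a := hb.trans hba
  have hT0 : (0 : ℝ) < T := by exact_mod_cast hT
  -- the weighted function tends to zero
  have hlim : Tendsto (fun t : ℕ => (1 + C) * (t : ℝ) ^ (-(a - b))) atTop (𝓝 0) := by
    have h2 := (tendsto_rpow_neg_atTop (sub_pos.2 hba)).comp tendsto_natCast_atTop_atTop
    have h3 := h2.const_mul (1 + C)
    simpa [Function.comp_def] using h3
  have hgT : 0 < f T / (T : ℝ) ^ a := div_pos (by linarith [h1 T]) (Real.rpow_pos_of_pos hT0 a)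
  obtain ⟨T', hT'⟩ := eventually_atTop.1 (hlim.eventually (gt_mem_nhds hgT))
  have hsm : ∀ t : ℕ, T ≤ t → T' ≤ t → f t / (t : ℝ) ^ a ≤ f T / (T : ℝ) ^ a := by
    intro t ht ht'
    have ht1 : (1 : ℝ) ≤ t := by exact_mod_cast hT.trans ht
    have ht0 : (0 : ℝ) < t := by linarith
    have hb1 : 1 ≤ (t : ℝ) ^ b := Real.one_le_rpow ht1 hb.le
    have h3 : f t ≤ (1 + C) * (t : ℝ) ^ b := by nlinarith [hf t]
    have h4 : f t / (t : ℝ) ^ a ≤ (1 + C) * (t : ℝ) ^ (-(a - b)) := by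
      rw [div_le_iff₀ (Real.rpow_pos_of_pos ht0 a), mul_assoc, ← Real.rpow_add ht0]
      have : -(a - b) + a = b := by ring
      rw [this]; exact h3
    exact h4.trans (hT' t ht').le
  obtain ⟨n, hn, hmax⟩ := Finset.exists_max_image (Finset.Icc T (T + T'))
    (fun t : ℕ => f t / (t : ℝ) ^ a) ⟨T, Finset.mem_Icc.2 ⟨le_rfl, by omega⟩⟩
  have hTn : T ≤ n := (Finset.mem_Icc.1 hn).1
  have hn1 : 1 ≤ n := hT.trans hTn
  have hn0 : (0 : ℝ) < n := by exact_mod_cast hn1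
  have hbest : ∀ t : ℕ, T ≤ t → f t / (t : ℝ) ^ a ≤ f n / (n : ℝ) ^ a := by
    intro t ht
    by_cases h : t ≤ T + T'
    · exact hmax t (Finset.mem_Icc.2 ⟨ht, h⟩)
    · exact (hsm t ht (by omega)).trans (hmax T (Finset.mem_Icc.2 ⟨le_rfl, by omega⟩))
  have hall : ∀ t : ℕ, T ≤ t → f t ≤ f n * ((t : ℝ) / n) ^ a := by
    intro t ht
    have ht0 : (0 : ℝ) < t := by exact_mod_cast hT.trans ht
    have h5 := hbest t ht
    rw [div_le_div_iff₀ (Real.rpow_pos_of_pos ht0 a) (Real.rpow_pos_of_pos hn0 a)] at h5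
    rw [Real.div_rpow ht0.le hn0.le, ← mul_div_assoc, le_div_iff₀ (Real.rpow_pos_of_pos hn0 a)]
    exact h5
  exact ⟨n, hTn, ⟨hn1, fun t ht => hall t (hTn.trans ht)⟩, hall T le_rfl⟩

/-- A power bound at the right records with the exponent `a` is the same power bound at all times. -/
theorem allRec72 {a b C y D : ℝ} {f : ℕ → ℝ} {N : ℕ} (hb : 0 < b) (hba : b < a) (hC : 0 ≤ C)
    (hya : y ≤ a) (h1 : ∀ n, 1 ≤ f n) (hf : ∀ n : ℕ, f n ≤ 1 + C * (n : ℝ) ^ b)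
    (hr : ∀ n : ℕ, N ≤ n → RRa a f n → f n ≤ D * (n : ℝ) ^ y) {T : ℕ} (hT : 1 ≤ T)
    (hN : N ≤ T) : f T ≤ D * (T : ℝ) ^ y := by
  obtain ⟨n, hTn, hrn, hfT⟩ := rraAt72 hb hba hC h1 hf hT
  have hT0 : (0 : ℝ) < T := by exact_mod_cast hT
  have hn0 : (0 : ℝ) < n := by exact_mod_cast hT.trans hTn
  have hfn := hr n (hN.trans hTn) hrn
  have hq0 : 0 < (T : ℝ) / n := div_pos hT0 hn0
  have hq1 : (T : ℝ) / n ≤ 1 := (div_le_one hn0).2 (by exact_mod_cast hTn)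
  have hpow : ((T : ℝ) / n) ^ a ≤ ((T : ℝ) / n) ^ y :=
    Real.rpow_le_rpow_of_exponent_ge hq0 hq1 hya
  calc f T ≤ f n * ((T : ℝ) / n) ^ a := hfT
    _ ≤ f n * ((T : ℝ) / n) ^ y :=
        mul_le_mul_of_nonneg_left hpow (by linarith [h1 n])
    _ ≤ D * (n : ℝ) ^ y * ((T : ℝ) / n) ^ y :=
        mul_le_mul_of_nonneg_right hfn (Real.rpow_nonneg hq0.le y)
    _ = D * (T : ℝ) ^ y := by
        rw [mul_assoc, ← Real.mul_rpow hn0.le hq0.le, mul_div_cancel₀ _ hn0.ne']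

/-- The same at all the later times, in the form used by the variance. -/
theorem allRec72' {a b C y D : ℝ} {f : ℕ → ℝ} {N : ℕ} (hb : 0 < b) (hba : b < a) (hC : 0 ≤ C)
    (hya : y ≤ a) (h1 : ∀ n, 1 ≤ f n) (hf : ∀ n : ℕ, f n ≤ 1 + C * (n : ℝ) ^ b)
    (hr : ∀ n : ℕ, N ≤ n → RRa a f n → f n ≤ D * (n : ℝ) ^ y) {n : ℕ} (hn : 1 ≤ n)
    (hN : N ≤ n) {T : ℕ} (hT : n ≤ T) : f T ≤ (D * (n : ℝ) ^ y) * ((T : ℝ) / n) ^ y := by
  have hn0 : (0 : ℝ) < n := by exact_mod_cast hn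
  have hT0 : (0 : ℝ) < T := by exact_mod_cast hn.trans hT
  rw [mul_assoc, ← Real.mul_rpow hn0.le (div_pos hT0 hn0).le, mul_div_cancel₀ _ hn0.ne']
  exact allRec72 hb hba hC hya h1 hf hr (hn.trans hT) (hN.trans hT)

/-- The leaf `RraP`. -/
theorem rraP72 : RraP := by
  intro a b C f hb hba hC h1 hf N
  obtain ⟨n, hn, hr, -⟩ := rraAt72 hb hba hC h1 hf (T := N + 1) (by omega)
  exact ⟨n, by omega, hr⟩

end Pool.Agent.W_7d29a1_KZ
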