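import Pool.Agent.W_7d29a1_KZ.DefsZ70

/-!
Theorem KZ for all large `n`. Definitions.
-/

namespace Pool.Agent.W_7d29a1_KZ

open MeasureTheory ProbabilityTheory Filter Topology Pool.Agent.W_MP_7d29a1_pr
  Pool.Agent.W_7d29a1_h46 Pool.Agent.W_7d29a1_h46u Pool.Agent.W_7d29a1_D2.B35
  Pool.Agent.W_7d29a1_Q29 Pool.Agent.W_7d29a1_R34 Pool.Agent.W_7d29a1_SP Pool.Agent.W_7d29a1_SD
  Pool.Agent.W_7d29a1_SQ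

variable (d : ℕ) (ρ : Measure ℝ) (β : ℝ)

/-- Leaf VAR with a free bound. -/
def VarF : Prop := ∀ c₀ a : ℝ, 0 < c₀ → 0 < a → a < 1 / 2 → ∃ C : ℝ, 1 ≤ C ∧ ∀ h : Vec d,
  Loc1 ρ β h c₀ → ∀ (n : ℕ) (P : ℝ), 1 ≤ n → 1 ≤ P →
    (∀ T : ℕ, n ≤ T → Ps ρ β h T ≤ P * ((T : ℝ) / n) ^ a) → ∀ m : ℕ, m ≤ n →
      Va ρ β h m ≤ C * P ^ 2

/-- Leaf NVS: the tilts which are not in very strong disorder. -/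
def NvsP : Prop := ∀ h : Vec d, ¬ VSD ρ β h → ∃ C : ℝ, ∀ n : ℕ,
  Va ρ β h n ≤ C * Real.log (n + 2) ^ 2 ∧ En ρ β h n ≤ C * Real.log (n + 2)

/-- **THEOREM KZ, all large `n`.** -/
def MainKA : Prop := ∀ᵐ v : Vec d, ∀ h : Vec d, VSD ρ β h → ∀ δ : ℝ, 0 ≤ δ → δ < 1 / 2 →
  HalfD ρ β h v δ → ∀ x : ℝ, 2 * δ < x → ∀ᶠ n : ℕ in atTop,
    Va ρ β h n ≤ (n : ℝ) ^ (2 * x) ∧ En ρ β h n ≤ (n : ℝ) ^ x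

end Pool.Agent.W_7d29a1_KZ
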