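import Pool.Agent.W_7d29a1_KZ.FinA58
import Pool.Agent.W_7d29a1_KZ.All72
import Pool.Agent.W_7d29a1_KZ.Var72

/-!
Theorem KZ at all large lengths: the leaves `AllP` and `VarKP` of helper58 (helper72).
-/

namespace Pool.Agent.W_7d29a1_KZ

open MeasureTheory ProbabilityTheory Filter Topology Pool.Agent.W_MP_7d29a1_pr
  Pool.Agent.W_7d29a1_h46 Pool.Agent.W_7d29a1_h46u Pool.Agent.W_7d29a1_D2.B35
  Pool.Agent.W_7d29a1_Q29 Pool.Agent.W_7d29a1_R34 Pool.Agent.W_7d29a1_SP Pool.Agent.W_7d29a1_SD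
  Pool.Agent.W_7d29a1_SQ

/-- Leaf ALL. -/
theorem allP72 : AllP := by
  intro a b C D y f N hb hba hC _ _ hya h1 hf hr n hN hn
  exact allRec72 hb hba hC hya h1 hf hr hn hN

/-- Leaf VAR with a free number. -/
theorem varKP72 {d : ℕ} {ρ : Measure ℝ} {β : ℝ} [IsProbabilityMeasure ρ] (hd : 0 < d)
    (hρ : EM ρ) (hC : CntP d ρ β) (hE : EhlP d ρ β) : VarKP d ρ β :=
  varF72 hd hρ hC hE

/-- The theorem from the remaining leaves. -/
theorem mainKZA72 {d : ℕ} {ρ : Measure ℝ} {β : ℝ} [IsProbabilityMeasure ρ] (hd : 0 < d)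
    (hρ : EM ρ) (hC : CntP d ρ β) (hE : EhlP d ρ β) (hS : SelK d ρ β) (hD : DomK d ρ β)
    (hR : RecK d ρ β) (hP : PriK d ρ β)
    (hL : ∀ h : Vec d, VSD ρ β h → ∃ c₀ : ℝ, 0 < c₀ ∧ Loc1 ρ β h c₀) : MainKZA d ρ β :=
  finKZA58 hS hD hR (varKP72 hd hρ hC hE) hP allP72 hL

end Pool.Agent.W_7d29a1_KZ
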