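import Pool.Agent.W_7d29a1_KZ.DefsZ70
import Pool.Agent.W_7d29a1_SQ.Top32
import Pool.Agent.W_7d29a1_SP.Bas15

/-! Theorem KZ, leaf DOM: the dyadic sum at a right record (helper44). -/

set_option autoImplicit false

namespace Pool.Agent.W_7d29a1_KZ

open MeasureTheory ProbabilityTheory Filter Topology Pool.Agent.W_MP_7d29a1_pr
  Pool.Agent.W_7d29a1_h46 Pool.Agent.W_7d29a1_h46u Pool.Agent.W_7d29a1_D2.B35
  Pool.Agent.W_7d29a1_Q29 Pool.Agent.W_7d29a1_R34 Pool.Agent.W_7d29a1_SP Pool.Agent.W_7d29a1_SD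
  Pool.Agent.W_7d29a1_SQ

variable {d : ℕ} {ρ : Measure ℝ} {β : ℝ}

lemma En_dbl44 (h : Vec d) (k : ℕ) :
    En ρ β h k = En ρ β h (k + k) / 2 + Gp ρ β h k k / 2 := by
  unfold En Gp
  push_cast
  ring

/-- The dyadic sum, `I` terms. -/
lemma dyad44 (h : Vec d) {G : ℝ} (hG : 0 ≤ G) (I : ℕ) : ∀ k : ℕ,
    (∀ i : ℕ, i < I → Gp ρ β h (2 ^ i * k) (2 ^ i * k) ≤ G) →
      En ρ β h k ≤ G + En ρ β h (2 ^ I * k) / 2 ^ I := by
  induction I with
  | zero =>
    intro k _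
    simp only [pow_zero, one_mul, div_one]
    linarith
  | succ I ih =>
    intro k hk
    have h0 := hk 0 (Nat.succ_pos I)
    rw [pow_zero, one_mul] at h0
    have h1 := ih (2 * k) fun i hi => by
      have := hk (i + 1) (by omega)
      rw [show 2 ^ (i + 1) * k = 2 ^ i * (2 * k) by ring] at this
      exact this
    rw [show 2 ^ (I + 1) * k = 2 ^ I * (2 * k) by ring, En_dbl44 h k,
      show k + k = 2 * k by ring]
    have h2 : (2 : ℝ) ^ (I + 1) = 2 ^ I * 2 := pow_succ 2 I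
    rw [h2, ← div_div]
    linarith

/-- **Leaf DOM.** -/
theorem domK44 [IsProbabilityMeasure ρ] (hd : 0 < d) (hρ : EM ρ) (hG : GapK d ρ β) :
    DomK d ρ β := by
  intro h γ η hγ hη hθ hRS
  obtain ⟨ε₀, C₁, hε₀, hC₁, hgap⟩ := hG η hη
  obtain ⟨K', hK', hev⟩ := hRS (1 / 2) ε₀ (by norm_num) (by norm_num) hε₀
  obtain ⟨L₀, hL₀⟩ := eventually_atTop.1 hev
  set θ : ℝ := 2 * γ + η with hθd
  have hθ0 : 0 < θ := by linarith
  set B : ℝ := Ps ρ β h L₀ with hB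
  have hB1 : 1 ≤ B := one_le_Ps32 h L₀
  set C₂ : ℝ := C₁ * (2 * K' + 1) with hC₂
  have hC₂0 : 0 < C₂ := by positivity
  have hE0 : ∀ k, 0 ≤ En ρ β h k := fun k => En_nonneg15 hd hρ β h k
  -- one gap
  have hone : ∀ (j : ℕ) (Φ : ℝ), 1 ≤ j → Fn ρ β h (j + j) ≤ Φ → Fn ρ β h j ≤ Φ →
      Gp ρ β h j j ≤ 24 * Φ + C₂ * (j : ℝ) ^ θ + 2 * B := by
    intro j Φ hj hF2 hF1
    have hj0 : (0 : ℝ) < j := by exact_mod_cast hj
    have hpow : 0 < (j : ℝ) ^ θ := Real.rpow_pos_of_pos hj0 θ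
    have hΦ : 0 ≤ Φ := (Fn_nonneg32 h j).trans hF1
    rcases le_or_gt L₀ (j + j) with hle | hlt
    · have h1 := hL₀ (j + j) hle
      have hfl : ⌊(1 / 2 : ℝ) * ((j + j : ℕ) : ℝ)⌋₊ = j := by
        have : (1 / 2 : ℝ) * ((j + j : ℕ) : ℝ) = (j : ℝ) := by push_cast; ring
        rw [this, Nat.floor_natCast]
      rw [hfl] at h1
      have hM0 : 0 ≤ K' * (((j + j : ℕ) : ℝ)) ^ (2 * γ) := by positivity
      have h2 := hgap h j j _ hj hj hM0 h1
      have h3 : (((j + j : ℕ) : ℝ)) ^ (2 * γ) ≤ 2 * (j : ℝ) ^ (2 * γ) := by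
        have : ((j + j : ℕ) : ℝ) = 2 * (j : ℝ) := by push_cast; ring
        rw [this, Real.mul_rpow (by norm_num) hj0.le]
        refine mul_le_mul_of_nonneg_right ?_ (Real.rpow_nonneg hj0.le _)
        calc (2 : ℝ) ^ (2 * γ) ≤ (2 : ℝ) ^ (1 : ℝ) :=
              Real.rpow_le_rpow_of_exponent_le (by norm_num) (by linarith)
          _ = 2 := Real.rpow_one 2
      have h4 : (1 : ℝ) ≤ (j : ℝ) ^ (2 * γ) :=
        Real.one_le_rpow (by exact_mod_cast hj) (by linarith)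
      have h5 : K' * (((j + j : ℕ) : ℝ)) ^ (2 * γ) + 1 ≤ (2 * K' + 1) * (j : ℝ) ^ (2 * γ) := by
        have := mul_le_mul_of_nonneg_left h3 hK'.le
        nlinarith
      have h6 : (j : ℝ) ^ η * (j : ℝ) ^ (2 * γ) = (j : ℝ) ^ θ := by
        rw [← Real.rpow_add hj0, hθd, add_comm]
      have h7 : C₁ * (j : ℝ) ^ η * (K' * (((j + j : ℕ) : ℝ)) ^ (2 * γ) + 1) ≤
          C₂ * (j : ℝ) ^ θ := by
        have hc : 0 ≤ C₁ * (j : ℝ) ^ η := by positivity
        refine (mul_le_mul_of_nonneg_left h5 hc).trans (le_of_eq ?_)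
        rw [hC₂, ← h6]
        ring
      have h8 : Gp ρ β h j j ≤ 8 * (Fn ρ β h (j + j) + Fn ρ β h j + Fn ρ β h j) +
          C₂ * (j : ℝ) ^ θ := h2.trans (add_le_add le_rfl h7)
      linarith
    · have h1 : Gp ρ β h j j = 2 * En ρ β h j - En ρ β h (j + j) := by
        unfold En Gp
        push_cast
        ring
      have h2 : En ρ β h j ≤ B - 1 := En_le_Ps32 h (by omega)
      have h3 := hE0 (j + j)
      have h4 : 0 ≤ C₂ * (j : ℝ) ^ θ := by positivity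
      rw [h1]
      linarith
  refine ⟨512, 200, 2 * (1 + 2 * B + 512 * C₂), by norm_num, by norm_num,
    Eventually.of_forall fun n hrec => ?_⟩
  by_cases hex : ∃ m : ℕ, 1 ≤ m ∧ m ≤ 512 * n ∧ Ps ρ β h n ≤ 200 * Fn ρ β h m
  · exact Or.inr hex
  left
  push Not at hex
  obtain ⟨hn1, hright⟩ := hrec
  have hn0 : (0 : ℝ) < n := by exact_mod_cast hn1
  set Ψ : ℝ := Ps ρ β h n with hΨ
  have hΨ1 : 1 ≤ Ψ := one_le_Ps32 h n
  have hF : ∀ m : ℕ, 1 ≤ m → m ≤ 512 * n → Fn ρ β h m ≤ Ψ / 200 := fun m h1 h2 => by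
    have := hex m h1 h2
    linarith
  set G : ℝ := 24 * (Ψ / 200) + C₂ * (512 * (n : ℝ) ^ θ) + 2 * B with hGd
  have hnθ : 1 ≤ (n : ℝ) ^ θ := Real.one_le_rpow (by exact_mod_cast hn1) hθ0.le
  have hG0 : 0 ≤ G := by positivity
  have hEk : ∀ k : ℕ, 1 ≤ k → k ≤ n → En ρ β h k ≤ G + Ψ / 8 := by
    intro k hk1 hkn
    have h1 := dyad44 (ρ := ρ) (β := β) h hG0 9 k fun i hi => by
      have hi2 : 2 ^ i ≤ 2 ^ 8 := Nat.pow_le_pow_right (by norm_num) (by omega)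
      have hpos : 1 ≤ 2 ^ i * k := Nat.one_le_iff_ne_zero.2 (by positivity)
      have hle : 2 ^ i * k ≤ 256 * n := by
        calc 2 ^ i * k ≤ 2 ^ 8 * n := Nat.mul_le_mul hi2 hkn
          _ = 256 * n := by norm_num
      refine (hone (2 ^ i * k) (Ψ / 200) hpos (hF _ (by omega) (by omega))
        (hF _ hpos (by omega))).trans ?_
      have h2 : (((2 ^ i * k : ℕ) : ℝ)) ^ θ ≤ 512 * (n : ℝ) ^ θ := by
        have h3 : (((2 ^ i * k : ℕ) : ℝ)) ≤ 512 * (n : ℝ) := by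
          have : 2 ^ i * k ≤ 512 * n := by omega
          exact_mod_cast this
        calc (((2 ^ i * k : ℕ) : ℝ)) ^ θ ≤ (512 * (n : ℝ)) ^ θ :=
              Real.rpow_le_rpow (Nat.cast_nonneg _) h3 hθ0.le
          _ = (512 : ℝ) ^ θ * (n : ℝ) ^ θ := Real.mul_rpow (by norm_num) hn0.le
          _ ≤ 512 * (n : ℝ) ^ θ := by
              refine mul_le_mul_of_nonneg_right ?_ (by positivity)
              calc (512 : ℝ) ^ θ ≤ (512 : ℝ) ^ (1 : ℝ) :=
                    Real.rpow_le_rpow_of_exponent_le (by norm_num) hθ.le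
                _ = 512 := Real.rpow_one _
      have h4 := mul_le_mul_of_nonneg_left h2 hC₂0.le
      rw [hGd]
      linarith
    have h2 : En ρ β h (2 ^ 9 * k) ≤ 64 * Ψ := by
      have h3 : En ρ β h (2 ^ 9 * k) ≤ Ps ρ β h (512 * n) - 1 := En_le_Ps32 h (by
        calc 2 ^ 9 * k ≤ 2 ^ 9 * n := Nat.mul_le_mul_left _ hkn
          _ = 512 * n := by norm_num)
      have h4 := hright (512 * n) (by omega)
      have h5 : ((512 * n : ℕ) : ℝ) / n = 512 := by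
        push_cast
        field_simp
      have h6 : (512 : ℝ) ^ (2 / 3 : ℝ) = 64 := by
        have : (512 : ℝ) = 8 ^ (3 : ℝ) := by norm_num
        rw [this, ← Real.rpow_mul (by norm_num)]
        norm_num
      rw [h5, h6] at h4
      linarith
    have h3 : En ρ β h (2 ^ 9 * k) / 2 ^ 9 ≤ Ψ / 8 := by
      have h29 : (2 : ℝ) ^ 9 = 512 := by norm_num
      rw [h29, div_le_div_iff₀ (by norm_num) (by norm_num)]
      linarith
    linarith
  have hsE : (Finset.range (n + 1)).sup' ⟨0, by simp⟩ (En ρ β h) ≤ G + Ψ / 8 := by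
    refine Finset.sup'_le _ _ fun k hk => ?_
    have hk' : k ≤ n := Nat.lt_succ_iff.1 (Finset.mem_range.1 hk)
    rcases Nat.eq_zero_or_pos k with hz | hz
    · rw [hz, En_zero32]
      positivity
    · exact hEk k hz hk'
  have hsF : (Finset.range (n + 1)).sup' ⟨0, by simp⟩ (Fn ρ β h) ≤ Ψ / 200 := by
    refine Finset.sup'_le _ _ fun k hk => ?_
    have hk' : k ≤ n := Nat.lt_succ_iff.1 (Finset.mem_range.1 hk)
    rcases Nat.eq_zero_or_pos k with hz | hz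
    · rw [hz, Fn_zero15]
      positivity
    · exact hF k hz (by omega)
  have hΨeq : Ψ = 1 + (Finset.range (n + 1)).sup' ⟨0, by simp⟩ (En ρ β h) +
      (Finset.range (n + 1)).sup' ⟨0, by simp⟩ (Fn ρ β h) := rfl
  have h9 : Ψ ≤ 1 + (G + Ψ / 8) + Ψ / 200 := by
    calc Ψ = _ := hΨeq
      _ ≤ _ := add_le_add (add_le_add le_rfl hsE) hsF
  rw [hGd] at h9
  have h10 : (1 + 2 * B) * 1 ≤ (1 + 2 * B) * (n : ℝ) ^ θ :=
    mul_le_mul_of_nonneg_left hnθ (by linarith)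
  nlinarith

end Pool.Agent.W_7d29a1_KZ
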