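import Pool.Agent.W_7d29a1_KZ.Half20
import Pool.Agent.W_7d29a1_KZ.DefsA70
import Pool.Agent.W_7d29a1_AM.AmpAll5

/-!
The tilts which are not in very strong disorder: the free energy is within `O (log n)` of its
annealed value, with all its moments (every law, every dimension).
-/

namespace Pool.Agent.W_7d29a1_KZ.N20

open MeasureTheory ProbabilityTheory Filter Topology Pool.Agent.W_MP_7d29a1_pr
  Pool.Agent.W_7d29a1_h46 Pool.Agent.W_7d29a1_h46u Pool.Agent.W_7d29a1_D2.B35
  Pool.Agent.W_7d29a1_Q29 Pool.Agent.W_7d29a1_SP Pool.Agent.W_7d29a1_AM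

/-- A second moment from an exponential tail. -/
theorem sq_of_tail {Ω : Type*} [MeasurableSpace Ω] {P : Measure Ω} [IsProbabilityMeasure P]
    {Y : Ω → ℝ} (hY : Measurable Y) (h0 : ∀ ω, 0 ≤ Y ω)
    (ht : ∀ u : ℝ, 0 < u → P.real {ω | u ≤ Y ω} ≤ Real.exp (-u)) :
    Integrable (fun ω => Y ω ^ 2) P ∧ ∫ ω, Y ω ^ 2 ∂P ≤ 14 := by
  have h2 : ∀ ω, ENNReal.ofReal (Y ω ^ 2) = ENNReal.ofReal (Y ω ^ (2 : ℝ)) := fun ω => by
    rw [show (2 : ℝ) = ((2 : ℕ) : ℝ) by norm_num, Real.rpow_natCast]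
  have key : ∫⁻ ω, ENNReal.ofReal (Y ω ^ 2) ∂P ≤ ENNReal.ofReal 14 := by
    have h1 := lintegral_rpow_eq_lintegral_meas_le_mul P (f := Y) (Eventually.of_forall h0)
      hY.aemeasurable (by norm_num : (0 : ℝ) < 2)
    simp only [h2]
    rw [h1, show (14 : ℝ) = 2 * 7 by norm_num, ENNReal.ofReal_mul (by norm_num : (0 : ℝ) ≤ 2)]
    refine mul_le_mul_right ?_ _
    have h3 : (Set.Ioi (0 : ℝ)) = Set.Ioc 0 1 ∪ Set.Ioi 1 :=
      (Set.Ioc_union_Ioi_eq_Ioi zero_le_one).symm
    rw [h3]
    refine (lintegral_union_le _ _ _).trans ?_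
    rw [show (7 : ℝ) = 1 + 6 by norm_num, ENNReal.ofReal_add zero_le_one (by norm_num)]
    refine add_le_add ?_ ?_
    · calc ∫⁻ t in Set.Ioc (0 : ℝ) 1, P {a : Ω | t ≤ Y a} * ENNReal.ofReal (t ^ ((2 : ℝ) - 1))
          ≤ ∫⁻ _ in Set.Ioc (0 : ℝ) 1, 1 := by
            refine setLIntegral_mono measurable_const fun t ht => ?_
            have h4 : P {a : Ω | t ≤ Y a} ≤ 1 := prob_le_one
            have h5 : ENNReal.ofReal (t ^ ((2 : ℝ) - 1)) ≤ 1 := by
              rw [ENNReal.ofReal_le_one]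
              exact Real.rpow_le_one ht.1.le ht.2 (by norm_num)
            calc _ ≤ (1 : ENNReal) * 1 := mul_le_mul' h4 h5
              _ = 1 := one_mul 1
        _ = ENNReal.ofReal 1 := by simp
    · have h6 : IntegrableOn (fun t : ℝ => 6 * t ^ (-2 : ℝ)) (Set.Ioi 1) :=
        (integrableOn_Ioi_rpow_of_lt (by norm_num) one_pos).const_mul 6
      have h7 : ∫ t in Set.Ioi (1 : ℝ), 6 * t ^ (-2 : ℝ) = 6 := by
        rw [integral_const_mul, integral_Ioi_rpow_of_lt (by norm_num) one_pos]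
        norm_num
      have h8 : 0 ≤ᵐ[volume.restrict (Set.Ioi (1 : ℝ))] fun t : ℝ => 6 * t ^ (-2 : ℝ) := by
        filter_upwards [self_mem_ae_restrict
          (measurableSet_Ioi : MeasurableSet (Set.Ioi (1 : ℝ)))] with t ht
        exact mul_nonneg (by norm_num) (Real.rpow_nonneg (zero_le_one.trans (le_of_lt ht)) _)
      calc ∫⁻ t in Set.Ioi (1 : ℝ), P {a : Ω | t ≤ Y a} * ENNReal.ofReal (t ^ ((2 : ℝ) - 1))
          ≤ ∫⁻ t in Set.Ioi (1 : ℝ), ENNReal.ofReal (6 * t ^ (-2 : ℝ)) := by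
            refine setLIntegral_mono (by fun_prop) fun t ht' => ?_
            have ht1 : (1 : ℝ) ≤ t := le_of_lt ht'
            have ht0 : (0 : ℝ) < t := lt_of_lt_of_le one_pos ht1
            have h9 : P {a : Ω | t ≤ Y a} ≤ ENNReal.ofReal (6 / t ^ 3) := by
              rw [← ofReal_measureReal (measure_ne_top P _)]
              refine ENNReal.ofReal_le_ofReal ((ht t ht0).trans ?_)
              have h10 := Real.pow_div_factorial_le_exp t ht0.le 3
              have h11 : ((Nat.factorial 3 : ℕ) : ℝ) = 6 := by norm_num [Nat.factorial]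
              rw [h11] at h10
              rw [Real.exp_neg, ← one_div, div_le_div_iff₀ (Real.exp_pos t) (by positivity)]
              rw [div_le_iff₀ (by norm_num)] at h10
              linarith
            calc P {a : Ω | t ≤ Y a} * ENNReal.ofReal (t ^ ((2 : ℝ) - 1))
                ≤ ENNReal.ofReal (6 / t ^ 3) * ENNReal.ofReal (t ^ ((2 : ℝ) - 1)) :=
                  mul_le_mul_left h9 _
              _ = ENNReal.ofReal (6 * t ^ (-2 : ℝ)) := by
                  rw [← ENNReal.ofReal_mul (by positivity)]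
                  congr 1
                  rw [show ((2 : ℝ) - 1) = 1 by norm_num, Real.rpow_one,
                    Real.rpow_neg ht0.le]
                  have : t ^ (2 : ℝ) = t ^ 2 := by norm_num
                  rw [this]
                  field_simp
        _ = ENNReal.ofReal 6 := by
            rw [← ofReal_integral_eq_lintegral_ofReal h6 h8, h7]
  have hnn : 0 ≤ᵐ[P] fun ω => Y ω ^ 2 := Eventually.of_forall fun ω => sq_nonneg _
  refine ⟨⟨(hY.pow_const 2).aestronglyMeasurable, ?_⟩, ?_⟩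
  · rw [hasFiniteIntegral_iff_ofReal hnn]
    exact key.trans_lt ENNReal.ofReal_lt_top
  · rw [integral_eq_lintegral_of_nonneg_ae hnn (hY.pow_const 2).aestronglyMeasurable]
    exact ENNReal.toReal_le_of_le_ofReal (by norm_num) key

variable {d : ℕ} {ρ : Measure ℝ} [IsProbabilityMeasure ρ] {β : ℝ}

/-- The variance is at most linear, uniformly in the tilt. -/
lemma va_lin (hd : 0 < d) (hρ : EM ρ) (β : ℝ) :
    ∃ C : ℝ, 0 ≤ C ∧ ∀ (h : Vec d) (n : ℕ), Va ρ β h n ≤ C * n := by
  obtain ⟨C, hC0, hC⟩ := momU (d := d) hd hρ β 2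
  refine ⟨C, hC0, fun h n => ?_⟩
  rcases Nat.eq_zero_or_pos n with rfl | hn
  · have h1 : ∀ η : Env d, X β h η 0 = 0 := fun η => by
      unfold X
      rw [Z_zero, Real.log_one]
    have h2 : A ρ β h 0 = 0 := by
      unfold A
      simp only [h1, integral_zero]
    unfold Va
    simp only [h1, h2, sub_zero, ne_eq, OfNat.ofNat_ne_zero, not_false_eq_true, zero_pow,
      integral_zero, Nat.cast_zero, mul_zero, le_refl]
  · have h1 := (hC h n hn).2
    have h2 : ((1 / 2 : ℝ) * ((2 : ℕ) : ℝ)) = 1 := by norm_num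
    rw [h2, Real.rpow_one] at h1
    refine le_trans (le_of_eq ?_) h1
    unfold Va
    exact integral_congr_ae (Eventually.of_forall fun η => (sq_abs _).symm)

/-- The lower tail when disorder is not very strong. -/
theorem low20 (hd : 0 < d) (hρ : EM ρ) (hA : AmpU ρ β d) :
    ∃ K : ℝ, 1 ≤ K ∧ ∀ h : Vec d, ¬ VSD ρ β h → ∀ (n : ℕ) (u : ℝ), 0 ≤ u →
      (law d ρ).real {η | X β h η n ≤
        n * an ρ β h - K * (Real.log (4 * ((boxF d n).card : ℝ)) + 1) - u} ≤
          Real.exp (-(u / K)) := by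
  obtain ⟨C, hC1, hC⟩ := hA 1 le_rfl
  obtain ⟨V, hV0, hV⟩ := va_lin (d := d) hd hρ β
  have hK0 : (1 : ℝ) ≤ C + 2 + V := by linarith
  refine ⟨C + 2 + V, hK0, fun h hv n u hu => ?_⟩
  obtain ⟨K, hK⟩ : ∃ K : ℝ, K = C + 2 + V := ⟨_, rfl⟩
  rw [← hK] at hK0 ⊢
  have hKp : 0 < K := by linarith
  obtain ⟨b, hb⟩ : ∃ b : ℝ, b = ((boxF d n).card : ℝ) := ⟨_, rfl⟩
  have hb1 : 2 * (n : ℝ) + 1 ≤ b := by
    rw [hb, card_boxF]
    push_cast
    exact le_self_pow₀ (by linarith [(Nat.cast_nonneg n : (0 : ℝ) ≤ (n : ℝ))]) hd.ne'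
  have hn0 : (0 : ℝ) ≤ n := Nat.cast_nonneg n
  have hb2 : 1 ≤ b := by linarith
  have hP := prob20 (β := β) hd hρ h hv n
  rw [← hb] at hP ⊢
  obtain ⟨L, hL⟩ : ∃ L : ℝ, L = Real.log (4 * b) := ⟨_, rfl⟩
  rw [← hL] at hP ⊢
  have hL0 : 0 ≤ L := by rw [hL]; exact Real.log_nonneg (by linarith)
  have hLe : Real.exp (-L) = 1 / (4 * b) := by
    rw [hL, Real.exp_neg, Real.exp_log (by linarith), one_div]
  obtain ⟨x, hx⟩ : ∃ x : ℝ, x = K * (L + 1) + u := ⟨_, rfl⟩
  have hset : {η : Env d | X β h η n ≤ n * an ρ β h - K * (L + 1) - u} =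
      {η | X β h η n ≤ n * an ρ β h - x} := by
    ext η
    show X β h η n ≤ n * an ρ β h - K * (L + 1) - u ↔ X β h η n ≤ n * an ρ β h - x
    rw [hx, sub_sub]
  rw [hset]
  by_contra hcon
  push Not at hcon
  obtain ⟨p, hp⟩ : ∃ p : ℝ, p = (law d ρ).real {η | X β h η n ≤ n * an ρ β h - x} := ⟨_, rfl⟩
  rw [← hp] at hcon
  have hq1 : Real.exp (-(L + u / K)) ≤ p := by
    refine le_trans (Real.exp_le_exp.2 ?_) hcon.le
    linarith
  have huK : 0 ≤ u / K := by positivity
  have hq2 : Real.exp (-(L + u / K)) ≤ 1 / (4 * b) := by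
    rw [← hLe]
    exact Real.exp_le_exp.2 (by linarith)
  obtain ⟨q, hq⟩ : ∃ q : ℝ, q = Real.exp (-(L + u / K)) := ⟨_, rfl⟩
  rw [← hq] at hq1 hq2
  have hq0 : 0 < q := by rw [hq]; exact Real.exp_pos _
  have hqb : q * (4 * b) ≤ 1 := by
    rw [le_div_iff₀ (by linarith)] at hq2
    exact hq2
  have hlq : Real.log (1 / q) = L + u / K := by
    rw [one_div, Real.log_inv, hq, Real.log_exp, neg_neg]
  have hCK : C * (u / K) ≤ u := by
    have h1 : C * (u / K) ≤ K * (u / K) := mul_le_mul_of_nonneg_right (by linarith) huK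
    rwa [mul_div_cancel₀ u hKp.ne'] at h1
  have hs : (n * an ρ β h - L) - (n * an ρ β h - x) = x - L := by ring
  have key := hC h n (n * an ρ β h - x) (n * an ρ β h - L) q hq0 ?_ ?_ ?_ ?_ ?_
  · -- the contradiction
    have h1 : n * an ρ β h - L + 1 * ((n * an ρ β h - L) - (n * an ρ β h - x)) =
        n * an ρ β h + (x - 2 * L) := by ring
    rw [h1] at key
    have h2 : (law d ρ).real {η | n * an ρ β h + (x - 2 * L) < X β h η n} ≤
        Real.exp (-(x - 2 * L)) :=
      (measureReal_mono fun η (hη : n * an ρ β h + (x - 2 * L) < X β h η n) =>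
        (show n * an ρ β h + (x - 2 * L) ≤ X β h η n from hη.le)).trans
        (mark20 hd hρ h n (x - 2 * L))
    have h3 := key.trans h2
    rw [hq, ← Real.exp_mul, Real.exp_le_exp] at h3
    have h4 : K * (L + 1) = C * L + C + 2 * L + 2 + V * (L + 1) := by rw [hK]; ring
    have h5 : 0 ≤ V * (L + 1) := by positivity
    rw [hx, h4] at h3
    nlinarith
  · -- `q ≤ 1 / 2`
    nlinarith
  · rw [hs, hlq, hx]
    have h4 : K * (L + 1) = C * L + C + 2 * L + 2 + V * (L + 1) := by rw [hK]; ring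
    have h5 : 0 ≤ V * (L + 1) := by positivity
    have h6 : C * (1 + (L + u / K)) = C + C * L + C * (u / K) := by ring
    rw [h4, h6]
    linarith
  · rw [hs]
    have h1 := hV h n
    have h2 : V * n ≤ V * b := mul_le_mul_of_nonneg_left (by linarith) hV0
    have h3 : Va ρ β h n * q ≤ V := by
      have h4 : Va ρ β h n * q ≤ V * b * q :=
        mul_le_mul_of_nonneg_right (h1.trans h2) hq0.le
      have h5 : V * (q * (4 * b)) ≤ V * 1 := mul_le_mul_of_nonneg_left hqb hV0
      nlinarith [mul_nonneg (mul_nonneg hV0 (by linarith : (0 : ℝ) ≤ b)) hq0.le]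
    rw [le_div_iff₀ hq0]
    refine h3.trans ?_
    have h6 : 1 + V ≤ x - L := by
      rw [hx, hK]
      nlinarith [mul_nonneg hV0 hL0, mul_nonneg (by linarith : (0 : ℝ) ≤ C) hL0]
    nlinarith
  · exact hq1.trans (le_of_eq hp)
  · exact hq2.trans hP

/-- **The tilts which are not in very strong disorder**, uniformly in the tilt: every law with
exponential moments which satisfies the amplification. -/
theorem nvsU20 (hd : 0 < d) (hρ : EM ρ) (hA : AmpU ρ β d) :
    ∃ C : ℝ, 0 ≤ C ∧ ∀ h : Vec d, ¬ VSD ρ β h → ∀ n : ℕ,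
      Va ρ β h n ≤ C * Real.log (n + 2) ^ 2 ∧ En ρ β h n ≤ C * Real.log (n + 2) := by
  obtain ⟨K, hK1, hK⟩ := low20 (β := β) hd hρ hA
  have hd0 : (0 : ℝ) ≤ d := Nat.cast_nonneg d
  have hKp : 0 < K := by linarith
  refine ⟨3 * K ^ 2 * (112 + (4 + 2 * d) ^ 2) + K * (34 + 2 * d), by positivity,
    fun h hv n => ?_⟩
  have hn0 : (0 : ℝ) ≤ n := Nat.cast_nonneg n
  have hlow := hK h hv n
  obtain ⟨b, hb⟩ : ∃ b : ℝ, b = ((boxF d n).card : ℝ) := ⟨_, rfl⟩
  rw [← hb] at hlow
  obtain ⟨L, hL⟩ : ∃ L : ℝ, L = Real.log (4 * b) := ⟨_, rfl⟩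
  rw [← hL] at hlow
  obtain ⟨l, hl⟩ : ∃ l : ℝ, l = Real.log ((n : ℝ) + 2) := ⟨_, rfl⟩
  have hb' : b = (2 * (n : ℝ) + 1) ^ d := by
    rw [hb, card_boxF]
    push_cast
    rfl
  have hl2 : Real.log 2 ≤ l := by
    rw [hl]
    exact Real.log_le_log (by norm_num) (by linarith)
  have hl3 := Real.log_two_gt_d9
  have hl1 : 1 / 2 ≤ l := by linarith
  have hLl : L + 1 ≤ (4 + 2 * d) * l := by
    have h1 : L = 2 * Real.log 2 + d * Real.log (2 * (n : ℝ) + 1) := by
      rw [hL, hb', Real.log_mul (by norm_num) (by positivity), Real.log_pow,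
        show (4 : ℝ) = 2 ^ 2 by norm_num, Real.log_pow]
      norm_num
    have h2 : Real.log (2 * (n : ℝ) + 1) ≤ 2 * l := by
      rw [hl, show (2 : ℝ) * Real.log ((n : ℝ) + 2) = Real.log (((n : ℝ) + 2) ^ 2) by
        rw [Real.log_pow]; norm_num]
      exact Real.log_le_log (by linarith) (by nlinarith)
    have h3 := mul_le_mul_of_nonneg_left h2 hd0
    rw [h1]
    nlinarith
  have hL0 : 0 ≤ L := by
    rw [hL]
    refine Real.log_nonneg ?_
    have : 1 ≤ b := by
      rw [hb']
      exact one_le_pow₀ (by linarith)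
    linarith
  obtain ⟨c, hc⟩ : ∃ c : ℝ, c = n * an ρ β h - K * (L + 1) := ⟨_, rfl⟩
  have mX := measurable_X (d := d) β h n
  have iX := (concU hd hρ β h n).1
  -- the lower part
  have mY : Measurable fun η : Env d => max (c - X β h η n) 0 / K :=
    ((measurable_const.sub mX).max measurable_const).div_const K
  obtain ⟨iY, hY⟩ := sq_of_tail (P := law d ρ) mY
    (fun η => div_nonneg (le_max_right _ _) hKp.le) fun u hu => by
      have h1 := hlow (K * u) (by positivity)
      rw [mul_div_cancel_left₀ u hKp.ne', ← hc] at h1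
      refine (measureReal_mono fun η hη => ?_).trans h1
      have h2 : u ≤ max (c - X β h η n) 0 / K := hη
      rw [le_div_iff₀ hKp] at h2
      show X β h η n ≤ c - K * u
      rcases le_max_iff.1 h2 with h3 | h3
      · linarith
      · nlinarith
  -- the upper part
  have mW : Measurable fun η : Env d => max (X β h η n - n * an ρ β h) 0 :=
    (mX.sub measurable_const).max measurable_const
  obtain ⟨iW, hW⟩ := sq_of_tail (P := law d ρ) mW (fun η => le_max_right _ _) fun u hu => by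
      refine (measureReal_mono fun η hη => ?_).trans (mark20 (β := β) hd hρ h n u)
      have h2 : u ≤ max (X β h η n - n * an ρ β h) 0 := hη
      show n * an ρ β h + u ≤ X β h η n
      rcases le_max_iff.1 h2 with h3 | h3
      · linarith
      · linarith
  -- the second moment around `c`
  have h1 : ∀ η : Env d, (X β h η n - c) ^ 2 ≤ 3 * K ^ 2 * (max (c - X β h η n) 0 / K) ^ 2 +
      3 * (K * (L + 1)) ^ 2 + 3 * (max (X β h η n - n * an ρ β h) 0) ^ 2 := by
    intro η
    have e1 : 3 * K ^ 2 * (max (c - X β h η n) 0 / K) ^ 2 =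
        3 * (max (c - X β h η n) 0) ^ 2 := by
      rw [div_pow]
      field_simp
    rw [e1]
    have h2 : 0 ≤ K * (L + 1) := by positivity
    have h3 : |X β h η n - c| ≤ max (c - X β h η n) 0 + K * (L + 1) +
        max (X β h η n - n * an ρ β h) 0 := by
      have h4 := le_max_left (c - X β h η n) 0
      have h5 := le_max_right (c - X β h η n) 0
      have h6 := le_max_left (X β h η n - n * an ρ β h) 0
      have h7 := le_max_right (X β h η n - n * an ρ β h) 0
      rw [abs_le]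
      constructor <;> linarith
    have h4 := pow_le_pow_left₀ (abs_nonneg _) h3 2
    rw [sq_abs] at h4
    nlinarith [sq_nonneg (max (c - X β h η n) 0 - K * (L + 1)),
      sq_nonneg (max (c - X β h η n) 0 - max (X β h η n - n * an ρ β h) 0),
      sq_nonneg (K * (L + 1) - max (X β h η n - n * an ρ β h) 0)]
  have i1 : Integrable (fun η : Env d => 3 * K ^ 2 * (max (c - X β h η n) 0 / K) ^ 2 +
      3 * (K * (L + 1)) ^ 2) (law d ρ) := (iY.const_mul _).add (integrable_const _)
  have i2 : Integrable (fun η : Env d => 3 * K ^ 2 * (max (c - X β h η n) 0 / K) ^ 2 +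
      3 * (K * (L + 1)) ^ 2 + 3 * (max (X β h η n - n * an ρ β h) 0) ^ 2) (law d ρ) :=
    i1.add (iW.const_mul 3)
  have iC : Integrable (fun η : Env d => (X β h η n - c) ^ 2) (law d ρ) :=
    i2.mono' ((mX.sub measurable_const).pow_const 2).aestronglyMeasurable
      (Eventually.of_forall fun η => by
        rw [Real.norm_eq_abs, abs_of_nonneg (sq_nonneg _)]
        exact h1 η)
  have h2 : ∫ η, (X β h η n - c) ^ 2 ∂(law d ρ) ≤ 3 * K ^ 2 * 14 + 3 * (K * (L + 1)) ^ 2 +
      3 * 14 := by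
    refine (integral_mono iC i2 h1).trans ?_
    rw [integral_add i1 (iW.const_mul 3), integral_add (iY.const_mul _) (integrable_const _),
      integral_const, probReal_univ, one_smul, integral_const_mul, integral_const_mul]
    have h3 := mul_le_mul_of_nonneg_left hY (by positivity : (0 : ℝ) ≤ 3 * K ^ 2)
    have h4 := mul_le_mul_of_nonneg_left hW (by norm_num : (0 : ℝ) ≤ 3)
    linarith
  have h3 : Va ρ β h n ≤ ∫ η, (X β h η n - c) ^ 2 ∂(law d ρ) := by
    have e1 : ∀ η : Env d, (X β h η n - A ρ β h n) ^ 2 =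
        (X β h η n - c) ^ 2 - 2 * (A ρ β h n - c) * X β h η n +
          (A ρ β h n - c) * (A ρ β h n + c) := fun η => by ring
    have i3 : Integrable (fun η : Env d => (X β h η n - c) ^ 2 -
        2 * (A ρ β h n - c) * X β h η n) (law d ρ) := iC.sub (iX.const_mul _)
    unfold Va
    rw [integral_congr_ae (Eventually.of_forall e1), integral_add i3 (integrable_const _),
      integral_sub iC (iX.const_mul _), integral_const_mul, integral_const, probReal_univ,
      one_smul]
    have e2 : ∫ η, X β h η n ∂(law d ρ) = A ρ β h n := rfl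
    rw [e2]
    nlinarith [sq_nonneg (A ρ β h n - c)]
  constructor
  · refine (h3.trans h2).trans ?_
    rw [← hl]
    have h4 : (L + 1) ^ 2 ≤ ((4 + 2 * d) * l) ^ 2 := pow_le_pow_left₀ (by linarith) hLl 2
    have h5 : (1 : ℝ) ≤ 4 * l ^ 2 := by nlinarith
    have h6 : (1 : ℝ) ≤ K ^ 2 := by nlinarith
    have h7 : 0 ≤ K * (34 + 2 * (d : ℝ)) * l ^ 2 := by positivity
    have h8 : K ^ 2 * (L + 1) ^ 2 ≤ K ^ 2 * ((4 + 2 * d) * l) ^ 2 :=
      mul_le_mul_of_nonneg_left h4 (by positivity)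
    have h9 : K ^ 2 * 1 ≤ K ^ 2 * (4 * l ^ 2) := mul_le_mul_of_nonneg_left h5 (by positivity)
    nlinarith
  · rw [← hl]
    have hla : lam ρ β h = an ρ β h :=
      le_antisymm (lam_le_ann61 hd hρ β h) (not_lt.1 hv)
    have h4 : ∀ η : Env d, c - K * (1 + (max (c - X β h η n) 0 / K) ^ 2) ≤ X β h η n := by
      intro η
      have h5 := le_max_left (c - X β h η n) 0
      have h6 : max (c - X β h η n) 0 = K * (max (c - X β h η n) 0 / K) := by field_simp
      have h7 : max (c - X β h η n) 0 / K ≤ 1 + (max (c - X β h η n) 0 / K) ^ 2 := by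
        nlinarith [sq_nonneg (max (c - X β h η n) 0 / K - 1)]
      have h8 := mul_le_mul_of_nonneg_left h7 hKp.le
      linarith
    have i4 : Integrable (fun η : Env d => 1 + (max (c - X β h η n) 0 / K) ^ 2) (law d ρ) :=
      (integrable_const 1).add iY
    have i5 : Integrable (fun η : Env d => c - K * (1 + (max (c - X β h η n) 0 / K) ^ 2))
        (law d ρ) := (integrable_const c).sub (i4.const_mul K)
    have h5 := integral_mono i5 iX h4
    rw [integral_sub (integrable_const c) (i4.const_mul K), integral_const_mul,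
      integral_add (integrable_const 1) iY] at h5
    simp only [integral_const, probReal_univ, one_smul] at h5
    have e2 : ∫ η, X β h η n ∂(law d ρ) = A ρ β h n := rfl
    rw [e2] at h5
    have h6 := mul_le_mul_of_nonneg_left hY hKp.le
    have h7 : En ρ β h n ≤ K * (L + 1) + 15 * K := by
      unfold En
      rw [hla]
      linarith
    refine h7.trans ?_
    have h8 := mul_le_mul_of_nonneg_left hLl hKp.le
    have h9 : 0 ≤ 3 * K ^ 2 * (112 + (4 + 2 * (d : ℝ)) ^ 2) * l := by positivity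
    nlinarith

end Pool.Agent.W_7d29a1_KZ.N20

namespace Pool.Agent.W_7d29a1_KZ

open MeasureTheory ProbabilityTheory Pool.Agent.W_MP_7d29a1_pr Pool.Agent.W_7d29a1_h46
  Pool.Agent.W_7d29a1_h46u

/-- **Leaf NVS**, every law which is not a point mass and has all exponential moments. -/
theorem nvsP20 {d : ℕ} (hd : 0 < d) {ρ : Measure ℝ} [IsProbabilityMeasure ρ] (hρ : EM ρ)
    (hnc : ∀ c : ℝ, ρ {c} ≠ 1) {β : ℝ} (hβ : 0 < β) : NvsP d ρ β := by
  obtain ⟨C, -, hC⟩ := N20.nvsU20 hd hρ (W_7d29a1_AM.ampAll hd hρ hnc hβ)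
  exact fun h hv => ⟨C, hC h hv⟩

end Pool.Agent.W_7d29a1_KZ
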