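import Pool.Agent.W_7d29a1_KZ.DefsZ70
import Pool.Agent.W_7d29a1_VT.NonAll74
import Pool.Agent.W_7d29a1_SP.Bas15

/-!
The a priori bounds of the two fluctuations from a typical tube, at every tilt and direction.
-/

namespace Pool.Agent.W_7d29a1_KZ.P74

open MeasureTheory ProbabilityTheory Filter Topology Pool.Agent.W_MP_7d29a1_pr
  Pool.Agent.W_7d29a1_h46 Pool.Agent.W_7d29a1_h46u Pool.Agent.W_7d29a1_D2.B35
  Pool.Agent.W_7d29a1_Q29 Pool.Agent.W_7d29a1_R34 Pool.Agent.W_7d29a1_SP Pool.Agent.W_7d29a1_SD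
  Pool.Agent.W_7d29a1_SQ Pool.Agent.W_7d29a1_VT Pool.Agent.W_7d29a1_V Pool.Agent.W_7d29a1_D2
  Pool.Agent.W_7d29a1_KZ

variable {d : ℕ} {ρ : Measure ℝ} [IsProbabilityMeasure ρ]

/-- A typical tube in the mean is a typical tube in probability. -/
lemma tbP_of_HalfD {β : ℝ} {h v : Vec d} {δ : ℝ} (H : HalfD ρ β h v δ) :
    TbP ρ β h v (1 / 2 + δ) := by
  intro ε hε
  obtain ⟨n₀, hn₀⟩ := eventually_atTop.1 (H (ε / 2) (by linarith))
  refine ⟨n₀ + 1, fun n hn => ?_⟩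
  have hn1 : (0 : ℝ) < n := by
    have : 0 < n := by omega
    exact_mod_cast this
  have h1 := hn₀ n (by omega)
  have e1 : (n : ℝ) ^ δ * Real.sqrt n = (n : ℝ) ^ (1 / 2 + δ) := by
    rw [Real.sqrt_eq_rpow, ← Real.rpow_add hn1, add_comm]
  unfold Tb at h1
  rw [e1] at h1
  have h2 : (law d ρ).real {η | PolT β h η (tube d n v ((n : ℝ) ^ (1 / 2 + δ))) < 1 / 2} ≤
      (law d ρ).real {η | (1 / 2 : ℝ) ≤
        1 - PolT β h η (tube d n v ((n : ℝ) ^ (1 / 2 + δ)))} := by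
    refine measureReal_mono (fun η hη => ?_)
    simp only [Set.mem_ofPred_eq] at hη ⊢
    linarith
  have h3 : Integrable (fun η : Env d =>
      1 - PolT β h η (tube d n v ((n : ℝ) ^ (1 / 2 + δ)))) (law d ρ) := by
    refine Integrable.mono' (integrable_const (1 : ℝ))
      (measurable_const.sub (measurable_PolT β h _)).aestronglyMeasurable
      (Eventually.of_forall fun η => ?_)
    have i1 := PolT_le_one β h η (tube d n v ((n : ℝ) ^ (1 / 2 + δ)))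
    have i2 := PolT_nonneg β h η (tube d n v ((n : ℝ) ^ (1 / 2 + δ)))
    rw [Real.norm_eq_abs, abs_le]
    constructor <;> linarith
  have h4 := mul_meas_ge_le_integral_of_nonneg (μ := law d ρ)
    (f := fun η : Env d => 1 - PolT β h η (tube d n v ((n : ℝ) ^ (1 / 2 + δ))))
    (Eventually.of_forall fun η => by
      show (0 : ℝ) ≤ 1 - PolT β h η (tube d n v ((n : ℝ) ^ (1 / 2 + δ)))
      linarith [PolT_le_one β h η (tube d n v ((n : ℝ) ^ (1 / 2 + δ)))]) h3 (1 / 2)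
  have h5 : (law d ρ).real {η | (1 / 2 : ℝ) ≤
      1 - PolT β h η (tube d n v ((n : ℝ) ^ (1 / 2 + δ)))} ≤ ε := by
    have h6 : (1 / 2 : ℝ) * (law d ρ).real {η | (1 / 2 : ℝ) ≤
      1 - PolT β h η (tube d n v ((n : ℝ) ^ (1 / 2 + δ)))} ≤ ε / 2 := h4.trans h1
    linarith
  exact h2.trans h5

/-- **LEAF PRI.** -/
theorem priK74 (hd : 0 < d) (hρ : EM ρ) (β : ℝ) : PriK d ρ β := by
  intro h v δ b hδ0 hδ1 H hb
  have ha0 : 0 < 1 / 2 + δ := by linarith
  have ha1 : 1 / 2 + δ < 1 := by linarith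
  have hb0 : 0 < b := by linarith
  have hT : TbP ρ β h v (1 / 2 + δ) := tbP_of_HalfD H
  have hS := spaceV46 (ρ := ρ) hd hρ β ‖h‖
  obtain ⟨n₁, h₁⟩ := gap74 hd hρ ha1 (medT hd hρ hS ha0 ha1 hT) (addT36 hd hρ hS ha0 ha1 hT)
    (varAll10 hd hρ β h v ha0 ha1 hT) ha0 hb
  obtain ⟨n₂, h₂⟩ := varAll10 hd hρ β h v ha0 ha1 hT b hb
  obtain ⟨N, hN⟩ : ∃ N : ℕ, N = max n₁ n₂ := ⟨_, rfl⟩
  have hS0 : 0 ≤ ∑ k ∈ Finset.range N, (En ρ β h k + Fn ρ β h k) :=
    Finset.sum_nonneg fun k _ => add_nonneg (En_nonneg15 hd hρ β h k) (Fn_nonneg15 β h k)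
  refine ⟨1 + ∑ k ∈ Finset.range N, (En ρ β h k + Fn ρ β h k), by linarith, fun n => ?_⟩
  rcases Nat.eq_zero_or_pos n with hn | hn
  · subst hn
    rw [En_zero15, Fn_zero15]
    have e3 : (0 : ℝ) ≤ ((0 : ℕ) : ℝ) ^ b := Real.rpow_nonneg (Nat.cast_nonneg _) _
    constructor <;> positivity
  have hn1 : (1 : ℝ) ≤ n := by exact_mod_cast hn
  have hp1 : 1 ≤ (n : ℝ) ^ b := Real.one_le_rpow hn1 hb0.le
  rcases lt_or_ge n N with hlt | hge
  · have h5 : En ρ β h n + Fn ρ β h n ≤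
        ∑ k ∈ Finset.range N, (En ρ β h k + Fn ρ β h k) :=
      Finset.single_le_sum (f := fun k => En ρ β h k + Fn ρ β h k)
        (fun k _ => add_nonneg (En_nonneg15 hd hρ β h k) (Fn_nonneg15 β h k))
        (Finset.mem_range.2 hlt)
    have h6 := En_nonneg15 (ρ := ρ) hd hρ β h n
    have h7 := Fn_nonneg15 (ρ := ρ) β h n
    constructor <;> nlinarith
  · have hn₁ : n₁ ≤ n := (le_max_left _ _).trans (hN ▸ hge)
    have hn₂ : n₂ ≤ n := (le_max_right _ _).trans (hN ▸ hge)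
    have h5 : En ρ β h n ≤ (n : ℝ) ^ b := h₁ n hn₁
    have h6 : Fn ρ β h n ^ 2 ≤ ((n : ℝ) ^ b) ^ 2 := by
      refine (Fn_sq15 hd hρ β h n).trans ?_
      have h7 := h₂ n hn₂
      have e1 : (n : ℝ) ^ (2 * b) = ((n : ℝ) ^ b) ^ 2 := by
        rw [← Real.rpow_natCast, ← Real.rpow_mul (Nat.cast_nonneg _)]
        congr 1
        push_cast
        ring
      rw [← e1]
      refine le_trans (le_of_eq ?_) h7
      unfold Va
      simp only [sq_abs]
    have h7 : Fn ρ β h n ≤ (n : ℝ) ^ b := by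
      refine abs_le_of_sq_le_sq' h6 (by linarith) |>.2
    constructor <;> nlinarith

end Pool.Agent.W_7d29a1_KZ.P74
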