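import Pool.Agent.W_7d29a1_KZ.DefsZ70
import Pool.Agent.W_7d29a1_SD.Sel70
import Pool.Agent.W_7d29a1_SD.SubG20

/-!
Theorem KZ: the selection of the partners.
-/

namespace Pool.Agent.W_7d29a1_KZ

open MeasureTheory ProbabilityTheory Filter Topology Pool.Agent.W_MP_7d29a1_pr
  Pool.Agent.W_7d29a1_h46 Pool.Agent.W_7d29a1_h46u Pool.Agent.W_7d29a1_D2 Pool.Agent.W_7d29a1_Q29
  Pool.Agent.W_7d29a1_SP Pool.Agent.W_7d29a1_SD

variable {d : ℕ} {ρ : Measure ℝ} {β : ℝ}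

lemma RS_mono2 [IsProbabilityMeasure ρ] {h : Vec d} {n p : ℕ} {M M' δ δ' : ℝ} (hM : M ≤ M')
    (hδ : δ ≤ δ') (H : RS ρ β h n p M δ) : RS ρ β h n p M' δ' := by
  unfold RS at H ⊢
  refine (measureReal_mono fun w hw => ?_).trans (H.trans hδ)
  exact lt_of_le_of_lt hM hw

/-- The mass outside of the tube decreases with its radius. -/
lemma Tb_antiZ [IsProbabilityMeasure ρ] (β : ℝ) (h v : Vec d) {R R' : ℝ} (n : ℕ) (hR : R ≤ R') :
    Tb ρ β h v R' n ≤ Tb ρ β h v R n := by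
  have hint : ∀ E : Set (Fin n → Step d), Integrable (fun η => 1 - PolT β h η E) (law d ρ) := by
    intro E
    refine (integrable_const 1).sub (Integrable.of_bound
      (measurable_PolT β h E).aestronglyMeasurable 1 (Filter.Eventually.of_forall fun η => ?_))
    rw [Real.norm_eq_abs, abs_of_nonneg (PolT_nonneg β h η E)]
    exact PolT_le_one β h η E
  refine integral_mono (hint _) (hint _) fun η => ?_
  have h1 := PolT_mono β h η
    (tube_mono (n := n) v (mul_le_mul_of_nonneg_right hR (Real.sqrt_nonneg n)))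
  simp only
  linarith

/-- The velocity is a slope of the free energy. -/
lemma slopeZ [IsProbabilityMeasure ρ] (hd : 0 < d) (hρ : EM ρ) {h v : Vec d} {δ : ℝ}
    (hδ : δ < 1 / 2) (hT : HalfD ρ β h v δ) (k : Vec d) :
    lam ρ β h + inner ℝ v k ≤ lam ρ β (h + k) := by
  refine coreG20 hd hρ h v k (θ := 1 / 2) (α := 1 / 2) (by norm_num) (by norm_num)
    (fun n : ℕ => (n : ℝ) ^ δ * Real.sqrt n) ?_ ?_
  · have h1 : Tendsto (fun n : ℕ => (n : ℝ) ^ (-(1 / 2 - δ) : ℝ)) atTop (𝓝 0) :=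
      (tendsto_rpow_neg_atTop (by linarith)).comp tendsto_natCast_atTop_atTop
    refine h1.congr' ?_
    filter_upwards [eventually_ge_atTop 1] with n hn
    have hn0 : (0 : ℝ) < n := by exact_mod_cast hn
    have e1 : (n : ℝ) ^ (-(1 / 2 - δ) : ℝ) * (n : ℝ) ^ (1 : ℝ) =
        (n : ℝ) ^ δ * (n : ℝ) ^ (1 / 2 : ℝ) := by
      rw [← Real.rpow_add hn0, ← Real.rpow_add hn0]
      congr 1
      ring
    rw [eq_div_iff hn0.ne', Real.sqrt_eq_rpow, ← e1, Real.rpow_one]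
  · filter_upwards [hT (1 / 4) (by norm_num)] with n hn
    have h1 := goodG20 (ρ := ρ) (β := β) h v n ((n : ℝ) ^ δ * Real.sqrt n)
    have h2 : ∫ η, (1 - PolT β h η (tube d n v ((n : ℝ) ^ δ * Real.sqrt n)))
        ∂(law d ρ) ≤ 1 / 4 := hn
    linarith

lemma algA70 {C a P : ℝ} (hP : 1 ≤ P * P) :
    C * (a * P) * (a * P) + 2 * (C * (a * P)) * P + 6 ≤
      (C * a ^ 2 + 2 * C * a + 6) * (P * P) := by
  have e1 : C * (a * P) * (a * P) = C * a ^ 2 * (P * P) := by ring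
  have e2 : 2 * (C * (a * P)) * P = 2 * C * a * (P * P) := by ring
  have e3 : (C * a ^ 2 + 2 * C * a + 6) * (P * P) =
      C * a ^ 2 * (P * P) + 2 * C * a * (P * P) + 6 * (P * P) := by ring
  rw [e1, e2, e3]
  linarith

lemma algB70 {κ L s P r : ℝ} (hκ : 0 < κ) (hs : 0 < s) (hP : 0 < P) (hss : s * s = L)
    (h2 : 2 / κ ≤ L) (hr : 10 / κ * P / s / 2 ≤ r) :
    2 * P * s < ((⌊κ * L⌋₊ : ℕ) : ℝ) * r := by
  have h9 : κ * L - 1 ≤ ((⌊κ * L⌋₊ : ℕ) : ℝ) := by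
    have := Nat.lt_floor_add_one (κ * L)
    linarith
  have h10 : 2 ≤ κ * L := by
    rw [div_le_iff₀ hκ] at h2
    linarith
  have h11 : κ * L / 2 ≤ ((⌊κ * L⌋₊ : ℕ) : ℝ) := by linarith
  have h12 : κ * L / 2 * (10 / κ * P / s / 2) ≤ ((⌊κ * L⌋₊ : ℕ) : ℝ) * r :=
    mul_le_mul h11 hr (by positivity) (Nat.cast_nonneg _)
  refine lt_of_lt_of_le ?_ h12
  have e : κ * L / 2 * (10 / κ * P / s / 2) = 5 / 2 * P * s := by
    rw [← hss]
    field_simp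
    ring
  rw [e]
  nlinarith [mul_pos hP hs]

lemma algC70 {a L γ r : ℝ} (hL : 1 ≤ L) (ha : 0 < a)
    (h1 : a * L ^ (-(1 / 2 - γ) : ℝ) < r) : a * L ^ γ / Real.sqrt L ≤ r := by
  have hL0 : (0 : ℝ) < L := by linarith
  refine le_trans ?_ h1.le
  rw [mul_div_assoc]
  refine mul_le_mul_of_nonneg_left ?_ ha.le
  rw [Real.sqrt_eq_rpow, ← Real.rpow_sub hL0]
  exact Real.rpow_le_rpow_of_exponent_le hL (by linarith)

/-- **Leaf SEL.** -/
theorem selK70 [IsProbabilityMeasure ρ] (hd : 0 < d) (hρ : EM ρ) (hP : PairS d ρ β) :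
    SelK d ρ β := by
  classical
  set E : ℕ → ℚ → ℕ → Set (Vec d) := fun j q N =>
    {v | ∃ h : Vec d, (∀ k : Vec d, lam ρ β h + inner ℝ v k ≤ lam ρ β (h + k)) ∧
      ∀ n : ℕ, N ≤ n → Tb ρ β h v ((n : ℝ) ^ (q : ℝ)) n ≤ 1 / ((j : ℝ) + 1)} with hE
  have hann : ∀ᵐ v : Vec d, ∀ (j : ℕ) (q : ℚ) (N : ℕ), v ∈ E j q N → Sel70.Ann (E j q N) v :=
    ae_all_iff.2 fun j => ae_all_iff.2 fun q => ae_all_iff.2 fun N => Sel70.ae_ann hd (E j q N)
  unfold SelK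
  filter_upwards [hann, Sel70.ae_lip (lam_convex hd hρ β)] with v hv1 hv2 h δ₁ γ₁ hδ₁ hδγ hγ1 hT₁
  intro κ ε hκ hκ1 hε
  obtain ⟨q, hq1, hq2⟩ := exists_rat_btwn hδγ
  have hslope := slopeZ hd hρ (hδγ.trans hγ1) hT₁
  obtain ⟨C, δ₀, hC, hδ₀, hLip⟩ := hv2 h hslope
  obtain ⟨j, hj⟩ := exists_nat_ge (10 / ε)
  have hj0 : (0 : ℝ) < (j : ℝ) + 1 := by positivity
  set γ : ℝ := (q : ℝ) with hγ
  have hγ0 : 0 < γ := lt_of_le_of_lt hδ₁ hq1
  have hγδ : γ ≤ γ₁ := hq2.le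
  have hγ2 : γ < 1 / 2 := hq2.trans hγ1
  have hjε : 10 * (1 / ((j : ℝ) + 1)) ≤ ε := by
    rw [div_le_iff₀ hε] at hj
    rw [mul_one_div, div_le_iff₀ hj0]
    nlinarith
  have hTγ : ∀ᶠ n : ℕ in atTop, Tb ρ β h v ((n : ℝ) ^ γ) n ≤ 1 / ((j : ℝ) + 1) := by
    filter_upwards [hT₁ (1 / ((j : ℝ) + 1)) (by positivity), eventually_ge_atTop 1] with n hn hn1
    have hnR : (1 : ℝ) ≤ n := by exact_mod_cast hn1
    exact (Tb_antiZ β h v n (Real.rpow_le_rpow_of_exponent_le hnR hq1.le)).trans hn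
  obtain ⟨N, hN⟩ := eventually_atTop.1 hTγ
  obtain ⟨r₀, hr₀, hA⟩ := hv1 j q N ⟨h, hslope, hN⟩
  set a₀ : ℝ := 10 / κ with ha₀
  have ha0 : 0 < a₀ := by positivity
  refine ⟨C * a₀ ^ 2 + 2 * C * a₀ + 6, by positivity, ?_⟩
  have hlim : Tendsto (fun L : ℕ => a₀ * (L : ℝ) ^ (-(1 / 2 - γ) : ℝ)) atTop (𝓝 (a₀ * 0)) :=
    (((tendsto_rpow_neg_atTop (by linarith)).comp tendsto_natCast_atTop_atTop)).const_mul a₀
  rw [mul_zero] at hlim
  have hmin : 0 < min r₀ δ₀ := lt_min hr₀ hδ₀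
  have hc2 : ∀ᶠ L : ℕ in atTop, 2 / κ ≤ (L : ℝ) :=
    tendsto_natCast_atTop_atTop.eventually (eventually_ge_atTop _)
  filter_upwards [hlim.eventually (gt_mem_nhds hmin), hc2, eventually_ge_atTop 1,
    eventually_ge_atTop N] with L h1 h2 h3 h4
  have hL1 : (1 : ℝ) ≤ L := by exact_mod_cast h3
  have hL0 : (0 : ℝ) < L := by linarith
  set s : ℝ := Real.sqrt L with hs
  have hs0 : 0 < s := Real.sqrt_pos.2 hL0
  have hss : s * s = L := Real.mul_self_sqrt hL0.le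
  set P : ℝ := (L : ℝ) ^ γ with hP'
  have hP1 : 1 ≤ P := Real.one_le_rpow hL1 hγ0.le
  have hP0 : 0 < P := by linarith
  have hr : a₀ * P / s ≤ min r₀ δ₀ := algC70 hL1 ha0 h1
  obtain ⟨y, ⟨g, hgs, hgT⟩, hy1, hy2⟩ := hA (a₀ * P / s) (by positivity)
    (hr.trans (min_le_left _ _))
  have h5 := hLip g y hgs (hy2.trans (hr.trans (min_le_right _ _)))
  have h6 : ‖y - v‖ * s ≤ a₀ * P := by rwa [le_div_iff₀ hs0] at hy2
  have h7 : ‖g - h‖ * s ≤ C * (a₀ * P) := by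
    calc ‖g - h‖ * s ≤ C * ‖y - v‖ * s := mul_le_mul_of_nonneg_right h5 hs0.le
      _ = C * (‖y - v‖ * s) := by ring
      _ ≤ C * (a₀ * P) := mul_le_mul_of_nonneg_left h6 hC.le
  have h8 : 2 * P * s < ((⌊κ * L⌋₊ : ℕ) : ℝ) * ‖y - v‖ := algB70 hκ hs0 hP0 hss h2 hy1
  have h9 := hP h g v y L ⌊κ * L⌋₊ P (a₀ * P) (C * (a₀ * P)) (1 / ((j : ℝ) + 1)) hP0.le
    (by positivity) (by positivity) h6 h7 h8 (hN L h4) (hgT L h4)
  refine RS_mono2 ?_ hjε h9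
  have h10 : P * P ≤ (L : ℝ) ^ (2 * γ₁) := by
    rw [hP', ← Real.rpow_add hL0]
    exact Real.rpow_le_rpow_of_exponent_le hL1 (by linarith)
  have h11 : (1 : ℝ) ≤ P * P := by nlinarith
  exact (algA70 h11).trans (mul_le_mul_of_nonneg_left h10 (by positivity))

end Pool.Agent.W_7d29a1_KZ
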