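import Pool.Agent.W_7d29a1_KZ.EvV5
import Pool.Agent.W_7d29a1_KZ.FinA72
import Pool.Agent.W_7d29a1_KZ.Adp72
import Pool.Agent.W_7d29a1_KZ.GapN41
import Pool.Agent.W_7d29a1_KZ.Dom44
import Pool.Agent.W_7d29a1_KZ.SelK70
import Pool.Agent.W_7d29a1_KZ.PriK74
import Pool.Agent.W_7d29a1_KZ.Nvs20
import Pool.Agent.W_7d29a1_KZ.TrZ19
import Pool.Agent.W_7d29a1_SD.Rs6
import Pool.Agent.W_7d29a1_SQ.Flu78
import Pool.Agent.W_7d29a1_SQ.Tai94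
import Pool.Agent.W_7d29a1_UN.FinN70

/-!
Theorem KZ for every law with exponential moments, every dimension, no hypothesis left (helper5).
-/

set_option autoImplicit false

namespace Pool.Agent.W_7d29a1_KZ

open MeasureTheory ProbabilityTheory Filter Topology Pool.Agent.W_MP_7d29a1_pr
  Pool.Agent.W_7d29a1_h46 Pool.Agent.W_7d29a1_h46u Pool.Agent.W_7d29a1_D2.B35
  Pool.Agent.W_7d29a1_Q29 Pool.Agent.W_7d29a1_R34 Pool.Agent.W_7d29a1_SP Pool.Agent.W_7d29a1_SD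
  Pool.Agent.W_7d29a1_SQ

variable {d : ℕ} {ρ : Measure ℝ} {β : ℝ}

/-- Leaf DOM, every law. -/
theorem domKAll5 [IsProbabilityMeasure ρ] (hd : 0 < d) (hρ : EM ρ) (hnc : ∀ c : ℝ, ρ {c} ≠ 1)
    (hβ : 0 < β) : DomK d ρ β := domK44 hd hρ (gapK41 hd hρ hnc hβ)

/-- Leaf REC, every law. -/
theorem recKAll5 [IsProbabilityMeasure ρ] (hd : 0 < d) (hρ : EM ρ) (hnc : ∀ c : ℝ, ρ {c} ≠ 1)
    (hβ : 0 < β) : RecK d ρ β := by
  have hT : TaiP d ρ β := tai94 (cnt79 hd hρ β)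
  exact recKN5 (flu78 hd hρ hT) (balN5 hd hρ hT (lowT5 hd hρ hnc hβ))
    (Pool.Agent.W_7d29a1_AM.ampNAll5 hd hρ hnc hβ) (sscF35 hd hρ β)

/-- Leaf VAR, every law. -/
theorem varFAll5 [IsProbabilityMeasure ρ] (hd : 0 < d) (hρ : EM ρ) (hnc : ∀ c : ℝ, ρ {c} ≠ 1)
    (hβ : 0 < β) : VarF d ρ β := varFN5 hd hρ (cnt79 hd hρ β) (lowT5 hd hρ hnc hβ)

/-- **THEOREM KZ, every law**, all large `n`. -/
theorem mainKAll5 [IsProbabilityMeasure ρ] (hd : 0 < d) (hρ : EM ρ) (hnc : ∀ c : ℝ, ρ {c} ≠ 1)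
    (hβ : 0 < β) : MainKA d ρ β :=
  finKA72 (selK70 hd hρ (pairS6 hd β)) (domKAll5 hd hρ hnc hβ) (recKAll5 hd hρ hnc hβ)
    (varFAll5 hd hρ hnc hβ) (P74.priK74 hd hρ β) fun _ hV => W_7d29a1_UN.loc1N hd hρ hV

/-- **THEOREM KZ, every law**, all large `n`, all the times up to `n`. -/
theorem mainKZAll5 [IsProbabilityMeasure ρ] (hd : 0 < d) (hρ : EM ρ) (hnc : ∀ c : ℝ, ρ {c} ≠ 1)
    (hβ : 0 < β) : MainKZA d ρ β :=
  finKZA58 (selK70 hd hρ (pairS6 hd β)) (domKAll5 hd hρ hnc hβ) (recKAll5 hd hρ hnc hβ)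
    (varFAll5 hd hρ hnc hβ) (P74.priK74 hd hρ β) allP72 fun _ hV => W_7d29a1_UN.loc1N hd hρ hV

variable {Ω : Type*} [MeasurableSpace Ω] {μ : Measure Ω} [IsProbabilityMeasure μ]
  {ω : ℕ × Site d → Ω → ℝ}

/-- **THEOREM KZ in the letters of the problem, every law with exponential moments, no hypothesis
left**: at almost every velocity `v` and EVERY tilt `h`, `ν ≥ 1 / 2`, `χ ≤ 2 ν - 1`, and for every
`x > 2 ν - 1`, for all large `n`, the variance is at most `n ^ (2 x)` and the nonrandom fluctuation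
is between `0` and `n ^ x`. -/
theorem trKAll5 [IsProbabilityMeasure ρ] (hd : 0 < d) (hω : IID μ ρ ω) (hρ : EM ρ)
    (hnc : ∀ c : ℝ, ρ {c} ≠ 1) (hβ : 0 < β) :
    ∀ᵐ v : Vec d, ∀ h : Vec d, 1 / 2 ≤ nuT μ β ω h v ∧
      chiT μ β ω h ≤ 2 * nuT μ β ω h v - 1 ∧ ∀ x : ℝ, 2 * nuT μ β ω h v - 1 < x →
        ∀ᶠ n : ℕ in atTop,
          Var[fun y => Real.log (Zn β h (fun p => ω p y) n); μ] ≤ (n : ℝ) ^ (2 * x) ∧
          0 ≤ n * lamN ρ β h - ∫ y, Real.log (Zn β h (fun p => ω p y) n) ∂μ ∧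
          n * lamN ρ β h - ∫ y, Real.log (Zn β h (fun p => ω p y) n) ∂μ ≤ (n : ℝ) ^ x :=
  trKA19 hd hω hρ (mainKAll5 hd hρ hnc hβ) (nvsP20 hd hρ hnc hβ)

end Pool.Agent.W_7d29a1_KZ
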