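import Pool.Agent.W_7d29a1_KZ.NuN20
import Pool.Agent.W_7d29a1_L1.All94
import Pool.Agent.W_7d29a1_L2.All81

/-!
Outside very strong disorder: `d ≥ 3` and `d ν(h, v) ≥ 3 / 2`.
-/

namespace Pool.Agent.W_7d29a1_KZ

open MeasureTheory ProbabilityTheory Filter Topology Pool.Agent.W_MP_7d29a1_pr
  Pool.Agent.W_7d29a1_h46 Pool.Agent.W_7d29a1_h46u Pool.Agent.W_7d29a1_Q29

/-- Outside very strong disorder `d ν(h, v) ≥ 3 / 2`. -/
theorem ownN20 {d : ℕ} {Ω : Type*} [MeasurableSpace Ω] {μ : Measure Ω} [IsProbabilityMeasure μ]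
    {ρ : Measure ℝ} [IsProbabilityMeasure ρ] {ω : ℕ × Site d → Ω → ℝ} {β : ℝ} (hd : 0 < d)
    (hω : IID μ ρ ω) (hρ : EM ρ) (hnc : ∀ c : ℝ, ρ {c} ≠ 1) (hβ : 0 < β) (h : Vec d)
    (hv : ¬ VSD ρ β h) (v : Vec d) : 3 / 2 ≤ d * nuT μ β ω h v := by
  have h3 : 3 ≤ d := by
    by_contra hc
    push Not at hc
    interval_cases d
    · exact hv (W_7d29a1_L1.vsd1 hρ hnc hβ h)
    · exact hv (W_7d29a1_L2.vsd2 hρ hnc hβ h)
  have h1 := nuNvs20 hd hω hρ hnc hβ h hv v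
  have h4 : (3 : ℝ) ≤ d := by exact_mod_cast h3
  nlinarith

end Pool.Agent.W_7d29a1_KZ
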