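import Pool.Agent.W_7d29a1_SQ.DefsSQ

/-!
Theorem KZ: the inequality `χ ≤ 2 ν - 1` for the exponents of the problem, at almost every velocity.
Definitions and frozen statements of the leaves. Paper proof: `/team-store/h70_KZ.md`.
-/

namespace Pool.Agent.W_7d29a1_KZ

open MeasureTheory ProbabilityTheory Filter Topology Pool.Agent.W_MP_7d29a1_pr
  Pool.Agent.W_7d29a1_h46 Pool.Agent.W_7d29a1_h46u Pool.Agent.W_7d29a1_D2.B35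
  Pool.Agent.W_7d29a1_Q29 Pool.Agent.W_7d29a1_R34 Pool.Agent.W_7d29a1_SP Pool.Agent.W_7d29a1_SD
  Pool.Agent.W_7d29a1_SQ

/-- A right record with the exponent `a`. -/
def RRa (a : ℝ) (f : ℕ → ℝ) (n : ℕ) : Prop :=
  1 ≤ n ∧ ∀ T : ℕ, n ≤ T → f T ≤ f n * ((T : ℝ) / n) ^ a

/-- The tube of radius `n ^ (1 / 2 + δ)` is typical. -/
def HalfD {d : ℕ} (ρ : Measure ℝ) (β : ℝ) (h v : Vec d) (δ : ℝ) : Prop :=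
  ∀ ε : ℝ, 0 < ε → ∀ᶠ n : ℕ in atTop, Tb ρ β h v ((n : ℝ) ^ δ) n ≤ ε

/-- Resampling the bulk moves the free energy of length `L` by at most `K L ^ (2 γ)`. -/
def RSa {d : ℕ} (ρ : Measure ℝ) (β : ℝ) (h : Vec d) (γ : ℝ) : Prop :=
  ∀ κ ε : ℝ, 0 < κ → κ ≤ 1 → 0 < ε → ∃ K : ℝ, 0 < K ∧ ∀ᶠ L : ℕ in atTop,
    RS ρ β h L ⌊κ * L⌋₊ (K * (L : ℝ) ^ (2 * γ)) ε

section Leaves

variable (d : ℕ) (ρ : Measure ℝ) (β : ℝ)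

/-- Leaf SEL: the partners (every law). -/
def SelK : Prop := ∀ᵐ v : Vec d, ∀ (h : Vec d) (δ γ : ℝ), 0 ≤ δ → δ < γ → γ < 1 / 2 →
  HalfD ρ β h v δ → RSa ρ β h γ

/-- Leaf GAP (laws in `GC`): the halving under a resampling bound with a constant probability. -/
def GapK : Prop := ∀ η : ℝ, 0 < η → ∃ ε₀ C : ℝ, 0 < ε₀ ∧ 1 ≤ C ∧
  ∀ (h : Vec d) (k m : ℕ) (M : ℝ), 1 ≤ k → 1 ≤ m → 0 ≤ M → RS ρ β h (k + m) k M ε₀ →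
    Gp ρ β h k m ≤
      8 * (Fn ρ β h (k + m) + Fn ρ β h k + Fn ρ β h m) + C * (k : ℝ) ^ η * (M + 1)

/-- Leaf DOM (from `GapK`): at a right record the nonrandom fluctuation does not dominate, or
everything is small. -/
def DomK : Prop := ∀ (h : Vec d) (γ η : ℝ), 0 ≤ γ → 0 < η → 2 * γ + η < 1 → RSa ρ β h γ →
  ∃ (K : ℕ) (D C : ℝ), 1 ≤ K ∧ 1 ≤ D ∧ ∀ᶠ n : ℕ in atTop, RRec (Ps ρ β h) n →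
    Ps ρ β h n ≤ C * (n : ℝ) ^ (2 * γ + η) ∨
      ∃ m : ℕ, 1 ≤ m ∧ m ≤ K * n ∧ Ps ρ β h n ≤ D * Fn ρ β h m

/-- Leaf REC (from `FluP`, `BalP`, `AmpP`, `SscF`). -/
def RecK : Prop := ∀ (c₀ D : ℝ) (K : ℕ), 0 < c₀ → 1 ≤ D → 1 ≤ K → ∃ δ₀ κ C : ℝ, 0 < δ₀ ∧
  0 < κ ∧ κ ≤ 1 ∧ ∀ h : Vec d, Loc1 ρ β h c₀ → ∀ n : ℕ, RRec (Ps ρ β h) n →
    ∀ m : ℕ, 1 ≤ m → m ≤ K * n → Ps ρ β h n ≤ D * Fn ρ β h m → ∀ M : ℝ, 0 < M →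
      (∀ L : ℕ, m ≤ L → L ≤ 2 * m → RS ρ β h L ⌊κ * L⌋₊ M δ₀) → Ps ρ β h n ≤ C * (M + 1)

/-- Leaf VAR (laws in `GC`; from `CntP`, `EhlP`): the variance at a right record with an exponent
below `1 / 2`. -/
def VarK : Prop := ∀ c₀ a : ℝ, 0 < c₀ → 0 < a → a < 1 / 2 → ∃ C : ℝ, 1 ≤ C ∧ ∀ h : Vec d,
  Loc1 ρ β h c₀ → ∀ n : ℕ, RRa a (Ps ρ β h) n → ∀ m : ℕ, m ≤ n →
    Va ρ β h m ≤ C * Ps ρ β h n ^ 2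

/-- Leaf PRI (every law): the a priori bounds from a typical tube. -/
def PriK : Prop := ∀ (h v : Vec d) (δ b : ℝ), 0 ≤ δ → δ < 1 / 2 → HalfD ρ β h v δ →
  (1 / 2 + δ) / 2 < b → ∃ C : ℝ, 0 ≤ C ∧ ∀ n : ℕ,
    En ρ β h n ≤ C * (n : ℝ) ^ b ∧ Fn ρ β h n ≤ C * (n : ℝ) ^ b

/-- **THEOREM KZ.** -/
def MainKZ : Prop := ∀ᵐ v : Vec d, ∀ h : Vec d, VSD ρ β h → ∀ δ : ℝ, 0 ≤ δ → δ < 1 / 2 →
  HalfD ρ β h v δ → ∀ x : ℝ, 2 * δ < x → ∃ᶠ n : ℕ in atTop, ∀ m : ℕ, m ≤ n →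
    Va ρ β h m ≤ (n : ℝ) ^ (2 * x) ∧ En ρ β h m ≤ (n : ℝ) ^ x

end Leaves

/-- Leaf RRA (pure): right records with the exponent `a`. -/
def RraP : Prop := ∀ (a b C : ℝ) (f : ℕ → ℝ), 0 < b → b < a → 0 ≤ C → (∀ n, 1 ≤ f n) →
  (∀ n : ℕ, f n ≤ 1 + C * (n : ℝ) ^ b) → ∀ N : ℕ, ∃ n : ℕ, N ≤ n ∧ RRa a f n

end Pool.Agent.W_7d29a1_KZ
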