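import Pool.Agent.W_7d29a1_KZ.VarF62
import Pool.Agent.W_7d29a1_SQ.BalP62
import Pool.Agent.W_7d29a1_SQ.SscF35
import Pool.Agent.W_7d29a1_AM.AmpNU5
import Pool.Agent.W_7d29a1_AM.DeepU5

/-!
Theorem KZ for every law: the leaves BAL, REC, VAR (helper5).
-/

namespace Pool.Agent.W_7d29a1_KZ

open MeasureTheory ProbabilityTheory Filter Topology Pool.Agent.W_MP_7d29a1_pr
  Pool.Agent.W_7d29a1_h46 Pool.Agent.W_7d29a1_h46u Pool.Agent.W_7d29a1_D2.B35
  Pool.Agent.W_7d29a1_Q29 Pool.Agent.W_7d29a1_R34 Pool.Agent.W_7d29a1_SP Pool.Agent.W_7d29a1_SD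
  Pool.Agent.W_7d29a1_SQ

variable {d : ℕ} {ρ : Measure ℝ} {β : ℝ}

/-- The lower tail is exponential on the scale of the upper deviations. -/
def LowT5 (d : ℕ) (ρ : Measure ℝ) (β : ℝ) : Prop := ∃ C c : ℝ, 1 ≤ C ∧ 0 < c ∧ c ≤ 1 ∧
  ∀ (h : Vec d) (m : ℕ) (s₁ a : ℝ), C ≤ a → 1 / 4 ≤ (law d ρ).real {η | s₁ < X β h η m} →
    (law d ρ).real {η | s₁ + a < X β h η m} < c → ∀ u : ℝ, 0 ≤ u →
      (law d ρ).real {η | X β h η m ≤ s₁ - u} ≤ Real.exp (1 - u / (C * a))

theorem lowT5 (hd : 0 < d) [IsProbabilityMeasure ρ] (hρ : EM ρ) (hnc : ∀ c : ℝ, ρ {c} ≠ 1)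
    (hβ : 0 < β) : LowT5 d ρ β := by
  obtain ⟨C, c, hC1, hc, hX⟩ := Pool.Agent.W_7d29a1_AM.deepU5 (d := d) hd hβ.le
    (Pool.Agent.W_7d29a1_AM.deepCAll5 hρ hnc hβ)
  refine ⟨2 * C, min c 1, by linarith, by positivity, min_le_right _ _, ?_⟩
  intro h m s₁ a ha h1 h2 u hu
  obtain ⟨q, hq⟩ : ∃ q : ℝ, q = (law d ρ).real {η | X β h η m ≤ s₁ - u} := ⟨_, rfl⟩
  rw [← hq]
  have hq0' : 0 ≤ q := by rw [hq]; exact measureReal_nonneg
  have hq1 : q ≤ 1 := by rw [hq]; exact measureReal_le_one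
  rcases hq0'.eq_or_lt with hq0 | hq0
  · rw [← hq0]
    exact (Real.exp_pos _).le
  have hlq : 0 ≤ Real.log (1 / q) := Real.log_nonneg (by rw [le_div_iff₀ hq0]; linarith)
  rcases hX h m (s₁ - u) s₁ a q hq0 hq1 (by linarith) (le_of_eq hq) h1 with h3 | h3
  · obtain ⟨Λ, hΛ⟩ : ∃ Λ : ℝ, Λ = 1 + Real.log (1 / q) := ⟨_, rfl⟩
    rw [← hΛ] at h3
    have hΛ1 : 1 ≤ Λ := by linarith
    have ha1 : 1 ≤ a := by linarith
    have h4 : Real.sqrt Λ ≤ Λ := by
      rw [Real.sqrt_le_left (by linarith)]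
      nlinarith
    have h5 : u ≤ 2 * C * a * Λ := by
      have h6 : a * Real.sqrt Λ ≤ a * Λ := mul_le_mul_of_nonneg_left h4 (by linarith)
      have h7 : Λ ≤ a * Λ := by nlinarith
      have h8 : C * (a * Real.sqrt Λ + Λ) ≤ C * (2 * (a * Λ)) :=
        mul_le_mul_of_nonneg_left (by linarith) (by linarith)
      calc u = s₁ - (s₁ - u) := by ring
        _ ≤ C * (a * Real.sqrt Λ + Λ) := h3
        _ ≤ C * (2 * (a * Λ)) := h8
        _ = 2 * C * a * Λ := by ring
    have h6 : u / (2 * C * a) ≤ Λ := by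
      rw [div_le_iff₀ (by positivity)]
      linarith
    have h7 : q = Real.exp (1 - Λ) := by
      rw [hΛ, one_div, Real.log_inv]
      have : 1 - (1 + -Real.log q) = Real.log q := by ring
      rw [this, Real.exp_log hq0]
    rw [h7]
    exact Real.exp_le_exp.2 (by linarith)
  · exfalso
    have := min_le_left c 1
    linarith

lemma exp2_5 {z : ℝ} (hz : 0 < z) : Real.exp (1 - z) ≤ 6 / z ^ 2 := by
  have h1 := Real.quadratic_le_exp_of_nonneg hz.le
  have h2 := Real.exp_one_lt_d9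
  rw [Real.exp_sub, div_le_div_iff₀ (Real.exp_pos _) (by positivity)]
  nlinarith [sq_nonneg z, Real.exp_pos 1]

lemma exp4_5 {z : ℝ} (hz : 0 < z) : Real.exp (1 - z) ≤ 1152 / z ^ 4 := by
  have h1 := Real.quadratic_le_exp_of_nonneg (show 0 ≤ z / 2 by positivity)
  have h2 := Real.exp_one_lt_d9
  have h3 : Real.exp z = Real.exp (z / 2) ^ 2 := by
    rw [← Real.exp_nat_mul]
    congr 1
    push_cast
    ring
  have h4 : (z / 2) ^ 2 / 2 ≤ Real.exp (z / 2) := by nlinarith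
  have h5 : ((z / 2) ^ 2 / 2) ^ 2 ≤ Real.exp z := by
    rw [h3]
    exact pow_le_pow_left₀ (by positivity) h4 2
  rw [Real.exp_sub, div_le_div_iff₀ (Real.exp_pos _) (by positivity)]
  have h6 : z ^ 4 ≤ 64 * Real.exp z := by nlinarith
  nlinarith [Real.exp_pos z, Real.exp_pos 1, pow_pos hz 4]

/-- **Leaf BAL, every law.** -/
theorem balN5 [IsProbabilityMeasure ρ] (hd : 0 < d) (hρ : EM ρ) (hT : TaiP d ρ β)
    (hL5 : LowT5 d ρ β) : BalP d ρ β := by
  obtain ⟨Cd, c, hCd, hc0, hc1, hlow5⟩ := hL5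
  intro c₀ x hc hx K
  obtain ⟨C, hC, hT⟩ := hT c₀ hc K
  have hC0 : (0 : ℝ) < C := by linarith
  obtain ⟨K1, hK1⟩ : ∃ K1 : ℝ, K1 = Cd + 2 * C / c := ⟨_, rfl⟩
  have hK1c : 2 * C / c ≤ K1 := by linarith
  have hK1d : Cd ≤ K1 := by
    have : 0 ≤ 2 * C / c := by positivity
    linarith
  have hK10 : 0 < K1 := by linarith
  obtain ⟨G, hG⟩ : ∃ G : ℝ, G = Cd * K1 := ⟨_, rfl⟩
  have hG0 : 0 < G := by rw [hG]; positivity
  refine ⟨min (1 / 2) (x ^ 2 / (96 * G ^ 2)), by positivity, ?_⟩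
  intro h hL n hn m hm hmK
  have hP1 : 1 ≤ Ps ρ β h n := one_le_Ps62 β h n
  obtain ⟨P, hP⟩ : ∃ P : ℝ, P = Ps ρ β h n := ⟨_, rfl⟩
  rw [← hP] at hP1 ⊢
  have hP0 : 0 < P := by linarith
  obtain ⟨a, ha⟩ : ∃ a : ℝ, a = A ρ β h m := ⟨_, rfl⟩
  rw [← ha]
  by_contra hcon
  have hq := not_le.1 hcon
  have hq1 := hq.trans_le (min_le_left _ _)
  have hq2 := hq.trans_le (min_le_right _ _)
  obtain ⟨q, hqd⟩ : ∃ q : ℝ, q = (law d ρ).real {η | X β h η m ≤ a + x * P} := ⟨_, rfl⟩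
  rw [← hqd] at hq1 hq2
  have mX := measurable_X (d := d) β h m
  have hxP : 0 < x * P := by positivity
  -- the upper side
  have hup1 : 1 / 4 ≤ (law d ρ).real {η | a + x * P < X β h η m} := by
    have h1 := probReal_compl_eq_one_sub (μ := law d ρ)
      (measurableSet_le mX (measurable_const (a := a + x * P)))
    have h2 : ({η | X β h η m ≤ a + x * P} : Set (Env d))ᶜ = {η | a + x * P < X β h η m} := by
      ext η
      simp
    rw [h2, ← hqd] at h1
    rw [h1]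
    linarith
  have hup2 : (law d ρ).real {η | a + x * P + K1 * P < X β h η m} < c := by
    have h1 := hT h hL n hn m hm hmK (K1 * P) (by positivity)
    rw [← hP] at h1
    have e1 : C * P / (K1 * P) = C / K1 := by field_simp
    rw [e1] at h1
    have h2 : C / K1 ≤ c / 2 := by
      rw [div_le_iff₀ hK10]
      have h3 := mul_le_mul_of_nonneg_left hK1c (by positivity : 0 ≤ c / 2)
      have e2 : c / 2 * (2 * C / c) = C := by field_simp
      rw [e2] at h3
      exact h3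
    have h3 : (C / K1) ^ (3 / 2 : ℝ) ≤ C / K1 := by
      have h4 := Real.rpow_le_rpow_of_exponent_ge (x := C / K1) (by positivity) (by linarith)
        (show (1 : ℝ) ≤ 3 / 2 by norm_num)
      rwa [Real.rpow_one] at h4
    refine lt_of_le_of_lt ((measureReal_mono ?_).trans (h1.trans (h3.trans h2))) (by linarith)
    intro η hη
    have hη1 : a + x * P + K1 * P < X β h η m := hη
    show A ρ β h m + K1 * P ≤ X β h η m
    rw [← ha]
    linarith
  -- the lower tail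
  have hlow : ∀ u : ℝ, 0 < u →
      (law d ρ).real {η | u ≤ -(X β h η m - a)} ≤ 6 * G ^ 2 * P ^ 2 / u ^ 2 := by
    intro u hu
    have h1 := hlow5 h m (a + x * P) (K1 * P) (by nlinarith) hup1 hup2 (u + x * P)
      (by linarith)
    have e1 : a + x * P - (u + x * P) = a - u := by ring
    have e3 : Cd * (K1 * P) = G * P := by rw [hG]; ring
    rw [e1, e3] at h1
    have e2 : {η : Env d | u ≤ -(X β h η m - a)} = {η | X β h η m ≤ a - u} := by
      ext η
      simp only [Set.mem_ofPred_eq]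
      constructor <;> intro h3 <;> linarith
    rw [e2]
    have h2 : Real.exp (1 - (u + x * P) / (G * P)) ≤ Real.exp (1 - u / (G * P)) := by
      apply Real.exp_le_exp.2
      have : u / (G * P) ≤ (u + x * P) / (G * P) :=
        div_le_div_of_nonneg_right (by linarith) (by positivity)
      linarith
    refine h1.trans (h2.trans ((exp2_5 (show 0 < u / (G * P) by positivity)).trans
      (le_of_eq ?_)))
    field_simp
  have hB0 : 0 < 24 * G ^ 2 / x * P := by positivity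
  have hi := intX15 hd hρ β h m
  have hmean := mean15 hd hρ β h m
  rw [← ha] at hi hmean
  have hexc := B62.exc62 (μ := law d ρ) hi.neg (D := 6 * G ^ 2 * P ^ 2)
    (B := 24 * G ^ 2 / x * P) (by positivity) hB0 (fun u hu => hlow u (hB0.trans_le hu))
  have hside := B62.side62 (μ := law d ρ) ((measurable_X β h m).sub_const _)
    hi hmean (a := x * P) (B := 24 * G ^ 2 / x * P)
    (e := 6 * G ^ 2 * P ^ 2 / (24 * G ^ 2 / x * P)) hexc
  have e3 : {η : Env d | X β h η m - a ≤ x * P} = {η | X β h η m ≤ a + x * P} := by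
    ext η
    simp only [Set.mem_ofPred_eq]
    constructor <;> intro h3 <;> linarith
  rw [e3, ← hqd] at hside
  have e4 : 6 * G ^ 2 * P ^ 2 / (24 * G ^ 2 / x * P) = x * P / 4 := by
    field_simp
    ring
  rw [e4] at hside
  have h7 : x * P / 2 ≤ x * P * (1 - q) := by nlinarith
  have h8 : 24 * G ^ 2 / x * P * q < x * P / 4 := by
    have h9 : 24 * G ^ 2 / x * P * q < 24 * G ^ 2 / x * P * (x ^ 2 / (96 * G ^ 2)) :=
      mul_lt_mul_of_pos_left hq2 hB0
    have e5 : 24 * G ^ 2 / x * P * (x ^ 2 / (96 * G ^ 2)) = x * P / 4 := by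
      field_simp
      ring
    rw [e5] at h9
    exact h9
  linarith

/-- **Leaf REC, every law.** -/
theorem recKN5 [IsProbabilityMeasure ρ] (hF : FluP d ρ β) (hB : BalP d ρ β)
    (hA : Pool.Agent.W_7d29a1_AM.AmpN ρ β d) (hS : SscF d ρ β) : RecK d ρ β := by
  intro c₀ D K hc hD hK
  have hKR : (1 : ℝ) ≤ K := by exact_mod_cast hK
  obtain ⟨Cs, δs, hCs, hδs, kS⟩ := hS c₀ hc
  have hD0 : 0 < D := by linarith
  have hCs0 : 0 < Cs := by linarith
  obtain ⟨c₁, hc₁, kF⟩ := hF c₀ (1 / D) hc (by positivity) K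
  obtain ⟨c₂, hc₂, kB⟩ := hB c₀ (1 / (16 * D)) hc (by positivity) K
  have hCK : 1 ≤ Cs * K := one_le_mul_of_one_le_of_one_le hCs hKR
  have hCKD : 1 ≤ Cs * K * D := one_le_mul_of_one_le_of_one_le hCK hD
  obtain ⟨Ca, hCa, kA⟩ := hA (32 * (Cs * K * D)) (by linarith)
  obtain ⟨q, hq⟩ : ∃ q : ℝ, q = min (min c₁ c₂) (1 / 2) := ⟨_, rfl⟩
  have hq0 : 0 < q := by rw [hq]; exact lt_min (lt_min hc₁ hc₂) (by norm_num)
  have hq2 : q ≤ 1 / 2 := by rw [hq]; exact min_le_right _ _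
  have hqc₁ : q ≤ c₁ := by rw [hq]; exact (min_le_left _ _).trans (min_le_left _ _)
  have hqc₂ : q ≤ c₂ := by rw [hq]; exact (min_le_left _ _).trans (min_le_right _ _)
  obtain ⟨q', hq'⟩ : ∃ q' : ℝ, q' = q ^ Ca := ⟨_, rfl⟩
  have hq'0 : 0 < q' := by rw [hq']; exact Real.rpow_pos_of_pos hq0 _
  have hlq : 0 ≤ Real.log (1 / q) := Real.log_nonneg (by rw [le_div_iff₀ hq0]; linarith)
  obtain ⟨E, hE⟩ : ∃ E : ℝ, E = 16 * D * (Ca * (1 + Real.log (1 / q))) := ⟨_, rfl⟩
  have hE1 : 1 ≤ E := by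
    have h1 : 1 ≤ Ca * (1 + Real.log (1 / q)) := by nlinarith
    rw [hE]
    nlinarith
  refine ⟨min δs (q' / Cs), min (c₀ / 4) 1, E, lt_min hδs (by positivity),
    lt_min (by positivity) one_pos, min_le_right _ _, ?_⟩
  intro h hL n hn m hm hmn hDF M hM hRS
  have hP1 := one_le_Ps62 (ρ := ρ) β h n
  obtain ⟨P, hP⟩ : ∃ P : ℝ, P = Ps ρ β h n := ⟨_, rfl⟩
  rw [← hP] at hP1 hDF ⊢
  have hP0 : 0 < P := by linarith
  by_cases hPE : P ≤ E
  · nlinarith
  rw [not_le] at hPE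
  have hFm : 1 / D * P ≤ Fn ρ β h m := by
    rw [div_mul_eq_mul_div, one_mul, div_le_iff₀ hD0]
    linarith
  have h1 := kF h hL n hn m hm hmn (by rw [← hP]; exact hFm)
  have h2 := kB h hL n hn m hm hmn
  rw [← hP] at h2
  have h3 : q ≤ (law d ρ).real {η | A ρ β h m + 1 / (8 * D) * P < X β h η m} := by
    refine hqc₁.trans (h1.trans (measureReal_mono fun η hη => ?_))
    have hη1 : A ρ β h m + Fn ρ β h m / 8 < X β h η m := hη
    show A ρ β h m + 1 / (8 * D) * P < X β h η m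
    have e : 1 / (8 * D) * P = 1 / D * P / 8 := by
      field_simp
    rw [e]
    linarith
  have h4 : q ≤ (law d ρ).real {η | X β h η m ≤ A ρ β h m + 1 / (16 * D) * P} :=
    hqc₂.trans h2
  have e0 : 1 / (8 * D) * P = 2 * (1 / (16 * D) * P) := by
    field_simp
    ring
  have hx0 : 0 < 1 / (16 * D) * P := by positivity
  have hlogc : Ca * (1 + Real.log (1 / q)) ≤ 1 / (16 * D) * P := by
    have h5 : 1 / (16 * D) * E = Ca * (1 + Real.log (1 / q)) := by
      rw [hE]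
      field_simp
    rw [← h5]
    exact mul_le_mul_of_nonneg_left hPE.le (by positivity)
  have h5 := kA h m (A ρ β h m + 1 / (16 * D) * P) (A ρ β h m + 1 / (8 * D) * P) q hq0 hq2
    (by linarith) h4 h3
  rw [← hq'] at h5
  have h6 : Cs * min δs (q' / Cs) ≤
      (law d ρ).real {η | A ρ β h m + 2 * Cs * K * P ≤ X β h η m} := by
    have h7 : Cs * min δs (q' / Cs) ≤ q' := by
      calc Cs * min δs (q' / Cs) ≤ Cs * (q' / Cs) :=
            mul_le_mul_of_nonneg_left (min_le_right _ _) hCs0.le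
        _ = q' := by field_simp
    refine h7.trans (h5.trans (measureReal_mono fun η hη => ?_))
    have hη1 : A ρ β h m + 1 / (8 * D) * P + 32 * (Cs * K * D) *
      (A ρ β h m + 1 / (8 * D) * P - (A ρ β h m + 1 / (16 * D) * P)) < X β h η m := hη
    show A ρ β h m + 2 * Cs * K * P ≤ X β h η m
    have e : 32 * (Cs * K * D) *
        (A ρ β h m + 1 / (8 * D) * P - (A ρ β h m + 1 / (16 * D) * P)) = 2 * Cs * K * P := by
      field_simp
      ring
    rw [e] at hη1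
    linarith [show 0 < 1 / (8 * D) * P by positivity]
  -- the fluctuations up to `m`
  have hn1 : 1 ≤ n := hn.1
  have hn0 : (0 : ℝ) < n := by exact_mod_cast hn1
  have hnK : n ≤ K * n := by nlinarith
  have hPK : Ps ρ β h (K * n) ≤ K * P := by
    have h7 := hn.2 (K * n) hnK
    have e : (((K * n : ℕ) : ℝ) / n) = K := by
      push_cast
      field_simp
    rw [e, ← hP] at h7
    have h8 : (K : ℝ) ^ (2 / 3 : ℝ) ≤ (K : ℝ) ^ (1 : ℝ) :=
      Real.rpow_le_rpow_of_exponent_le hKR (by norm_num)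
    rw [Real.rpow_one] at h8
    calc Ps ρ β h (K * n) ≤ P * (K : ℝ) ^ (2 / 3 : ℝ) := h7
      _ ≤ P * K := mul_le_mul_of_nonneg_left h8 hP0.le
      _ = K * P := mul_comm _ _
  have h7 := kS h hL (min (c₀ / 4) 1) m (2 * Cs * K * P) M (min δs (q' / Cs)) (K * P)
    (lt_min (by positivity) one_pos) (min_le_left _ _) hm hM (lt_min hδs (by positivity))
    (min_le_left _ _) hRS (fun k hk => ⟨by
      have := En_le_Ps32 (ρ := ρ) (β := β) h (hk.trans hmn)
      linarith, by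
      have := Fn_le_Ps32 (ρ := ρ) (β := β) h (hk.trans hmn)
      linarith⟩) h6
  have h8 : Cs * (2 * (K * P)) ≤ Cs * (K * P + M + 1) := by
    calc Cs * (2 * (K * P)) = 2 * Cs * K * P := by ring
      _ ≤ _ := h7
  have h9 := le_of_mul_le_mul_left h8 hCs0
  have h10 : P ≤ K * P := le_mul_of_one_le_left hP0.le hKR
  nlinarith

end Pool.Agent.W_7d29a1_KZ
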