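import Pool.Agent.W_7d29a1_KZ.Var72
import Pool.Agent.W_7d29a1_AM.DeepU5

/-!
Leaf VAR of Theorem KZ for every law with exponential moments (helper41, from helper62's and
helper72's text): the lower tail by the deep lower deviations of helper5.
-/

set_option autoImplicit false

namespace Pool.Agent.W_7d29a1_KZ

open MeasureTheory ProbabilityTheory Filter Topology Pool.Agent.W_MP_7d29a1_pr
  Pool.Agent.W_7d29a1_h46 Pool.Agent.W_7d29a1_h46u Pool.Agent.W_7d29a1_D2.B35
  Pool.Agent.W_7d29a1_Q29 Pool.Agent.W_7d29a1_R34 Pool.Agent.W_7d29a1_SP Pool.Agent.W_7d29a1_SD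
  Pool.Agent.W_7d29a1_SQ Pool.Agent.W_7d29a1_AM

variable {d : ℕ} {ρ : Measure ℝ} {β : ℝ}

/-- The numbers of the lower tail. -/
lemma lowT41 {C₂ K K₃ P x q : ℝ} (hC₂ : 1 ≤ C₂) (hK : 2 < K) (hP : 1 ≤ P)
    (hx : 6 * K₃ * P ≤ x) (hq0 : 0 < q) (hq1 : q ≤ 1)
    (h1 : x - 2 * P ≤ C₂ * (K * P * Real.sqrt (1 + Real.log (1 / q)) + (1 + Real.log (1 / q))))
    (hK₃ : K₃ = C₂ * (K + 1)) : q ≤ (6 * K₃ * P / x) ^ (4 : ℝ) := by
  have hK₃3 : 3 ≤ K₃ := by rw [hK₃]; nlinarith
  have hP0 : 0 < P := by linarith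
  have hKP3 : 0 < K₃ * P := by positivity
  have hx0 : 0 < x := lt_of_lt_of_le (by positivity) hx
  obtain ⟨l, hl⟩ : ∃ l : ℝ, l = 1 + Real.log (1 / q) := ⟨_, rfl⟩
  have hl1 : 1 ≤ l := by
    rw [hl]
    have : 0 ≤ Real.log (1 / q) := Real.log_nonneg (by rw [le_div_iff₀ hq0]; linarith)
    linarith
  rw [← hl] at h1
  have hsl : Real.sqrt l ≤ l := by
    rw [Real.sqrt_le_left (by linarith)]
    nlinarith
  have h2 : x - 2 * P ≤ K₃ * P * l := by
    have h4 : K * P * Real.sqrt l ≤ K * P * l := mul_le_mul_of_nonneg_left hsl (by positivity)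
    have h5 : l ≤ P * l := le_mul_of_one_le_left (by linarith) hP
    have h3 : C₂ * (K * P * Real.sqrt l + l) ≤ C₂ * (K * P * l + P * l) :=
      mul_le_mul_of_nonneg_left (add_le_add h4 h5) (by linarith)
    have h6 : K₃ * P * l = C₂ * (K * P * l + P * l) := by rw [hK₃]; ring
    linarith
  have hPK : P ≤ K₃ * P := le_mul_of_one_le_left hP0.le (by linarith)
  have hx2 : x / 2 ≤ x - 2 * P := by
    have h3 : 6 * K₃ * P = 6 * (K₃ * P) := by ring
    linarith
  obtain ⟨y, hy⟩ : ∃ y : ℝ, y = x / (2 * (K₃ * P)) := ⟨_, rfl⟩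
  have hy0 : 0 < y := by rw [hy]; positivity
  have hyl : y ≤ l := by
    rw [hy, div_le_iff₀ (by positivity)]
    linarith
  have hqe : q ≤ Real.exp (1 - y) := by
    have h4 : Real.log (1 / q) = -Real.log q := by
      rw [one_div, Real.log_inv]
    have h5 : Real.log q ≤ 1 - y := by
      rw [hl, h4] at hyl
      linarith
    calc q = Real.exp (Real.log q) := (Real.exp_log hq0).symm
      _ ≤ Real.exp (1 - y) := Real.exp_le_exp.2 h5
  have h6 : y ^ 4 / 24 ≤ Real.exp y := by
    have := Real.pow_div_factorial_le_exp y hy0.le 4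
    simpa [Nat.factorial] using this
  have h7 : Real.exp (1 - y) ≤ 81 / y ^ 4 := by
    rw [Real.exp_sub, div_le_div_iff₀ (Real.exp_pos _) (by positivity)]
    have h8 : Real.exp 1 < 3 := by
      have := Real.exp_one_lt_d9
      linarith
    have h9 : 0 < y ^ 4 := by positivity
    have h10 : Real.exp 1 * y ^ 4 ≤ 3 * y ^ 4 := mul_le_mul_of_nonneg_right h8.le h9.le
    linarith
  refine hqe.trans (h7.trans (le_of_eq ?_))
  have e4 : (6 * K₃ * P / x) ^ (4 : ℝ) = (6 * K₃ * P / x) ^ (4 : ℕ) := by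
    rw [← Real.rpow_natCast]
    norm_num
  have hK0 : K₃ ≠ 0 := by linarith
  rw [e4, hy]
  field_simp
  norm_num

/-- **Leaf VAR, every law**, from the deep lower deviations. -/
theorem varFA41 [IsProbabilityMeasure ρ] (hd : 0 < d) (hρ : EM ρ) (hβ : 0 ≤ β)
    (hC : CntP d ρ β) (hE : DeepC ρ β) : VarF d ρ β := by
  intro c₀ a hc₀ ha ha2
  obtain ⟨C₁, hC₁, htail⟩ := tail72 (d := d) (ρ := ρ) (β := β) hC c₀ a hc₀ ha (by linarith)
  have hC₁0 : 0 < C₁ := by linarith
  have hb : 2 < 1 / a := by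
    rw [lt_div_iff₀ ha]
    linarith
  have hb2 : 0 < 1 / a - 2 := by linarith
  set K₁ : ℝ := 1 / a / (1 / a - 2) * C₁ ^ 2 with hK₁
  have hK₁0 : 0 < K₁ := by positivity
  obtain ⟨C₂, c₂, hC₂, hc₂, hdeep⟩ := deepU5 (d := d) hd hβ hE
  obtain ⟨K, hKC, hKc⟩ : ∃ K : ℝ, C₂ ≤ K ∧ (C₁ / (K - 2)) ^ (1 / a) < c₂ ∧ 2 < K := by
    obtain ⟨u, hu0, hu⟩ : ∃ u : ℝ, 0 < u ∧ u ^ (1 / a) < c₂ := by
      refine ⟨(c₂ / 2) ^ a, by positivity, ?_⟩
      rw [← Real.rpow_mul (by positivity), mul_one_div_cancel ha.ne', Real.rpow_one]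
      linarith
    have hCu : 0 < C₁ / u := by positivity
    refine ⟨max C₂ (2 + C₁ / u), le_max_left _ _, ?_, ?_⟩
    · have h1 : 2 + C₁ / u ≤ max C₂ (2 + C₁ / u) := le_max_right _ _
      refine lt_of_le_of_lt (Real.rpow_le_rpow ?_ ?_ (by positivity)) hu
      · exact div_nonneg hC₁0.le (by linarith)
      · rw [div_le_iff₀ (by linarith)]
        have h2 : C₁ / u ≤ max C₂ (2 + C₁ / u) - 2 := by linarith
        rw [div_le_iff₀ hu0] at h2
        linarith
    · have h1 : 2 + C₁ / u ≤ max C₂ (2 + C₁ / u) := le_max_right _ _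
      linarith
  obtain ⟨hKc, hK2⟩ := hKc
  obtain ⟨K₃, hK₃⟩ : ∃ K₃ : ℝ, K₃ = C₂ * (K + 1) := ⟨_, rfl⟩
  have hK₃2 : 2 ≤ K₃ := by rw [hK₃]; nlinarith
  refine ⟨1 + K₁ + 2 * (6 * K₃) ^ 2, by nlinarith [sq_nonneg (6 * K₃)],
    fun h hloc n P hn1 hP1 hrec m hmn => ?_⟩
  have hPsn : Ps ρ β h n ≤ P := by
    have h0 := hrec n le_rfl
    have hnn : (n : ℝ) ≠ 0 := by
      have : (1 : ℝ) ≤ n := by exact_mod_cast hn1
      linarith
    rwa [div_self hnn, Real.one_rpow, mul_one] at h0
  have hP0 : 0 < P := by linarith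
  rcases Nat.eq_zero_or_pos m with h0 | hm
  · subst h0
    have h1 : Va ρ β h 0 = 0 := by
      unfold Va
      have h2 : ∀ η : Env d, X β h η 0 = 0 := by
        intro η
        unfold X
        rw [Z_zero, Real.log_one]
      simp [h2, A_zero15]
    rw [h1]
    positivity
  have hm1 : 1 ≤ m := hm
  have hF : Fn ρ β h m ≤ P := by
    have := Fn_le_Ps32 (ρ := ρ) (β := β) h hmn
    linarith
  have hF0 : 0 ≤ Fn ρ β h m := Fn_nonneg15 β h m
  have hmeas : Measurable fun η : Env d => X β h η m - A ρ β h m :=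
    (measurable_X β h m).sub_const _
  have hsq := N85.Va_int (ρ := ρ) hd hρ β h m
  -- the upper part
  have hup := E62.sqp (μ := law d ρ) hmeas hsq (P := C₁ * P) (b := 1 / a) (by positivity) hb
    fun x hx => by
      have hx0 : 0 < x := lt_of_lt_of_le (by positivity) hx
      have e1 : {w : Env d | x ≤ X β h w m - A ρ β h m} = {η | A ρ β h m + x ≤ X β h η m} := by
        ext w
        simp only [Set.mem_ofPred_eq]
        constructor <;> intro h3 <;> linarith
      rw [e1]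
      exact htail h hloc n P hn1 hP1 hrec m hm1 hmn x hx0
  -- the lower part
  have hs1 : 1 / 4 ≤ (law d ρ).real {η | A ρ β h m - 2 * P < X β h η m} := by
    have h1 : (law d ρ).real {η | X β h η m ≤ A ρ β h m - 2 * P} ≤ 1 / 2 := by
      refine (measureReal_mono (s₂ := {η | 2 * P ≤ |X β h η m - A ρ β h m|}) ?_).trans
        ((mkF62 hd hρ h m (show 0 < 2 * P by positivity)).trans ?_)
      · intro η hη
        have h3 : X β h η m ≤ A ρ β h m - 2 * P := hη
        show 2 * P ≤ |X β h η m - A ρ β h m|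
        rw [abs_of_nonpos (by linarith)]
        linarith
      · rw [div_le_iff₀ (by positivity)]
        linarith
    have h2 := probReal_compl_eq_one_sub (μ := law d ρ)
      (measurableSet_le (measurable_X (d := d) β h m) (measurable_const (a := A ρ β h m - 2 * P)))
    have h3 : {η : Env d | X β h η m ≤ A ρ β h m - 2 * P}ᶜ =
        {η | A ρ β h m - 2 * P < X β h η m} := by
      ext η
      simp
    rw [h3] at h2
    linarith
  have hs2 : (law d ρ).real {η | A ρ β h m - 2 * P + K * P < X β h η m} < c₂ := by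
    have hx : 0 < (K - 2) * P := mul_pos (by linarith) hP0
    refine lt_of_le_of_lt ((measureReal_mono fun η hη => ?_).trans
      (htail h hloc n P hn1 hP1 hrec m hm1 hmn ((K - 2) * P) hx)) ?_
    · have h3 : A ρ β h m - 2 * P + K * P < X β h η m := hη
      show A ρ β h m + (K - 2) * P ≤ X β h η m
      linarith
    · have e1 : C₁ * P / ((K - 2) * P) = C₁ / (K - 2) := by
        field_simp
      rwa [e1]
  have hlow := E62.sqp (μ := law d ρ) hmeas.neg (by
      refine hsq.congr (Eventually.of_forall fun η => ?_)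
      show (X β h η m - A ρ β h m) ^ 2 = (-(X β h η m - A ρ β h m)) ^ 2
      ring) (P := 6 * K₃ * P) (b := 4) (by positivity) (by norm_num)
    fun x hx => by
      have hx0 : 0 < x := lt_of_lt_of_le (by positivity) hx
      have e3 : {w : Env d | x ≤ (-fun η : Env d => X β h η m - A ρ β h m) w} =
          {η | X β h η m ≤ A ρ β h m - x} := by
        ext w
        show x ≤ -(X β h w m - A ρ β h m) ↔ X β h w m ≤ A ρ β h m - x
        constructor <;> intro h3 <;> linarith
      rw [e3]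
      obtain ⟨q, hq⟩ : ∃ q : ℝ, q = (law d ρ).real {η | X β h η m ≤ A ρ β h m - x} := ⟨_, rfl⟩
      rw [← hq]
      have hq0' : 0 ≤ q := by rw [hq]; exact measureReal_nonneg
      have hq1 : q ≤ 1 := by rw [hq]; exact measureReal_le_one
      rcases hq0'.eq_or_lt with hq0 | hq0
      · rw [← hq0]
        positivity
      have hKP : C₂ ≤ K * P := by nlinarith
      rcases hdeep h m (A ρ β h m - x) (A ρ β h m - 2 * P) (K * P) q hq0 hq1 hKP
        (le_of_eq hq) hs1 with h1 | h1
      · have e9 : A ρ β h m - 2 * P - (A ρ β h m - x) = x - 2 * P := by ring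
        rw [e9] at h1
        exact lowT41 (by linarith) hK2 hP1 hx hq0 hq1 h1 hK₃
      · exact absurd hs2 (not_lt.2 h1)
  -- the sum
  have hsum : Va ρ β h m = ∫ η, max (X β h η m - A ρ β h m) 0 ^ 2 ∂(law d ρ) +
      ∫ η, max ((-fun η : Env d => X β h η m - A ρ β h m) η) 0 ^ 2 ∂(law d ρ) := by
    have i1 : Integrable (fun η => max (X β h η m - A ρ β h m) 0 ^ 2) (law d ρ) := by
      refine hsq.mono ((hmeas.max measurable_const).pow_const 2).aestronglyMeasurable
        (Eventually.of_forall fun w => ?_)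
      rw [Real.norm_eq_abs, Real.norm_eq_abs, abs_of_nonneg (sq_nonneg _),
        abs_of_nonneg (sq_nonneg _)]
      rcases le_total (X β h w m - A ρ β h m) 0 with h3 | h3
      · rw [max_eq_right h3]
        nlinarith [sq_nonneg (X β h w m - A ρ β h m)]
      · rw [max_eq_left h3]
    have i2 : Integrable (fun η => max ((-fun η : Env d => X β h η m - A ρ β h m) η) 0 ^ 2)
        (law d ρ) := by
      refine hsq.mono ((hmeas.neg.max measurable_const).pow_const 2).aestronglyMeasurable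
        (Eventually.of_forall fun w => ?_)
      rw [Real.norm_eq_abs, Real.norm_eq_abs, abs_of_nonneg (sq_nonneg _),
        abs_of_nonneg (sq_nonneg _)]
      show max (-(X β h w m - A ρ β h m)) 0 ^ 2 ≤ _
      rcases le_total (-(X β h w m - A ρ β h m)) 0 with h3 | h3
      · rw [max_eq_right h3]
        nlinarith [sq_nonneg (X β h w m - A ρ β h m)]
      · rw [max_eq_left h3]
        nlinarith
    rw [← integral_add i1 i2]
    unfold Va
    refine integral_congr_ae (Eventually.of_forall fun η => ?_)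
    show (X β h η m - A ρ β h m) ^ 2 = max (X β h η m - A ρ β h m) 0 ^ 2 +
      max (-(X β h η m - A ρ β h m)) 0 ^ 2
    rcases le_total (X β h η m - A ρ β h m) 0 with h3 | h3
    · rw [max_eq_right h3, max_eq_left (by linarith : 0 ≤ -(X β h η m - A ρ β h m))]
      ring
    · rw [max_eq_left h3, max_eq_right (by linarith : -(X β h η m - A ρ β h m) ≤ 0)]
      ring
  rw [hsum]
  have e7 : 1 / a / (1 / a - 2) * (C₁ * P) ^ 2 = K₁ * P ^ 2 := by
    rw [hK₁]
    ring
  rw [e7] at hup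
  have e8 : (4 : ℝ) / (4 - 2) * (6 * K₃ * P) ^ 2 = 2 * (6 * K₃) ^ 2 * P ^ 2 := by ring
  rw [e8] at hlow
  have hPP : 0 ≤ P ^ 2 := sq_nonneg P
  linarith

/-- **Leaf VAR, every law of the problem.** -/
theorem varFN41 [IsProbabilityMeasure ρ] (hd : 0 < d) (hρ : EM ρ) (hnc : ∀ c : ℝ, ρ {c} ≠ 1)
    (hβ : 0 < β) (hC : CntP d ρ β) : VarF d ρ β :=
  varFA41 hd hρ hβ.le hC (deepCAll5 hρ hnc hβ)

end Pool.Agent.W_7d29a1_KZ
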