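import Pool.Agent.W_7d29a1_KZ.DefsZ70
import Pool.Agent.W_7d29a1_NR.Tra11
import Pool.Agent.W_7d29a1_NR.Del11
import Pool.Agent.W_7d29a1_NR.Spl45
import Pool.Agent.W_7d29a1_Q29.Ce39
import Pool.Agent.W_7d29a1_SP.Bas15

/-!
GAP: the halving under a resampling bound with a constant probability.
-/

namespace Pool.Agent.W_7d29a1_KZ

open MeasureTheory ProbabilityTheory Filter Topology Pool.Agent.W_MP_7d29a1_pr
  Pool.Agent.W_7d29a1_h46 Pool.Agent.W_7d29a1_h46u Pool.Agent.W_7d29a1_D2.B35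
  Pool.Agent.W_7d29a1_Q29 Pool.Agent.W_7d29a1_R34 Pool.Agent.W_7d29a1_SP Pool.Agent.W_7d29a1_SD
  Pool.Agent.W_7d29a1_SQ

namespace G30

variable {d : ℕ} {ρ : Measure ℝ}

lemma spl_spl30 (S : Set (ℕ × Site d)) (η ξ ζ : Env d) :
    spl S (spl S η ξ) ζ = spl S η ζ := by
  classical
  funext p
  unfold spl
  by_cases hp : p ∈ S
  · rw [if_pos hp, if_pos hp, if_pos hp]
  · rw [if_neg hp, if_neg hp]

/-- The free energy of the past. -/
lemma X_spl30 (β : ℝ) (h : Vec d) (k : ℕ) (η ξ : Env d) :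
    X β h (spl (Pa d k) η ξ) k = X β h η k := by
  unfold X
  congr 1
  refine dependsOn_Z β h k fun p hp => ?_
  unfold spl
  exact if_pos hp.2

/-- A good past: `F` and `G` are both small in mean. -/
lemma past30 [IsProbabilityMeasure ρ] (k : ℕ) {f g : Env d → ℝ} (hf : Integrable f (law d ρ))
    (hg : Integrable g (law d ρ)) (hf0 : ∀ η, 0 ≤ f η) (hg0 : ∀ η, 0 ≤ g η) {ε B : ℝ}
    (hε : 0 < ε) (hB : 0 ≤ B) (h1 : ∫ η, f η ∂(law d ρ) ≤ ε) (h2 : ∫ η, g η ∂(law d ρ) ≤ B) :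
    ∃ η : Env d, Integrable (fun ξ => f (spl (Pa d k) η ξ)) (law d ρ) ∧
      Integrable (fun ξ => g (spl (Pa d k) η ξ)) (law d ρ) ∧
      ∫ ξ, f (spl (Pa d k) η ξ) ∂(law d ρ) ≤ 2 * ε ∧
      ∫ ξ, g (spl (Pa d k) η ξ) ∂(law d ρ) ≤ 2 * B + 1 := by
  have mp := W_7d29a1_Q29.mp_spl (ρ := ρ) (Pa d k)
  have jf := mp.integrable_comp_of_integrable hf
  have jg := mp.integrable_comp_of_integrable hg
  have af : ∀ᵐ η ∂(law d ρ), Integrable (fun ξ => f (spl (Pa d k) η ξ)) (law d ρ) :=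
    jf.prod_right_ae
  have ag : ∀ᵐ η ∂(law d ρ), Integrable (fun ξ => g (spl (Pa d k) η ξ)) (law d ρ) :=
    jg.prod_right_ae
  have iF : Integrable (fun η => ∫ ξ, f (spl (Pa d k) η ξ) ∂(law d ρ)) (law d ρ) :=
    jf.integral_prod_left
  have iG : Integrable (fun η => ∫ ξ, g (spl (Pa d k) η ξ) ∂(law d ρ)) (law d ρ) :=
    jg.integral_prod_left
  have e1 : ∫ η, ∫ ξ, f (spl (Pa d k) η ξ) ∂(law d ρ) ∂(law d ρ) = ∫ η, f η ∂(law d ρ) :=
    int_cE (Pa d k) hf
  have e2 : ∫ η, ∫ ξ, g (spl (Pa d k) η ξ) ∂(law d ρ) ∂(law d ρ) = ∫ η, g η ∂(law d ρ) :=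
    int_cE (Pa d k) hg
  have hint : Integrable (fun η => (B + 1) / ε * (∫ ξ, f (spl (Pa d k) η ξ) ∂(law d ρ)) +
      ∫ ξ, g (spl (Pa d k) η ξ) ∂(law d ρ)) (law d ρ) := (iF.const_mul _).add iG
  obtain ⟨η, hη, hle⟩ := exists_notMem_null_le_integral hint (ae_iff.1 (af.and ag))
  have hη' := not_not.1 hη
  rw [integral_add (iF.const_mul _) iG, integral_const_mul, e1, e2] at hle
  have h3 : (B + 1) / ε * ∫ η, f η ∂(law d ρ) ≤ B + 1 := by
    calc (B + 1) / ε * ∫ η, f η ∂(law d ρ) ≤ (B + 1) / ε * ε :=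
          mul_le_mul_of_nonneg_left h1 (by positivity)
      _ = B + 1 := div_mul_cancel₀ _ hε.ne'
  have h4 : 0 ≤ ∫ ξ, f (spl (Pa d k) η ξ) ∂(law d ρ) := integral_nonneg fun ξ => hf0 _
  have h5 : 0 ≤ ∫ ξ, g (spl (Pa d k) η ξ) ∂(law d ρ) := integral_nonneg fun ξ => hg0 _
  refine ⟨η, hη'.1, hη'.2, ?_, ?_⟩
  · have h6 : (B + 1) / ε * (∫ ξ, f (spl (Pa d k) η ξ) ∂(law d ρ)) ≤ 2 * (B + 1) := by linarith
    rw [div_mul_eq_mul_div, div_le_iff₀ hε] at h6
    have h7 : (B + 1) * (∫ ξ, f (spl (Pa d k) η ξ) ∂(law d ρ)) ≤ (B + 1) * (2 * ε) := by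
      linarith
    exact le_of_mul_le_mul_left h7 (by linarith)
  · have h6 : 0 ≤ (B + 1) / ε * (∫ ξ, f (spl (Pa d k) η ξ) ∂(law d ρ)) :=
      mul_nonneg (by positivity) h4
    linarith

/-- The numbers of the halving. -/
lemma pow30 (d : ℕ) {η : ℝ} (hη : 0 < η) : ∃ c : ℝ, 0 < c ∧ c ≤ 1 ∧ ∀ k : ℕ, 1 ≤ k →
    (1 + c) ^ W_7d29a1_NR.Del11.JJ d k ≤ (3 : ℝ) ^ η * (k : ℝ) ^ η := by
  have l2 : 0 < Real.log 2 := Real.log_pos (by norm_num)
  refine ⟨min 1 (η * Real.log 2 / (3 * d + 1)), lt_min one_pos (by positivity), min_le_left _ _,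
    fun k hk => ?_⟩
  obtain ⟨c, hc⟩ : ∃ c : ℝ, c = min 1 (η * Real.log 2 / (3 * d + 1)) := ⟨_, rfl⟩
  rw [← hc]
  have hc0 : 0 < c := by
    rw [hc]
    exact lt_min one_pos (by positivity)
  have hc1 : c ≤ η * Real.log 2 / (3 * d + 1) := by
    rw [hc]
    exact min_le_right _ _
  have hk1 : (1 : ℝ) ≤ k := by exact_mod_cast hk
  have hJ := W_7d29a1_NR.Del11.JJ_le d k
  have hlog : 0 ≤ Real.log ((k : ℝ) + 2) := Real.log_nonneg (by linarith)
  have h1 : (1 + c) ^ W_7d29a1_NR.Del11.JJ d k ≤ Real.exp (c * W_7d29a1_NR.Del11.JJ d k) := by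
    have h2 : 1 + c ≤ Real.exp c := by
      have := Real.add_one_le_exp c
      linarith
    calc (1 + c) ^ W_7d29a1_NR.Del11.JJ d k ≤ Real.exp c ^ W_7d29a1_NR.Del11.JJ d k :=
          pow_le_pow_left₀ (by linarith) h2 _
      _ = _ := by rw [← Real.exp_nat_mul, mul_comm]
  have h3 : c * W_7d29a1_NR.Del11.JJ d k ≤ Real.log ((k : ℝ) + 2) * η := by
    calc c * W_7d29a1_NR.Del11.JJ d k
        ≤ η * Real.log 2 / (3 * d + 1) * ((3 * d + 1) / Real.log 2 * Real.log (k + 2)) :=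
          mul_le_mul hc1 hJ (Nat.cast_nonneg _) (by positivity)
      _ = _ := by
        field_simp
  refine h1.trans ((Real.exp_le_exp.2 h3).trans ?_)
  rw [← Real.rpow_def_of_pos (by linarith), ← Real.mul_rpow (by norm_num) (by linarith)]
  exact Real.rpow_le_rpow (by linarith) (by linarith) hη.le

end G30

/-- The halving lemma for the polymer, with any threshold. -/
def TraN (d : ℕ) (ρ : Measure ℝ) (β : ℝ) : Prop := ∀ c : ℝ, 0 < c → c ≤ 1 → ∃ κ b : ℝ, 0 < κ ∧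
  0 ≤ b ∧ ∀ (h : Vec d) (m : ℕ) (S : Finset (Site d)) (w : Site d → ℝ) (J : ℕ) (a T u₀ : ℝ),
    S.Nonempty → S.card ≤ 2 ^ J → (∀ y ∈ S, 0 < w y ∧ w y ≤ 1) → 0 ≤ a →
    (∀ u : ℝ, u₀ < u → (law d ρ).real {η | A ρ β h m + u ≤ X β h η m} < 1 / 2) →
    1 / 2 ≤ (law d ρ).real {η | T ≤ W_7d29a1_NR.gain d ρ β h m S w η} →
    (law d ρ).real {η | T + a < W_7d29a1_NR.gain d ρ β h m S w η} < κ →
      T ≤ u₀ + (a + b) * (1 + c) ^ J / c

open G30 W_7d29a1_NR W_7d29a1_NR.Del11 in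
/-- **GAP.** -/
theorem gapKN30 {d : ℕ} (hd : 0 < d) {ρ : Measure ℝ} [IsProbabilityMeasure ρ] (hρ : EM ρ)
    {β : ℝ} (hT : TraN d ρ β) : GapK d ρ β := by
  classical
  intro e he
  obtain ⟨c, hc0, hc1, hcJ⟩ := pow30 d he
  obtain ⟨κ, b, hκ0, hb0, hT⟩ := hT c hc0 hc1
  obtain ⟨ε, hε⟩ : ∃ ε : ℝ, ε = min (1 / 8) (κ / 4) := ⟨_, rfl⟩
  have hε0 : 0 < ε := by
    rw [hε]
    exact lt_min (by norm_num) (by linarith)
  have hε1 : ε ≤ 1 / 8 := by
    rw [hε]
    exact min_le_left _ _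
  have hε2 : ε ≤ κ / 4 := by
    rw [hε]
    exact min_le_right _ _
  have h3e : 0 < (3 : ℝ) ^ e := Real.rpow_pos_of_pos (by norm_num) _
  refine ⟨ε, 4 + (2 + b) * (3 : ℝ) ^ e / c, hε0, ?_, ?_⟩
  · have : 0 ≤ (2 + b) * (3 : ℝ) ^ e / c := by positivity
    linarith
  intro h k m M hk hm hM hRS
  have iX : ∀ n : ℕ, Integrable (fun η : Env d => X β h η n) (law d ρ) := fun n =>
    (concU hd hρ β h n).1
  have mX : ∀ n : ℕ, Measurable fun η : Env d => X β h η n := fun n => measurable_X β h n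
  -- the function of the resampling
  set Bs : Set (Env d × Env d) :=
    {w | M < |X β h w.1 (k + m) - X β h (spl (Pa d k) w.1 w.2) (k + m)|} with hBs
  have hBm : MeasurableSet Bs := by
    refine measurableSet_lt measurable_const ?_
    exact (((mX (k + m)).comp measurable_fst).sub
      ((mX (k + m)).comp (W_7d29a1_Q29.measurable_spl (Pa d k)))).abs
  set f : Env d → ℝ := fun ζ => ∫ ξ, Bs.indicator (fun _ => (1 : ℝ)) (ζ, ξ) ∂(law d ρ) with hf
  have iB : Integrable (Bs.indicator (fun _ => (1 : ℝ))) ((law d ρ).prod (law d ρ)) :=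
    (integrable_const (1 : ℝ)).indicator hBm
  have iF : Integrable f (law d ρ) := iB.integral_prod_left
  have hf0 : ∀ η, 0 ≤ f η := fun η => integral_nonneg fun ξ =>
    Set.indicator_nonneg (fun _ _ => zero_le_one) _
  have ef : ∫ η, f η ∂(law d ρ) ≤ ε := by
    rw [hf, ← integral_prod (Bs.indicator (fun _ => (1 : ℝ))) iB]
    have h1 : ∫ w, Bs.indicator (fun _ => (1 : ℝ)) w ∂((law d ρ).prod (law d ρ)) =
        ((law d ρ).prod (law d ρ)).real Bs := integral_indicator_one hBm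
    rw [h1]
    exact hRS
  -- the gain
  set g : Env d → ℝ := fun ζ =>
    |(X β h ζ (k + m) - A ρ β h (k + m)) - (X β h ζ k - A ρ β h k)| with hg
  have ig1 : Integrable (fun ζ : Env d => (X β h ζ (k + m) - A ρ β h (k + m)) -
      (X β h ζ k - A ρ β h k)) (law d ρ) :=
    (intX15 hd hρ β h (k + m)).sub (intX15 hd hρ β h k)
  have ig : Integrable g (law d ρ) := ig1.abs
  have f1 : 0 ≤ Fn ρ β h (k + m) := Fn_nonneg15 β h _
  have f2 : 0 ≤ Fn ρ β h k := Fn_nonneg15 β h _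
  have f3 : 0 ≤ Fn ρ β h m := Fn_nonneg15 β h _
  have eg : ∫ η, g η ∂(law d ρ) ≤ Fn ρ β h (k + m) + Fn ρ β h k := by
    have h1 : ∫ η, g η ∂(law d ρ) ≤ ∫ η, (|X β h η (k + m) - A ρ β h (k + m)| +
        |X β h η k - A ρ β h k|) ∂(law d ρ) :=
      integral_mono ig ((intX15 hd hρ β h (k + m)).abs.add (intX15 hd hρ β h k).abs)
        fun ζ => abs_sub _ _
    rw [integral_add (intX15 hd hρ β h (k + m)).abs (intX15 hd hρ β h k).abs] at h1
    exact h1
  obtain ⟨B, hB⟩ : ∃ B : ℝ, B = Fn ρ β h (k + m) + Fn ρ β h k := ⟨_, rfl⟩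
  rw [← hB] at eg
  have hB0 : 0 ≤ B := by rw [hB]; linarith
  obtain ⟨η, jf, jg, hfη, hgη⟩ := past30 k iF ig hf0 (fun ζ => abs_nonneg _) hε0 hB0 ef eg
  -- a typical future
  obtain ⟨ξ₀, hξ₀⟩ := exists_le_integral jf
  have hfx : f (spl (Pa d k) η ξ₀) ≤ 2 * ε := hξ₀.trans hfη
  -- the gain seen from the law `w`
  set w : Site d → ℝ := fun y => PP β h η k y / Z β h η k with hw
  obtain ⟨S, hSd⟩ : ∃ S : Finset (Site d), S = (boxF d k).filter fun y => w y ≠ 0 := ⟨_, rfl⟩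
  have hw0 : ∀ y, 0 ≤ w y := fun y => div_nonneg (PP_nonneg _ _ _ _ _) (Z_pos hd β h η k).le
  have hw1 : ∀ y, w y ≤ 1 := fun y =>
    div_le_one_of_le₀ (PP_le_Z _ _ _ _ _) (Z_pos hd β h η k).le
  have hsum : ∑ y ∈ boxF d k, w y = 1 := by
    rw [hw, ← Finset.sum_div, ← Z_eq_sum]
    exact div_self (Z_pos hd β h η k).ne'
  have hSsub : S ⊆ boxF d k := by rw [hSd]; exact Finset.filter_subset _ _
  have hgS : ∀ ζ, gain d ρ β h m S w ζ = gain d ρ β h m (boxF d k) w ζ := by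
    intro ζ
    unfold gain
    congr 1
    refine Finset.sum_subset hSsub fun y hy hyS => ?_
    have : w y = 0 := by
      by_contra hne
      exact hyS (by rw [hSd]; exact Finset.mem_filter.2 ⟨hy, hne⟩)
    rw [this, zero_mul]
  have hSne : S.Nonempty := by
    rw [Finset.nonempty_iff_ne_empty]
    intro h0
    have h1 : ∑ y ∈ boxF d k, w y = ∑ y ∈ S, w y := by
      refine (Finset.sum_subset hSsub fun y hy hyS => ?_).symm
      by_contra hne
      exact hyS (by rw [hSd]; exact Finset.mem_filter.2 ⟨hy, hne⟩)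
    rw [h0, Finset.sum_empty, hsum] at h1
    exact one_ne_zero h1
  have hcard : S.card ≤ 2 ^ JJ d k := (Finset.card_le_card hSsub).trans (JJ_card d k)
  have hwS : ∀ y ∈ S, 0 < w y ∧ w y ≤ 1 := fun y hy => by
    rw [hSd, Finset.mem_filter] at hy
    exact ⟨lt_of_le_of_ne (hw0 y) (Ne.symm hy.2), hw1 y⟩
  -- `gain` at the shifted future is the increment of the free energy
  have hgl : ∀ ξ : Env d, gain d ρ β h m S w (sh k 0 ξ) =
      X β h (spl (Pa d k) η ξ) (k + m) - X β h η k - A ρ β h m := by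
    intro ξ
    rw [hgS]
    unfold gain
    have h1 : ∀ y : Site d, sh 0 y (sh k 0 ξ) = sh k y ξ := by
      intro y
      funext p
      unfold sh
      simp
    simp only [h1]
    exact glue45 hd β h k m _ η ξ
  have hgm : Measurable (gain d ρ β h m S w) := by
    unfold gain
    refine Real.measurable_log.comp (Finset.measurable_sum _ fun y _ => ?_)
    refine measurable_const.mul (Real.measurable_exp.comp (Measurable.sub_const ?_ _))
    exact (mX m).comp (measurable_sh 0 y)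
  have mpk := mp_sh (d := d) (ρ := ρ) k 0
  have hreal : ∀ s : Set ℝ, MeasurableSet s →
      (law d ρ).real {ζ | gain d ρ β h m S w ζ ∈ s} =
        (law d ρ).real {ξ | X β h (spl (Pa d k) η ξ) (k + m) - X β h η k - A ρ β h m ∈ s} := by
    intro s hs
    have h1 := mpk.measureReal_preimage (s := {ζ | gain d ρ β h m S w ζ ∈ s})
      (hgm hs).nullMeasurableSet
    rw [← h1]
    congr 1
    ext ξ
    show gain d ρ β h m S w (sh k 0 ξ) ∈ s ↔ _
    rw [hgl]
    rfl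
  obtain ⟨G, hG⟩ : ∃ G : Env d → ℝ, G = fun ξ => X β h (spl (Pa d k) η ξ) (k + m) -
    X β h η k - A ρ β h m := ⟨_, rfl⟩
  have hGm : Measurable G := by
    rw [hG]
    exact (((mX (k + m)).comp (W_7d29a1_Q29.measurable_spl_right (Pa d k) η)).sub_const _).sub_const _
  obtain ⟨t, ht⟩ : ∃ t : ℝ, t = G ξ₀ := ⟨_, rfl⟩
  -- (c) concentration around `t`
  have hconc : (law d ρ).real {ξ | M < |t - G ξ|} ≤ 2 * ε := by
    refine le_trans (le_of_eq ?_) hfx
    have h1 : ∀ ξ : Env d, Bs.indicator (fun _ => (1 : ℝ)) (spl (Pa d k) η ξ₀, ξ) =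
        {ξ | M < |t - G ξ|}.indicator (fun _ => (1 : ℝ)) ξ := by
      intro ξ
      have h2 : (spl (Pa d k) η ξ₀, ξ) ∈ Bs ↔ ξ ∈ {ξ | M < |t - G ξ|} := by
        show M < |X β h (spl (Pa d k) η ξ₀) (k + m) -
          X β h (spl (Pa d k) (spl (Pa d k) η ξ₀) ξ) (k + m)| ↔ M < |t - G ξ|
        rw [spl_spl30, ht, hG]
        have h3 : X β h (spl (Pa d k) η ξ₀) (k + m) - X β h (spl (Pa d k) η ξ) (k + m) =
            X β h (spl (Pa d k) η ξ₀) (k + m) - X β h η k - A ρ β h m -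
              (X β h (spl (Pa d k) η ξ) (k + m) - X β h η k - A ρ β h m) := by ring
        rw [h3]
      by_cases hx : ξ ∈ {ξ | M < |t - G ξ|}
      · rw [Set.indicator_of_mem hx, Set.indicator_of_mem (h2.2 hx)]
      · rw [Set.indicator_of_notMem hx, Set.indicator_of_notMem fun h4 => hx (h2.1 h4)]
    rw [hf]
    simp only [h1]
    exact (integral_indicator_one (measurableSet_lt measurable_const
      (measurable_const.sub hGm).abs)).symm
  -- (d) concentration around the gap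
  obtain ⟨δ, hδ⟩ : ∃ δ : ℝ, δ = Gp ρ β h k m := ⟨_, rfl⟩
  have hmean : ∫ ξ, |G ξ - δ| ∂(law d ρ) ≤ 2 * B + 1 := by
    refine le_trans (le_of_eq ?_) hgη
    refine integral_congr_ae (Eventually.of_forall fun ξ => ?_)
    show |G ξ - δ| = |(X β h (spl (Pa d k) η ξ) (k + m) - A ρ β h (k + m)) -
      (X β h (spl (Pa d k) η ξ) k - A ρ β h k)|
    rw [X_spl30, hG, hδ]
    unfold Gp
    congr 1
    ring
  have iG : Integrable (fun ξ => |G ξ - δ|) (law d ρ) := by
    refine jg.congr (Eventually.of_forall fun ξ => ?_)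
    show |(X β h (spl (Pa d k) η ξ) (k + m) - A ρ β h (k + m)) -
      (X β h (spl (Pa d k) η ξ) k - A ρ β h k)| = |G ξ - δ|
    rw [X_spl30, hG, hδ]
    unfold Gp
    congr 1
    ring
  have hmk : (law d ρ).real {ξ | 8 * B + 4 ≤ |G ξ - δ|} ≤ 1 / 4 := by
    have h1 := mul_meas_ge_le_integral_of_nonneg (μ := law d ρ) (f := fun ξ => |G ξ - δ|)
      (Eventually.of_forall fun ξ => abs_nonneg _) iG (8 * B + 4)
    have h2 : (8 * B + 4) * (law d ρ).real {ξ | 8 * B + 4 ≤ |G ξ - δ|} ≤ (8 * B + 4) * (1 / 4) :=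
      (h1.trans hmean).trans (by linarith)
    exact le_of_mul_le_mul_left h2 (by linarith)
  -- a common point
  have hpt : δ ≤ t + M + (8 * B + 4) := by
    by_contra hcon
    rw [not_le] at hcon
    have h1 : (Set.univ : Set (Env d)) ⊆ {ξ | M < |t - G ξ|} ∪ {ξ | 8 * B + 4 ≤ |G ξ - δ|} := by
      intro ξ _
      by_cases hx : M < |t - G ξ|
      · exact Or.inl hx
      · refine Or.inr ?_
        rw [not_lt] at hx
        show 8 * B + 4 ≤ |G ξ - δ|
        have h2 := (abs_le.1 hx).1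
        have h3 : 8 * B + 4 ≤ -(G ξ - δ) := by linarith
        exact h3.trans (neg_le_abs _)
    have h2 : (law d ρ).real (Set.univ : Set (Env d)) ≤ 2 * ε + 1 / 4 :=
      (measureReal_mono h1).trans ((measureReal_union_le _ _).trans (add_le_add hconc hmk))
    rw [probReal_univ] at h2
    linarith
  -- (e) the halving
  have main := hT h m S w (JJ d k) (2 * M) (t - M) (2 * Fn ρ β h m) hSne hcard hwS
    (by linarith) ?_ ?_ ?_
  · have hk1 : (1 : ℝ) ≤ k := by exact_mod_cast hk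
    have hke : 1 ≤ (k : ℝ) ^ e := Real.one_le_rpow hk1 he.le
    have h1 := hcJ k hk
    have h2 : (2 * M + b) * (1 + c) ^ JJ d k / c ≤
        (2 + b) * (3 : ℝ) ^ e / c * (k : ℝ) ^ e * (M + 1) := by
      rw [div_le_iff₀ hc0]
      have h3 : (2 + b) * (3 : ℝ) ^ e / c * (k : ℝ) ^ e * (M + 1) * c =
          ((2 + b) * (M + 1)) * ((3 : ℝ) ^ e * (k : ℝ) ^ e) := by
        field_simp
      rw [h3]
      refine mul_le_mul ?_ h1 (by positivity) (by positivity)
      nlinarith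
    have h4 : 4 * (M + 1) ≤ 4 * (k : ℝ) ^ e * (M + 1) := by
      have : M + 1 ≤ (k : ℝ) ^ e * (M + 1) := le_mul_of_one_le_left (by linarith) hke
      linarith
    rw [← hδ]
    have h5 : (4 + (2 + b) * (3 : ℝ) ^ e / c) * (k : ℝ) ^ e * (M + 1) =
        4 * (k : ℝ) ^ e * (M + 1) + (2 + b) * (3 : ℝ) ^ e / c * (k : ℝ) ^ e * (M + 1) := by ring
    rw [h5]
    linarith
  · intro u hu
    have hu0 : 0 < u := by linarith
    have h1 := markov (P := law d ρ) (f := fun η => X β h η m - A ρ β h m)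
      (intX15 hd hρ β h m) (B := Fn ρ β h m) le_rfl hu0
    have h2 : (law d ρ).real {η | A ρ β h m + u ≤ X β h η m} ≤
        (law d ρ).real {η | u ≤ |X β h η m - A ρ β h m|} := by
      refine measureReal_mono fun η' hη => ?_
      have hη' : A ρ β h m + u ≤ X β h η' m := hη
      have h4 : u ≤ X β h η' m - A ρ β h m := by linarith
      exact h4.trans (le_abs_self _)
    have h3 : Fn ρ β h m / u < 1 / 2 := by
      rw [div_lt_iff₀ hu0]
      linarith
    exact (h2.trans h1).trans_lt h3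
  · have h1 := hreal (Set.Ici (t - M)) measurableSet_Ici
    have h2 : {ζ | gain d ρ β h m S w ζ ∈ Set.Ici (t - M)} =
        {ζ | t - M ≤ gain d ρ β h m S w ζ} := rfl
    rw [← h2, h1]
    have h3 : (Set.univ : Set (Env d)) ⊆ {ξ | M < |t - G ξ|} ∪
        {ξ | X β h (spl (Pa d k) η ξ) (k + m) - X β h η k - A ρ β h m ∈ Set.Ici (t - M)} := by
      intro ξ _
      by_cases hx : M < |t - G ξ|
      · exact Or.inl hx
      · refine Or.inr ?_
        rw [not_lt] at hx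
        have h4 := (abs_le.1 hx).2
        show t - M ≤ X β h (spl (Pa d k) η ξ) (k + m) - X β h η k - A ρ β h m
        rw [hG] at h4
        simp only at h4
        linarith
    have h4 := (measureReal_mono (μ := law d ρ) h3).trans (measureReal_union_le _ _)
    rw [probReal_univ] at h4
    linarith
  · have h1 := hreal (Set.Ioi (t - M + 2 * M)) measurableSet_Ioi
    have h2 : {ζ | gain d ρ β h m S w ζ ∈ Set.Ioi (t - M + 2 * M)} =
        {ζ | t - M + 2 * M < gain d ρ β h m S w ζ} := rfl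
    rw [← h2, h1]
    have h3 : {ξ | X β h (spl (Pa d k) η ξ) (k + m) - X β h η k - A ρ β h m ∈
        Set.Ioi (t - M + 2 * M)} ⊆ {ξ | M < |t - G ξ|} := by
      intro ξ hx
      have hx' : t - M + 2 * M < X β h (spl (Pa d k) η ξ) (k + m) - X β h η k - A ρ β h m := hx
      show M < |t - G ξ|
      have h4 : M < -(t - G ξ) := by
        rw [hG]
        simp only
        linarith
      exact h4.trans_le (neg_le_abs _)
    exact ((measureReal_mono h3).trans hconc).trans_lt (by linarith)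

/-- The threshold of the Gaussian case. -/
theorem traN_of_traP30 {d : ℕ} {ρ : Measure ℝ} {β : ℝ} (hT : W_7d29a1_NR.TraP d ρ β) :
    TraN d ρ β := by
  intro c hc0 hc1
  exact ⟨Ehr.Phi (-(4 + 4 / c)), 3, Ehr.Phi_pos _, by norm_num,
    fun h m S w J a T u₀ hS hcard hw ha hu h1 h2 =>
      hT h m S w J c a T u₀ hS hcard hw hc0 hc1 ha hu h1 h2⟩

/-- **GAP**, for the laws in `GC`. -/
theorem gapKG30 {d : ℕ} (hd : 0 < d) {ρ : Measure ℝ} [IsProbabilityMeasure ρ] (hρ : EM ρ)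
    (hG : GC ρ) {β : ℝ} (hβ : 0 ≤ β) : GapK d ρ β :=
  gapKN30 hd hρ (traN_of_traP30 (W_7d29a1_NR.tra11 hd hG hβ))

end Pool.Agent.W_7d29a1_KZ
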