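import Pool.Agent.W_7d29a1_NR.Halv44
import Pool.Agent.W_7d29a1_NR.Law84
import Pool.Agent.W_7d29a1_NR.Spl45
import Pool.Agent.W_7d29a1_SP.Bas15
import Pool.Agent.W_7d29a1_KZ.DefsZ70

/-!
Theorem KZ, leaf GAP: the halving of helper11 under a resampling bound (helper42).
-/

namespace Pool.Agent.W_7d29a1_KZ

open MeasureTheory ProbabilityTheory Filter Topology Pool.Agent.W_MP_7d29a1_pr
  Pool.Agent.W_7d29a1_h46 Pool.Agent.W_7d29a1_h46u Pool.Agent.W_7d29a1_D2.B35
  Pool.Agent.W_7d29a1_Q29 Pool.Agent.W_7d29a1_R34 Pool.Agent.W_7d29a1_SP Pool.Agent.W_7d29a1_SD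
  Pool.Agent.W_7d29a1_SQ

section Halv

variable {Ω : Type*} [MeasurableSpace Ω]

/-- The upper half of Ehrhard's inequality for `W`. -/
def Lk42 (P : Measure Ω) (W : Ω → ℝ) : Prop := ∀ a b s0 s1 t : ℝ, 0 ≤ t →
  Ehr.Phi a ≤ P.real {x | W x ≤ s0} → P.real {x | W x ≤ s1} ≤ Ehr.Phi b →
    P.real {x | W x ≤ s1 + t * (s1 - s0)} ≤ Ehr.Phi (b + t * (b - a))

/-- The complement of a lower level set. -/
lemma gt42 (P : Measure Ω) [IsProbabilityMeasure P] {W : Ω → ℝ} (hW : Measurable W) (s : ℝ) :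
    P.real {x | s < W x} = 1 - P.real {x | W x ≤ s} := by
  rw [← probReal_compl_eq_one_sub (measurableSet_le hW measurable_const)]
  congr 1
  ext x
  simp

/-- A median. -/
lemma med42 (P : Measure Ω) [IsProbabilityMeasure P] {W : Ω → ℝ} (hW : Measurable W) :
    ∃ M : ℝ, 1 / 2 ≤ P.real {x | W x ≤ M} ∧ ∀ s, s < M → P.real {x | W x ≤ s} < 1 / 2 := by
  have hP : IsProbabilityMeasure (P.map W) :=
    Measure.isProbabilityMeasure_map hW.aemeasurable
  obtain ⟨s₀, hs₀⟩ := ((tendsto_cdf_atBot (P.map W)).eventually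
    (gt_mem_nhds (show (0 : ℝ) < 1 / 2 by norm_num))).exists
  rw [cdf_eq_real, map_measureReal_apply hW measurableSet_Iic] at hs₀
  obtain ⟨M, -, h1, h2⟩ := Pool.Agent.W_7d29a1_UC.median31 P hW (s₀ := s₀) hs₀
  exact ⟨M, h1, h2⟩

/-- One halving. -/
lemma step42 (P : Measure Ω) [IsProbabilityMeasure P] {W : Ω → ℝ} (hW : Measurable W)
    (hL : Lk42 P W) {c a T t : ℝ} (hc0 : 0 < c) (hc1 : c ≤ 1) (ha : 0 ≤ a) (htT : t ≤ T)
    (h3 : P.real {x | W x ≤ t - 1} ≤ 3 / 4)
    (h4 : Ehr.Phi (1 + 1 / c) < P.real {x | W x ≤ T + a}) :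
    ∃ t' : ℝ, t' ≤ T ∧ 1 / 2 ≤ P.real {x | t' ≤ W x} ∧
      T - t' ≤ (1 + c) * (T - t) + (a + 3) := by
  obtain ⟨M, hM1, hM2⟩ := med42 P hW
  have hlow : ∀ s, s < M → 1 / 2 ≤ P.real {x | s ≤ W x} := by
    intro s hs
    have h5 := gt42 P hW s
    have h6 := hM2 s hs
    have h7 : P.real {x | s < W x} ≤ P.real {x | s ≤ W x} :=
      measureReal_mono fun x (hx : s < W x) => hx.le
    linarith
  have hc2 : 0 ≤ c * (T - t) := mul_nonneg hc0.le (by linarith)
  rcases le_or_gt (t - 1) M with h | h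
  · refine ⟨t - 2, by linarith, hlow _ (by linarith), ?_⟩
    nlinarith
  · refine ⟨M - 1, by linarith, hlow _ (by linarith), ?_⟩
    obtain ⟨b, hb⟩ : ∃ b : ℝ, b = t - 1 - M := ⟨_, rfl⟩
    have hb0 : 0 < b := by rw [hb]; linarith
    obtain ⟨τ, hτ⟩ : ∃ τ : ℝ, τ = (T + a - (t - 1)) / b := ⟨_, rfl⟩
    have hτ0 : 0 ≤ τ := by
      rw [hτ]
      exact div_nonneg (by linarith) hb0.le
    have h5 := hL 0 1 M (t - 1) τ hτ0 (by
      rw [Pool.Agent.W_7d29a1_NR.Phi_zero44]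
      exact hM1) (h3.trans Pool.Agent.W_7d29a1_NR.Phi_one44)
    have e1 : t - 1 + τ * (t - 1 - M) = T + a := by
      rw [← hb, hτ]
      field_simp
      ring
    have e2 : (1 : ℝ) + τ * (1 - 0) = 1 + τ := by ring
    rw [e1, e2] at h5
    have h6 : 1 + 1 / c < 1 + τ := Ehr.Phi_strictMono.lt_iff_lt.1 (h4.trans_le h5)
    have h7 : 1 / c < τ := by linarith
    have h8 : b < c * (T + a - (t - 1)) := by
      rw [hτ, lt_div_iff₀ hb0, div_mul_eq_mul_div, one_mul, div_lt_iff₀ hc0] at h7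
      linarith
    have h9 : c * (a + 1) ≤ a + 1 := by nlinarith
    nlinarith

/-- The logarithm of a weighted sum of exponentials. -/
noncomputable def W42 {ι : Type*} (w : ι → ℝ) (V : ι → Ω → ℝ) (D : Finset ι) (x : Ω) : ℝ :=
  Real.log (∑ y ∈ D, w y * Real.exp (V y x))

variable {ι : Type*} {w : ι → ℝ} {V : ι → Ω → ℝ}

omit [MeasurableSpace Ω] in
lemma sum_pos42 {D : Finset ι} (hw : ∀ y ∈ D, 0 < w y) (hD : D.Nonempty) (x : Ω) :
    0 < ∑ y ∈ D, w y * Real.exp (V y x) :=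
  Finset.sum_pos (fun y hy => mul_pos (hw y hy) (Real.exp_pos _)) hD

omit [MeasurableSpace Ω] in
lemma W_mono42 {D D' : Finset ι} (hw : ∀ y ∈ D', 0 < w y) (hD : D.Nonempty) (hs : D ⊆ D')
    (x : Ω) : W42 w V D x ≤ W42 w V D' x :=
  Real.log_le_log (sum_pos42 (fun y hy => hw y (hs hy)) hD x)
    (Finset.sum_le_sum_of_subset_of_nonneg hs
      fun y hy _ => (mul_pos (hw y hy) (Real.exp_pos _)).le)

lemma W_meas42 {D : Finset ι} (hV : ∀ y ∈ D, Measurable (V y)) : Measurable (W42 w V D) := by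
  unfold W42
  refine Real.measurable_log.comp (Finset.measurable_sum _ fun y hy => ?_)
  exact measurable_const.mul (Real.measurable_exp.comp (hV y hy))

omit [MeasurableSpace Ω] in
open Classical in
lemma W_union42 {D' D'' : Finset ι} (hw' : ∀ y ∈ D', 0 < w y) (hw'' : ∀ y ∈ D'', 0 < w y)
    (hD' : D'.Nonempty) (hD'' : D''.Nonempty) (hdis : Disjoint D' D'') (x : Ω) :
    W42 w V (D' ∪ D'') x < max (W42 w V D' x) (W42 w V D'' x) + 1 := by
  have h1 := sum_pos42 (V := V) hw' hD' x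
  have h2 := sum_pos42 (V := V) hw'' hD'' x
  have hl : Real.log 2 < 1 := by
    have := Real.log_two_lt_d9
    linarith
  unfold W42
  rw [Finset.sum_union hdis]
  obtain ⟨A, hA⟩ : ∃ A : ℝ, A = ∑ y ∈ D', w y * Real.exp (V y x) := ⟨_, rfl⟩
  obtain ⟨B, hB⟩ : ∃ B : ℝ, B = ∑ y ∈ D'', w y * Real.exp (V y x) := ⟨_, rfl⟩
  rw [← hA] at h1 ⊢
  rw [← hB] at h2 ⊢
  rcases le_total A B with h | h
  · have h3 : Real.log (A + B) ≤ Real.log (B * 2) := Real.log_le_log (by linarith) (by linarith)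
    rw [Real.log_mul h2.ne' (by norm_num)] at h3
    have h4 := le_max_right (Real.log A) (Real.log B)
    linarith
  · have h3 : Real.log (A + B) ≤ Real.log (A * 2) := Real.log_le_log (by linarith) (by linarith)
    rw [Real.log_mul h1.ne' (by norm_num)] at h3
    have h4 := le_max_left (Real.log A) (Real.log B)
    linarith

/-- The halving, by induction on the number of halvings. -/
theorem halv42 (P : Measure Ω) [IsProbabilityMeasure P] {S : Finset ι}
    (hw : ∀ y ∈ S, 0 < w y ∧ w y ≤ 1) (hV : ∀ y ∈ S, Measurable (V y))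
    (hL : ∀ D : Finset ι, D ⊆ S → D.Nonempty → Lk42 P (W42 w V D)) {c a T u₀ : ℝ}
    (hc0 : 0 < c) (hc1 : c ≤ 1) (ha : 0 ≤ a)
    (h4 : Ehr.Phi (1 + 1 / c) < P.real {x | W42 w V S x ≤ T + a})
    (hu : ∀ y ∈ S, ∀ u, u₀ < u → P.real {x | u ≤ V y x} < 1 / 2) :
    ∀ (J : ℕ) (D : Finset ι), D ⊆ S → D.Nonempty → D.card ≤ 2 ^ J → ∀ t : ℝ, t ≤ T →
      1 / 2 ≤ P.real {x | t ≤ W42 w V D x} →
      T - u₀ ≤ (1 + c) ^ J * (T - t) + (a + 3) * (((1 + c) ^ J - 1) / c) := by
  classical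
  intro J
  induction J with
  | zero =>
    intro D hDS hD hcard t htT ht
    have h1 : D.card = 1 := le_antisymm (by simpa using hcard) hD.card_pos
    obtain ⟨y, hy⟩ := Finset.card_eq_one.1 h1
    subst hy
    have hyS : y ∈ S := hDS (Finset.mem_singleton_self y)
    have h2 : t ≤ u₀ := by
      by_contra hcon
      push Not at hcon
      have h3 := hu y hyS t hcon
      have h5 : P.real {x | t ≤ W42 w V {y} x} ≤ P.real {x | t ≤ V y x} := by
        refine measureReal_mono fun x (hx : t ≤ W42 w V {y} x) => ?_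
        show t ≤ V y x
        refine hx.trans ?_
        unfold W42
        rw [Finset.sum_singleton, Real.log_mul (hw y hyS).1.ne' (Real.exp_pos _).ne',
          Real.log_exp]
        have := Real.log_nonpos (hw y hyS).1.le (hw y hyS).2
        linarith
      linarith
    simp only [pow_zero, one_mul, sub_self, zero_div, mul_zero, add_zero]
    linarith
  | succ J ih =>
    intro D hDS hD hcard t htT ht
    have hp1 : (1 : ℝ) ≤ (1 + c) ^ J := one_le_pow₀ (by linarith)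
    have hp2 : (1 + c) ^ (J + 1) = (1 + c) ^ J * (1 + c) := pow_succ _ _
    have hkey : (1 + c) ^ J + ((1 + c) ^ J - 1) / c = ((1 + c) ^ (J + 1) - 1) / c := by
      rw [hp2]
      field_simp
      ring
    rcases le_or_gt D.card (2 ^ J) with hsm | hbig
    · have h1 := ih D hDS hD hsm t htT ht
      rw [← hkey, hp2]
      have h2 : 0 ≤ (1 + c) ^ J * (c * (T - t)) :=
        mul_nonneg (by linarith) (mul_nonneg hc0.le (by linarith))
      have h3 : 0 ≤ (a + 3) * (1 + c) ^ J := by positivity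
      nlinarith
    · obtain ⟨D', hD'D, hD'c⟩ := Finset.exists_subset_card_eq hbig.le
      obtain ⟨D'', hD''⟩ : ∃ D'' : Finset ι, D'' = D \ D' := ⟨_, rfl⟩
      have hc3 : D''.card = D.card - 2 ^ J := by
        rw [hD'', Finset.card_sdiff_of_subset hD'D, hD'c]
      have hDc : D.card ≤ 2 ^ J + 2 ^ J := by
        calc D.card ≤ 2 ^ (J + 1) := hcard
          _ = 2 ^ J + 2 ^ J := by ring
      have hne' : D'.Nonempty := by
        rw [← Finset.card_pos, hD'c]
        positivity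
      have hne'' : D''.Nonempty := by
        rw [← Finset.card_pos, hc3]
        omega
      have hD''D : D'' ⊆ D := by
        rw [hD'']
        exact Finset.sdiff_subset
      have hdis : Disjoint D' D'' := by
        rw [hD'']
        exact Finset.disjoint_sdiff
      have hun : D' ∪ D'' = D := by
        rw [hD'']
        exact Finset.union_sdiff_of_subset hD'D
      have hsub : {x | t ≤ W42 w V D x} ⊆ {x | t - 1 < W42 w V D' x} ∪
          {x | t - 1 < W42 w V D'' x} := by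
        intro x hx
        have hx' : t ≤ W42 w V D x := hx
        have h1 := W_union42 (V := V) (fun y hy => (hw y (hDS (hD'D hy))).1)
          (fun y hy => (hw y (hDS (hD''D hy))).1) hne' hne'' hdis x
        rw [hun] at h1
        rcases le_total (W42 w V D' x) (W42 w V D'' x) with h | h
        · right
          rw [max_eq_right h] at h1
          show t - 1 < W42 w V D'' x
          linarith
        · left
          rw [max_eq_left h] at h1
          show t - 1 < W42 w V D' x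
          linarith
      have hq : 1 / 2 ≤ P.real {x | t - 1 < W42 w V D' x} +
          P.real {x | t - 1 < W42 w V D'' x} :=
        ht.trans ((measureReal_mono hsub).trans (measureReal_union_le _ _))
      -- one of the two halves
      obtain ⟨D₁, h1D, h1n, h1c, h1q⟩ : ∃ D₁ : Finset ι, D₁ ⊆ D ∧ D₁.Nonempty ∧
          D₁.card ≤ 2 ^ J ∧ 1 / 4 ≤ P.real {x | t - 1 < W42 w V D₁ x} := by
        rcases le_or_gt (1 / 4) (P.real {x | t - 1 < W42 w V D' x}) with h | h
        · exact ⟨D', hD'D, hne', hD'c.le, h⟩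
        · exact ⟨D'', hD''D, hne'', by omega, by linarith⟩
      have h1S : D₁ ⊆ S := h1D.trans hDS
      have hWm : Measurable (W42 w V D₁) := W_meas42 fun y hy => hV y (h1S hy)
      have h3 : P.real {x | W42 w V D₁ x ≤ t - 1} ≤ 3 / 4 := by
        have := gt42 P hWm (t - 1)
        linarith
      have h5 : Ehr.Phi (1 + 1 / c) < P.real {x | W42 w V D₁ x ≤ T + a} := by
        refine h4.trans_le (measureReal_mono fun x (hx : W42 w V S x ≤ T + a) => ?_)
        exact (W_mono42 (fun y hy => (hw y hy).1) h1n h1S x).trans hx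
      obtain ⟨t', ht'T, ht', hs⟩ := step42 P hWm (hL D₁ h1S h1n) hc0 hc1 ha htT h3 h5
      have h6 := ih D₁ h1S h1n h1c t' ht'T ht'
      have h7 : (1 + c) ^ J * (T - t') ≤ (1 + c) ^ J * ((1 + c) * (T - t) + (a + 3)) :=
        mul_le_mul_of_nonneg_left hs (by linarith)
      rw [← hkey, hp2]
      linarith

end Halv

section Gap

variable {d : ℕ} {ρ : Measure ℝ} {β : ℝ}

lemma spl_spl42 (S : Set (ℕ × Site d)) (η ξ ζ : Env d) : spl S (spl S η ξ) ζ = spl S η ζ := by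
  funext p
  by_cases hp : p ∈ S
  · rw [spl_mem _ _ hp, spl_mem _ _ hp, spl_mem _ _ hp]
  · rw [spl_not_mem _ _ hp, spl_not_mem _ _ hp]

/-- The choice of the rows `≤ k` and of a typical value. -/
lemma rows42 [IsProbabilityMeasure ρ] (hd : 0 < d) (hρ : EM ρ) (β : ℝ) (h : Vec d) (k m : ℕ)
    {M ε : ℝ} (hε : 0 < ε) (hRS : RS ρ β h (k + m) k M ε) : ∃ η ξ₀ : Env d,
    |(X β h (spl (Pa d k) η ξ₀) (k + m) - A ρ β h (k + m)) - (X β h η k - A ρ β h k)| <
      4 * (Fn ρ β h (k + m) + Fn ρ β h k) + 1 ∧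
    (law d ρ).real {ξ | M < |X β h (spl (Pa d k) η ξ₀) (k + m) -
      X β h (spl (Pa d k) η ξ) (k + m)|} < 4 * ε := by
  obtain ⟨D, hD⟩ : ∃ D : Env d × Env d → ℝ, D = fun w =>
    (X β h (spl (Pa d k) w.1 w.2) (k + m) - A ρ β h (k + m)) - (X β h w.1 k - A ρ β h k) :=
    ⟨_, rfl⟩
  have i1 : Integrable (fun w : Env d × Env d =>
      X β h (spl (Pa d k) w.1 w.2) (k + m) - A ρ β h (k + m)) ((law d ρ).prod (law d ρ)) :=
    ((mp_spl (ρ := ρ) (Pa d k)).integrable_comp_of_integrable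
      (concU hd hρ β h (k + m)).1).sub (integrable_const _)
  have i2 : Integrable (fun w : Env d × Env d => X β h w.1 k - A ρ β h k)
      ((law d ρ).prod (law d ρ)) :=
    ((measurePreserving_fst (μ := law d ρ) (ν := law d ρ)).integrable_comp_of_integrable
      (concU hd hρ β h k).1).sub (integrable_const _)
  have iD : Integrable D ((law d ρ).prod (law d ρ)) := by
    rw [hD]
    exact i1.sub i2
  have e1 : ∫ w, |X β h (spl (Pa d k) w.1 w.2) (k + m) - A ρ β h (k + m)|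
      ∂((law d ρ).prod (law d ρ)) = Fn ρ β h (k + m) := by
    unfold Fn
    rw [← (mp_spl (ρ := ρ) (Pa d k)).map_eq, integral_map (mp_spl (ρ := ρ) (Pa d k)).aemeasurable]
    rw [(mp_spl (ρ := ρ) (Pa d k)).map_eq]
    exact ((measurable_X β h (k + m)).sub_const _).abs.aestronglyMeasurable
  have e2 : ∫ w : Env d × Env d, |X β h w.1 k - A ρ β h k| ∂((law d ρ).prod (law d ρ)) =
      Fn ρ β h k := by
    unfold Fn
    have mp := measurePreserving_fst (μ := law d ρ) (ν := law d ρ)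
    conv_rhs => rw [← mp.map_eq]
    rw [integral_map mp.aemeasurable]
    rw [mp.map_eq]
    exact ((measurable_X β h k).sub_const _).abs.aestronglyMeasurable
  have hDle : ∫ w, |D w| ∂((law d ρ).prod (law d ρ)) ≤ Fn ρ β h (k + m) + Fn ρ β h k := by
    rw [← e1, ← e2, ← integral_add i1.abs i2.abs]
    refine integral_mono iD.abs (i1.abs.add i2.abs) fun w => ?_
    simp only [hD]
    exact abs_sub _ _
  -- the resampling
  obtain ⟨E, hE⟩ : ∃ E : Set (Env d × Env d), E =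
    {w | M < |X β h w.1 (k + m) - X β h (spl (Pa d k) w.1 w.2) (k + m)|} := ⟨_, rfl⟩
  have hEm : MeasurableSet E := by
    rw [hE]
    exact measurableSet_lt measurable_const
      ((((measurable_X β h (k + m)).comp measurable_fst).sub
        ((measurable_X β h (k + m)).comp (measurable_spl (Pa d k)))).abs)
  have hRS' : ((law d ρ).prod (law d ρ)).real E ≤ ε := by
    rw [hE]
    exact hRS
  have mpΦ : MeasurePreserving (fun z : (Env d × Env d) × Env d =>
      (spl (Pa d k) z.1.1 z.1.2, z.2)) (((law d ρ).prod (law d ρ)).prod (law d ρ))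
      ((law d ρ).prod (law d ρ)) :=
    (mp_spl (ρ := ρ) (Pa d k)).prod (MeasurePreserving.id (law d ρ))
  obtain ⟨f, hf⟩ : ∃ f : Env d × Env d → ℝ, f = fun w => (law d ρ).real
    {ξ | M < |X β h (spl (Pa d k) w.1 w.2) (k + m) - X β h (spl (Pa d k) w.1 ξ) (k + m)|} :=
    ⟨_, rfl⟩
  have hpre : MeasurableSet ((fun z : (Env d × Env d) × Env d =>
      (spl (Pa d k) z.1.1 z.1.2, z.2)) ⁻¹' E) := mpΦ.measurable hEm
  have hsec : ∀ w : Env d × Env d, Prod.mk w ⁻¹' ((fun z : (Env d × Env d) × Env d =>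
      (spl (Pa d k) z.1.1 z.1.2, z.2)) ⁻¹' E) = {ξ | M < |X β h (spl (Pa d k) w.1 w.2) (k + m) -
        X β h (spl (Pa d k) w.1 ξ) (k + m)|} := by
    intro w
    ext ξ
    rw [hE]
    show M < |X β h (spl (Pa d k) w.1 w.2) (k + m) -
      X β h (spl (Pa d k) (spl (Pa d k) w.1 w.2) ξ) (k + m)| ↔ _
    rw [spl_spl42]
    rfl
  have hlin : ∫⁻ w, (law d ρ) (Prod.mk w ⁻¹' ((fun z : (Env d × Env d) × Env d =>
      (spl (Pa d k) z.1.1 z.1.2, z.2)) ⁻¹' E)) ∂((law d ρ).prod (law d ρ)) =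
      ((law d ρ).prod (law d ρ)) E := by
    rw [← Measure.prod_apply hpre, mpΦ.measure_preimage hEm.nullMeasurableSet]
  have hfm : Measurable fun w : Env d × Env d => (law d ρ) (Prod.mk w ⁻¹'
      ((fun z : (Env d × Env d) × Env d => (spl (Pa d k) z.1.1 z.1.2, z.2)) ⁻¹' E)) :=
    measurable_measure_prodMk_left hpre
  have hfe : f = fun w => ((law d ρ) (Prod.mk w ⁻¹' ((fun z : (Env d × Env d) × Env d =>
      (spl (Pa d k) z.1.1 z.1.2, z.2)) ⁻¹' E))).toReal := by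
    rw [hf]
    funext w
    rw [hsec w]
    rfl
  have hf0 : ∀ w, 0 ≤ f w := fun w => by
    rw [hf]
    exact measureReal_nonneg
  have hfi : Integrable f ((law d ρ).prod (law d ρ)) := by
    refine Integrable.of_bound (C := 1) ?_ (Eventually.of_forall fun w => ?_)
    · rw [hfe]
      exact hfm.ennreal_toReal.aestronglyMeasurable
    · rw [Real.norm_eq_abs, abs_of_nonneg (hf0 w), hf]
      exact measureReal_le_one
  have hfle : ∫ w, f w ∂((law d ρ).prod (law d ρ)) ≤ ε := by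
    refine le_trans (le_of_eq ?_) hRS'
    rw [hfe, integral_toReal hfm.aemeasurable (Eventually.of_forall fun w =>
      measure_lt_top _ _), hlin]
    rfl
  obtain ⟨B, hB⟩ : ∃ B : ℝ, B = Fn ρ β h (k + m) + Fn ρ β h k := ⟨_, rfl⟩
  have hB0 : 0 ≤ B := by
    rw [hB]
    exact add_nonneg (Fn_nonneg15 β h _) (Fn_nonneg15 β h _)
  have hg : Integrable (fun w => |D w| / (4 * B + 1) + f w / (4 * ε))
      ((law d ρ).prod (law d ρ)) := (iD.abs.div_const _).add (hfi.div_const _)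
  obtain ⟨w, hw⟩ := exists_le_integral hg
  have hint : ∫ w, (|D w| / (4 * B + 1) + f w / (4 * ε)) ∂((law d ρ).prod (law d ρ)) < 1 := by
    rw [integral_add (iD.abs.div_const _) (hfi.div_const _), integral_div, integral_div]
    have h1 : (∫ w, |D w| ∂((law d ρ).prod (law d ρ))) / (4 * B + 1) < 1 / 2 := by
      rw [div_lt_iff₀ (by linarith)]
      linarith
    have h2 : (∫ w, f w ∂((law d ρ).prod (law d ρ))) / (4 * ε) ≤ 1 / 4 := by
      rw [div_le_iff₀ (by linarith)]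
      linarith
    linarith
  have hw1 := hw.trans_lt hint
  have h3 : 0 ≤ |D w| / (4 * B + 1) := div_nonneg (abs_nonneg _) (by linarith)
  have h4 : 0 ≤ f w / (4 * ε) := div_nonneg (hf0 w) (by linarith)
  refine ⟨w.1, w.2, ?_, ?_⟩
  · have h5 : |D w| / (4 * B + 1) < 1 := by linarith
    rw [div_lt_one (by linarith), hB, hD] at h5
    exact h5
  · have h5 : f w / (4 * ε) < 1 := by linarith
    rw [div_lt_one (by linarith), hf] at h5
    exact h5

/-- The upper tail of a shifted free energy. -/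
lemma tail42 [IsProbabilityMeasure ρ] (hd : 0 < d) (hρ : EM ρ) (β : ℝ) (h : Vec d) (k m : ℕ)
    (y : Site d) {u : ℝ} (hu : A ρ β h m + 2 * Fn ρ β h m < u) :
    (law d ρ).real {ξ | u ≤ X β h (sh k y ξ) m} < 1 / 2 := by
  have hF0 := Fn_nonneg15 (ρ := ρ) β h m
  have hs : 0 < u - A ρ β h m := by linarith
  have hi := (intX15 (ρ := ρ) hd hρ β h m).abs
  have h1 := mul_meas_ge_le_integral_of_nonneg (μ := law d ρ)
    (Eventually.of_forall fun η => abs_nonneg (X β h η m - A ρ β h m)) hi (u - A ρ β h m)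
  have h2 : ∫ η, |X β h η m - A ρ β h m| ∂(law d ρ) = Fn ρ β h m := rfl
  rw [h2] at h1
  have hm : MeasurableSet {η : Env d | u ≤ X β h η m} :=
    measurableSet_le measurable_const (measurable_X β h m)
  have e1 : (law d ρ).real {ξ | u ≤ X β h (sh k y ξ) m} = (law d ρ).real {η | u ≤ X β h η m} := by
    have := (mp_sh (d := d) (ρ := ρ) k y).measureReal_preimage hm.nullMeasurableSet
    exact this
  have h3 : (law d ρ).real {η | u ≤ X β h η m} ≤
      (law d ρ).real {η | u - A ρ β h m ≤ |X β h η m - A ρ β h m|} := by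
    refine measureReal_mono fun η (hη : u ≤ X β h η m) => ?_
    show u - A ρ β h m ≤ |X β h η m - A ρ β h m|
    exact le_trans (by linarith) (le_abs_self _)
  rw [e1]
  by_contra hcon
  push Not at hcon
  nlinarith

/-- The number of the halvings. -/
lemma num42 (hd : 0 < d) {η₁ : ℝ} (hη : 0 < η₁) : ∃ c K : ℝ, 0 < c ∧ c ≤ 1 ∧ 0 < K ∧
    ∀ k : ℕ, 1 ≤ k → ∃ J : ℕ, (2 * k + 1) ^ d ≤ 2 ^ J ∧ (1 + c) ^ J ≤ K * (k : ℝ) ^ η₁ := by
  have hd' : (0 : ℝ) < d := by exact_mod_cast hd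
  obtain ⟨g, hg0, hg1, hgd⟩ : ∃ g : ℝ, 0 < g ∧ g ≤ 1 ∧ g * d ≤ η₁ := by
    refine ⟨min 1 (η₁ / d), by positivity, min_le_left _ _, ?_⟩
    calc min 1 (η₁ / d) * d ≤ η₁ / d * d := mul_le_mul_of_nonneg_right (min_le_right _ _) hd'.le
      _ = η₁ := by field_simp
  have h2g1 : (1 : ℝ) < 2 ^ g := Real.one_lt_rpow (by norm_num) hg0
  have h2g2 : (2 : ℝ) ^ g ≤ 2 := by
    calc (2 : ℝ) ^ g ≤ 2 ^ (1 : ℝ) := Real.rpow_le_rpow_of_exponent_le (by norm_num) hg1
      _ = 2 := Real.rpow_one 2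
  refine ⟨2 ^ g - 1, 2 * 3 ^ d, by linarith, by linarith, by positivity, fun k hk => ?_⟩
  have hk1 : (1 : ℝ) ≤ k := by exact_mod_cast hk
  obtain ⟨N, hN⟩ : ∃ N : ℕ, N = (2 * k + 1) ^ d := ⟨_, rfl⟩
  have hN1 : 1 < N := by
    rw [hN]
    exact Nat.one_lt_pow hd.ne' (by omega)
  refine ⟨Nat.clog 2 N, ?_, ?_⟩
  · rw [← hN]
    exact Nat.le_pow_clog (by norm_num) N
  · have hcl : 2 ^ (Nat.clog 2 N) ≤ 2 * N := by
      have h1 := Nat.pow_pred_clog_lt_self (b := 2) (by norm_num) hN1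
      have h2 : 0 < Nat.clog 2 N := Nat.clog_pos (by norm_num) hN1
      obtain ⟨j, hj⟩ : ∃ j, Nat.clog 2 N = j + 1 := ⟨Nat.clog 2 N - 1, by omega⟩
      rw [hj] at h1 ⊢
      simp only [Nat.pred_succ] at h1
      rw [pow_succ]
      have h3 : 2 ^ j < N := by simpa using h1
      omega
    have e1 : (1 + ((2 : ℝ) ^ g - 1)) ^ (Nat.clog 2 N) = ((2 : ℝ) ^ (Nat.clog 2 N)) ^ g := by
      rw [add_sub_cancel, ← Real.rpow_natCast, ← Real.rpow_natCast,
        ← Real.rpow_mul (by norm_num), ← Real.rpow_mul (by norm_num), mul_comm]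
    rw [e1]
    have h3 : (2 : ℝ) ^ (Nat.clog 2 N) ≤ 2 * 3 ^ d * (k : ℝ) ^ d := by
      calc (2 : ℝ) ^ (Nat.clog 2 N) ≤ 2 * N := by exact_mod_cast hcl
        _ = 2 * (2 * (k : ℝ) + 1) ^ d := by
            rw [hN]
            push_cast
            ring
        _ ≤ 2 * (3 * (k : ℝ)) ^ d := by
            refine mul_le_mul_of_nonneg_left (pow_le_pow_left₀ (by linarith) (by linarith) d)
              (by norm_num)
        _ = 2 * 3 ^ d * (k : ℝ) ^ d := by
            rw [mul_pow]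
            ring
    calc ((2 : ℝ) ^ (Nat.clog 2 N)) ^ g ≤ (2 * 3 ^ d * (k : ℝ) ^ d) ^ g :=
          Real.rpow_le_rpow (by positivity) h3 hg0.le
      _ = (2 * 3 ^ d) ^ g * ((k : ℝ) ^ d) ^ g :=
          Real.mul_rpow (by positivity) (by positivity)
      _ ≤ (2 * 3 ^ d) * (k : ℝ) ^ η₁ := by
          have h4 : (1 : ℝ) ≤ 3 ^ d := one_le_pow₀ (by norm_num)
          refine mul_le_mul ?_ ?_ (by positivity) (by positivity)
          · calc ((2 : ℝ) * 3 ^ d) ^ g ≤ (2 * 3 ^ d) ^ (1 : ℝ) :=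
                  Real.rpow_le_rpow_of_exponent_le (by linarith) hg1
              _ = 2 * 3 ^ d := Real.rpow_one _
          · rw [← Real.rpow_natCast, ← Real.rpow_mul (by linarith)]
            exact Real.rpow_le_rpow_of_exponent_le hk1 (by linarith)

/-- **Leaf GAP.** -/
theorem gapK42 [IsProbabilityMeasure ρ] (hd : 0 < d) (hρ : EM ρ) (hG : GC ρ) (hβ : 0 ≤ β) :
    GapK d ρ β := by
  classical
  intro η₁ hη
  obtain ⟨c, K, hc0, hc1, hK, hnum⟩ := num42 hd hη
  obtain ⟨κ, hκ⟩ : ∃ κ : ℝ, κ = 1 - Ehr.Phi (1 + 1 / c) := ⟨_, rfl⟩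
  have hadd := A84.Phi_add (1 + 1 / c)
  have hκe : κ = Ehr.Phi (-(1 + 1 / c)) := by rw [hκ]; linarith
  have hκ0 : 0 < κ := by
    rw [hκe]
    exact Ehr.Phi_pos _
  have hκ1 : κ < 1 / 2 := by
    rw [hκe, ← Pool.Agent.W_7d29a1_NR.Phi_zero44]
    exact Ehr.Phi_strictMono (by
      have : 0 < 1 / c := by positivity
      linarith)
  have hKc : 0 ≤ 3 * K / c := by positivity
  refine ⟨κ / 4, 1 + 3 * K / c, by positivity, by linarith, ?_⟩
  intro h k m M hk hm hM hRS
  obtain ⟨J, hJ1, hJ2⟩ := hnum k hk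
  obtain ⟨η, ξ₀, h1, h2⟩ := rows42 hd hρ β h k m (ε := κ / 4) (by positivity) hRS
  have e4 : 4 * (κ / 4) = κ := by ring
  rw [e4] at h2
  obtain ⟨w, hw⟩ : ∃ w : Site d → ℝ, w = fun y => PP β h η k y / Z β h η k := ⟨_, rfl⟩
  obtain ⟨V, hV⟩ : ∃ V : Site d → Env d → ℝ, V = fun y ξ => X β h (sh k y ξ) m := ⟨_, rfl⟩
  have hZ : 0 < Z β h η k := Z_pos hd β h η k
  have hw0 : ∀ y, 0 ≤ w y := fun y => by
    rw [hw]
    exact div_nonneg (Pool.Agent.W_7d29a1_NR.PP_nonneg45 hd β h η k y) hZ.le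
  have hw1 : ∀ y, w y ≤ 1 := fun y => by
    rw [hw]
    exact (div_le_one hZ).2 (Pool.Agent.W_7d29a1_NR.PP_le_Z45 hd β h η k y)
  have hsum : ∑ y ∈ boxF d k, w y = 1 := by
    rw [hw]
    simp only
    rw [← Finset.sum_div, ← Z_eq_sum]
    exact div_self hZ.ne'
  obtain ⟨S, hS⟩ : ∃ S : Finset (Site d), S = (boxF d k).filter fun y => 0 < w y := ⟨_, rfl⟩
  have hSw : ∀ y ∈ S, 0 < w y ∧ w y ≤ 1 := by
    intro y hy
    rw [hS, Finset.mem_filter] at hy
    exact ⟨hy.2, hw1 y⟩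
  have hSsum : ∀ g : Site d → ℝ, ∑ y ∈ S, w y * g y = ∑ y ∈ boxF d k, w y * g y := by
    intro g
    rw [hS, Finset.sum_filter_of_ne]
    intro y _ hy
    rcases (hw0 y).eq_or_lt with h | h
    · rw [← h, zero_mul] at hy
      exact absurd rfl hy
    · exact h
  have hSn : S.Nonempty := by
    by_contra hcon
    rw [Finset.not_nonempty_iff_eq_empty] at hcon
    have := hSsum fun _ => 1
    rw [hcon, Finset.sum_empty] at this
    simp only [mul_one, hsum] at this
    norm_num at this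
  have hScard : S.card ≤ 2 ^ J := by
    refine le_trans ?_ hJ1
    rw [hS]
    refine (Finset.card_filter_le _ _).trans (le_of_eq ?_)
    exact_mod_cast card_boxF d k
  have hVm : ∀ y ∈ S, Measurable (V y) := fun y _ => by
    rw [hV]
    exact (measurable_X β h m).comp (measurable_sh k y)
  have hL : ∀ D : Finset (Site d), D ⊆ S → D.Nonempty → Lk42 (law d ρ) (W42 w V D) := by
    intro D hDS hD a b s0 s1 t ht h0 h1'
    have := Pool.Agent.W_7d29a1_NR.L84.luckW84 hd hG hβ h k m hD (w := w)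
      (fun y hy => (hSw y (hDS hy)).1) (a := a) (b := b) (s0 := s0) (s1 := s1) ht
      (by rw [hV] at h0; exact h0) (by rw [hV] at h1'; exact h1')
    rw [hV]
    exact this
  obtain ⟨t₀, ht₀⟩ : ∃ t₀ : ℝ, t₀ = X β h (spl (Pa d k) η ξ₀) (k + m) - X β h η k := ⟨_, rfl⟩
  have hWS : ∀ ξ, W42 w V S ξ = X β h (spl (Pa d k) η ξ) (k + m) - X β h η k := by
    intro ξ
    have hg := Pool.Agent.W_7d29a1_NR.glue45 hd β h k m 0 η ξ
    unfold W42
    rw [hSsum fun y => Real.exp (V y ξ), hw, hV]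
    simp only [sub_zero] at hg ⊢
    exact hg
  have hWm : Measurable (W42 w V S) := W_meas42 hVm
  -- the typical value
  have hup : 1 - κ < (law d ρ).real {ξ | |W42 w V S ξ - t₀| ≤ M} := by
    have hms : MeasurableSet {ξ : Env d | |W42 w V S ξ - t₀| ≤ M} :=
      measurableSet_le (hWm.sub_const _).abs measurable_const
    have h5 := probReal_compl_eq_one_sub (μ := law d ρ) hms
    have h6 : (law d ρ).real {ξ : Env d | |W42 w V S ξ - t₀| ≤ M}ᶜ ≤ (law d ρ).real
        {ξ | M < |X β h (spl (Pa d k) η ξ₀) (k + m) -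
          X β h (spl (Pa d k) η ξ) (k + m)|} := by
      refine measureReal_mono fun ξ hξ => ?_
      have hξ' : ¬ |W42 w V S ξ - t₀| ≤ M := hξ
      rw [not_le, hWS, ht₀] at hξ'
      show M < |X β h (spl (Pa d k) η ξ₀) (k + m) - X β h (spl (Pa d k) η ξ) (k + m)|
      rw [abs_sub_comm]
      have e5 : X β h (spl (Pa d k) η ξ) (k + m) - X β h η k -
          (X β h (spl (Pa d k) η ξ₀) (k + m) - X β h η k) =
          X β h (spl (Pa d k) η ξ) (k + m) - X β h (spl (Pa d k) η ξ₀) (k + m) := by ring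
      rwa [e5] at hξ'
    linarith
  have h4 : Ehr.Phi (1 + 1 / c) < (law d ρ).real {ξ | W42 w V S ξ ≤ (t₀ - M) + 2 * M} := by
    have e6 : Ehr.Phi (1 + 1 / c) = 1 - κ := by rw [hκ]; ring
    rw [e6]
    refine hup.trans_le (measureReal_mono fun ξ (hξ : |W42 w V S ξ - t₀| ≤ M) => ?_)
    show W42 w V S ξ ≤ (t₀ - M) + 2 * M
    linarith [(abs_le.1 hξ).2]
  have h5 : 1 / 2 ≤ (law d ρ).real {ξ | t₀ - M ≤ W42 w V S ξ} := by
    have h6 : (law d ρ).real {ξ | |W42 w V S ξ - t₀| ≤ M} ≤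
        (law d ρ).real {ξ | t₀ - M ≤ W42 w V S ξ} := by
      refine measureReal_mono fun ξ (hξ : |W42 w V S ξ - t₀| ≤ M) => ?_
      show t₀ - M ≤ W42 w V S ξ
      linarith [(abs_le.1 hξ).1]
    linarith
  have hu : ∀ y ∈ S, ∀ u, A ρ β h m + 2 * Fn ρ β h m < u →
      (law d ρ).real {ξ | u ≤ V y ξ} < 1 / 2 := by
    intro y _ u hu
    rw [hV]
    exact tail42 hd hρ β h k m y hu
  have key := halv42 (law d ρ) hSw hVm hL hc0 hc1 (a := 2 * M) (T := t₀ - M)
    (u₀ := A ρ β h m + 2 * Fn ρ β h m) (by linarith) h4 hu J S (Finset.Subset.refl S) hSn hScard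
    (t₀ - M) le_rfl h5
  have hF1 := Fn_nonneg15 (ρ := ρ) β h (k + m)
  have hF2 := Fn_nonneg15 (ρ := ρ) β h k
  have hF3 := Fn_nonneg15 (ρ := ρ) β h m
  have hkη : (1 : ℝ) ≤ (k : ℝ) ^ η₁ := Real.one_le_rpow (by exact_mod_cast hk) hη.le
  have h7 : ((1 + c) ^ J - 1) / c ≤ K / c * (k : ℝ) ^ η₁ := by
    rw [div_mul_eq_mul_div]
    exact div_le_div_of_nonneg_right (by linarith) hc0.le
  have h8 : (2 * M + 3) * (((1 + c) ^ J - 1) / c) ≤ (2 * M + 3) * (K / c * (k : ℝ) ^ η₁) :=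
    mul_le_mul_of_nonneg_left h7 (by linarith)
  have h9 : (2 * M + 3) * (K / c * (k : ℝ) ^ η₁) ≤ 3 * K / c * (k : ℝ) ^ η₁ * (M + 1) := by
    have h10 : 0 ≤ K / c * (k : ℝ) ^ η₁ := by positivity
    have e7 : 3 * K / c * (k : ℝ) ^ η₁ * (M + 1) = (K / c * (k : ℝ) ^ η₁) * (3 * M + 3) := by
      ring
    rw [e7]
    nlinarith
  have h11 : M + 1 ≤ (k : ℝ) ^ η₁ * (M + 1) := by nlinarith
  rw [abs_lt] at h1
  have e8 : (1 + 3 * K / c) * (k : ℝ) ^ η₁ * (M + 1) =
      (k : ℝ) ^ η₁ * (M + 1) + 3 * K / c * (k : ℝ) ^ η₁ * (M + 1) := by ring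
  rw [e8]
  have h12 := h1.1
  simp only [sub_self, mul_zero, zero_add] at key
  rw [ht₀] at key
  have e9 : Gp ρ β h k m = A ρ β h (k + m) - A ρ β h k - A ρ β h m := rfl
  rw [e9]
  linarith

end Gap

end Pool.Agent.W_7d29a1_KZ
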