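import Mathlib

/-!
Second moments from power tails.
-/

set_option autoImplicit false

namespace Pool.Agent.W_7d29a1_KZ.E62

open MeasureTheory Filter Topology

/-- A power tail controls the excess. -/
lemma excp {Ω : Type*} [MeasurableSpace Ω] {μ : Measure Ω} [IsProbabilityMeasure μ] {Y : Ω → ℝ}
    (hY : Integrable Y μ) {D B p : ℝ} (hD : 0 ≤ D) (hB : 0 < B) (hp : 1 < p)
    (hT : ∀ u : ℝ, B ≤ u → μ.real {w | u ≤ Y w} ≤ D * u ^ (-p)) :
    ∫ w, max (Y w - B) 0 ∂μ ≤ D * B ^ (1 - p) / (p - 1) := by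
  have hi : Integrable (fun w => max (Y w - B) 0) μ := (hY.sub (integrable_const _)).pos_part
  rw [hi.integral_eq_integral_meas_lt (Eventually.of_forall fun w => le_max_right _ _)]
  have hder : ∀ t ∈ Set.Ici (0 : ℝ), HasDerivAt (fun t : ℝ => -(D / (p - 1) * (B + t) ^ (1 - p)))
      (D * (B + t) ^ (-p)) t := by
    intro t ht
    have h0 : (0 : ℝ) < B + t := by
      have : (0 : ℝ) ≤ t := ht
      linarith
    have h1 : HasDerivAt (fun t : ℝ => B + t) 1 t := (hasDerivAt_id t).const_add B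
    have h2 : HasDerivAt (fun t : ℝ => (B + t) ^ (1 - p)) (1 * (1 - p) * (B + t) ^ (1 - p - 1)) t :=
      h1.rpow_const (Or.inl h0.ne')
    have h3 := (h2.const_mul (D / (p - 1))).neg
    have e : -(D / (p - 1) * (1 * (1 - p) * (B + t) ^ (1 - p - 1))) = D * (B + t) ^ (-p) := by
      rw [show (1 : ℝ) - p - 1 = -p by ring]
      have : p - 1 ≠ 0 := by linarith
      field_simp
      ring
    rwa [e] at h3
  have hpos : ∀ t ∈ Set.Ioi (0 : ℝ), 0 ≤ D * (B + t) ^ (-p) := fun t ht => by
    have ht0 : (0 : ℝ) < t := ht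
    have h0 : (0 : ℝ) < B + t := by linarith
    positivity
  have hlim : Tendsto (fun t : ℝ => -(D / (p - 1) * (B + t) ^ (1 - p))) atTop (𝓝 0) := by
    have h1 : Tendsto (fun t : ℝ => B + t) atTop atTop := tendsto_atTop_add_const_left _ _ tendsto_id
    have h2 : Tendsto (fun t : ℝ => (B + t) ^ (1 - p)) atTop (𝓝 0) := by
      have h3 := tendsto_rpow_neg_atTop (show 0 < p - 1 by linarith)
      have h4 : (fun t : ℝ => (B + t) ^ (1 - p)) = (fun x : ℝ => x ^ (-(p - 1))) ∘ fun t => B + t := by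
        funext t
        simp only [Function.comp_apply]
        congr 1
        ring
      rw [h4]
      exact h3.comp h1
    have h5 := (h2.const_mul (D / (p - 1))).neg
    simpa using h5
  have h3 := integrableOn_Ioi_deriv_of_nonneg' (a := 0) hder hpos hlim
  have h4 := integral_Ioi_of_hasDerivAt_of_tendsto' (a := 0) hder h3 hlim
  have h5 : ∫ t in Set.Ioi (0 : ℝ), μ.real {w | t < max (Y w - B) 0} ≤
      ∫ t in Set.Ioi (0 : ℝ), D * (B + t) ^ (-p) := by
    refine integral_mono_of_nonneg (Eventually.of_forall fun t => measureReal_nonneg) h3 ?_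
    filter_upwards [ae_restrict_mem measurableSet_Ioi] with t ht
    have ht0 : (0 : ℝ) < t := ht
    refine (measureReal_mono ?_).trans (hT (B + t) (by linarith))
    intro w hw
    have hw1 : t < max (Y w - B) 0 := hw
    show B + t ≤ Y w
    rcases lt_max_iff.1 hw1 with h6 | h6
    · linarith
    · linarith
  refine h5.trans (le_of_eq ?_)
  rw [h4, add_zero]
  ring

/-- The second moment of the positive part, from a tail of power `b > 2`. -/
lemma sqp {Ω : Type*} [MeasurableSpace Ω] {μ : Measure Ω} [IsProbabilityMeasure μ] {Y : Ω → ℝ}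
    (hYm : Measurable Y) (hY : Integrable (fun w => Y w ^ 2) μ) {P b : ℝ} (hP : 0 < P)
    (hb : 2 < b) (hT : ∀ x : ℝ, P ≤ x → μ.real {w | x ≤ Y w} ≤ (P / x) ^ b) :
    ∫ w, max (Y w) 0 ^ 2 ∂μ ≤ b / (b - 2) * P ^ 2 := by
  have hm2 : Measurable fun w => max (Y w) 0 ^ 2 := (hYm.max measurable_const).pow_const 2
  have hi : Integrable (fun w => max (Y w) 0 ^ 2) μ := by
    refine hY.mono hm2.aestronglyMeasurable (Eventually.of_forall fun w => ?_)
    rw [Real.norm_eq_abs, Real.norm_eq_abs, abs_of_nonneg (sq_nonneg _), abs_of_nonneg (sq_nonneg _)]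
    rcases le_total (Y w) 0 with h | h
    · rw [max_eq_right h]
      nlinarith [sq_nonneg (Y w)]
    · rw [max_eq_left h]
  have h1 := excp (μ := μ) hi (D := P ^ b) (B := P ^ 2) (p := b / 2) (by positivity)
    (by positivity) (by linarith) fun u hu => by
      have hu0 : 0 < u := lt_of_lt_of_le (by positivity) hu
      have hsu : P ≤ Real.sqrt u := Real.le_sqrt_of_sq_le hu
      have hsp : 0 < Real.sqrt u := Real.sqrt_pos.2 hu0
      refine (measureReal_mono ?_).trans ((hT (Real.sqrt u) hsu).trans (le_of_eq ?_))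
      · intro w hw
        have hw1 : u ≤ max (Y w) 0 ^ 2 := hw
        show Real.sqrt u ≤ Y w
        have h2 : Real.sqrt u ≤ max (Y w) 0 := Real.sqrt_le_iff.2 ⟨le_max_right _ _, hw1⟩
        rcases le_max_iff.1 h2 with h3 | h3
        · exact h3
        · linarith
      · rw [Real.div_rpow hP.le hsp.le, Real.sqrt_eq_rpow, ← Real.rpow_mul hu0.le,
          Real.rpow_neg hu0.le, div_eq_mul_inv]
        congr 3
        ring
  have h2 : ∫ w, max (Y w) 0 ^ 2 ∂μ ≤ P ^ 2 + ∫ w, max (max (Y w) 0 ^ 2 - P ^ 2) 0 ∂μ := by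
    have h3 : ∫ w, max (Y w) 0 ^ 2 ∂μ ≤ ∫ w, (P ^ 2 + max (max (Y w) 0 ^ 2 - P ^ 2) 0) ∂μ := by
      refine integral_mono hi ((integrable_const _).add
        ((hi.sub (integrable_const _)).pos_part)) fun w => ?_
      have := le_max_left (max (Y w) 0 ^ 2 - P ^ 2) 0
      show max (Y w) 0 ^ 2 ≤ P ^ 2 + max (max (Y w) 0 ^ 2 - P ^ 2) 0
      linarith
    have i2 : Integrable (fun w => max (max (Y w) 0 ^ 2 - P ^ 2) 0) μ :=
      (hi.sub (integrable_const _)).pos_part
    rw [integral_add (integrable_const _) i2] at h3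
    simpa using h3
  refine h2.trans ?_
  have e1 : P ^ b * (P ^ 2) ^ (1 - b / 2) = P ^ 2 := by
    rw [← Real.rpow_natCast P 2, ← Real.rpow_mul hP.le, ← Real.rpow_add hP]
    congr 1
    push_cast
    ring
  rw [e1] at h1
  have hb2 : 0 < b - 2 := by linarith
  have e2 : P ^ 2 / (b / 2 - 1) = 2 / (b - 2) * P ^ 2 := by
    have : b / 2 - 1 ≠ 0 := by linarith
    field_simp
  rw [e2] at h1
  have e3 : b / (b - 2) * P ^ 2 = P ^ 2 + 2 / (b - 2) * P ^ 2 := by
    field_simp
    ring
  rw [e3]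
  linarith

end Pool.Agent.W_7d29a1_KZ.E62
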