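import Pool.Agent.W_7d29a1_KZ.DefsZ70
import Pool.Agent.W_7d29a1_KZ.Exc62
import Pool.Agent.W_7d29a1_SQ.Top32
import Pool.Agent.W_7d29a1_SP.Bas15

/-!
Theorem KZ at all lengths: the running maxima of the two fluctuations and the variance obey the
bound for every `n` (helper27).
-/

namespace Pool.Agent.W_7d29a1_KZ

open MeasureTheory ProbabilityTheory Filter Topology Pool.Agent.W_MP_7d29a1_pr
  Pool.Agent.W_7d29a1_h46 Pool.Agent.W_7d29a1_h46u Pool.Agent.W_7d29a1_D2.B35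
  Pool.Agent.W_7d29a1_Q29 Pool.Agent.W_7d29a1_R34 Pool.Agent.W_7d29a1_SP Pool.Agent.W_7d29a1_SD
  Pool.Agent.W_7d29a1_SQ

/-- The running maxima of the two fluctuations at all lengths. -/
def PsKC (d : ℕ) (ρ : Measure ℝ) (β : ℝ) : Prop := ∀ᵐ v : Vec d, ∀ h : Vec d, VSD ρ β h →
  ∀ δ : ℝ, 0 ≤ δ → δ < 1 / 2 → HalfD ρ β h v δ → ∀ x : ℝ, 2 * δ < x → ∃ C : ℝ, 0 ≤ C ∧
    ∀ n : ℕ, 1 ≤ n → Ps ρ β h n ≤ C * (n : ℝ) ^ x

/-- **THEOREM KZ AT ALL LENGTHS, WITH CONSTANTS.** -/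
def MainKC (d : ℕ) (ρ : Measure ℝ) (β : ℝ) : Prop := ∀ᵐ v : Vec d, ∀ h : Vec d, VSD ρ β h →
  ∀ δ : ℝ, 0 ≤ δ → δ < 1 / 2 → HalfD ρ β h v δ → ∀ x : ℝ, 2 * δ < x → ∃ C : ℝ, 0 ≤ C ∧
    ∀ n : ℕ, 1 ≤ n → Va ρ β h n ≤ C * (n : ℝ) ^ (2 * x) ∧ En ρ β h n ≤ C * (n : ℝ) ^ x ∧
      Fn ρ β h n ≤ C * (n : ℝ) ^ x

namespace A27

/-- The next right record. -/
lemma rec27 {a b C : ℝ} {f : ℕ → ℝ} (hb : 0 < b) (hba : b < a) (hf1 : ∀ n, 1 ≤ f n)
    (hpol : ∀ n : ℕ, f n ≤ 1 + C * (n : ℝ) ^ b) {N : ℕ} (hN : 1 ≤ N) :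
    ∃ n : ℕ, N ≤ n ∧ RRa a f n ∧ f N * (N : ℝ) ^ (-a) ≤ f n * (n : ℝ) ^ (-a) := by
  have ha : 0 < a := hb.trans hba
  obtain ⟨g, hg⟩ : ∃ g : ℕ → ℝ, g = fun T => f T * (T : ℝ) ^ (-a) := ⟨_, rfl⟩
  have hcast : Tendsto (fun T : ℕ => (T : ℝ)) atTop atTop := tendsto_natCast_atTop_atTop
  have h1 : Tendsto (fun T : ℕ => (T : ℝ) ^ (-a)) atTop (𝓝 0) :=
    (tendsto_rpow_neg_atTop ha).comp hcast
  have h2 : Tendsto (fun T : ℕ => (T : ℝ) ^ (-(a - b))) atTop (𝓝 0) :=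
    (tendsto_rpow_neg_atTop (by linarith)).comp hcast
  have hlim : Tendsto g atTop (𝓝 0) := by
    have h3 : Tendsto (fun T : ℕ => (T : ℝ) ^ (-a) + C * (T : ℝ) ^ (-(a - b))) atTop
        (𝓝 (0 + C * 0)) := h1.add (h2.const_mul C)
    rw [mul_zero, add_zero] at h3
    refine squeeze_zero' (Eventually.of_forall fun T => ?_) ?_ h3
    · rw [hg]
      have := hf1 T
      have h4 : (0 : ℝ) ≤ (T : ℝ) ^ (-a) := by positivity
      exact mul_nonneg (by linarith) h4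
    · filter_upwards [eventually_ge_atTop 1] with T hT
      have hT0 : (0 : ℝ) < T := by exact_mod_cast hT
      have h4 : (0 : ℝ) ≤ (T : ℝ) ^ (-a) := by positivity
      have h5 := mul_le_mul_of_nonneg_right (hpol T) h4
      have h6 : (T : ℝ) ^ b * (T : ℝ) ^ (-a) = (T : ℝ) ^ (-(a - b)) := by
        rw [← Real.rpow_add hT0]
        congr 1
        ring
      have h7 : (1 + C * (T : ℝ) ^ b) * (T : ℝ) ^ (-a) =
          (T : ℝ) ^ (-a) + C * ((T : ℝ) ^ b * (T : ℝ) ^ (-a)) := by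
        ring
      rw [h7, h6] at h5
      rw [hg]
      exact h5
  have hn0 : (0 : ℝ) < N := by exact_mod_cast hN
  have hgn : 0 < g N := by
    rw [hg]
    have := hf1 N
    have h4 : (0 : ℝ) < (N : ℝ) ^ (-a) := by positivity
    exact mul_pos (by linarith) h4
  obtain ⟨N', hN'⟩ := eventually_atTop.1 (hlim.eventually (gt_mem_nhds hgn))
  obtain ⟨n', hn', hmax⟩ := Finset.exists_max_image (Finset.Icc N (max N' N)) g
    ⟨N, Finset.mem_Icc.2 ⟨le_rfl, le_max_right _ _⟩⟩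
  have hnn : N ≤ n' := (Finset.mem_Icc.1 hn').1
  have hall : ∀ T : ℕ, N ≤ T → g T ≤ g n' := by
    intro T hT
    rcases le_or_gt T (max N' N) with h | h
    · exact hmax T (Finset.mem_Icc.2 ⟨hT, h⟩)
    · have h3 := hN' T ((le_max_left _ _).trans h.le)
      have h4 := hmax N (Finset.mem_Icc.2 ⟨le_rfl, le_max_right _ _⟩)
      linarith
  refine ⟨n', hnn, ⟨hN.trans hnn, fun T hT => ?_⟩, ?_⟩
  · have h3 := hall T (hnn.trans hT)
    have hn'0 : (0 : ℝ) < n' := by exact_mod_cast (hN.trans hnn)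
    have hT0 : (0 : ℝ) < T := by exact_mod_cast (hN.trans (hnn.trans hT))
    rw [hg] at h3
    have h4 : (0 : ℝ) < (T : ℝ) ^ a := by positivity
    have h5 := mul_le_mul_of_nonneg_right h3 h4.le
    have h6 : (T : ℝ) ^ (-a) * (T : ℝ) ^ a = 1 := by
      rw [← Real.rpow_add hT0]
      norm_num
    have h7 : f T * (T : ℝ) ^ (-a) * (T : ℝ) ^ a = f T := by
      rw [mul_assoc, h6, mul_one]
    have h8 : f n' * (n' : ℝ) ^ (-a) * (T : ℝ) ^ a = f n' * ((T : ℝ) / n') ^ a := by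
      rw [Real.div_rpow hT0.le hn'0.le, Real.rpow_neg hn'0.le]
      ring
    simp only at h5
    rw [h7, h8] at h5
    exact h5
  · have h3 := hall N le_rfl
    rw [hg] at h3
    exact h3

/-- From the right records to all lengths. -/
lemma all27 {b C y C₁ : ℝ} {f : ℕ → ℝ} (hb : 0 < b) (hba : b < 2 / 3) (hf1 : ∀ n, 1 ≤ f n)
    (hpol : ∀ n : ℕ, f n ≤ 1 + C * (n : ℝ) ^ b) (hy : 0 ≤ y) (hy2 : y ≤ 2 / 3)
    (hC₁ : 0 ≤ C₁)
    (H : ∀ᶠ n : ℕ in atTop, RRec f n → f n ≤ C₁ * (n : ℝ) ^ y) :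
    ∃ B : ℝ, 1 ≤ B ∧ ∀ n : ℕ, 1 ≤ n → f n ≤ B * (n : ℝ) ^ y := by
  obtain ⟨N₀, hN₀⟩ := eventually_atTop.1 H
  refine ⟨1 + C₁ + ∑ k ∈ Finset.range N₀, f k, ?_, fun n hn => ?_⟩
  · have : 0 ≤ ∑ k ∈ Finset.range N₀, f k :=
      Finset.sum_nonneg fun k _ => zero_le_one.trans (hf1 k)
    linarith
  have hn0 : (0 : ℝ) < n := by exact_mod_cast hn
  have hny : 1 ≤ (n : ℝ) ^ y := Real.one_le_rpow (by exact_mod_cast hn) hy
  have hs : 0 ≤ ∑ k ∈ Finset.range N₀, f k :=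
    Finset.sum_nonneg fun k _ => zero_le_one.trans (hf1 k)
  rcases lt_or_ge n N₀ with h | h
  · have h1 : f n ≤ ∑ k ∈ Finset.range N₀, f k :=
      Finset.single_le_sum (f := f) (fun k _ => zero_le_one.trans (hf1 k))
        (Finset.mem_range.2 h)
    have h2 : (1 + C₁ + ∑ k ∈ Finset.range N₀, f k) * 1 ≤
        (1 + C₁ + ∑ k ∈ Finset.range N₀, f k) * (n : ℝ) ^ y :=
      mul_le_mul_of_nonneg_left hny (by linarith)
    linarith
  · obtain ⟨T, hT, hR, hmax⟩ := rec27 hb hba hf1 hpol hn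
    have hT0 : (0 : ℝ) < T := lt_of_lt_of_le hn0 (by exact_mod_cast hT)
    have h1 := hN₀ T (h.trans hT) hR
    have h2 : f n * (n : ℝ) ^ (-(2 / 3 : ℝ)) ≤ C₁ * (n : ℝ) ^ (y - 2 / 3) := by
      refine hmax.trans ?_
      have h3 := mul_le_mul_of_nonneg_right h1 (by positivity : 0 ≤ (T : ℝ) ^ (-(2 / 3 : ℝ)))
      have h4 : C₁ * (T : ℝ) ^ y * (T : ℝ) ^ (-(2 / 3 : ℝ)) = C₁ * (T : ℝ) ^ (y - 2 / 3) := by
        rw [mul_assoc, ← Real.rpow_add hT0]
        rfl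
      rw [h4] at h3
      refine h3.trans (mul_le_mul_of_nonneg_left ?_ hC₁)
      exact Real.rpow_le_rpow_of_nonpos hn0 (by exact_mod_cast hT) (by linarith)
    have h5 := mul_le_mul_of_nonneg_right h2 (by positivity : 0 ≤ (n : ℝ) ^ (2 / 3 : ℝ))
    have h6 : f n * (n : ℝ) ^ (-(2 / 3 : ℝ)) * (n : ℝ) ^ (2 / 3 : ℝ) = f n := by
      rw [mul_assoc, ← Real.rpow_add hn0]
      norm_num
    have h7 : C₁ * (n : ℝ) ^ (y - 2 / 3) * (n : ℝ) ^ (2 / 3 : ℝ) = C₁ * (n : ℝ) ^ y := by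
      rw [mul_assoc, ← Real.rpow_add hn0]
      congr 2
      ring
    rw [h6, h7] at h5
    refine h5.trans (mul_le_mul_of_nonneg_right (by linarith) (by positivity))

variable {d : ℕ} {ρ : Measure ℝ} [IsProbabilityMeasure ρ] {β : ℝ}

/-- The upper tail from a power bound of the fluctuations. -/
lemma tail27 (hC : CntP d ρ β) {c₀ : ℝ} (hc₀ : 0 < c₀) : ∃ C : ℝ, 1 ≤ C ∧ ∀ h : Vec d,
    Loc1 ρ β h c₀ → ∀ y B : ℝ, 0 < y → y ≤ 1 → 1 ≤ B →
      (∀ T : ℕ, 1 ≤ T → Ps ρ β h T ≤ B * (T : ℝ) ^ y) → ∀ m : ℕ, 1 ≤ m → ∀ x : ℝ, 0 < x →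
        (law d ρ).real {η | x ≤ X β h η m - A ρ β h m} ≤
          (C * B * (m : ℝ) ^ y / x) ^ (1 / y) := by
  obtain ⟨C₀, hC₀, hcnt⟩ := hC c₀ hc₀
  have hC₀0 : 0 < C₀ := by linarith
  refine ⟨4 * C₀ ^ 2, by nlinarith, fun h hloc y B hy hy1 hB hPs m hm x hx => ?_⟩
  have hm0 : (0 : ℝ) < m := by exact_mod_cast hm
  have hm1 : (1 : ℝ) ≤ m := by exact_mod_cast hm
  set q : ℝ := (law d ρ).real {η | x ≤ X β h η m - A ρ β h m} with hq
  have hset : {η | A ρ β h m + x ≤ X β h η m} = {η : Env d | x ≤ X β h η m - A ρ β h m} := by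
    ext η
    simp only [Set.mem_ofPred_eq]
    constructor <;> intro h1 <;> linarith
  have hq0' : 0 ≤ q := measureReal_nonneg
  have hq1 : q ≤ 1 := measureReal_le_one
  have hr0 : 0 ≤ 4 * C₀ ^ 2 * B * (m : ℝ) ^ y / x := by positivity
  rcases hq0'.eq_or_lt with hq0 | hq0
  · rw [← hq0]
    exact Real.rpow_nonneg hr0 _
  have hA1 : 1 ≤ C₀ * m / q := by
    rw [le_div_iff₀ hq0]
    nlinarith
  set T : ℕ := ⌈C₀ * m / q⌉₊ with hT
  have hT1 : C₀ * m / q ≤ T := Nat.le_ceil _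
  have hT2 : (T : ℝ) ≤ 2 * (C₀ * m / q) := by
    have := (Nat.ceil_lt_add_one (by positivity : 0 ≤ C₀ * m / q)).le
    linarith
  have hT3 : 1 ≤ T := by
    have h1 : (1 : ℝ) ≤ T := hA1.trans hT1
    exact_mod_cast h1
  have h1 := hcnt h hloc m T x q (Ps ρ β h T) hm hq0 (by rw [hset]) hT1
    fun k hk => ⟨(En_le_Ps32 h hk).trans (by linarith), (Fn_le_Ps32 h hk).trans (by linarith)⟩
  have hPT := one_le_Ps32 (ρ := ρ) (β := β) h T
  have h2 : x ≤ 2 * C₀ * Ps ρ β h T := by nlinarith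
  have h3 : Ps ρ β h T ≤ B * (2 * (C₀ * m / q)) ^ y :=
    (hPs T hT3).trans (mul_le_mul_of_nonneg_left
      (Real.rpow_le_rpow (by positivity) hT2 hy.le) (by linarith))
  have h4 : (2 * (C₀ * m / q)) ^ y ≤ 2 * C₀ * ((m : ℝ) ^ y / q ^ y) := by
    have h5 : 2 * (C₀ * m / q) = (2 * C₀) * (m / q) := by ring
    rw [h5, Real.mul_rpow (by positivity) (by positivity), Real.div_rpow hm0.le hq0.le]
    refine mul_le_mul_of_nonneg_right ?_ (by positivity)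
    calc (2 * C₀) ^ y ≤ (2 * C₀) ^ (1 : ℝ) :=
          Real.rpow_le_rpow_of_exponent_le (by linarith) hy1
      _ = 2 * C₀ := Real.rpow_one _
  have h5 : x ≤ 4 * C₀ ^ 2 * B * (m : ℝ) ^ y / q ^ y := by
    calc x ≤ 2 * C₀ * (B * (2 * C₀ * ((m : ℝ) ^ y / q ^ y))) :=
          h2.trans (mul_le_mul_of_nonneg_left (h3.trans
            (mul_le_mul_of_nonneg_left h4 (by linarith))) (by linarith))
      _ = 4 * C₀ ^ 2 * B * (m : ℝ) ^ y / q ^ y := by ring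
  have hqy : 0 < q ^ y := Real.rpow_pos_of_pos hq0 _
  have h6 : q ^ y ≤ 4 * C₀ ^ 2 * B * (m : ℝ) ^ y / x := by
    rw [le_div_iff₀ hqy] at h5
    rw [le_div_iff₀ hx]
    linarith
  calc q = (q ^ y) ^ (1 / y) := by
        rw [← Real.rpow_mul hq0.le, mul_one_div_cancel hy.ne', Real.rpow_one]
    _ ≤ _ := Real.rpow_le_rpow hqy.le h6 (by positivity)

/-- Powers against the Gaussian tail. -/
lemma gau27 {z : ℝ} (hz : 8 ≤ z) : Real.exp (-(z ^ 2 / 16)) ≤ (8 / z) ^ (3 : ℝ) := by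
  have hz0 : 0 < z := by linarith
  have h1 : 0 ≤ z ^ 2 / 16 := by positivity
  have h2 := Real.quadratic_le_exp_of_nonneg h1
  have h3 : z ^ 3 / 512 ≤ Real.exp (z ^ 2 / 16) := by
    have h4 : z ^ 3 / 512 ≤ (z ^ 2 / 16) ^ 2 / 2 := by
      have : z ^ 3 * 1 ≤ z ^ 3 * z := mul_le_mul_of_nonneg_left (by linarith) (by positivity)
      nlinarith
    linarith
  have h5 : (8 / z) ^ (3 : ℝ) = 512 / z ^ 3 := by
    have : ((3 : ℕ) : ℝ) = 3 := by norm_num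
    rw [← this, Real.rpow_natCast]
    field_simp
    norm_num
  rw [h5, Real.exp_neg, inv_le_comm₀ (Real.exp_pos _) (by positivity)]
  calc (512 / z ^ 3)⁻¹ = z ^ 3 / 512 := by
        rw [inv_div]
    _ ≤ _ := h3

/-- The variance from a power bound of the fluctuations. -/
lemma var27 (hd : 0 < d) (hρ : EM ρ) (hC : CntP d ρ β) (hE : EhlP d ρ β) {c₀ : ℝ}
    (hc₀ : 0 < c₀) {h : Vec d} (hloc : Loc1 ρ β h c₀) {y B : ℝ} (hy : 0 < y) (hy2 : y < 1 / 2)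
    (hB : 1 ≤ B) (hPs : ∀ T : ℕ, 1 ≤ T → Ps ρ β h T ≤ B * (T : ℝ) ^ y) :
    ∃ C : ℝ, ∀ m : ℕ, 1 ≤ m → Va ρ β h m ≤ C * (m : ℝ) ^ (2 * y) := by
  obtain ⟨C, hC1, hT⟩ := tail27 hC hc₀
  have hb : 2 < 1 / y := by
    rw [lt_div_iff₀ hy]
    linarith
  refine ⟨(1 / y) / (1 / y - 2) * (C * B) ^ 2 + 192 * (3 * (C * B) + 3 * B) ^ 2,
    fun m hm => ?_⟩
  have hm0 : (0 : ℝ) < m := by exact_mod_cast hm
  set P : ℝ := C * B * (m : ℝ) ^ y with hP
  have hCB : 0 < C * B := by positivity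
  have hmy : 0 < (m : ℝ) ^ y := Real.rpow_pos_of_pos hm0 _
  have hP0 : 0 < P := by positivity
  have hXm : Measurable fun η : Env d => X β h η m - A ρ β h m :=
    (measurable_X β h m).sub measurable_const
  have hX2 : Integrable (fun η : Env d => (X β h η m - A ρ β h m) ^ 2) (law d ρ) :=
    N85.Va_int (ρ := ρ) hd hρ β h m
  -- the upper part

  have u1 := E62.sqp hXm hX2 hP0 hb fun x hx =>
    hT h hloc y B hy (by linarith) hB hPs m hm x (lt_of_lt_of_le hP0 hx)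
  -- the lower part

  have hF0 := Fn_nonneg15 (ρ := ρ) β h m
  have hFP : Fn ρ β h m ≤ Ps ρ β h m - 1 := Fn_le_Ps32 h le_rfl
  have hPm := hPs m hm
  set W : ℝ := 3 * P + 2 * Fn ρ β h m + 1 with hW
  have hW0 : 0 < W := by positivity
  have hWle : W ≤ (3 * (C * B) + 3 * B) * (m : ℝ) ^ y := by
    have h1 : 1 ≤ Ps ρ β h m := one_le_Ps32 h m
    have h2 : W ≤ 3 * P + 3 * (B * (m : ℝ) ^ y) := by linarith
    calc W ≤ _ := h2
      _ = _ := by rw [hP]; ring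
  have l0 : (law d ρ).real {η | X β h η m ≤ A ρ β h m - (2 * Fn ρ β h m + 1)} ≤ 1 / 2 := by
    have hi := (intX15 (ρ := ρ) hd hρ β h m).abs
    have h1 := mul_meas_ge_le_integral_of_nonneg (μ := law d ρ)
      (Eventually.of_forall fun η => abs_nonneg (X β h η m - A ρ β h m)) hi
      (2 * Fn ρ β h m + 1)
    have h2 : ∫ η, |X β h η m - A ρ β h m| ∂(law d ρ) = Fn ρ β h m := rfl
    rw [h2] at h1
    have h5 : (law d ρ).real {η : Env d | X β h η m ≤ A ρ β h m - (2 * Fn ρ β h m + 1)} ≤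
        (law d ρ).real {η | 2 * Fn ρ β h m + 1 ≤ |X β h η m - A ρ β h m|} := by
      refine measureReal_mono fun w hw => ?_
      simp only [Set.mem_ofPred_eq] at hw ⊢
      exact le_trans (by linarith) (neg_le_abs _)
    nlinarith
  have l1 : (law d ρ).real {η | A ρ β h m + 3 * P < X β h η m} ≤ 1 / 5 := by
    have h1 := hT h hloc y B hy (by linarith) hB hPs m hm (3 * P) (by positivity)
    have h2 : C * B * (m : ℝ) ^ y / (3 * P) = 1 / 3 := by
      rw [← hP]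
      field_simp
    rw [h2] at h1
    have h3 : (1 / 3 : ℝ) ^ (1 / y) ≤ (1 / 3 : ℝ) ^ (2 : ℝ) :=
      Real.rpow_le_rpow_of_exponent_ge (by norm_num) (by norm_num) hb.le
    have h4 : (1 / 3 : ℝ) ^ (2 : ℝ) = 1 / 9 := by
      rw [show (2 : ℝ) = ((2 : ℕ) : ℝ) by norm_num, Real.rpow_natCast]
      norm_num
    have h5 : (law d ρ).real {η : Env d | A ρ β h m + 3 * P < X β h η m} ≤
        (law d ρ).real {η | 3 * P ≤ X β h η m - A ρ β h m} := by
      refine measureReal_mono fun w hw => ?_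
      simp only [Set.mem_ofPred_eq] at hw ⊢
      linarith
    linarith
  have l2 : ∀ x : ℝ, 8 * W ≤ x →
      (law d ρ).real {η | x ≤ -(X β h η m - A ρ β h m)} ≤ (8 * W / x) ^ (3 : ℝ) := by
    intro x hx
    have hx0 : 0 < x := lt_of_lt_of_le (by positivity) hx
    have ht : 0 ≤ (x - (2 * Fn ρ β h m + 1)) / W := by
      refine div_nonneg ?_ hW0.le
      linarith
    have h1 := hE h m (A ρ β h m - (2 * Fn ρ β h m + 1)) (A ρ β h m + 3 * P)
      ((x - (2 * Fn ρ β h m + 1)) / W) ht (by linarith) l0 l1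
    have h2 : (A ρ β h m + 3 * P) - (A ρ β h m - (2 * Fn ρ β h m + 1)) = W := by
      rw [hW]
      ring
    rw [h2, div_mul_cancel₀ _ hW0.ne'] at h1
    have h3 : (law d ρ).real {η : Env d | x ≤ -(X β h η m - A ρ β h m)} ≤
        (law d ρ).real {η | X β h η m ≤ A ρ β h m - (2 * Fn ρ β h m + 1) -
          (x - (2 * Fn ρ β h m + 1))} := by
      refine measureReal_mono fun w hw => ?_
      simp only [Set.mem_ofPred_eq] at hw ⊢
      linarith
    refine (h3.trans h1).trans ?_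
    have hz : 8 ≤ x / W := by
      rw [le_div_iff₀ hW0]
      exact hx
    have h4 : x / W / 2 ≤ (x - (2 * Fn ρ β h m + 1)) / W := by
      rw [sub_div]
      have : (2 * Fn ρ β h m + 1) / W ≤ 1 := by
        rw [div_le_one hW0]
        linarith
      linarith
    have h5 : Real.exp (-(((x - (2 * Fn ρ β h m + 1)) / W) ^ 2 / 4)) ≤
        Real.exp (-((x / W) ^ 2 / 16)) := by
      apply Real.exp_le_exp.2
      have h6 : (x / W / 2) ^ 2 ≤ ((x - (2 * Fn ρ β h m + 1)) / W) ^ 2 :=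
        pow_le_pow_left₀ (by positivity) h4 2
      have h7 : (x / W / 2) ^ 2 = (x / W) ^ 2 / 4 := by ring
      rw [h7] at h6
      linarith
    refine h5.trans ((gau27 hz).trans (le_of_eq ?_))
    congr 1
    field_simp
  have hX3 : Integrable (fun η : Env d => (-(X β h η m - A ρ β h m)) ^ 2) (law d ρ) :=
    hX2.congr (Eventually.of_forall fun w => by
      simp only
      ring)
  have u2 : ∫ η, max (-(X β h η m - A ρ β h m)) 0 ^ 2 ∂(law d ρ) ≤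
      (3 : ℝ) / (3 - 2) * (8 * W) ^ 2 :=
    E62.sqp hXm.neg hX3 (by positivity : 0 < 8 * W) (by norm_num : (2 : ℝ) < 3) l2
  -- together

  have hi1 : Integrable (fun η : Env d => max (X β h η m - A ρ β h m) 0 ^ 2) (law d ρ) := by
    refine hX2.mono ((hXm.max measurable_const).pow_const 2).aestronglyMeasurable
      (Eventually.of_forall fun w => ?_)
    rw [Real.norm_eq_abs, Real.norm_eq_abs, abs_of_nonneg (sq_nonneg _),
      abs_of_nonneg (sq_nonneg _)]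
    rcases le_total (X β h w m - A ρ β h m) 0 with h1 | h1
    · rw [max_eq_right h1]
      nlinarith [sq_nonneg (X β h w m - A ρ β h m)]
    · rw [max_eq_left h1]
  have hi2 : Integrable (fun η : Env d => max (-(X β h η m - A ρ β h m)) 0 ^ 2)
      (law d ρ) := by
    refine hX2.mono ((hXm.neg.max measurable_const).pow_const 2).aestronglyMeasurable
      (Eventually.of_forall fun w => ?_)
    rw [Real.norm_eq_abs, Real.norm_eq_abs, abs_of_nonneg (sq_nonneg _),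
      abs_of_nonneg (sq_nonneg _)]
    rcases le_total (-(X β h w m - A ρ β h m)) 0 with h1 | h1
    · rw [max_eq_right h1]
      nlinarith [sq_nonneg (X β h w m - A ρ β h m)]
    · rw [max_eq_left h1]
      nlinarith
  have h7 : Va ρ β h m = ∫ η, max (X β h η m - A ρ β h m) 0 ^ 2 ∂(law d ρ) +
      ∫ η, max (-(X β h η m - A ρ β h m)) 0 ^ 2 ∂(law d ρ) := by
    rw [← integral_add hi1 hi2]
    unfold Va
    refine integral_congr_ae (Eventually.of_forall fun w => ?_)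
    simp only
    rcases le_total (X β h w m - A ρ β h m) 0 with h1 | h1
    · rw [max_eq_right h1, max_eq_left (by linarith)]
      ring
    · rw [max_eq_left h1, max_eq_right (by linarith)]
      ring
  have h8 : (m : ℝ) ^ (2 * y) = ((m : ℝ) ^ y) ^ 2 := by
    rw [mul_comm, Real.rpow_mul hm0.le, show (2 : ℝ) = ((2 : ℕ) : ℝ) by norm_num,
      Real.rpow_natCast]
  have h9 : W ^ 2 ≤ ((3 * (C * B) + 3 * B) * (m : ℝ) ^ y) ^ 2 :=
    pow_le_pow_left₀ hW0.le hWle 2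
  rw [h7, h8]
  have e1 : (1 / y) / (1 / y - 2) * P ^ 2 =
      (1 / y) / (1 / y - 2) * (C * B) ^ 2 * ((m : ℝ) ^ y) ^ 2 := by
    rw [hP]
    ring
  rw [e1] at u1
  have e2 : (3 : ℝ) / (3 - 2) * (8 * W) ^ 2 = 192 * W ^ 2 := by ring
  rw [e2] at u2
  calc _ ≤ (1 / y) / (1 / y - 2) * (C * B) ^ 2 * ((m : ℝ) ^ y) ^ 2 +
        192 * ((3 * (C * B) + 3 * B) * (m : ℝ) ^ y) ^ 2 := add_le_add u1 (by linarith)
    _ = _ := by ring

/-- Every right record of the exponent `2 / 3` is small. -/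
lemma small27 {c₀ γ y : ℝ} (hc₀ : 0 < c₀) (hγ : 0 ≤ γ)
    (hy : 2 * γ < y) (hy1 : y < 1) (hD : DomK d ρ β) (hR : RecK d ρ β) {h : Vec d}
    (hloc : Loc1 ρ β h c₀) (hRS : RSa ρ β h γ) :
    ∃ C₁ : ℝ, 0 ≤ C₁ ∧ ∀ᶠ n : ℕ in atTop, RRec (Ps ρ β h) n →
      Ps ρ β h n ≤ C₁ * (n : ℝ) ^ y := by
  obtain ⟨K, D, C, hK, hD1, hev⟩ := hD h γ (y - 2 * γ) hγ (by linarith) (by linarith) hRS
  obtain ⟨δ₀, κ, C₂, hδ₀, hκ, hκ1, hrec⟩ := hR c₀ D K hc₀ hD1 hK
  obtain ⟨K', hK', hL⟩ := hRS κ δ₀ hκ hκ1 hδ₀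
  obtain ⟨L₀, hL₀⟩ := eventually_atTop.1 hL
  have hS0 : 0 ≤ ∑ k ∈ Finset.range L₀, Fn ρ β h k :=
    Finset.sum_nonneg fun k _ => Fn_nonneg15 β h k
  have hKr : (1 : ℝ) ≤ K := by exact_mod_cast hK
  refine ⟨|C| + |C₂| * (K' * (2 * K : ℝ) ^ y + 1) + D * ∑ k ∈ Finset.range L₀, Fn ρ β h k,
    by positivity, ?_⟩
  filter_upwards [hev, eventually_ge_atTop 1] with n h1 hn hRn
  have hn0 : (0 : ℝ) < n := by exact_mod_cast hn
  have hn1 : (1 : ℝ) ≤ n := by exact_mod_cast hn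
  have hny : 1 ≤ (n : ℝ) ^ y := Real.one_le_rpow hn1 (by linarith)
  have hpos1 : 0 ≤ |C₂| * (K' * (2 * K : ℝ) ^ y + 1) := by positivity
  have hpos2 : 0 ≤ D * ∑ k ∈ Finset.range L₀, Fn ρ β h k := by positivity
  have hexp : 2 * γ + (y - 2 * γ) = y := by ring
  rcases h1 hRn with h2 | ⟨m, hm1, hmK, h2⟩
  · rw [hexp] at h2
    refine h2.trans (mul_le_mul_of_nonneg_right ?_ (by positivity))
    have := le_abs_self C
    linarith
  · rcases lt_or_ge m L₀ with hm | hm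
    · have h3 : Fn ρ β h m ≤ ∑ k ∈ Finset.range L₀, Fn ρ β h k :=
        Finset.single_le_sum (f := fun k => Fn ρ β h k) (fun k _ => Fn_nonneg15 β h k)
          (Finset.mem_range.2 hm)
      have h4 : D * Fn ρ β h m ≤ D * ∑ k ∈ Finset.range L₀, Fn ρ β h k :=
        mul_le_mul_of_nonneg_left h3 (by linarith)
      have h5 : D * (∑ k ∈ Finset.range L₀, Fn ρ β h k) * 1 ≤
          D * (∑ k ∈ Finset.range L₀, Fn ρ β h k) * (n : ℝ) ^ y :=
        mul_le_mul_of_nonneg_left hny hpos2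
      have h6 : D * (∑ k ∈ Finset.range L₀, Fn ρ β h k) * (n : ℝ) ^ y ≤
          (|C| + |C₂| * (K' * (2 * K : ℝ) ^ y + 1) +
            D * ∑ k ∈ Finset.range L₀, Fn ρ β h k) * (n : ℝ) ^ y := by
        refine mul_le_mul_of_nonneg_right ?_ (by positivity)
        have := abs_nonneg C
        linarith
      linarith
    · have hm0 : (0 : ℝ) < m := by exact_mod_cast hm1
      have hmn : (2 * m : ℝ) ≤ 2 * K * n := by
        have : (m : ℝ) ≤ K * n := by exact_mod_cast hmK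
        linarith
      have hM0 : 0 < K' * (2 * m : ℝ) ^ (2 * γ) := by positivity
      have h3 := hrec h hloc n hRn m hm1 hmK h2 (K' * (2 * m : ℝ) ^ (2 * γ)) hM0
        fun L hL1 hL2 => by
          have h4 := hL₀ L (hm.trans hL1)
          have h5 : K' * (L : ℝ) ^ (2 * γ) ≤ K' * (2 * m : ℝ) ^ (2 * γ) := by
            refine mul_le_mul_of_nonneg_left (Real.rpow_le_rpow (by positivity) ?_
              (by positivity)) hK'.le
            exact_mod_cast hL2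
          unfold RS at h4 ⊢
          exact (measureReal_mono fun w hw => lt_of_le_of_lt h5 hw).trans h4
      have h5 : (2 * m : ℝ) ^ (2 * γ) ≤ (2 * K : ℝ) ^ y * (n : ℝ) ^ y := by
        rw [← Real.mul_rpow (by positivity) hn0.le]
        have h6 : (1 : ℝ) ≤ 2 * K * n := by nlinarith
        calc (2 * m : ℝ) ^ (2 * γ) ≤ (2 * K * n : ℝ) ^ (2 * γ) :=
              Real.rpow_le_rpow (by positivity) hmn (by positivity)
          _ ≤ (2 * K * n : ℝ) ^ y := Real.rpow_le_rpow_of_exponent_le h6 hy.le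
      have h6 : K' * (2 * m : ℝ) ^ (2 * γ) + 1 ≤
          (K' * (2 * K : ℝ) ^ y + 1) * (n : ℝ) ^ y := by
        have := mul_le_mul_of_nonneg_left h5 hK'.le
        linarith
      have h7 : C₂ * (K' * (2 * m : ℝ) ^ (2 * γ) + 1) ≤
          |C₂| * ((K' * (2 * K : ℝ) ^ y + 1) * (n : ℝ) ^ y) :=
        mul_le_mul (le_abs_self _) h6 (by linarith) (abs_nonneg _)
      have h8 : |C₂| * (K' * (2 * K : ℝ) ^ y + 1) * (n : ℝ) ^ y ≤
          (|C| + |C₂| * (K' * (2 * K : ℝ) ^ y + 1) +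
            D * ∑ k ∈ Finset.range L₀, Fn ρ β h k) * (n : ℝ) ^ y := by
        refine mul_le_mul_of_nonneg_right ?_ (by positivity)
        have := abs_nonneg C
        linarith
      linarith

end A27

/-- The running maxima at all lengths, from the leaves (every law). -/
theorem psKC27 {d : ℕ} {ρ : Measure ℝ} [IsProbabilityMeasure ρ] {β : ℝ} (hS : SelK d ρ β)
    (hD : DomK d ρ β) (hR : RecK d ρ β) (hP : PriK d ρ β)
    (hLoc : ∀ h : Vec d, VSD ρ β h → ∃ c₀ : ℝ, 0 < c₀ ∧ Loc1 ρ β h c₀) : PsKC d ρ β := by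
  filter_upwards [hS] with v hv h hV δ hδ hδ2 hH x hx
  obtain ⟨c₀, hc₀, hloc⟩ := hLoc h hV
  -- the a priori bound

  set b : ℝ := ((1 / 2 + δ) / 2 + 1 / 2) / 2 with hb
  have hb1 : (1 / 2 + δ) / 2 < b := by
    rw [hb]
    linarith
  have hb2 : b < 1 / 2 := by
    rw [hb]
    linarith
  have hb0 : 0 < b := by linarith
  obtain ⟨C₀, hC₀, hpri⟩ := hP h v δ b hδ hδ2 hH hb1
  have hpol : ∀ n : ℕ, Ps ρ β h n ≤ 1 + (2 * C₀) * (n : ℝ) ^ b := by
    intro n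
    unfold Ps
    have hmon : ∀ k ∈ Finset.range (n + 1), (k : ℝ) ^ b ≤ (n : ℝ) ^ b := fun k hk =>
      Real.rpow_le_rpow (by positivity)
        (by exact_mod_cast Nat.lt_succ_iff.1 (Finset.mem_range.1 hk)) hb0.le
    have h1 : (Finset.range (n + 1)).sup' ⟨0, by simp⟩ (En ρ β h) ≤ C₀ * (n : ℝ) ^ b :=
      Finset.sup'_le _ _ fun k hk =>
        (hpri k).1.trans (mul_le_mul_of_nonneg_left (hmon k hk) hC₀)
    have h2 : (Finset.range (n + 1)).sup' ⟨0, by simp⟩ (Fn ρ β h) ≤ C₀ * (n : ℝ) ^ b :=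
      Finset.sup'_le _ _ fun k hk =>
        (hpri k).2.trans (mul_le_mul_of_nonneg_left (hmon k hk) hC₀)
    linarith
  rcases lt_or_ge x (1 / 2) with hx2 | hx2
  · have hγ : δ < (2 * δ + x) / 4 := by linarith
    have hRS := hv h δ ((2 * δ + x) / 4) hδ hγ (by linarith) hH
    obtain ⟨C₁, hC₁, hsm⟩ := A27.small27 (y := x) hc₀ (by linarith) (by linarith)
      (by linarith) hD hR hloc hRS
    obtain ⟨B, hB1, hB⟩ := A27.all27 hb0 (by linarith) (one_le_Ps32 h) hpol (by linarith)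
      (by linarith) hC₁ hsm
    exact ⟨B, by linarith, hB⟩
  · refine ⟨1 + 2 * C₀, by linarith, fun n hn => ?_⟩
    have hn1 : (1 : ℝ) ≤ n := by exact_mod_cast hn
    have hbx : (n : ℝ) ^ b ≤ (n : ℝ) ^ x := Real.rpow_le_rpow_of_exponent_le hn1 (by linarith)
    have h1x : (1 : ℝ) ≤ (n : ℝ) ^ x := Real.one_le_rpow hn1 (by linarith)
    have h6 : (2 * C₀) * (n : ℝ) ^ b ≤ (2 * C₀) * (n : ℝ) ^ x :=
      mul_le_mul_of_nonneg_left hbx (by linarith)
    have := hpol n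
    linarith

/-- The variance at all lengths, from the running maxima. -/
theorem mainKCs27 {d : ℕ} {ρ : Measure ℝ} [IsProbabilityMeasure ρ] (hd : 0 < d) (hρ : EM ρ)
    {β : ℝ} (hK : PsKC d ρ β) (hC : CntP d ρ β) (hE : EhlP d ρ β)
    (hLoc : ∀ h : Vec d, VSD ρ β h → ∃ c₀ : ℝ, 0 < c₀ ∧ Loc1 ρ β h c₀) : MainKC d ρ β := by
  filter_upwards [hK] with v hv h hV δ hδ hδ2 hH x hx
  obtain ⟨c₀, hc₀, hloc⟩ := hLoc h hV
  rcases lt_or_ge x (1 / 2) with hx2 | hx2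
  · set y : ℝ := (2 * δ + x) / 2 with hy
    have hy1 : 2 * δ < y := by
      rw [hy]
      linarith
    have hyx : y < x := by
      rw [hy]
      linarith
    obtain ⟨B₀, hB₀, hB'⟩ := hv h hV δ hδ hδ2 hH y hy1
    have hB1 : 1 ≤ B₀ + 1 := by linarith
    have hB : ∀ T : ℕ, 1 ≤ T → Ps ρ β h T ≤ (B₀ + 1) * (T : ℝ) ^ y := fun T hT =>
      (hB' T hT).trans (mul_le_mul_of_nonneg_right (by linarith) (by positivity))
    obtain ⟨C₃, hVa⟩ := A27.var27 hd hρ hC hE hc₀ hloc (by linarith) (by linarith) hB1 hB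
    refine ⟨max (B₀ + 1) |C₃|, le_max_of_le_left (by linarith), fun n hn => ?_⟩
    have hn1 : (1 : ℝ) ≤ n := by exact_mod_cast hn
    have hyx2 : (n : ℝ) ^ y ≤ (n : ℝ) ^ x := Real.rpow_le_rpow_of_exponent_le hn1 hyx.le
    have h2y : (n : ℝ) ^ (2 * y) ≤ (n : ℝ) ^ (2 * x) :=
      Real.rpow_le_rpow_of_exponent_le hn1 (by linarith)
    have h5 := hB n hn
    have h6 : (B₀ + 1) * (n : ℝ) ^ y ≤ max (B₀ + 1) |C₃| * (n : ℝ) ^ x :=
      mul_le_mul (le_max_left _ _) hyx2 (by positivity) (by positivity)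
    refine ⟨?_, ?_, ?_⟩
    · calc Va ρ β h n ≤ C₃ * (n : ℝ) ^ (2 * y) := hVa n hn
        _ ≤ |C₃| * (n : ℝ) ^ (2 * y) :=
          mul_le_mul_of_nonneg_right (le_abs_self _) (by positivity)
        _ ≤ max (B₀ + 1) |C₃| * (n : ℝ) ^ (2 * x) :=
          mul_le_mul (le_max_right _ _) h2y (by positivity) (by positivity)
    · have := En_le_Ps32 (ρ := ρ) (β := β) h (le_refl n)
      linarith
    · have := Fn_le_Ps32 (ρ := ρ) (β := β) h (le_refl n)
      linarith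
  · obtain ⟨B, hB0, hB⟩ := hv h hV δ hδ hδ2 hH x hx
    obtain ⟨C₂, hC₂, hmom⟩ := momU hd hρ β 2
    refine ⟨max B C₂, le_max_of_le_left hB0, fun n hn => ?_⟩
    have hn1 : (1 : ℝ) ≤ n := by exact_mod_cast hn
    have h5 := hB n hn
    have h6 : B * (n : ℝ) ^ x ≤ max B C₂ * (n : ℝ) ^ x :=
      mul_le_mul_of_nonneg_right (le_max_left _ _) (by positivity)
    have hEn := En_le_Ps32 (ρ := ρ) (β := β) h (le_refl n)
    have hFn := Fn_le_Ps32 (ρ := ρ) (β := β) h (le_refl n)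
    refine ⟨?_, by linarith, by linarith⟩
    have h7 := (hmom h n hn).2
    have h8 : ∫ η, |X β h η n - A ρ β h n| ^ 2 ∂(law d ρ) = Va ρ β h n := by
      unfold Va
      exact integral_congr_ae (Eventually.of_forall fun w => by
        simp only
        exact sq_abs _)
    rw [h8] at h7
    have h9 : (n : ℝ) ^ ((1 / 2 : ℝ) * ((2 : ℕ) : ℝ)) ≤ (n : ℝ) ^ (2 * x) :=
      Real.rpow_le_rpow_of_exponent_le hn1 (by
        push_cast
        linarith)
    exact h7.trans (mul_le_mul (le_max_right _ _) h9 (by positivity) (le_max_of_le_left hB0))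

/-- **THEOREM KZ AT ALL LENGTHS**, from the leaves. -/
theorem mainKC27 {d : ℕ} {ρ : Measure ℝ} [IsProbabilityMeasure ρ] (hd : 0 < d) (hρ : EM ρ)
    {β : ℝ} (hS : SelK d ρ β) (hD : DomK d ρ β) (hR : RecK d ρ β) (hP : PriK d ρ β)
    (hC : CntP d ρ β) (hE : EhlP d ρ β)
    (hLoc : ∀ h : Vec d, VSD ρ β h → ∃ c₀ : ℝ, 0 < c₀ ∧ Loc1 ρ β h c₀) : MainKC d ρ β :=
  mainKCs27 hd hρ (psKC27 hS hD hR hP hLoc) hC hE hLoc

end Pool.Agent.W_7d29a1_KZ
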