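import Pool.Agent.W_7d29a1_KZ.DefsZ70
import Pool.Agent.W_7d29a1_SP.Bas15

/-!
Leaf DOM: at a right record the nonrandom fluctuation does not dominate, or everything is small.
The nonrandom fluctuation is the sum of the gaps of the dyadic lengths.
-/

set_option autoImplicit false

namespace Pool.Agent.W_7d29a1_KZ

open MeasureTheory ProbabilityTheory Filter Topology Pool.Agent.W_MP_7d29a1_pr
  Pool.Agent.W_7d29a1_h46 Pool.Agent.W_7d29a1_h46u Pool.Agent.W_7d29a1_D2.B35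
  Pool.Agent.W_7d29a1_Q29 Pool.Agent.W_7d29a1_R34 Pool.Agent.W_7d29a1_SP Pool.Agent.W_7d29a1_SD
  Pool.Agent.W_7d29a1_SQ

namespace D89

variable {d : ℕ} {ρ : Measure ℝ}

lemma F_le_sup (β : ℝ) (h : Vec d) {k n : ℕ} (hk : k ≤ n) :
    Fn ρ β h k ≤ (Finset.range (n + 1)).sup' ⟨0, by simp⟩ (Fn ρ β h) :=
  Finset.le_sup' (Fn ρ β h) (Finset.mem_range.2 (by omega))

lemma E_le_sup (β : ℝ) (h : Vec d) {k n : ℕ} (hk : k ≤ n) :
    En ρ β h k ≤ (Finset.range (n + 1)).sup' ⟨0, by simp⟩ (En ρ β h) :=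
  Finset.le_sup' (En ρ β h) (Finset.mem_range.2 (by omega))

lemma Ps_le (β : ℝ) (h : Vec d) {n : ℕ} {a b : ℝ} (ha : ∀ k, k ≤ n → En ρ β h k ≤ a)
    (hb : ∀ k, k ≤ n → Fn ρ β h k ≤ b) : Ps ρ β h n ≤ 1 + a + b := by
  have h1 : (Finset.range (n + 1)).sup' ⟨0, by simp⟩ (En ρ β h) ≤ a :=
    Finset.sup'_le _ _ fun k hk => ha k (by have := Finset.mem_range.1 hk; omega)
  have h2 : (Finset.range (n + 1)).sup' ⟨0, by simp⟩ (Fn ρ β h) ≤ b :=
    Finset.sup'_le _ _ fun k hk => hb k (by have := Finset.mem_range.1 hk; omega)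
  unfold Ps
  linarith

lemma half89 (β : ℝ) (h : Vec d) (j : ℕ) :
    En ρ β h j = 1 / 2 * Gp ρ β h j j + 1 / 2 * En ρ β h (j + j) := by
  unfold En Gp
  push_cast
  ring

/-- The nonrandom fluctuation is the sum of the gaps of the dyadic lengths. -/
lemma tel89 (β : ℝ) (h : Vec d) (k I : ℕ) :
    En ρ β h k = ∑ i ∈ Finset.range I, (1 / 2 : ℝ) ^ (i + 1) * Gp ρ β h (2 ^ i * k) (2 ^ i * k) +
      (1 / 2 : ℝ) ^ I * En ρ β h (2 ^ I * k) := by
  induction I with
  | zero => simp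
  | succ I ih =>
    rw [Finset.sum_range_succ, ih]
    have e : 2 ^ I * k + 2 ^ I * k = 2 ^ (I + 1) * k := by ring
    have h1 := half89 (ρ := ρ) β h (2 ^ I * k)
    rw [e] at h1
    rw [h1, pow_succ]
    ring

variable [IsProbabilityMeasure ρ]

lemma E_le_Ps (β : ℝ) (h : Vec d) {k n : ℕ} (hk : k ≤ n) : En ρ β h k ≤ Ps ρ β h n := by
  have h1 := E_le_sup (ρ := ρ) β h hk
  have h2 := F_le_sup (ρ := ρ) β h (Nat.zero_le n)
  rw [Fn_zero15] at h2
  unfold Ps
  linarith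

lemma one_le_Ps (β : ℝ) (h : Vec d) (n : ℕ) : 1 ≤ Ps ρ β h n := by
  have h1 := E_le_sup (ρ := ρ) β h (Nat.zero_le n)
  have h2 := F_le_sup (ρ := ρ) β h (Nat.zero_le n)
  rw [Fn_zero15] at h2
  rw [En_zero15] at h1
  unfold Ps
  linarith

lemma geo89 {r : ℝ} (hr0 : 0 ≤ r) (hr1 : r < 1) (k : ℕ) :
    ∑ i ∈ Finset.range k, r ^ i ≤ 1 / (1 - r) := by
  rw [le_div_iff₀ (by linarith), mul_comm, mul_neg_geom_sum]
  have := pow_nonneg hr0 k
  linarith

lemma pow23 {x : ℝ} (hx : 64 ≤ x) : x ^ (2 / 3 : ℝ) ≤ x / 4 := by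
  have hx0 : 0 < x := by linarith
  have h1 : (4 : ℝ) ≤ x ^ (1 / 3 : ℝ) := by
    have h2 : ((64 : ℝ)) ^ (1 / 3 : ℝ) = 4 := by
      rw [show (64 : ℝ) = 4 ^ (3 : ℝ) by norm_num, ← Real.rpow_mul (by norm_num)]
      norm_num
    rw [← h2]
    exact Real.rpow_le_rpow (by norm_num) hx (by norm_num)
  have h3 : x ^ (2 / 3 : ℝ) * x ^ (1 / 3 : ℝ) = x := by
    rw [← Real.rpow_add hx0]
    norm_num
  have h4 : 0 < x ^ (2 / 3 : ℝ) := Real.rpow_pos_of_pos hx0 _
  nlinarith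

end D89

/-- **Leaf DOM.** -/
theorem domK89 {d : ℕ} {ρ : Measure ℝ} [IsProbabilityMeasure ρ] (hd : 0 < d) (hρ : EM ρ) {β : ℝ}
    (hG : GapK d ρ β) : DomK d ρ β := by
  classical
  intro h γ η hγ hη hy hRS
  obtain ⟨ε₀, CG, hε₀, hCG, hgap⟩ := hG η hη
  obtain ⟨K', hK', hev⟩ := hRS (1 / 2) ε₀ (by norm_num) (by norm_num) hε₀
  obtain ⟨L₀, hL₀⟩ := eventually_atTop.1 hev
  obtain ⟨y, hyd⟩ : ∃ y : ℝ, y = 2 * γ + η := ⟨_, rfl⟩
  rw [← hyd] at hy ⊢
  have hy0 : 0 < y := by rw [hyd]; linarith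
  obtain ⟨B₀, hB₀⟩ : ∃ B₀ : ℝ, B₀ = 2 * Ps ρ β h L₀ := ⟨_, rfl⟩
  have hB0 : 0 ≤ B₀ := by
    have := D89.one_le_Ps (ρ := ρ) β h L₀
    linarith
  obtain ⟨C₂, hC₂⟩ : ∃ C₂ : ℝ, C₂ = CG * (K' * 2 ^ (2 * γ) + 1) := ⟨_, rfl⟩
  have h2γ : (0 : ℝ) < 2 ^ (2 * γ) := Real.rpow_pos_of_pos (by norm_num) _
  have hC20 : 0 ≤ C₂ := by rw [hC₂]; positivity
  -- the gap of a dyadic length
  have hGp : ∀ j : ℕ, 1 ≤ j → ∀ P : ℝ, (∀ m : ℕ, 1 ≤ m → m ≤ j + j → Fn ρ β h m ≤ P) →
      Gp ρ β h j j ≤ 32 * P + C₂ * (j : ℝ) ^ y + B₀ := by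
    intro j hj P hP
    have hj0 : (1 : ℝ) ≤ j := by exact_mod_cast hj
    have hP0 : 0 ≤ P := (Fn_nonneg15 (ρ := ρ) β h 1).trans (hP 1 le_rfl (by omega))
    have hjy : 0 ≤ C₂ * (j : ℝ) ^ y := by positivity
    rcases lt_or_ge j L₀ with hjL | hjL
    · have h1 : Gp ρ β h j j = 2 * En ρ β h j - En ρ β h (j + j) := by
        unfold En Gp
        push_cast
        ring
      have h2 := En_nonneg15 hd hρ β h (j + j)
      have h3 := D89.E_le_Ps (ρ := ρ) β h hjL.le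
      rw [h1]
      linarith
    · have h1 := hL₀ (j + j) (by omega)
      have h2 : ⌊(1 / 2 : ℝ) * ((j + j : ℕ) : ℝ)⌋₊ = j := by
        have : (1 / 2 : ℝ) * ((j + j : ℕ) : ℝ) = j := by
          push_cast
          ring
        rw [this, Nat.floor_natCast]
      rw [h2] at h1
      have hM0 : 0 ≤ K' * ((j + j : ℕ) : ℝ) ^ (2 * γ) := by positivity
      have h3 := hgap h j j _ hj hj hM0 h1
      have h4 := hP (j + j) (by omega) le_rfl
      have h5 := hP j hj (by omega)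
      have h6 : ((j + j : ℕ) : ℝ) ^ (2 * γ) = 2 ^ (2 * γ) * (j : ℝ) ^ (2 * γ) := by
        rw [← Real.mul_rpow (by norm_num) (by linarith)]
        congr 1
        push_cast
        ring
      have h7 : (1 : ℝ) ≤ (j : ℝ) ^ (2 * γ) := Real.one_le_rpow hj0 (by linarith)
      have h8 : K' * ((j + j : ℕ) : ℝ) ^ (2 * γ) + 1 ≤
          (K' * 2 ^ (2 * γ) + 1) * (j : ℝ) ^ (2 * γ) := by
        rw [h6, add_mul, one_mul]
        linarith
      have h9 : (j : ℝ) ^ y = (j : ℝ) ^ η * (j : ℝ) ^ (2 * γ) := by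
        rw [← Real.rpow_add (by linarith), hyd]
        congr 1
        ring
      have h10 : CG * (j : ℝ) ^ η * (K' * ((j + j : ℕ) : ℝ) ^ (2 * γ) + 1) ≤
          C₂ * (j : ℝ) ^ y := by
        refine (mul_le_mul_of_nonneg_left h8 (by positivity)).trans (le_of_eq ?_)
        rw [hC₂, h9]
        ring
      linarith
  obtain ⟨r, hr⟩ : ∃ r : ℝ, r = 2 ^ y / 2 := ⟨_, rfl⟩
  have hr0 : 0 ≤ r := by rw [hr]; positivity
  have hr1 : r < 1 := by
    have h1 : (2 : ℝ) ^ y < 2 ^ (1 : ℝ) := Real.rpow_lt_rpow_of_exponent_lt (by norm_num) hy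
    rw [Real.rpow_one] at h1
    rw [hr]
    linarith
  obtain ⟨C₃, hC₃⟩ : ∃ C₃ : ℝ, C₃ = C₂ * (1 / (1 - r)) := ⟨_, rfl⟩
  have hC30 : 0 ≤ C₃ := by
    rw [hC₃]
    have : 0 ≤ 1 / (1 - r) := one_div_nonneg.2 (by linarith)
    positivity
  refine ⟨128, 200, 2 * (1 + B₀ + C₃), by norm_num, by norm_num,
    Eventually.of_forall fun n hn => ?_⟩
  by_cases hex : ∃ m : ℕ, 1 ≤ m ∧ m ≤ 128 * n ∧ Ps ρ β h n ≤ 200 * Fn ρ β h m
  · exact Or.inr hex
  · left
    push Not at hex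
    obtain ⟨hn1, hrec⟩ := hn
    have hnR : (1 : ℝ) ≤ n := by exact_mod_cast hn1
    obtain ⟨Ψ, hΨ⟩ : ∃ Ψ : ℝ, Ψ = Ps ρ β h n := ⟨_, rfl⟩
    rw [← hΨ] at hex ⊢
    have hΨ1 : 1 ≤ Ψ := by rw [hΨ]; exact D89.one_le_Ps β h n
    have hF : ∀ m : ℕ, 1 ≤ m → m ≤ 128 * n → Fn ρ β h m ≤ Ψ / 200 := fun m h1 h2 => by
      have := hex m h1 h2
      linarith
    have hE : ∀ k : ℕ, k ≤ n → En ρ β h k ≤ 32 * (Ψ / 200) + B₀ + C₃ * (n : ℝ) ^ y + Ψ / 4 := by
      intro k hk
      rcases Nat.eq_zero_or_pos k with hk0 | hk0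
      · rw [hk0, En_zero15]
        positivity
      · obtain ⟨I, hI⟩ : ∃ I : ℕ, I = Nat.log 2 (128 * n / k) := ⟨_, rfl⟩
        have hdiv : 128 * n / k ≠ 0 := by
          have : 1 ≤ 128 * n / k := (Nat.one_le_div_iff hk0).2 (by omega)
          omega
        have hI1 : 2 ^ I * k ≤ 128 * n := by
          have h1 := Nat.pow_log_le_self 2 hdiv
          rw [← hI] at h1
          exact (Nat.mul_le_mul_right k h1).trans (Nat.div_mul_le_self _ _)
        have hI2 : 128 * n < 2 ^ (I + 1) * k := by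
          have h1 := Nat.lt_pow_succ_log_self (b := 2) (by norm_num) (128 * n / k)
          rw [← hI] at h1
          exact (Nat.div_lt_iff_lt_mul hk0).1 h1
        have hT : 64 * n < 2 ^ I * k := by
          rw [pow_succ] at hI2
          nlinarith
        rw [D89.tel89 (ρ := ρ) β h k I]
        -- the sum
        have hs : ∀ i ∈ Finset.range I, (1 / 2 : ℝ) ^ (i + 1) * Gp ρ β h (2 ^ i * k) (2 ^ i * k) ≤
            (1 / 2 : ℝ) ^ (i + 1) * (32 * (Ψ / 200) + B₀) + C₂ * (n : ℝ) ^ y * r ^ i := by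
          intro i hi
          have hi1 := Finset.mem_range.1 hi
          have h1 : 2 ^ i * k + 2 ^ i * k ≤ 128 * n := by
            have h2 : 2 ^ (i + 1) * k ≤ 2 ^ I * k :=
              Nat.mul_le_mul_right k (Nat.pow_le_pow_right (by norm_num) hi1)
            have e : 2 ^ i * k + 2 ^ i * k = 2 ^ (i + 1) * k := by ring
            rw [e]
            exact h2.trans hI1
          have h2 : 1 ≤ 2 ^ i * k := Nat.one_le_iff_ne_zero.2 (by positivity)
          have h3 := hGp (2 ^ i * k) h2 (Ψ / 200) fun m hm1 hm2 => hF m hm1 (hm2.trans h1)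
          have h4 := mul_le_mul_of_nonneg_left h3 (show (0 : ℝ) ≤ (1 / 2) ^ (i + 1) by positivity)
          refine h4.trans ?_
          have h5 : ((2 ^ i * k : ℕ) : ℝ) ^ y = (2 ^ y) ^ i * (k : ℝ) ^ y := by
            push_cast
            rw [Real.mul_rpow (by positivity) (by positivity), ← Real.rpow_natCast,
              ← Real.rpow_natCast, ← Real.rpow_mul (by norm_num), ← Real.rpow_mul (by norm_num),
              mul_comm (i : ℝ) y]
          have h6 : (k : ℝ) ^ y ≤ (n : ℝ) ^ y :=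
            Real.rpow_le_rpow (by positivity) (by exact_mod_cast hk) hy0.le
          have h7 : (1 / 2 : ℝ) ^ (i + 1) * ((2 ^ y) ^ i * (k : ℝ) ^ y) =
              1 / 2 * r ^ i * (k : ℝ) ^ y := by
            rw [hr, div_eq_mul_inv ((2 : ℝ) ^ y) 2, mul_pow, pow_succ]
            simp only [one_div]
            ring
          have h8 : 1 / 2 * r ^ i * (k : ℝ) ^ y ≤ (n : ℝ) ^ y * r ^ i := by
            have h9 : 0 ≤ r ^ i := pow_nonneg hr0 i
            have h10 : 0 ≤ (k : ℝ) ^ y := by positivity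
            nlinarith [mul_nonneg h9 h10, mul_le_mul_of_nonneg_left h6 h9]
          have h11 := mul_le_mul_of_nonneg_left h8 hC20
          rw [h5]
          calc (1 / 2 : ℝ) ^ (i + 1) * (32 * (Ψ / 200) + C₂ * ((2 ^ y) ^ i * (k : ℝ) ^ y) + B₀)
              = (1 / 2 : ℝ) ^ (i + 1) * (32 * (Ψ / 200) + B₀) +
                C₂ * ((1 / 2 : ℝ) ^ (i + 1) * ((2 ^ y) ^ i * (k : ℝ) ^ y)) := by ring
            _ = (1 / 2 : ℝ) ^ (i + 1) * (32 * (Ψ / 200) + B₀) +
                C₂ * (1 / 2 * r ^ i * (k : ℝ) ^ y) := by rw [h7]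
            _ ≤ _ := by linarith
        have hs2 := Finset.sum_le_sum hs
        rw [Finset.sum_add_distrib, ← Finset.sum_mul, ← Finset.mul_sum] at hs2
        have hg1 : ∑ i ∈ Finset.range I, (1 / 2 : ℝ) ^ (i + 1) ≤ 1 := by
          have h1 := D89.geo89 (r := 1 / 2) (by norm_num) (by norm_num) I
          have h2 : ∑ i ∈ Finset.range I, (1 / 2 : ℝ) ^ (i + 1) =
              (∑ i ∈ Finset.range I, (1 / 2 : ℝ) ^ i) * (1 / 2) := by
            rw [Finset.sum_mul]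
            exact Finset.sum_congr rfl fun i _ => pow_succ _ _
          rw [h2]
          norm_num at h1 ⊢
          linarith
        have hg2 := D89.geo89 hr0 hr1 I
        have h1 : (∑ i ∈ Finset.range I, (1 / 2 : ℝ) ^ (i + 1)) * (32 * (Ψ / 200) + B₀) ≤
            1 * (32 * (Ψ / 200) + B₀) := mul_le_mul_of_nonneg_right hg1 (by positivity)
        have h2 : C₂ * (n : ℝ) ^ y * ∑ i ∈ Finset.range I, r ^ i ≤ C₃ * (n : ℝ) ^ y := by
          have h3 : 0 ≤ C₂ * (n : ℝ) ^ y := by positivity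
          refine (mul_le_mul_of_nonneg_left hg2 h3).trans (le_of_eq ?_)
          rw [hC₃]
          ring
        -- the last term
        have h3 : (1 / 2 : ℝ) ^ I * En ρ β h (2 ^ I * k) ≤ Ψ / 4 := by
          obtain ⟨T, hTd⟩ : ∃ T : ℕ, T = 2 ^ I * k := ⟨_, rfl⟩
          rw [← hTd] at hT ⊢
          have hTn : n ≤ T := by omega
          have h4 := D89.E_le_Ps (ρ := ρ) β h (le_refl T)
          have h5 := hrec T hTn
          rw [← hΨ] at h5
          have hnp : (0 : ℝ) < n := by linarith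
          have hx : (64 : ℝ) ≤ (T : ℝ) / n := by
            rw [le_div_iff₀ hnp]
            exact_mod_cast hT.le
          have h6 := D89.pow23 hx
          have hk1 : (k : ℝ) ≤ n := by exact_mod_cast hk
          have hTp : (0 : ℝ) < T := by
            have : 0 < T := by omega
            exact_mod_cast this
          have h7 : (1 / 2 : ℝ) ^ I = k / T := by
            rw [hTd]
            push_cast
            have : (0 : ℝ) < k := by exact_mod_cast hk0
            rw [one_div, inv_pow]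
            field_simp
          have h8 : En ρ β h T ≤ Ψ * ((T : ℝ) / n / 4) :=
            h4.trans (h5.trans (mul_le_mul_of_nonneg_left h6 (by linarith)))
          rw [h7]
          calc (k : ℝ) / T * En ρ β h T ≤ (k : ℝ) / T * (Ψ * ((T : ℝ) / n / 4)) :=
                mul_le_mul_of_nonneg_left h8 (by positivity)
            _ = (k / n) * (Ψ / 4) := by
              field_simp
            _ ≤ 1 * (Ψ / 4) := by
              refine mul_le_mul_of_nonneg_right ?_ (by linarith)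
              rw [div_le_iff₀ hnp, one_mul]
              exact hk1
            _ = Ψ / 4 := one_mul _
        linarith
    have hF' : ∀ k : ℕ, k ≤ n → Fn ρ β h k ≤ Ψ / 200 := by
      intro k hk
      rcases Nat.eq_zero_or_pos k with hk0 | hk0
      · rw [hk0, Fn_zero15]
        linarith
      · exact hF k hk0 (by omega)
    have h1 := D89.Ps_le (ρ := ρ) β h hE hF'
    rw [← hΨ] at h1
    have h2 : (1 : ℝ) ≤ (n : ℝ) ^ y := Real.one_le_rpow hnR hy0.le
    nlinarith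

end Pool.Agent.W_7d29a1_KZ
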