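import Pool.Agent.W_7d29a1_KZ.EvL5

/-!
Theorem KZ for every law: the leaf VAR (helper5, after VarF62 of helper62).
-/

set_option autoImplicit false

namespace Pool.Agent.W_7d29a1_KZ

open MeasureTheory ProbabilityTheory Filter Topology Pool.Agent.W_MP_7d29a1_pr
  Pool.Agent.W_7d29a1_h46 Pool.Agent.W_7d29a1_h46u Pool.Agent.W_7d29a1_D2.B35
  Pool.Agent.W_7d29a1_Q29 Pool.Agent.W_7d29a1_R34 Pool.Agent.W_7d29a1_SP Pool.Agent.W_7d29a1_SD
  Pool.Agent.W_7d29a1_SQ

variable {d : ℕ} {ρ : Measure ℝ} {β : ℝ}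

/-- **Leaf VAR with a free bound.** -/
theorem varFN5 [IsProbabilityMeasure ρ] (hd : 0 < d) (hρ : EM ρ) (hC : CntP d ρ β)
    (hL5 : LowT5 d ρ β) : VarF d ρ β := by
  obtain ⟨Cd, c, hCd, hc0, hc1, hlow5⟩ := hL5
  obtain ⟨K2, hK2⟩ : ∃ K2 : ℝ, K2 = Cd + 4 / c := ⟨_, rfl⟩
  have hK2c : 4 / c ≤ K2 := by linarith
  have hK2d : Cd ≤ K2 := by
    have : 0 < 4 / c := by positivity
    linarith
  have hK24 : 4 ≤ K2 := by
    have : 4 ≤ 4 / c := by
      rw [le_div_iff₀ hc0]
      linarith
    linarith
  have hK20 : 0 < K2 := by linarith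
  obtain ⟨H, hH⟩ : ∃ H : ℝ, H = 12 * (Cd * K2) := ⟨_, rfl⟩
  have hH48 : 48 ≤ H := by
    rw [hH]
    nlinarith
  have hH0 : 0 < H := by linarith
  intro c₀ a hc₀ ha ha2
  obtain ⟨C₁, hC₁, htail⟩ := tailF62 (d := d) (ρ := ρ) (β := β) hC c₀ a hc₀ ha (by linarith)
  have hC₁0 : 0 < C₁ := by linarith
  have hb : 2 < 1 / a := by
    rw [lt_div_iff₀ ha]
    linarith
  have hb2 : 0 < 1 / a - 2 := by linarith
  set K₁ : ℝ := 1 / a / (1 / a - 2) * C₁ ^ 2 with hK₁
  have hK₁0 : 0 < K₁ := by positivity
  refine ⟨1 + K₁ + 2 * H ^ 2, by nlinarith, fun h hloc n P hn1 hP1 hrec m hmn => ?_⟩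
  have hP0 : 0 < P := by linarith
  have hn0 : (n : ℝ) ≠ 0 := by
    have : 0 < n := hn1
    exact_mod_cast this.ne'
  have hPn : Ps ρ β h n ≤ P := by
    have h1 := hrec n le_rfl
    rwa [div_self hn0, Real.one_rpow, mul_one] at h1
  rcases Nat.eq_zero_or_pos m with h0 | hm
  · subst h0
    have h1 : Va ρ β h 0 = 0 := by
      unfold Va
      have h2 : ∀ η : Env d, X β h η 0 = 0 := by
        intro η
        unfold X
        rw [Z_zero, Real.log_one]
      simp [h2, A_zero15]
    rw [h1]
    positivity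
  have hm1 : 1 ≤ m := hm
  have hF : Fn ρ β h m ≤ P := by
    have := Fn_le_Ps32 (ρ := ρ) (β := β) h hmn
    linarith
  have hF0 : 0 ≤ Fn ρ β h m := Fn_nonneg15 β h m
  have hmeas : Measurable fun η : Env d => X β h η m - A ρ β h m :=
    (measurable_X β h m).sub_const _
  have hsq := N85.Va_int (ρ := ρ) hd hρ β h m
  -- the upper part
  have hup := E62.sqp (μ := law d ρ) hmeas hsq (P := C₁ * P) (b := 1 / a) (by positivity) hb
    fun x hx => by
      have hx0 : 0 < x := lt_of_lt_of_le (by positivity) hx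
      have e1 : {w : Env d | x ≤ X β h w m - A ρ β h m} = {η | A ρ β h m + x ≤ X β h η m} := by
        ext w
        simp only [Set.mem_ofPred_eq]
        constructor <;> intro h3 <;> linarith
      rw [e1]
      exact htail h hloc n P hn1 hP1 hrec m hm1 hmn x hx0
  -- the lower part
  have hs0 : (law d ρ).real {η | X β h η m ≤ A ρ β h m - 2 * P} ≤ 1 / 2 := by
    refine (measureReal_mono (s₂ := {η | 2 * P ≤ |X β h η m - A ρ β h m|}) ?_).trans
      ((mkF62 hd hρ h m (show 0 < 2 * P by positivity)).trans ?_)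
    · intro η hη
      have h3 : X β h η m ≤ A ρ β h m - 2 * P := hη
      show 2 * P ≤ |X β h η m - A ρ β h m|
      rw [abs_of_nonpos (by linarith)]
      linarith
    · rw [div_le_iff₀ (by positivity)]
      linarith
  have hs0' : 1 / 4 ≤ (law d ρ).real {η | A ρ β h m - 2 * P < X β h η m} := by
    have h1 := probReal_compl_eq_one_sub (μ := law d ρ)
      (measurableSet_le (measurable_X (d := d) β h m) (measurable_const (a := A ρ β h m - 2 * P)))
    have h2 : ({η | X β h η m ≤ A ρ β h m - 2 * P} : Set (Env d))ᶜ =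
        {η | A ρ β h m - 2 * P < X β h η m} := by
      ext η
      simp
    rw [h2] at h1
    rw [h1]
    linarith
  have hs1 : (law d ρ).real {η | A ρ β h m - 2 * P + K2 * P < X β h η m} < c := by
    have h1 := mkF62 (ρ := ρ) hd hρ (β := β) h m (show 0 < (K2 - 2) * P by
      have : 0 < K2 - 2 := by linarith
      positivity)
    refine lt_of_le_of_lt ((measureReal_mono (s₂ := {η | (K2 - 2) * P ≤ |X β h η m - A ρ β h m|})
      ?_).trans h1) ?_
    · intro η hη
      have h3 : A ρ β h m - 2 * P + K2 * P < X β h η m := hη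
      show (K2 - 2) * P ≤ |X β h η m - A ρ β h m|
      refine le_trans ?_ (le_abs_self _)
      linarith
    · have h2 : 0 < K2 - 2 := by linarith
      have h3 : 2 ≤ c * (K2 - 2) := by
        have h4 : 4 ≤ c * K2 := by
          have h5 := mul_le_mul_of_nonneg_left hK2c hc0.le
          have e2 : c * (4 / c) = 4 := by field_simp
          rw [e2] at h5
          exact h5
        nlinarith
      rw [div_lt_iff₀ (by positivity)]
      have h4 : 2 * P ≤ c * ((K2 - 2) * P) := by
        have := mul_le_mul_of_nonneg_right h3 hP0.le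
        linarith
      linarith
  have hlow := E62.sqp (μ := law d ρ) hmeas.neg (by
      refine hsq.congr (Eventually.of_forall fun η => ?_)
      show (X β h η m - A ρ β h m) ^ 2 = (-(X β h η m - A ρ β h m)) ^ 2
      ring) (P := H * P) (b := 4) (by positivity) (by norm_num)
    fun x hx => by
      have hx0 : 0 < x := lt_of_lt_of_le (by positivity) hx
      have hx4 : 4 * P ≤ x := by nlinarith
      have h1 := hlow5 h m (A ρ β h m - 2 * P) (K2 * P) (by nlinarith) hs0' hs1 (x - 2 * P)
        (by linarith)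
      have e1 : A ρ β h m - 2 * P - (x - 2 * P) = A ρ β h m - x := by ring
      rw [e1] at h1
      have e2 : {w : Env d | x ≤ -(X β h w m - A ρ β h m)} = {η | X β h η m ≤ A ρ β h m - x} := by
        ext w
        simp only [Set.mem_ofPred_eq]
        constructor <;> intro h3 <;> linarith
      have e3 : {w : Env d | x ≤ (-fun η : Env d => X β h η m - A ρ β h m) w} =
          {w : Env d | x ≤ -(X β h w m - A ρ β h m)} := rfl
      rw [e3, e2]
      refine h1.trans ?_
      have hCK : 0 < Cd * K2 := by positivity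
      have h2 : Real.exp (1 - (x - 2 * P) / (Cd * (K2 * P))) ≤
          Real.exp (1 - x / (2 * (Cd * K2) * P)) := by
        apply Real.exp_le_exp.2
        have h3 : x / (2 * (Cd * K2) * P) ≤ (x - 2 * P) / (Cd * (K2 * P)) := by
          rw [div_le_div_iff₀ (by positivity) (by positivity)]
          have h4 : x ≤ 2 * (x - 2 * P) := by linarith
          have h5 := mul_le_mul_of_nonneg_right h4 (show 0 ≤ Cd * K2 * P by positivity)
          calc x * (Cd * (K2 * P)) = x * (Cd * K2 * P) := by ring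
            _ ≤ 2 * (x - 2 * P) * (Cd * K2 * P) := h5
            _ = (x - 2 * P) * (2 * (Cd * K2) * P) := by ring
        linarith
      refine h2.trans ((exp4_5 (show 0 < x / (2 * (Cd * K2) * P) by positivity)).trans ?_)
      have e4 : (H * P / x) ^ (4 : ℝ) = (H * P / x) ^ (4 : ℕ) := by
        rw [← Real.rpow_natCast]
        norm_num
      rw [e4, hH]
      have e5 : 1152 / (x / (2 * (Cd * K2) * P)) ^ 4 = 18432 * (Cd * K2 * P / x) ^ 4 := by
        field_simp
        ring
      have e6 : (12 * (Cd * K2) * P / x) ^ 4 = 20736 * (Cd * K2 * P / x) ^ 4 := by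
        field_simp
        ring
      rw [e5, e6]
      exact mul_le_mul_of_nonneg_right (by norm_num) (by positivity)
  -- the sum
  have hsum : Va ρ β h m = ∫ η, max (X β h η m - A ρ β h m) 0 ^ 2 ∂(law d ρ) +
      ∫ η, max ((-fun η : Env d => X β h η m - A ρ β h m) η) 0 ^ 2 ∂(law d ρ) := by
    have i1 : Integrable (fun η => max (X β h η m - A ρ β h m) 0 ^ 2) (law d ρ) := by
      refine hsq.mono ((hmeas.max measurable_const).pow_const 2).aestronglyMeasurable
        (Eventually.of_forall fun w => ?_)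
      rw [Real.norm_eq_abs, Real.norm_eq_abs, abs_of_nonneg (sq_nonneg _),
        abs_of_nonneg (sq_nonneg _)]
      rcases le_total (X β h w m - A ρ β h m) 0 with h3 | h3
      · rw [max_eq_right h3]
        nlinarith [sq_nonneg (X β h w m - A ρ β h m)]
      · rw [max_eq_left h3]
    have i2 : Integrable (fun η => max ((-fun η : Env d => X β h η m - A ρ β h m) η) 0 ^ 2)
        (law d ρ) := by
      refine hsq.mono ((hmeas.neg.max measurable_const).pow_const 2).aestronglyMeasurable
        (Eventually.of_forall fun w => ?_)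
      rw [Real.norm_eq_abs, Real.norm_eq_abs, abs_of_nonneg (sq_nonneg _),
        abs_of_nonneg (sq_nonneg _)]
      show max (-(X β h w m - A ρ β h m)) 0 ^ 2 ≤ _
      rcases le_total (-(X β h w m - A ρ β h m)) 0 with h3 | h3
      · rw [max_eq_right h3]
        nlinarith [sq_nonneg (X β h w m - A ρ β h m)]
      · rw [max_eq_left h3]
        nlinarith
    rw [← integral_add i1 i2]
    unfold Va
    refine integral_congr_ae (Eventually.of_forall fun η => ?_)
    show (X β h η m - A ρ β h m) ^ 2 = max (X β h η m - A ρ β h m) 0 ^ 2 +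
      max (-(X β h η m - A ρ β h m)) 0 ^ 2
    rcases le_total (X β h η m - A ρ β h m) 0 with h3 | h3
    · rw [max_eq_right h3, max_eq_left (by linarith : 0 ≤ -(X β h η m - A ρ β h m))]
      ring
    · rw [max_eq_left h3, max_eq_right (by linarith : -(X β h η m - A ρ β h m) ≤ 0)]
      ring
  rw [hsum]
  have e7 : 1 / a / (1 / a - 2) * (C₁ * P) ^ 2 = K₁ * P ^ 2 := by
    rw [hK₁]
    ring
  rw [e7] at hup
  have e8 : (4 : ℝ) / (4 - 2) * (H * P) ^ 2 = 2 * H ^ 2 * P ^ 2 := by ring
  rw [e8] at hlow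
  have hPP : 0 ≤ P ^ 2 := sq_nonneg P
  linarith

end Pool.Agent.W_7d29a1_KZ
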