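import Pool.Agent.W_7d29a1_KZ.DefsZ70
import Pool.Agent.W_7d29a1_SQ.Top32

/-!
Theorem KZ, leaf FIN: from the leaves to the theorem.
-/

set_option autoImplicit false

namespace Pool.Agent.W_7d29a1_KZ

open MeasureTheory ProbabilityTheory Filter Topology Pool.Agent.W_MP_7d29a1_pr
  Pool.Agent.W_7d29a1_h46 Pool.Agent.W_7d29a1_h46u Pool.Agent.W_7d29a1_D2.B35
  Pool.Agent.W_7d29a1_Q29 Pool.Agent.W_7d29a1_R34 Pool.Agent.W_7d29a1_SP Pool.Agent.W_7d29a1_SD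
  Pool.Agent.W_7d29a1_SQ

variable {d : ℕ} {ρ : Measure ℝ} {β : ℝ}

/-- The running maxima under an a priori bound. -/
lemma Ps_le58 (h : Vec d) {b C : ℝ} (hb : 0 < b) (hC : 0 ≤ C)
    (hE : ∀ n : ℕ, En ρ β h n ≤ C * (n : ℝ) ^ b ∧ Fn ρ β h n ≤ C * (n : ℝ) ^ b) (n : ℕ) :
    Ps ρ β h n ≤ 1 + 2 * C * (n : ℝ) ^ b := by
  have hm : ∀ k ∈ Finset.range (n + 1), C * (k : ℝ) ^ b ≤ C * (n : ℝ) ^ b := by
    intro k hk
    refine mul_le_mul_of_nonneg_left ?_ hC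
    refine Real.rpow_le_rpow (Nat.cast_nonneg k) ?_ hb.le
    exact_mod_cast Nat.lt_succ_iff.1 (Finset.mem_range.1 hk)
  have h1 : (Finset.range (n + 1)).sup' ⟨0, by simp⟩ (En ρ β h) ≤ C * (n : ℝ) ^ b :=
    Finset.sup'_le _ _ fun k hk => (hE k).1.trans (hm k hk)
  have h2 : (Finset.range (n + 1)).sup' ⟨0, by simp⟩ (Fn ρ β h) ≤ C * (n : ℝ) ^ b :=
    Finset.sup'_le _ _ fun k hk => (hE k).2.trans (hm k hk)
  unfold Ps
  linarith

/-- A right record with an exponent below `2 / 3` is a right record. -/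
lemma RRa_RRec58 {a : ℝ} (ha : a ≤ 2 / 3) {f : ℕ → ℝ} (hf : ∀ n, 0 ≤ f n) {n : ℕ}
    (h : RRa a f n) : RRec f n := by
  refine ⟨h.1, fun T hT => (h.2 T hT).trans (mul_le_mul_of_nonneg_left ?_ (hf n))⟩
  have hn : (0 : ℝ) < n := by exact_mod_cast h.1
  refine Real.rpow_le_rpow_of_exponent_le ?_ ha
  rw [le_div_iff₀ hn, one_mul]
  exact_mod_cast hT

/-- A resampling bound with a larger radius. -/
lemma RS_mono58 [IsProbabilityMeasure ρ] {h : Vec d} {n p : ℕ} {M M' δ : ℝ} (hM : M ≤ M')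
    (hR : RS ρ β h n p M δ) : RS ρ β h n p M' δ := by
  unfold RS at hR ⊢
  refine (measureReal_mono (fun w hw => ?_) (measure_ne_top _ _)).trans hR
  exact lt_of_le_of_lt hM hw

/-- **THEOREM KZ, from the leaves.** -/
theorem finKZ58 [IsProbabilityMeasure ρ] (hS : SelK d ρ β) (hD : DomK d ρ β) (hR : RecK d ρ β)
    (hW : VarK d ρ β) (hP : PriK d ρ β) (hA : RraP)
    (hL : ∀ h : Vec d, VSD ρ β h → ∃ c₀ : ℝ, 0 < c₀ ∧ Loc1 ρ β h c₀) : MainKZ d ρ β := by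
  filter_upwards [hS] with v hv h hV δ hδ0 hδ1 hHalf x hx
  -- the exponents
  obtain ⟨y, hyx, hy1, hy2⟩ : ∃ y : ℝ, y ≤ x ∧ y ≤ 1 ∧ 2 * δ < y :=
    ⟨min x 1, min_le_left _ _, min_le_right _ _, lt_min hx (by linarith)⟩
  obtain ⟨γ, hγ⟩ : ∃ γ : ℝ, γ = (2 * δ + y) / 4 := ⟨_, rfl⟩
  obtain ⟨η, hη⟩ : ∃ η : ℝ, η = (y - 2 * γ) / 2 := ⟨_, rfl⟩
  have hγ0 : 0 ≤ γ := by linarith
  have hγδ : δ < γ := by linarith
  have hγ1 : γ < 1 / 2 := by linarith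
  have hη0 : 0 < η := by linarith
  have hγη : 2 * γ + η < y := by linarith
  have hRS := hv h δ γ hδ0 hγδ hγ1 hHalf
  obtain ⟨c₀, hc₀, hloc⟩ := hL h hV
  obtain ⟨b, hb⟩ : ∃ b : ℝ, b = ((1 / 2 + δ) / 2 + 1 / 2) / 2 := ⟨_, rfl⟩
  obtain ⟨a, ha⟩ : ∃ a : ℝ, a = (b + 1 / 2) / 2 := ⟨_, rfl⟩
  have hb0 : 0 < b := by linarith
  have hba : b < a := by linarith
  have ha1 : a < 1 / 2 := by linarith
  obtain ⟨C₁, hC₁, hpri⟩ := hP h v δ b hδ0 hδ1 hHalf (by linarith)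
  obtain ⟨K, D, C₂, hK, hD1, hdom⟩ := hD h γ η hγ0 hη0 (by linarith) hRS
  obtain ⟨δ₀, κ, C₃, hδ₀, hκ, hκ1, hrec⟩ := hR c₀ D K hc₀ hD1 hK
  obtain ⟨K', hK', hRS'⟩ := hRS κ δ₀ hκ hκ1 hδ₀
  obtain ⟨L₀, hL₀⟩ := eventually_atTop.1 hRS'
  obtain ⟨N₁, hN₁⟩ := eventually_atTop.1 hdom
  obtain ⟨C₄, hC₄, hvar⟩ := hW c₀ a hc₀ (by linarith) ha1
  have hPs1 : ∀ n, 1 ≤ Ps ρ β h n := fun n => one_le_Ps32 h n
  -- the bound at a record
  obtain ⟨C₅, hC₅⟩ : ∃ C₅ : ℝ, C₅ = |C₂| + D * (C₁ * (L₀ : ℝ) ^ b) +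
    |C₃| * (K' * (2 * K : ℝ) ^ (2 * γ) + 1) + 1 := ⟨_, rfl⟩
  have hDL : 0 ≤ D * (C₁ * (L₀ : ℝ) ^ b) := by positivity
  have hCK : 0 ≤ |C₃| * (K' * (2 * K : ℝ) ^ (2 * γ) + 1) := by positivity
  have hC₅0 : 1 ≤ C₅ := by
    have := abs_nonneg C₂
    linarith
  have hkey : ∀ n : ℕ, N₁ ≤ n → RRec (Ps ρ β h) n → Ps ρ β h n ≤ C₅ * (n : ℝ) ^ (2 * γ + η) := by
    intro n hn hrr
    have hn1 : (1 : ℝ) ≤ n := by exact_mod_cast hrr.1
    have hp1 : 1 ≤ (n : ℝ) ^ (2 * γ + η) := Real.one_le_rpow hn1 (by linarith)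
    have hp2 : (n : ℝ) ^ (2 * γ) ≤ (n : ℝ) ^ (2 * γ + η) :=
      Real.rpow_le_rpow_of_exponent_le hn1 (by linarith)
    have hp0 : 0 ≤ (n : ℝ) ^ (2 * γ + η) := by positivity
    rcases hN₁ n hn hrr with h1 | ⟨m, hm1, hm2, hm3⟩
    · refine h1.trans (mul_le_mul_of_nonneg_right ?_ hp0)
      have := le_abs_self C₂
      linarith
    · by_cases hmL : m < L₀
      · have h2 : Fn ρ β h m ≤ C₁ * (L₀ : ℝ) ^ b := by
          refine (hpri m).2.trans (mul_le_mul_of_nonneg_left ?_ hC₁)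
          exact Real.rpow_le_rpow (Nat.cast_nonneg m) (by exact_mod_cast hmL.le) hb0.le
        have h3 : Ps ρ β h n ≤ D * (C₁ * (L₀ : ℝ) ^ b) :=
          hm3.trans (mul_le_mul_of_nonneg_left h2 (by linarith))
        have h4 : D * (C₁ * (L₀ : ℝ) ^ b) ≤ D * (C₁ * (L₀ : ℝ) ^ b) * (n : ℝ) ^ (2 * γ + η) :=
          le_mul_of_one_le_right hDL hp1
        refine h3.trans (h4.trans (mul_le_mul_of_nonneg_right ?_ hp0))
        have := abs_nonneg C₂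
        linarith
      · push Not at hmL
        obtain ⟨M, hM⟩ : ∃ M : ℝ, M = K' * (2 * K * n : ℝ) ^ (2 * γ) := ⟨_, rfl⟩
        have hK1 : (1 : ℝ) ≤ K := by exact_mod_cast hK
        have hM0 : 0 < M := by
          rw [hM]
          positivity
        have h5 : ∀ L : ℕ, m ≤ L → L ≤ 2 * m → RS ρ β h L ⌊κ * L⌋₊ M δ₀ := by
          intro L hL1 hL2
          refine RS_mono58 ?_ (hL₀ L (hmL.trans hL1))
          rw [hM]
          refine mul_le_mul_of_nonneg_left ?_ hK'.le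
          refine Real.rpow_le_rpow (Nat.cast_nonneg L) ?_ (by linarith)
          have h6 : L ≤ 2 * K * n := hL2.trans (by nlinarith)
          exact_mod_cast h6
        have h7 := hrec h hloc n hrr m hm1 hm2 hm3 M hM0 h5
        have h8 : M = K' * (2 * K : ℝ) ^ (2 * γ) * (n : ℝ) ^ (2 * γ) := by
          rw [hM, Real.mul_rpow (by positivity) (by positivity), mul_assoc]
        have h9 : M + 1 ≤ (K' * (2 * K : ℝ) ^ (2 * γ) + 1) * (n : ℝ) ^ (2 * γ + η) := by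
          rw [h8, add_mul, one_mul]
          exact add_le_add (mul_le_mul_of_nonneg_left hp2 (by positivity)) hp1
        have h10 : C₃ * (M + 1) ≤ |C₃| * ((K' * (2 * K : ℝ) ^ (2 * γ) + 1) *
            (n : ℝ) ^ (2 * γ + η)) := by
          refine (mul_le_mul_of_nonneg_right (le_abs_self C₃) (by linarith)).trans ?_
          exact mul_le_mul_of_nonneg_left h9 (abs_nonneg _)
        refine h7.trans (h10.trans ?_)
        rw [← mul_assoc]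
        refine mul_le_mul_of_nonneg_right ?_ hp0
        have := abs_nonneg C₂
        linarith
  -- the threshold
  obtain ⟨w, hw⟩ : ∃ w : ℝ, w = x - (2 * γ + η) := ⟨_, rfl⟩
  have hw0 : 0 < w := by linarith
  have hlim := ((tendsto_rpow_atTop hw0).comp tendsto_natCast_atTop_atTop).eventually
    (eventually_ge_atTop (C₄ * C₅ ^ 2 + C₅ + 1))
  obtain ⟨N₂, hN₂⟩ := eventually_atTop.1 hlim
  refine Filter.frequently_atTop.2 fun N => ?_
  obtain ⟨n, hn, hra⟩ := hA a b (2 * C₁) (Ps ρ β h) hb0 hba (by positivity) hPs1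
    (Ps_le58 h hb0 hC₁ hpri) (N + N₁ + N₂)
  refine ⟨n, by omega, fun m hm => ?_⟩
  have hn1 : (1 : ℝ) ≤ n := by exact_mod_cast hra.1
  have hnpos : (0 : ℝ) < n := by linarith
  have hrr := RRa_RRec58 (by linarith : a ≤ 2 / 3) (fun n => by linarith [hPs1 n]) hra
  have hb1 := hkey n (by omega) hrr
  have hb2 : C₄ * C₅ ^ 2 + C₅ + 1 ≤ (n : ℝ) ^ w := hN₂ n (by omega)
  have hq0 : 0 ≤ (n : ℝ) ^ (2 * γ + η) := by positivity
  have hxw : (n : ℝ) ^ x = (n : ℝ) ^ w * (n : ℝ) ^ (2 * γ + η) := by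
    rw [← Real.rpow_add hnpos, hw]
    congr 1
    ring
  have hC45 : 0 ≤ C₄ * C₅ ^ 2 := by positivity
  constructor
  · have h1 := hvar h hloc n hra m hm
    have hps0 : 0 ≤ Ps ρ β h n := by linarith [hPs1 n]
    have h2 : Ps ρ β h n ^ 2 ≤ (C₅ * (n : ℝ) ^ (2 * γ + η)) ^ 2 :=
      pow_le_pow_left₀ hps0 hb1 2
    have h3 : Va ρ β h m ≤ C₄ * (C₅ * (n : ℝ) ^ (2 * γ + η)) ^ 2 :=
      h1.trans (mul_le_mul_of_nonneg_left h2 (by linarith))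
    have h4 : (n : ℝ) ^ (2 * x) = ((n : ℝ) ^ x) ^ 2 := by
      rw [← Real.rpow_natCast, ← Real.rpow_mul hnpos.le]
      congr 1
      push_cast
      ring
    rw [h4, hxw, mul_pow]
    refine h3.trans ?_
    rw [mul_pow, ← mul_assoc]
    refine mul_le_mul_of_nonneg_right ?_ (sq_nonneg _)
    have h5 : 1 ≤ (n : ℝ) ^ w := by linarith
    have h6 : (n : ℝ) ^ w ≤ ((n : ℝ) ^ w) ^ 2 := by nlinarith
    linarith
  · have h1 := En_le_Ps32 (ρ := ρ) (β := β) h hm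
    rw [hxw]
    have h2 : C₅ * (n : ℝ) ^ (2 * γ + η) ≤ (n : ℝ) ^ w * (n : ℝ) ^ (2 * γ + η) :=
      mul_le_mul_of_nonneg_right (by linarith) hq0
    linarith

end Pool.Agent.W_7d29a1_KZ
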