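import Pool.Agent.W_7d29a1_KZ.Fin58

/-!
Theorem KZ at all large lengths, leaf FIN: from the leaves to the theorem.
-/

set_option autoImplicit false

namespace Pool.Agent.W_7d29a1_KZ

open MeasureTheory ProbabilityTheory Filter Topology Pool.Agent.W_MP_7d29a1_pr
  Pool.Agent.W_7d29a1_h46 Pool.Agent.W_7d29a1_h46u Pool.Agent.W_7d29a1_D2.B35
  Pool.Agent.W_7d29a1_Q29 Pool.Agent.W_7d29a1_R34 Pool.Agent.W_7d29a1_SP Pool.Agent.W_7d29a1_SD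
  Pool.Agent.W_7d29a1_SQ

/-- Leaf VAR with a free number in place of the record. -/
def VarKP (d : ℕ) (ρ : Measure ℝ) (β : ℝ) : Prop := ∀ c₀ a : ℝ, 0 < c₀ → 0 < a → a < 1 / 2 →
  ∃ C : ℝ, 1 ≤ C ∧ ∀ h : Vec d, Loc1 ρ β h c₀ → ∀ (n : ℕ) (P : ℝ), 1 ≤ n → 1 ≤ P →
    (∀ T : ℕ, n ≤ T → Ps ρ β h T ≤ P * ((T : ℝ) / n) ^ a) →
      ∀ m : ℕ, m ≤ n → Va ρ β h m ≤ C * P ^ 2

/-- Leaf ALL (pure): a power bound at the right records holds everywhere. -/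
def AllP : Prop := ∀ (a b C D y : ℝ) (f : ℕ → ℝ) (N : ℕ), 0 < b → b < a → 0 ≤ C → 0 ≤ D →
  0 ≤ y → y ≤ a → (∀ n, 1 ≤ f n) → (∀ n : ℕ, f n ≤ 1 + C * (n : ℝ) ^ b) →
  (∀ n : ℕ, N ≤ n → RRa a f n → f n ≤ D * (n : ℝ) ^ y) →
    ∀ n : ℕ, N ≤ n → 1 ≤ n → f n ≤ D * (n : ℝ) ^ y

/-- **THEOREM KZ at all large lengths.** -/
def MainKZA (d : ℕ) (ρ : Measure ℝ) (β : ℝ) : Prop := ∀ᵐ v : Vec d, ∀ h : Vec d, VSD ρ β h →
  ∀ δ : ℝ, 0 ≤ δ → δ < 1 / 2 → HalfD ρ β h v δ → ∀ x : ℝ, 2 * δ < x → ∀ᶠ n : ℕ in atTop,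
    ∀ m : ℕ, m ≤ n → Va ρ β h m ≤ (n : ℝ) ^ (2 * x) ∧ En ρ β h m ≤ (n : ℝ) ^ x

variable {d : ℕ} {ρ : Measure ℝ} {β : ℝ}

/-- **THEOREM KZ at all large lengths, from the leaves.** -/
theorem finKZA58 [IsProbabilityMeasure ρ] (hS : SelK d ρ β) (hD : DomK d ρ β) (hR : RecK d ρ β)
    (hW : VarKP d ρ β) (hP : PriK d ρ β) (hA : AllP)
    (hL : ∀ h : Vec d, VSD ρ β h → ∃ c₀ : ℝ, 0 < c₀ ∧ Loc1 ρ β h c₀) : MainKZA d ρ β := by
  filter_upwards [hS] with v hv h hV δ hδ0 hδ1 hHalf x hx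
  -- the exponents
  obtain ⟨y, hyx, hy1, hy2⟩ : ∃ y : ℝ, y ≤ x ∧ y ≤ 1 ∧ 2 * δ < y :=
    ⟨min x 1, min_le_left _ _, min_le_right _ _, lt_min hx (by linarith)⟩
  obtain ⟨γ, hγ⟩ : ∃ γ : ℝ, γ = (2 * δ + y) / 4 := ⟨_, rfl⟩
  obtain ⟨η, hη⟩ : ∃ η : ℝ, η = (y - 2 * γ) / 2 := ⟨_, rfl⟩
  have hγ0 : 0 ≤ γ := by linarith
  have hγδ : δ < γ := by linarith
  have hγ1 : γ < 1 / 2 := by linarith
  have hη0 : 0 < η := by linarith
  have hγη : 2 * γ + η < y := by linarith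
  have hRS := hv h δ γ hδ0 hγδ hγ1 hHalf
  obtain ⟨c₀, hc₀, hloc⟩ := hL h hV
  obtain ⟨b, hb⟩ : ∃ b : ℝ, b = ((1 / 2 + δ) / 2 + 1 / 2) / 2 := ⟨_, rfl⟩
  obtain ⟨a, ha⟩ : ∃ a : ℝ, a = (b + 1 / 2) / 2 := ⟨_, rfl⟩
  have hb0 : 0 < b := by linarith
  have hba : b < a := by linarith
  have ha1 : a < 1 / 2 := by linarith
  obtain ⟨C₁, hC₁, hpri⟩ := hP h v δ b hδ0 hδ1 hHalf (by linarith)
  obtain ⟨K, D, C₂, hK, hD1, hdom⟩ := hD h γ η hγ0 hη0 (by linarith) hRS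
  obtain ⟨δ₀, κ, C₃, hδ₀, hκ, hκ1, hrec⟩ := hR c₀ D K hc₀ hD1 hK
  obtain ⟨K', hK', hRS'⟩ := hRS κ δ₀ hκ hκ1 hδ₀
  obtain ⟨L₀, hL₀⟩ := eventually_atTop.1 hRS'
  obtain ⟨N₁, hN₁⟩ := eventually_atTop.1 hdom
  obtain ⟨e, he⟩ : ∃ e : ℝ, e = min (2 * γ + η) a := ⟨_, rfl⟩
  have hea : e ≤ a := he ▸ min_le_right _ _
  have hey : e ≤ 2 * γ + η := he ▸ min_le_left _ _
  have he0 : 0 < e := he ▸ lt_min (by linarith) (by linarith)
  obtain ⟨C₄, hC₄, hvar⟩ := hW c₀ e hc₀ he0 (by linarith)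
  have hPs1 : ∀ n, 1 ≤ Ps ρ β h n := fun n => one_le_Ps32 h n
  -- the bound at a record
  obtain ⟨C₅, hC₅⟩ : ∃ C₅ : ℝ, C₅ = |C₂| + D * (C₁ * (L₀ : ℝ) ^ b) +
    |C₃| * (K' * (2 * K : ℝ) ^ (2 * γ) + 1) + 1 := ⟨_, rfl⟩
  have hDL : 0 ≤ D * (C₁ * (L₀ : ℝ) ^ b) := by positivity
  have hCK : 0 ≤ |C₃| * (K' * (2 * K : ℝ) ^ (2 * γ) + 1) := by positivity
  have hC₅0 : 1 ≤ C₅ := by
    have := abs_nonneg C₂
    linarith
  have hkey : ∀ n : ℕ, N₁ ≤ n → RRec (Ps ρ β h) n → Ps ρ β h n ≤ C₅ * (n : ℝ) ^ (2 * γ + η) := by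
    intro n hn hrr
    have hn1 : (1 : ℝ) ≤ n := by exact_mod_cast hrr.1
    have hp1 : 1 ≤ (n : ℝ) ^ (2 * γ + η) := Real.one_le_rpow hn1 (by linarith)
    have hp2 : (n : ℝ) ^ (2 * γ) ≤ (n : ℝ) ^ (2 * γ + η) :=
      Real.rpow_le_rpow_of_exponent_le hn1 (by linarith)
    have hp0 : 0 ≤ (n : ℝ) ^ (2 * γ + η) := by positivity
    rcases hN₁ n hn hrr with h1 | ⟨m, hm1, hm2, hm3⟩
    · refine h1.trans (mul_le_mul_of_nonneg_right ?_ hp0)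
      have := le_abs_self C₂
      linarith
    · by_cases hmL : m < L₀
      · have h2 : Fn ρ β h m ≤ C₁ * (L₀ : ℝ) ^ b := by
          refine (hpri m).2.trans (mul_le_mul_of_nonneg_left ?_ hC₁)
          exact Real.rpow_le_rpow (Nat.cast_nonneg m) (by exact_mod_cast hmL.le) hb0.le
        have h3 : Ps ρ β h n ≤ D * (C₁ * (L₀ : ℝ) ^ b) :=
          hm3.trans (mul_le_mul_of_nonneg_left h2 (by linarith))
        have h4 : D * (C₁ * (L₀ : ℝ) ^ b) ≤ D * (C₁ * (L₀ : ℝ) ^ b) * (n : ℝ) ^ (2 * γ + η) :=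
          le_mul_of_one_le_right hDL hp1
        refine h3.trans (h4.trans (mul_le_mul_of_nonneg_right ?_ hp0))
        have := abs_nonneg C₂
        linarith
      · push Not at hmL
        obtain ⟨M, hM⟩ : ∃ M : ℝ, M = K' * (2 * K * n : ℝ) ^ (2 * γ) := ⟨_, rfl⟩
        have hK1 : (1 : ℝ) ≤ K := by exact_mod_cast hK
        have hM0 : 0 < M := by
          rw [hM]
          positivity
        have h5 : ∀ L : ℕ, m ≤ L → L ≤ 2 * m → RS ρ β h L ⌊κ * L⌋₊ M δ₀ := by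
          intro L hL1 hL2
          refine RS_mono58 ?_ (hL₀ L (hmL.trans hL1))
          rw [hM]
          refine mul_le_mul_of_nonneg_left ?_ hK'.le
          refine Real.rpow_le_rpow (Nat.cast_nonneg L) ?_ (by linarith)
          have h6 : L ≤ 2 * K * n := hL2.trans (by nlinarith)
          exact_mod_cast h6
        have h7 := hrec h hloc n hrr m hm1 hm2 hm3 M hM0 h5
        have h8 : M = K' * (2 * K : ℝ) ^ (2 * γ) * (n : ℝ) ^ (2 * γ) := by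
          rw [hM, Real.mul_rpow (by positivity) (by positivity), mul_assoc]
        have h9 : M + 1 ≤ (K' * (2 * K : ℝ) ^ (2 * γ) + 1) * (n : ℝ) ^ (2 * γ + η) := by
          rw [h8, add_mul, one_mul]
          exact add_le_add (mul_le_mul_of_nonneg_left hp2 (by positivity)) hp1
        have h10 : C₃ * (M + 1) ≤ |C₃| * ((K' * (2 * K : ℝ) ^ (2 * γ) + 1) *
            (n : ℝ) ^ (2 * γ + η)) := by
          refine (mul_le_mul_of_nonneg_right (le_abs_self C₃) (by linarith)).trans ?_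
          exact mul_le_mul_of_nonneg_left h9 (abs_nonneg _)
        refine h7.trans (h10.trans ?_)
        rw [← mul_assoc]
        refine mul_le_mul_of_nonneg_right ?_ hp0
        have := abs_nonneg C₂
        linarith
  -- the bound everywhere
  obtain ⟨D₁, hD₁⟩ : ∃ D₁ : ℝ, D₁ = C₅ + (1 + 2 * C₁) := ⟨_, rfl⟩
  have hD₁1 : 1 ≤ D₁ := by linarith
  have hall : ∀ n : ℕ, N₁ ≤ n → 1 ≤ n → Ps ρ β h n ≤ D₁ * (n : ℝ) ^ e := by
    intro n hn hn1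
    have hn1' : (1 : ℝ) ≤ n := by exact_mod_cast hn1
    have hp0 : 0 ≤ (n : ℝ) ^ e := by positivity
    by_cases hya : 2 * γ + η ≤ a
    · have hee : e = 2 * γ + η := by rw [he, min_eq_left hya]
      have h1 := hA a b (2 * C₁) C₅ (2 * γ + η) (Ps ρ β h) N₁ hb0 hba (by positivity)
        (by linarith) (by linarith) hya hPs1 (Ps_le58 h hb0 hC₁ hpri)
        (fun n hn hra => hkey n hn (RRa_RRec58 (by linarith : a ≤ 2 / 3)
          (fun n => by linarith [hPs1 n]) hra)) n hn hn1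
      rw [hee] at hp0 ⊢
      exact h1.trans (mul_le_mul_of_nonneg_right (by linarith) hp0)
    · have hee : e = a := by rw [he, min_eq_right (not_le.1 hya).le]
      have h1 := Ps_le58 h hb0 hC₁ hpri n
      have h2 : (n : ℝ) ^ b ≤ (n : ℝ) ^ e :=
        Real.rpow_le_rpow_of_exponent_le hn1' (by linarith)
      have h3 : 1 ≤ (n : ℝ) ^ e := Real.one_le_rpow hn1' he0.le
      have h4 : 1 + 2 * C₁ * (n : ℝ) ^ b ≤ (1 + 2 * C₁) * (n : ℝ) ^ e := by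
        rw [add_mul, one_mul]
        exact add_le_add h3 (mul_le_mul_of_nonneg_left h2 (by positivity))
      exact h1.trans (h4.trans (mul_le_mul_of_nonneg_right (by linarith) hp0))
  -- the threshold
  obtain ⟨w, hw⟩ : ∃ w : ℝ, w = x - e := ⟨_, rfl⟩
  have hw0 : 0 < w := by linarith
  have hlim := ((tendsto_rpow_atTop hw0).comp tendsto_natCast_atTop_atTop).eventually
    (eventually_ge_atTop (C₄ * D₁ ^ 2 + D₁ + 1))
  filter_upwards [hlim, eventually_ge_atTop (N₁ + 1)] with n hb2 hnN m hm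
  have hn1N : 1 ≤ n := by omega
  have hn1 : (1 : ℝ) ≤ n := by exact_mod_cast hn1N
  have hnpos : (0 : ℝ) < n := by linarith
  replace hb2 : C₄ * D₁ ^ 2 + D₁ + 1 ≤ (n : ℝ) ^ w := hb2
  have hb1 := hall n (by omega) hn1N
  have hq0 : 0 ≤ (n : ℝ) ^ e := by positivity
  have hq1 : 1 ≤ (n : ℝ) ^ e := Real.one_le_rpow hn1 he0.le
  have hxw : (n : ℝ) ^ x = (n : ℝ) ^ w * (n : ℝ) ^ e := by
    rw [← Real.rpow_add hnpos, hw]
    congr 1
    ring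
  have hCD : 0 ≤ C₄ * D₁ ^ 2 := by positivity
  constructor
  · have hT : ∀ T : ℕ, n ≤ T → Ps ρ β h T ≤ D₁ * (n : ℝ) ^ e * ((T : ℝ) / n) ^ e := by
      intro T hT
      refine (hall T (by omega) (by omega)).trans (le_of_eq ?_)
      rw [mul_assoc, ← Real.mul_rpow hnpos.le (by positivity), mul_div_cancel₀ _ hnpos.ne']
    have hP1 : 1 ≤ D₁ * (n : ℝ) ^ e := by nlinarith
    have h3 := hvar h hloc n (D₁ * (n : ℝ) ^ e) hn1N hP1 hT m hm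
    have h4 : (n : ℝ) ^ (2 * x) = ((n : ℝ) ^ x) ^ 2 := by
      rw [← Real.rpow_natCast, ← Real.rpow_mul hnpos.le]
      congr 1
      push_cast
      ring
    rw [h4, hxw, mul_pow]
    refine h3.trans ?_
    rw [mul_pow, ← mul_assoc]
    refine mul_le_mul_of_nonneg_right ?_ (sq_nonneg _)
    have h5 : 1 ≤ (n : ℝ) ^ w := by linarith
    have h6 : (n : ℝ) ^ w ≤ ((n : ℝ) ^ w) ^ 2 := by nlinarith
    linarith
  · have h1 := En_le_Ps32 (ρ := ρ) (β := β) h hm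
    rw [hxw]
    have h2 : D₁ * (n : ℝ) ^ e ≤ (n : ℝ) ^ w * (n : ℝ) ^ e :=
      mul_le_mul_of_nonneg_right (by linarith) hq0
    linarith

end Pool.Agent.W_7d29a1_KZ
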