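import Pool.Agent.W_7d29a1_KZ.KzAll5

/-!
Theorem KZ at one tilt, from the resampling bound with any power (helper5, from the text of
FinA72).
-/

set_option autoImplicit false

namespace Pool.Agent.W_7d29a1_KZ

open MeasureTheory ProbabilityTheory Filter Topology Pool.Agent.W_MP_7d29a1_pr
  Pool.Agent.W_7d29a1_h46 Pool.Agent.W_7d29a1_h46u Pool.Agent.W_7d29a1_D2.B35
  Pool.Agent.W_7d29a1_Q29 Pool.Agent.W_7d29a1_R34 Pool.Agent.W_7d29a1_SP Pool.Agent.W_7d29a1_SD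
  Pool.Agent.W_7d29a1_SQ

variable {d : ℕ} {ρ : Measure ℝ} {β : ℝ}

/-- The finish at one tilt. -/
theorem ptG5 [IsProbabilityMeasure ρ] (hD : DomK d ρ β) (hR : RecK d ρ β)
    (hW : VarF d ρ β) (hP : PriK d ρ β) {h v : Vec d} {c₀ : ℝ} (hc₀ : 0 < c₀)
    (hloc : Loc1 ρ β h c₀) {δ γ x : ℝ} (hδ0 : 0 ≤ δ) (hδ1 : δ < 1 / 2) (hHalf : HalfD ρ β h v δ)
    (hγ0 : 0 ≤ γ) (hγ1 : γ < 1 / 2) (hRS : RSa ρ β h γ) (hx : 2 * γ < x) :
    ∀ᶠ n : ℕ in atTop, Va ρ β h n ≤ (n : ℝ) ^ (2 * x) ∧ En ρ β h n ≤ (n : ℝ) ^ x := by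
  obtain ⟨y, hyx, hy1, hy2⟩ : ∃ y : ℝ, y ≤ x ∧ y ≤ 1 ∧ 2 * γ < y :=
    ⟨min x 1, min_le_left _ _, min_le_right _ _, lt_min hx (by linarith)⟩
  obtain ⟨η, hη⟩ : ∃ η : ℝ, η = (y - 2 * γ) / 2 := ⟨_, rfl⟩
  have hη0 : 0 < η := by linarith
  have hγη : 2 * γ + η < y := by linarith
  obtain ⟨b, hb⟩ : ∃ b : ℝ, b = ((1 / 2 + δ) / 2 + 1 / 2) / 2 := ⟨_, rfl⟩
  obtain ⟨a, ha⟩ : ∃ a : ℝ, a = (b + 1 / 2) / 2 := ⟨_, rfl⟩
  have hb0 : 0 < b := by linarith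
  have hba : b < a := by linarith
  have ha1 : a < 1 / 2 := by linarith
  obtain ⟨C₁, hC₁, hpri⟩ := hP h v δ b hδ0 hδ1 hHalf (by linarith)
  obtain ⟨K, D, C₂, hK, hD1, hdom⟩ := hD h γ η hγ0 hη0 (by linarith) hRS
  obtain ⟨δ₀, κ, C₃, hδ₀, hκ, hκ1, hrec⟩ := hR c₀ D K hc₀ hD1 hK
  obtain ⟨K', hK', hRS'⟩ := hRS κ δ₀ hκ hκ1 hδ₀
  obtain ⟨L₀, hL₀⟩ := eventually_atTop.1 hRS'
  obtain ⟨N₁, hN₁⟩ := eventually_atTop.1 hdom
  obtain ⟨C₄, hC₄, hvar⟩ := hW c₀ a hc₀ (by linarith) ha1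
  have hPs1 : ∀ n, 1 ≤ Ps ρ β h n := fun n => one_le_Ps32 h n
  -- the bound at a record
  obtain ⟨C₅, hC₅⟩ : ∃ C₅ : ℝ, C₅ = |C₂| + D * (C₁ * (L₀ : ℝ) ^ b) +
    |C₃| * (K' * (2 * K : ℝ) ^ (2 * γ) + 1) + 1 := ⟨_, rfl⟩
  have hDL : 0 ≤ D * (C₁ * (L₀ : ℝ) ^ b) := by positivity
  have hCK : 0 ≤ |C₃| * (K' * (2 * K : ℝ) ^ (2 * γ) + 1) := by positivity
  have hC₅0 : 1 ≤ C₅ := by
    have := abs_nonneg C₂
    linarith
  have hkey : ∀ n : ℕ, N₁ ≤ n → RRec (Ps ρ β h) n → Ps ρ β h n ≤ C₅ * (n : ℝ) ^ (2 * γ + η) := by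
    intro n hn hrr
    have hn1 : (1 : ℝ) ≤ n := by exact_mod_cast hrr.1
    have hp1 : 1 ≤ (n : ℝ) ^ (2 * γ + η) := Real.one_le_rpow hn1 (by linarith)
    have hp2 : (n : ℝ) ^ (2 * γ) ≤ (n : ℝ) ^ (2 * γ + η) :=
      Real.rpow_le_rpow_of_exponent_le hn1 (by linarith)
    have hp0 : 0 ≤ (n : ℝ) ^ (2 * γ + η) := by positivity
    rcases hN₁ n hn hrr with h1 | ⟨m, hm1, hm2, hm3⟩
    · refine h1.trans (mul_le_mul_of_nonneg_right ?_ hp0)
      have := le_abs_self C₂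
      linarith
    · by_cases hmL : m < L₀
      · have h2 : Fn ρ β h m ≤ C₁ * (L₀ : ℝ) ^ b := by
          refine (hpri m).2.trans (mul_le_mul_of_nonneg_left ?_ hC₁)
          exact Real.rpow_le_rpow (Nat.cast_nonneg m) (by exact_mod_cast hmL.le) hb0.le
        have h3 : Ps ρ β h n ≤ D * (C₁ * (L₀ : ℝ) ^ b) :=
          hm3.trans (mul_le_mul_of_nonneg_left h2 (by linarith))
        have h4 : D * (C₁ * (L₀ : ℝ) ^ b) ≤ D * (C₁ * (L₀ : ℝ) ^ b) * (n : ℝ) ^ (2 * γ + η) :=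
          le_mul_of_one_le_right hDL hp1
        refine h3.trans (h4.trans (mul_le_mul_of_nonneg_right ?_ hp0))
        have := abs_nonneg C₂
        linarith
      · push Not at hmL
        obtain ⟨M, hM⟩ : ∃ M : ℝ, M = K' * (2 * K * n : ℝ) ^ (2 * γ) := ⟨_, rfl⟩
        have hK1 : (1 : ℝ) ≤ K := by exact_mod_cast hK
        have hM0 : 0 < M := by
          rw [hM]
          positivity
        have h5 : ∀ L : ℕ, m ≤ L → L ≤ 2 * m → RS ρ β h L ⌊κ * L⌋₊ M δ₀ := by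
          intro L hL1 hL2
          refine RS_mono58 ?_ (hL₀ L (hmL.trans hL1))
          rw [hM]
          refine mul_le_mul_of_nonneg_left ?_ hK'.le
          refine Real.rpow_le_rpow (Nat.cast_nonneg L) ?_ (by linarith)
          have h6 : L ≤ 2 * K * n := hL2.trans (by nlinarith)
          exact_mod_cast h6
        have h7 := hrec h hloc n hrr m hm1 hm2 hm3 M hM0 h5
        have h8 : M = K' * (2 * K : ℝ) ^ (2 * γ) * (n : ℝ) ^ (2 * γ) := by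
          rw [hM, Real.mul_rpow (by positivity) (by positivity), mul_assoc]
        have h9 : M + 1 ≤ (K' * (2 * K : ℝ) ^ (2 * γ) + 1) * (n : ℝ) ^ (2 * γ + η) := by
          rw [h8, add_mul, one_mul]
          exact add_le_add (mul_le_mul_of_nonneg_left hp2 (by positivity)) hp1
        have h10 : C₃ * (M + 1) ≤ |C₃| * ((K' * (2 * K : ℝ) ^ (2 * γ) + 1) *
            (n : ℝ) ^ (2 * γ + η)) := by
          refine (mul_le_mul_of_nonneg_right (le_abs_self C₃) (by linarith)).trans ?_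
          exact mul_le_mul_of_nonneg_left h9 (abs_nonneg _)
        refine h7.trans (h10.trans ?_)
        rw [← mul_assoc]
        refine mul_le_mul_of_nonneg_right ?_ hp0
        have := abs_nonneg C₂
        linarith
  -- the threshold
  obtain ⟨w, hw⟩ : ∃ w : ℝ, w = x - (2 * γ + η) := ⟨_, rfl⟩
  have hw0 : 0 < w := by linarith
  have hlim := ((tendsto_rpow_atTop hw0).comp tendsto_natCast_atTop_atTop).eventually
    (eventually_ge_atTop (C₄ * (C₅ + 1 + 2 * C₁) ^ 2 + (C₅ + 1 + 2 * C₁) + 1))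
  obtain ⟨N₂, hN₂⟩ := eventually_atTop.1 hlim
  -- all the times
  have hPs2 := Ps_le58 h hb0 hC₁ hpri
  have hall : ∀ n : ℕ, 1 ≤ n → N₁ ≤ n → ∀ T : ℕ, n ≤ T →
      Ps ρ β h T ≤ ((C₅ + 1 + 2 * C₁) * (n : ℝ) ^ (2 * γ + η)) * ((T : ℝ) / n) ^ a := by
    intro n hn1 hN1 T hT
    have hn0 : (1 : ℝ) ≤ n := by exact_mod_cast hn1
    have hT0 : (n : ℝ) ≤ T := by exact_mod_cast hT
    have hTn1 : 1 ≤ (T : ℝ) / n := by rw [le_div_iff₀ (by linarith)]; linarith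
    have hCC : 0 ≤ C₅ + 1 + 2 * C₁ := by linarith
    have hq : 0 ≤ (n : ℝ) ^ (2 * γ + η) := by positivity
    rcases le_total (2 * γ + η) a with hya | hya
    · have h1 := allRec72' hb0 hba (by positivity : 0 ≤ 2 * C₁) hya hPs1 hPs2
        (fun k hk hrk => hkey k hk (RRa_RRec58 (by linarith : a ≤ 2 / 3)
          (fun n => by linarith [hPs1 n]) hrk)) hn1 hN1 hT
      refine h1.trans ?_
      have h2 : ((T : ℝ) / n) ^ (2 * γ + η) ≤ ((T : ℝ) / n) ^ a :=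
        Real.rpow_le_rpow_of_exponent_le hTn1 hya
      have h3 : C₅ * (n : ℝ) ^ (2 * γ + η) ≤ (C₅ + 1 + 2 * C₁) * (n : ℝ) ^ (2 * γ + η) :=
        mul_le_mul_of_nonneg_right (by linarith) hq
      exact mul_le_mul h3 h2 (by positivity) (by positivity)
    · -- the a priori bound is enough
      have h1 : (T : ℝ) ^ b ≤ (T : ℝ) ^ a :=
        Real.rpow_le_rpow_of_exponent_le (by linarith) hba.le
      have h2 : (1 : ℝ) ≤ (T : ℝ) ^ a := Real.one_le_rpow (by linarith) (by linarith)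
      have h3 : (T : ℝ) ^ a = (n : ℝ) ^ a * ((T : ℝ) / n) ^ a := by
        rw [← Real.mul_rpow (by linarith) (by positivity), mul_div_cancel₀ _ (by linarith)]
      have h4 : (n : ℝ) ^ a ≤ (n : ℝ) ^ (2 * γ + η) := Real.rpow_le_rpow_of_exponent_le hn0 hya
      have h5 : Ps ρ β h T ≤ (C₅ + 1 + 2 * C₁) * (T : ℝ) ^ a := by
        have h6 := hPs2 T
        have h7 : 2 * C₁ * (T : ℝ) ^ b ≤ 2 * C₁ * (T : ℝ) ^ a :=
          mul_le_mul_of_nonneg_left h1 (by positivity)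
        nlinarith
      refine h5.trans ?_
      rw [h3, ← mul_assoc]
      exact mul_le_mul_of_nonneg_right (mul_le_mul_of_nonneg_left h4 hCC) (by positivity)
  refine eventually_atTop.2 ⟨1 + N₁ + N₂, fun n hn => ?_⟩
  have hn1 : (1 : ℝ) ≤ n := by exact_mod_cast (show 1 ≤ n by omega)
  have hnpos : (0 : ℝ) < n := by linarith
  obtain ⟨P, hP⟩ : ∃ P : ℝ, P = (C₅ + 1 + 2 * C₁) * (n : ℝ) ^ (2 * γ + η) := ⟨_, rfl⟩
  have hrec' : ∀ T : ℕ, n ≤ T → Ps ρ β h T ≤ P * ((T : ℝ) / n) ^ a := by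
    rw [hP]
    exact hall n (by omega) (by omega)
  have hb1 : Ps ρ β h n ≤ P := by
    have h0 := hrec' n le_rfl
    rwa [div_self hnpos.ne', Real.one_rpow, mul_one] at h0
  have hP1 : 1 ≤ P := (hPs1 n).trans hb1
  have hb2 : C₄ * (C₅ + 1 + 2 * C₁) ^ 2 + (C₅ + 1 + 2 * C₁) + 1 ≤ (n : ℝ) ^ w :=
    hN₂ n (by omega)
  have hq0 : 0 ≤ (n : ℝ) ^ (2 * γ + η) := by positivity
  have hxw : (n : ℝ) ^ x = (n : ℝ) ^ w * (n : ℝ) ^ (2 * γ + η) := by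
    rw [← Real.rpow_add hnpos, hw]
    congr 1
    ring
  have hC45 : 0 ≤ C₄ * (C₅ + 1 + 2 * C₁) ^ 2 := by positivity
  have hCC : 0 ≤ C₅ + 1 + 2 * C₁ := by linarith
  constructor
  · have h3 := hvar h hloc n P (by omega) hP1 hrec' n le_rfl
    have h4 : (n : ℝ) ^ (2 * x) = ((n : ℝ) ^ x) ^ 2 := by
      rw [← Real.rpow_natCast, ← Real.rpow_mul hnpos.le]
      congr 1
      push_cast
      ring
    rw [h4, hxw, mul_pow]
    refine h3.trans ?_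
    rw [hP, mul_pow, ← mul_assoc]
    refine mul_le_mul_of_nonneg_right ?_ (sq_nonneg _)
    have h5 : 1 ≤ (n : ℝ) ^ w := by linarith
    have h6 : (n : ℝ) ^ w ≤ ((n : ℝ) ^ w) ^ 2 := by nlinarith
    linarith
  · have h1 := En_le_Ps32 (ρ := ρ) (β := β) h (le_refl n)
    rw [hxw]
    have h2 : P ≤ (n : ℝ) ^ w * (n : ℝ) ^ (2 * γ + η) := by
      rw [hP]
      exact mul_le_mul_of_nonneg_right (by linarith) hq0
    linarith

end Pool.Agent.W_7d29a1_KZ
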