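import Pool.Agent.W_7d29a1_KZ.PlugK70
import Pool.Agent.W_7d29a1_KZ.TrZ19
import Pool.Agent.W_7d29a1_KZ.Nvs20

/-!
Theorem KZ in the letters of the problem, no hypothesis left.
-/

namespace Pool.Agent.W_7d29a1_KZ

open MeasureTheory ProbabilityTheory Filter Topology Pool.Agent.W_MP_7d29a1_pr
  Pool.Agent.W_7d29a1_h46 Pool.Agent.W_7d29a1_h46u Pool.Agent.W_7d29a1_D2.B35
  Pool.Agent.W_7d29a1_Q29 Pool.Agent.W_7d29a1_R34 Pool.Agent.W_7d29a1_SP Pool.Agent.W_7d29a1_SD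
  Pool.Agent.W_7d29a1_SQ

variable {d : ℕ} {ρ : Measure ℝ} [IsProbabilityMeasure ρ] {β : ℝ}
  {Ω : Type*} [MeasurableSpace Ω] {μ : Measure Ω} [IsProbabilityMeasure μ]
  {ω : ℕ × Site d → Ω → ℝ}

/-- **THEOREM KZ**: at almost every velocity `v` and EVERY tilt `h`, `ν ≥ 1 / 2` and
`χ ≤ 2 ν - 1`, and for every `x > 2 ν - 1`, for all large `n`, the variance of `log Z_n` is at most
`n ^ (2 x)` and the nonrandom fluctuation lies between `0` and `n ^ x`. -/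
theorem finK70 (hd : 0 < d) (hω : IID μ ρ ω) (hρ : EM ρ) (hG : GC ρ) (hnc : ∀ c : ℝ, ρ {c} ≠ 1)
    (hβ : 0 < β) : ∀ᵐ v : Vec d, ∀ h : Vec d, 1 / 2 ≤ nuT μ β ω h v ∧
      chiT μ β ω h ≤ 2 * nuT μ β ω h v - 1 ∧ ∀ x : ℝ, 2 * nuT μ β ω h v - 1 < x →
        ∀ᶠ n : ℕ in atTop,
          Var[fun y => Real.log (Zn β h (fun p => ω p y) n); μ] ≤ (n : ℝ) ^ (2 * x) ∧
          0 ≤ n * lamN ρ β h - ∫ y, Real.log (Zn β h (fun p => ω p y) n) ∂μ ∧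
          n * lamN ρ β h - ∫ y, Real.log (Zn β h (fun p => ω p y) n) ∂μ ≤ (n : ℝ) ^ x :=
  trKA19 hd hω hρ (mainKAF70 hd hρ hG hβ) (nvsP20 hd hρ hnc hβ)

end Pool.Agent.W_7d29a1_KZ
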