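import Pool.Agent.W_7d29a1_Q29.Vsd61
import Pool.Agent.W_7d29a1_Q29.Qt98
import Pool.Agent.W_7d29a1_V.Rch48

/-!
The half moment of the partition function: when disorder is not very strong, the free energy is
within `C log n` of its annealed value with probability at least `n ^ (-C)`.
-/

namespace Pool.Agent.W_7d29a1_KZ.N20

open MeasureTheory ProbabilityTheory Filter Topology Pool.Agent.W_MP_7d29a1_pr
  Pool.Agent.W_7d29a1_h46 Pool.Agent.W_7d29a1_h46u Pool.Agent.W_7d29a1_D2.B35
  Pool.Agent.W_7d29a1_Q29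

variable {d : ℕ} {ρ : Measure ℝ} {β : ℝ}

/-- The half moment. -/
noncomputable def hm (ρ : Measure ℝ) (β : ℝ) (h : Vec d) (n : ℕ) : ℝ :=
  ∫ η, Real.sqrt (Z β h η n) ∂(law d ρ)

/-- The annealed free energy. -/
noncomputable def an (ρ : Measure ℝ) (β : ℝ) (h : Vec d) : ℝ :=
  Real.log (Phi h) + Real.log (∫ t, Real.exp (β * t) ∂ρ)

lemma sqrt_sum_le {ι : Type*} (s : Finset ι) {f : ι → ℝ} (hf : ∀ i, 0 ≤ f i) :
    Real.sqrt (∑ i ∈ s, f i) ≤ ∑ i ∈ s, Real.sqrt (f i) := by
  simp only [Real.sqrt_eq_rpow]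
  exact W_7d29a1_P89.rpow_sum_le s hf (by norm_num) (by norm_num)

lemma sum_sqrt_le {ι : Type*} (s : Finset ι) {f : ι → ℝ} (hf : ∀ i, 0 ≤ f i) :
    ∑ i ∈ s, Real.sqrt (f i) ≤ Real.sqrt s.card * Real.sqrt (∑ i ∈ s, f i) := by
  rw [← Real.sqrt_mul (Nat.cast_nonneg _)]
  refine Real.le_sqrt_of_sq_le ?_
  have h1 := sq_sum_le_card_mul_sum_sq (s := s) (f := fun i => Real.sqrt (f i))
  refine h1.trans (le_of_eq ?_)
  congr 1
  exact Finset.sum_congr rfl fun i _ => Real.sq_sqrt (hf i)

lemma sqrt_le_add {x : ℝ} (hx : 0 ≤ x) : Real.sqrt x ≤ x + 1 := by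
  have h1 := Real.sq_sqrt hx
  nlinarith [sq_nonneg (Real.sqrt x - 1), Real.sqrt_nonneg x]

variable [IsProbabilityMeasure ρ]

lemma int_sqrtZ (hd : 0 < d) (hρ : EM ρ) (h : Vec d) (n : ℕ) :
    Integrable (fun η => Real.sqrt (Z β h η n)) (law d ρ) := by
  refine ((annealed61 (d := d) hρ β h n).1.add (integrable_const 1)).mono'
    (Real.continuous_sqrt.measurable.comp (measurable_Z β h n)).aestronglyMeasurable
    (Eventually.of_forall fun η => ?_)
  rw [Real.norm_eq_abs, abs_of_nonneg (Real.sqrt_nonneg _)]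
  exact sqrt_le_add (Z_pos hd β h η n).le

lemma measurable_PP20 (β : ℝ) (h : Vec d) (t : ℕ) (y : Site d) :
    Measurable fun η : Env d => PP β h η t y := measurable_ZT β h _

lemma int_sqrtPP (hd : 0 < d) (hρ : EM ρ) (h : Vec d) (n : ℕ) (y : Site d) :
    Integrable (fun η => Real.sqrt (PP β h η n y)) (law d ρ) := by
  refine (int_sqrtZ (β := β) hd hρ h n).mono'
    (Real.continuous_sqrt.measurable.comp (measurable_PP20 β h n y)).aestronglyMeasurable
    (Eventually.of_forall fun η => ?_)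
  rw [Real.norm_eq_abs, abs_of_nonneg (Real.sqrt_nonneg _)]
  exact Real.sqrt_le_sqrt (PP_le_Z β h η n y)

lemma hm_add (hd : 0 < d) (hρ : EM ρ) (h : Vec d) (n k : ℕ) :
    hm ρ β h (n + k) ≤ Real.sqrt (boxF d n).card * hm ρ β h n * hm ρ β h k := by
  have hk0 : 0 ≤ hm ρ β h k := integral_nonneg fun η => Real.sqrt_nonneg _
  have h1 : ∀ η : Env d, Real.sqrt (Z β h η (n + k)) ≤
      ∑ y ∈ boxF d n, Real.sqrt (PP β h η n y) * Real.sqrt (Z β h (sh n y η) k) := by
    intro η
    rw [W_7d29a1_V.R48.Z_add_PP]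
    refine (sqrt_sum_le _ fun y => mul_nonneg (PP_nonneg β h η n y)
      (Z_pos hd β h (sh n y η) k).le).trans (le_of_eq ?_)
    exact Finset.sum_congr rfl fun y _ => Real.sqrt_mul (PP_nonneg β h η n y) _
  have mZ : Measurable fun η : Env d => Real.sqrt (Z β h η k) :=
    Real.continuous_sqrt.measurable.comp (measurable_Z β h k)
  have mP : ∀ y : Site d, Measurable fun η : Env d => Real.sqrt (PP β h η n y) := fun y =>
    Real.continuous_sqrt.measurable.comp (measurable_PP20 β h n y)
  have h2 : ∀ y : Site d,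
      ∫ η, Real.sqrt (PP β h η n y) * Real.sqrt (Z β h (sh n y η) k) ∂(law d ρ) =
      (∫ η, Real.sqrt (PP β h η n y) ∂(law d ρ)) * hm ρ β h k := by
    intro y
    have e1 := integral_indep (ρ := ρ) (Pa d n) (F := fun η : Env d => Real.sqrt (PP β h η n y))
      (G := fun η : Env d => Real.sqrt (Z β h (sh n y η) k)) (mP y)
      (mZ.comp (measurable_sh n y))
      (fun η η' hη => congrArg Real.sqrt (S98.PP_dep β h n y hη))
      (fun η η' hη => congrArg Real.sqrt (S98.Zsh_dep β h n k y hη))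
    rw [e1]
    congr 1
    exact integral_sh n y mZ
  have h3 : ∀ y : Site d, Integrable (fun η =>
      Real.sqrt (PP β h η n y) * Real.sqrt (Z β h (sh n y η) k)) (law d ρ) := by
    intro y
    refine ((annealed61 (d := d) hρ β h (n + k)).1.add (integrable_const 1)).mono'
      ((mP y).mul (mZ.comp (measurable_sh n y))).aestronglyMeasurable
      (Eventually.of_forall fun η => ?_)
    rw [Real.norm_eq_abs, abs_of_nonneg (mul_nonneg (Real.sqrt_nonneg _) (Real.sqrt_nonneg _)),
      ← Real.sqrt_mul (PP_nonneg β h η n y)]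
    refine (Real.sqrt_le_sqrt (PP_chainZ β h η n k y)).trans ?_
    exact sqrt_le_add (Z_pos hd β h η (n + k)).le
  calc hm ρ β h (n + k)
      ≤ ∫ η, ∑ y ∈ boxF d n, Real.sqrt (PP β h η n y) * Real.sqrt (Z β h (sh n y η) k)
          ∂(law d ρ) :=
        integral_mono (int_sqrtZ hd hρ h (n + k)) (integrable_finsetSum _ fun y _ => h3 y) h1
    _ = ∑ y ∈ boxF d n, (∫ η, Real.sqrt (PP β h η n y) ∂(law d ρ)) * hm ρ β h k := by
        rw [integral_finsetSum _ fun y _ => h3 y]
        exact Finset.sum_congr rfl fun y _ => h2 y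
    _ = (∫ η, ∑ y ∈ boxF d n, Real.sqrt (PP β h η n y) ∂(law d ρ)) * hm ρ β h k := by
        rw [← Finset.sum_mul, integral_finsetSum _ fun y _ => int_sqrtPP hd hρ h n y]
    _ ≤ (Real.sqrt (boxF d n).card * hm ρ β h n) * hm ρ β h k := by
        refine mul_le_mul_of_nonneg_right ?_ hk0
        unfold hm
        rw [← integral_const_mul]
        refine integral_mono (integrable_finsetSum _ fun y _ => int_sqrtPP hd hρ h n y)
          ((int_sqrtZ hd hρ h n).const_mul _) fun η => ?_
        show ∑ y ∈ boxF d n, Real.sqrt (PP β h η n y) ≤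
          Real.sqrt (boxF d n).card * Real.sqrt (Z β h η n)
        rw [Z_eq_sum]
        exact sum_sqrt_le _ fun y => PP_nonneg β h η n y

lemma hm_zero (h : Vec d) : hm ρ β h 0 = 1 := by
  unfold hm
  simp only [Z_zero, Real.sqrt_one]
  rw [integral_const, probReal_univ, one_smul]

lemma hm_mul (hd : 0 < d) (hρ : EM ρ) (h : Vec d) (n j : ℕ) :
    hm ρ β h (j * n) ≤ (Real.sqrt (boxF d n).card * hm ρ β h n) ^ j := by
  have h0 : 0 ≤ hm ρ β h n := integral_nonneg fun η => Real.sqrt_nonneg _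
  induction j with
  | zero => rw [Nat.zero_mul, hm_zero, pow_zero]
  | succ j ih =>
    have h1 : (j + 1) * n = n + j * n := by ring
    rw [h1, pow_succ']
    exact (hm_add hd hρ h n (j * n)).trans (mul_le_mul_of_nonneg_left ih
      (mul_nonneg (Real.sqrt_nonneg _) h0))

lemma exp_A_le (hd : 0 < d) (hρ : EM ρ) (h : Vec d) (n : ℕ) :
    Real.exp (A ρ β h n / 2) ≤ hm ρ β h n := by
  have hX := (concU hd hρ β h n).1
  have h1 : ∀ η : Env d, Real.exp (A ρ β h n / 2) * (1 + X β h η n / 2 - A ρ β h n / 2) ≤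
      Real.sqrt (Z β h η n) := by
    intro η
    refine (Subg_tan (A ρ β h n / 2) (X β h η n / 2)).trans (le_of_eq ?_)
    unfold X
    rw [Real.exp_half, Real.exp_log (Z_pos hd β h η n)]
  have i0 : Integrable (fun η : Env d => 1 + X β h η n / 2) (law d ρ) :=
    (integrable_const 1).add (hX.div_const 2)
  have i1 : Integrable (fun η : Env d => 1 + X β h η n / 2 - A ρ β h n / 2) (law d ρ) :=
    i0.sub (integrable_const _)
  have h2 := integral_mono (i1.const_mul (Real.exp (A ρ β h n / 2))) (int_sqrtZ hd hρ h n) h1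
  rw [integral_const_mul] at h2
  have h3 : ∫ η : Env d, (1 + X β h η n / 2 - A ρ β h n / 2) ∂(law d ρ) = 1 := by
    rw [integral_sub i0 (integrable_const _),
      integral_add (integrable_const 1) (hX.div_const 2), integral_div]
    simp only [integral_const, probReal_univ, one_smul]
    unfold A
    ring
  rw [h3, mul_one] at h2
  exact h2

/-- The fractional moment inequality at every length. -/
theorem lam_hm (hd : 0 < d) (hρ : EM ρ) (h : Vec d) (n : ℕ) :
    Real.exp (n * lam ρ β h / 2) ≤ Real.sqrt (boxF d n).card * hm ρ β h n := by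
  rcases Nat.eq_zero_or_pos n with rfl | hn
  · rw [hm_zero, mul_one, Nat.cast_zero, zero_mul, zero_div, Real.exp_zero, Real.one_le_sqrt]
    rw [card_boxF]
    norm_num
  have hn' : (0 : ℝ) < n := by exact_mod_cast hn
  obtain ⟨s, hs⟩ : ∃ s : ℝ, s = Real.sqrt (boxF d n).card * hm ρ β h n := ⟨_, rfl⟩
  have hs0 : 0 < s := by
    rw [hs]
    refine mul_pos (Real.sqrt_pos.2 ?_) (lt_of_lt_of_le (Real.exp_pos _) (exp_A_le hd hρ h n))
    rw [card_boxF]
    positivity
  rw [← hs]
  have h1 : ∀ j : ℕ, A ρ β h (j * n) ≤ 2 * j * Real.log s := by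
    intro j
    have h2 := (exp_A_le (β := β) hd hρ h (j * n)).trans (hm_mul hd hρ h n j)
    rw [← hs] at h2
    have h3 := Real.log_le_log (Real.exp_pos _) h2
    rw [Real.log_exp, Real.log_pow] at h3
    linarith
  have h2 : Tendsto (fun j : ℕ => A ρ β h (j * n) / ((j * n : ℕ) : ℝ)) atTop
      (𝓝 (lam ρ β h)) :=
    (tendsto_A hd hρ β h).comp (tendsto_id.atTop_mul_const' hn)
  have h3 : lam ρ β h ≤ 2 * Real.log s / n := by
    refine le_of_tendsto h2 ((eventually_gt_atTop 0).mono fun j hj => ?_)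
    have hj' : (0 : ℝ) < j := by exact_mod_cast hj
    have h4 := h1 j
    push_cast
    rw [div_le_div_iff₀ (by positivity) hn']
    nlinarith
  rw [le_div_iff₀ hn'] at h3
  calc Real.exp (n * lam ρ β h / 2) ≤ Real.exp (Real.log s) := by
        apply Real.exp_le_exp.2
        linarith
    _ = s := Real.exp_log hs0

lemma an_exp (hd : 0 < d) (hρ : EM ρ) (h : Vec d) (n : ℕ) :
    ∫ η, Z β h η n ∂(law d ρ) = Real.exp (n * an ρ β h) := by
  have hm0 : 0 < ∫ t, Real.exp (β * t) ∂ρ := integral_exp_pos (hρ β)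
  rw [(annealed61 (d := d) hρ β h n).2]
  unfold an
  rw [← Real.log_mul (Phi_pos61 hd h).ne' hm0.ne', ← Real.log_pow, Real.exp_log]
  exact pow_pos (mul_pos (Phi_pos61 hd h) hm0) n

/-- The annealed upper tail. -/
lemma mark20 (hd : 0 < d) (hρ : EM ρ) (h : Vec d) (n : ℕ) (x : ℝ) :
    (law d ρ).real {η | n * an ρ β h + x ≤ X β h η n} ≤ Real.exp (-x) := by
  have h1 := mul_meas_ge_le_integral_of_nonneg
    (Eventually.of_forall fun η : Env d => (Z_pos hd β h η n).le)
    (annealed61 (d := d) hρ β h n).1 (Real.exp (n * an ρ β h + x))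
  rw [an_exp hd hρ h n] at h1
  have h2 : {η : Env d | Real.exp (n * an ρ β h + x) ≤ Z β h η n} =
      {η | n * an ρ β h + x ≤ X β h η n} := by
    ext η
    show Real.exp (n * an ρ β h + x) ≤ Z β h η n ↔ n * an ρ β h + x ≤ Real.log (Z β h η n)
    exact (Real.le_log_iff_exp_le (Z_pos hd β h η n)).symm
  rw [h2, Real.exp_add, mul_assoc] at h1
  have h3 : Real.exp (n * an ρ β h) * (Real.exp x *
      (law d ρ).real {η | n * an ρ β h + x ≤ X β h η n}) ≤ Real.exp (n * an ρ β h) * 1 := by
    rw [mul_one]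
    exact h1
  have h4 := le_of_mul_le_mul_left h3 (Real.exp_pos _)
  rw [Real.exp_neg, ← one_div, le_div_iff₀ (Real.exp_pos x)]
  linarith

/-- When disorder is not very strong: a polynomially small probability. -/
theorem prob20 (hd : 0 < d) (hρ : EM ρ) (h : Vec d) (hv : ¬ VSD ρ β h) (n : ℕ) :
    1 / (4 * ((boxF d n).card : ℝ)) ≤ (law d ρ).real
      {η | n * an ρ β h - Real.log (4 * ((boxF d n).card : ℝ)) < X β h η n} := by
  obtain ⟨b, hb⟩ : ∃ b : ℝ, b = ((boxF d n).card : ℝ) := ⟨_, rfl⟩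
  have hb0 : 0 < b := by
    rw [hb, card_boxF]
    positivity
  have hla : an ρ β h ≤ lam ρ β h := not_lt.1 hv
  have h1 := lam_hm (β := β) hd hρ h n
  rw [← hb] at h1 ⊢
  obtain ⟨e, he⟩ : ∃ e : ℝ, e = Real.exp (n * an ρ β h / 2) := ⟨_, rfl⟩
  have he0 : 0 < e := by rw [he]; exact Real.exp_pos _
  have hee : e * e = Real.exp (n * an ρ β h) := by
    rw [he, ← Real.exp_add]
    congr 1
    ring
  obtain ⟨r, hr⟩ : ∃ r : ℝ, r = Real.sqrt b := ⟨_, rfl⟩
  have hr0 : 0 < r := by rw [hr]; exact Real.sqrt_pos.2 hb0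
  have hrr : r * r = b := by rw [hr]; exact Real.mul_self_sqrt hb0.le
  have h2 : e ≤ r * hm ρ β h n := by
    rw [he, hr]
    refine le_trans (Real.exp_le_exp.2 ?_) h1
    have := mul_le_mul_of_nonneg_left hla (Nat.cast_nonneg n : (0 : ℝ) ≤ (n : ℝ))
    linarith
  set S : Set (Env d) := {η | n * an ρ β h - Real.log (4 * b) < X β h η n} with hS
  have mS : MeasurableSet S := measurableSet_lt measurable_const (measurable_X β h n)
  obtain ⟨P, hP⟩ : ∃ P : ℝ, P = (law d ρ).real S := ⟨_, rfl⟩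
  rw [← hP]
  have h3 : ∀ η : Env d, Real.sqrt (Z β h η n) ≤
      e / (2 * r) + S.indicator (fun _ => r * e) η + 1 / (4 * r * e) * Z β h η n := by
    intro η
    have hz := Z_pos hd β h η n
    have hz1 := Real.mul_self_sqrt hz.le
    have hz2 := Real.sqrt_nonneg (Z β h η n)
    by_cases hη : η ∈ S
    · rw [Set.indicator_of_mem hη]
      have h4 : Real.sqrt (Z β h η n) ≤ r * e + 1 / (4 * r * e) * Z β h η n := by
        have h5 : 0 < r * e := mul_pos hr0 he0
        have h6 : r * e + 1 / (4 * r * e) * Z β h η n - Real.sqrt (Z β h η n) =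
            (2 * (r * e) - Real.sqrt (Z β h η n)) ^ 2 / (4 * (r * e)) := by
          field_simp
          nlinarith
        have h7 : 0 ≤ (2 * (r * e) - Real.sqrt (Z β h η n)) ^ 2 / (4 * (r * e)) := by
          positivity
        linarith
      have h8 : 0 ≤ e / (2 * r) := by positivity
      linarith
    · rw [Set.indicator_of_notMem hη]
      have h4 : X β h η n ≤ n * an ρ β h - Real.log (4 * b) := not_lt.1 hη
      have h5 : Z β h η n ≤ e * e / (4 * b) := by
        have h6 : Z β h η n = Real.exp (X β h η n) := by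
          unfold X
          rw [Real.exp_log hz]
        rw [h6]
        refine (Real.exp_le_exp.2 h4).trans (le_of_eq ?_)
        rw [Real.exp_sub, Real.exp_log (by positivity), hee]
      have h6 : Real.sqrt (Z β h η n) ≤ e / (2 * r) := by
        refine Real.sqrt_le_iff.2 ⟨by positivity, h5.trans (le_of_eq ?_)⟩
        rw [div_pow, mul_pow, sq, sq r, hrr]
        norm_num
      have h7 : 0 ≤ 1 / (4 * r * e) * Z β h η n := by positivity
      linarith
  have iS : Integrable (S.indicator fun _ : Env d => r * e) (law d ρ) :=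
    (integrable_const _).indicator mS
  have iZ := (annealed61 (d := d) hρ β h n).1
  have iT : Integrable (fun η : Env d => e / (2 * r) + S.indicator (fun _ => r * e) η)
      (law d ρ) := (integrable_const (e / (2 * r))).add iS
  have h4 := integral_mono (int_sqrtZ (β := β) hd hρ h n)
    (iT.add (iZ.const_mul (1 / (4 * r * e)))) h3
  have h5 : ∫ η, (e / (2 * r) + S.indicator (fun _ => r * e) η +
      1 / (4 * r * e) * Z β h η n) ∂(law d ρ) =
      e / (2 * r) + P * (r * e) + 1 / (4 * r * e) * (e * e) := by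
    rw [integral_add iT (iZ.const_mul _),
      integral_add (integrable_const _) iS, integral_const_mul, an_exp hd hρ h n, hee,
      integral_indicator_const _ mS, integral_const, probReal_univ, one_smul, hP, smul_eq_mul]
  have h6 : hm ρ β h n ≤ e / (2 * r) + P * (r * e) + 1 / (4 * r * e) * (e * e) := by
    rw [← h5]
    exact h4
  have h7 : r * (e / (2 * r) + P * (r * e) + 1 / (4 * r * e) * (e * e)) =
      e * (3 / 4 + P * b) := by
    rw [← hrr]
    field_simp
    ring
  have h8 : e ≤ e * (3 / 4 + P * b) := by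
    rw [← h7]
    exact h2.trans (mul_le_mul_of_nonneg_left h6 hr0.le)
  have h9 : (1 : ℝ) ≤ 3 / 4 + P * b := by
    have h10 : e * 1 ≤ e * (3 / 4 + P * b) := by rw [mul_one]; exact h8
    exact le_of_mul_le_mul_left h10 he0
  rw [div_le_iff₀ (by positivity)]
  linarith

end Pool.Agent.W_7d29a1_KZ.N20
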