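import Pool.Agent.W_7d29a1_KZ.KzAll5
import Pool.Agent.W_7d29a1_KZ.All27
import Pool.Agent.W_7d29a1_KZ.VarN41

/-!
Theorem KZ for every law with exponential moments, at all lengths, with constants.
-/

namespace Pool.Agent.W_7d29a1_KZ

open MeasureTheory ProbabilityTheory Filter Topology Pool.Agent.W_MP_7d29a1_pr
  Pool.Agent.W_7d29a1_h46 Pool.Agent.W_7d29a1_h46u Pool.Agent.W_7d29a1_D2.B35
  Pool.Agent.W_7d29a1_Q29 Pool.Agent.W_7d29a1_R34 Pool.Agent.W_7d29a1_SP Pool.Agent.W_7d29a1_SD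
  Pool.Agent.W_7d29a1_SQ

variable {d : ℕ} {ρ : Measure ℝ} {β : ℝ}

/-- The variance of a length from the running maxima, for every law. -/
lemma varU86 (hV : VarF d ρ β) {c₀ : ℝ} (hc₀ : 0 < c₀) {h : Vec d} (hloc : Loc1 ρ β h c₀)
    {y B : ℝ} (hy : 0 < y) (hy2 : y < 1 / 2) (hB : 1 ≤ B)
    (hPs : ∀ T : ℕ, 1 ≤ T → Ps ρ β h T ≤ B * (T : ℝ) ^ y) :
    ∃ C : ℝ, ∀ m : ℕ, 1 ≤ m → Va ρ β h m ≤ C * (m : ℝ) ^ (2 * y) := by
  obtain ⟨C, hC1, hvar⟩ := hV c₀ y hc₀ hy hy2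
  refine ⟨C * B ^ 2, fun m hm => ?_⟩
  have hm1 : (1 : ℝ) ≤ m := by exact_mod_cast hm
  have hm0 : (0 : ℝ) < m := by linarith
  have h1 : 1 ≤ (m : ℝ) ^ y := Real.one_le_rpow hm1 hy.le
  have h2 := hvar h hloc m (B * (m : ℝ) ^ y) hm (by nlinarith) (fun T hT => ?_) m le_rfl
  · refine h2.trans (le_of_eq ?_)
    have h3 : ((m : ℝ) ^ y) ^ 2 = (m : ℝ) ^ (2 * y) := by
      rw [← Real.rpow_natCast, ← Real.rpow_mul hm0.le]
      congr 1
      push_cast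
      ring
    rw [mul_pow, h3]
    ring
  · refine (hPs T (hm.trans hT)).trans (le_of_eq ?_)
    have hT0 : (0 : ℝ) ≤ T := Nat.cast_nonneg T
    rw [Real.div_rpow hT0 hm0.le]
    have : (m : ℝ) ^ y ≠ 0 := (Real.rpow_pos_of_pos hm0 y).ne'
    field_simp

/-- From the running maxima to the two fluctuations, for every law. -/
theorem mainKCsU86 [IsProbabilityMeasure ρ] (hd : 0 < d) (hρ : EM ρ)
    (hK : PsKC d ρ β) (hV : VarF d ρ β)
    (hLoc : ∀ h : Vec d, VSD ρ β h → ∃ c₀ : ℝ, 0 < c₀ ∧ Loc1 ρ β h c₀) : MainKC d ρ β := by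
  filter_upwards [hK] with v hv h hVS δ hδ hδ2 hH x hx
  obtain ⟨c₀, hc₀, hloc⟩ := hLoc h hVS
  rcases lt_or_ge x (1 / 2) with hx2 | hx2
  · set y : ℝ := (2 * δ + x) / 2 with hy
    have hy1 : 2 * δ < y := by
      rw [hy]
      linarith
    have hyx : y < x := by
      rw [hy]
      linarith
    obtain ⟨B₀, hB₀, hB'⟩ := hv h hVS δ hδ hδ2 hH y hy1
    have hB1 : 1 ≤ B₀ + 1 := by linarith
    have hB : ∀ T : ℕ, 1 ≤ T → Ps ρ β h T ≤ (B₀ + 1) * (T : ℝ) ^ y := fun T hT =>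
      (hB' T hT).trans (mul_le_mul_of_nonneg_right (by linarith) (by positivity))
    obtain ⟨C₃, hVa⟩ := varU86 hV hc₀ hloc (by linarith) (by linarith) hB1 hB
    refine ⟨max (B₀ + 1) |C₃|, le_max_of_le_left (by linarith), fun n hn => ?_⟩
    have hn1 : (1 : ℝ) ≤ n := by exact_mod_cast hn
    have hyx2 : (n : ℝ) ^ y ≤ (n : ℝ) ^ x := Real.rpow_le_rpow_of_exponent_le hn1 hyx.le
    have h2y : (n : ℝ) ^ (2 * y) ≤ (n : ℝ) ^ (2 * x) :=
      Real.rpow_le_rpow_of_exponent_le hn1 (by linarith)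
    have h5 := hB n hn
    have h6 : (B₀ + 1) * (n : ℝ) ^ y ≤ max (B₀ + 1) |C₃| * (n : ℝ) ^ x :=
      mul_le_mul (le_max_left _ _) hyx2 (by positivity) (by positivity)
    refine ⟨?_, ?_, ?_⟩
    · calc Va ρ β h n ≤ C₃ * (n : ℝ) ^ (2 * y) := hVa n hn
        _ ≤ |C₃| * (n : ℝ) ^ (2 * y) :=
          mul_le_mul_of_nonneg_right (le_abs_self _) (by positivity)
        _ ≤ max (B₀ + 1) |C₃| * (n : ℝ) ^ (2 * x) :=
          mul_le_mul (le_max_right _ _) h2y (by positivity) (by positivity)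
    · have := En_le_Ps32 (ρ := ρ) (β := β) h (le_refl n)
      linarith
    · have := Fn_le_Ps32 (ρ := ρ) (β := β) h (le_refl n)
      linarith
  · obtain ⟨B, hB0, hB⟩ := hv h hVS δ hδ hδ2 hH x hx
    obtain ⟨C₂, hC₂, hmom⟩ := momU hd hρ β 2
    refine ⟨max B C₂, le_max_of_le_left hB0, fun n hn => ?_⟩
    have hn1 : (1 : ℝ) ≤ n := by exact_mod_cast hn
    have h5 := hB n hn
    have h6 : B * (n : ℝ) ^ x ≤ max B C₂ * (n : ℝ) ^ x :=
      mul_le_mul_of_nonneg_right (le_max_left _ _) (by positivity)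
    have hEn := En_le_Ps32 (ρ := ρ) (β := β) h (le_refl n)
    have hFn := Fn_le_Ps32 (ρ := ρ) (β := β) h (le_refl n)
    refine ⟨?_, by linarith, by linarith⟩
    have h7 := (hmom h n hn).2
    have h8 : ∫ η, |X β h η n - A ρ β h n| ^ 2 ∂(law d ρ) = Va ρ β h n := by
      unfold Va
      exact integral_congr_ae (Eventually.of_forall fun w => by
        simp only
        exact sq_abs _)
    rw [h8] at h7
    have h9 : (n : ℝ) ^ ((1 / 2 : ℝ) * ((2 : ℕ) : ℝ)) ≤ (n : ℝ) ^ (2 * x) :=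
      Real.rpow_le_rpow_of_exponent_le hn1 (by
        push_cast
        linarith)
    exact h7.trans (mul_le_mul (le_max_right _ _) h9 (by positivity) (le_max_of_le_left hB0))

/-- The running maxima of the two fluctuations at all lengths, for every law. -/
theorem psKCU86 [IsProbabilityMeasure ρ] (hd : 0 < d) (hρ : EM ρ) (hnc : ∀ c : ℝ, ρ {c} ≠ 1)
    (hβ : 0 < β) : PsKC d ρ β :=
  psKC27 (selK70 hd hρ (pairS6 hd β)) (domKAll5 hd hρ hnc hβ)
    (recKAll5 hd hρ hnc hβ) (P74.priK74 hd hρ β) fun _ hV =>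
      Pool.Agent.W_7d29a1_UN.loc1N hd hρ hV

/-- **THEOREM KZ** at all lengths, with constants, for every law. -/
theorem mainKCU86 [IsProbabilityMeasure ρ] (hd : 0 < d) (hρ : EM ρ) (hnc : ∀ c : ℝ, ρ {c} ≠ 1)
    (hβ : 0 < β) : MainKC d ρ β :=
  mainKCsU86 hd hρ (psKCU86 hd hρ hnc hβ) (varFAll5 hd hρ hnc hβ) fun _ hV =>
    Pool.Agent.W_7d29a1_UN.loc1N hd hρ hV

end Pool.Agent.W_7d29a1_KZ
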