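import Pool.Agent.W_7d29a1_KZ.DefsZ70
import Pool.Agent.W_7d29a1_SQ.Top32

/-!
Theorem KZ from its leaves (helper6).
-/

set_option autoImplicit false

namespace Pool.Agent.W_7d29a1_KZ

open MeasureTheory ProbabilityTheory Filter Topology Pool.Agent.W_MP_7d29a1_pr
  Pool.Agent.W_7d29a1_h46 Pool.Agent.W_7d29a1_h46u Pool.Agent.W_7d29a1_D2.B35
  Pool.Agent.W_7d29a1_Q29 Pool.Agent.W_7d29a1_R34 Pool.Agent.W_7d29a1_SP Pool.Agent.W_7d29a1_SD
  Pool.Agent.W_7d29a1_SQ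

namespace K6

variable {d : ℕ} {ρ : Measure ℝ} [IsProbabilityMeasure ρ] {β : ℝ}

/-- A right record with a small exponent is a right record. -/
lemma rrec {a : ℝ} (ha : a ≤ 2 / 3) {f : ℕ → ℝ} (h1 : ∀ n, 1 ≤ f n) {n : ℕ} (h : RRa a f n) :
    RRec f n := by
  refine ⟨h.1, fun T hT => (h.2 T hT).trans ?_⟩
  have hn : (0 : ℝ) < n := by exact_mod_cast h.1
  have hT' : (n : ℝ) ≤ T := by exact_mod_cast hT
  have h2 : (1 : ℝ) ≤ (T : ℝ) / n := by
    rw [le_div_iff₀ hn]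
    linarith
  exact mul_le_mul_of_nonneg_left (Real.rpow_le_rpow_of_exponent_le h2 ha)
    (by linarith [h1 n])

/-- The resampling bound is monotone. -/
lemma rs_mono6 {h : Vec d} {n p : ℕ} {M M' δ : ℝ} (hM : M ≤ M') (H : RS ρ β h n p M δ) :
    RS ρ β h n p M' δ := by
  unfold RS at H ⊢
  exact le_trans (measureReal_mono fun w hw => lt_of_le_of_lt hM hw) H

/-- The bound of `Ps` from the bounds of the fluctuations. -/
lemma Ps_le6 (h : Vec d) {C b : ℝ} (hC : 0 ≤ C) (hb : 0 ≤ b)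
    (hP : ∀ n : ℕ, En ρ β h n ≤ C * (n : ℝ) ^ b ∧ Fn ρ β h n ≤ C * (n : ℝ) ^ b) (n : ℕ) :
    Ps ρ β h n ≤ 1 + 2 * C * (n : ℝ) ^ b := by
  have hk : ∀ k ∈ Finset.range (n + 1), C * (k : ℝ) ^ b ≤ C * (n : ℝ) ^ b := by
    intro k hk
    have hkn : (k : ℝ) ≤ n := by
      have := Finset.mem_range.1 hk
      exact_mod_cast (by omega : k ≤ n)
    exact mul_le_mul_of_nonneg_left (Real.rpow_le_rpow (by positivity) hkn hb) hC
  unfold Ps
  have h1 : (Finset.range (n + 1)).sup' ⟨0, by simp⟩ (En ρ β h) ≤ C * (n : ℝ) ^ b :=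
    Finset.sup'_le _ _ fun k hk' => (hP k).1.trans (hk k hk')
  have h2 : (Finset.range (n + 1)).sup' ⟨0, by simp⟩ (Fn ρ β h) ≤ C * (n : ℝ) ^ b :=
    Finset.sup'_le _ _ fun k hk' => (hP k).2.trans (hk k hk')
  linarith

/-- Numbers: a constant times a smaller power is at most a larger power. -/
lemma num6 {C y x : ℝ} (hyx : y < x) : ∀ᶠ n : ℕ in atTop, C * (n : ℝ) ^ y ≤ (n : ℝ) ^ x := by
  have h1 : Tendsto (fun n : ℕ => (n : ℝ) ^ (x - y)) atTop atTop :=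
    (tendsto_rpow_atTop (by linarith)).comp tendsto_natCast_atTop_atTop
  filter_upwards [h1.eventually_ge_atTop C, eventually_gt_atTop 0] with n hn hn0
  have hn0' : (0 : ℝ) < n := by exact_mod_cast hn0
  have h2 : (n : ℝ) ^ x = (n : ℝ) ^ (x - y) * (n : ℝ) ^ y := by
    rw [← Real.rpow_add hn0']
    congr 1
    ring
  rw [h2]
  exact mul_le_mul_of_nonneg_right hn (by positivity)

end K6

open K6 in
/-- **THEOREM KZ from its leaves.** -/
theorem mainKZ6 {d : ℕ} {ρ : Measure ℝ} [IsProbabilityMeasure ρ] {β : ℝ} (hL : LocE d ρ β)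
    (hS : SelK d ρ β) (hD : DomK d ρ β) (hR : RecK d ρ β) (hV : VarK d ρ β) (hP : PriK d ρ β)
    (hRr : RraP) : MainKZ d ρ β := by
  filter_upwards [hS] with v hv
  intro h hvsd δ hδ0 hδ1 hHalf x hx
  -- the gap and the localisation
  obtain ⟨c₀, hc₀, hLoc⟩ := hL (Real.log (Phi h) + Real.log (∫ t, Real.exp (β * t) ∂ρ) -
    lam ρ β h) (by
      have : lam ρ β h < Real.log (Phi h) + Real.log (∫ t, Real.exp (β * t) ∂ρ) := hvsd
      linarith)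
  have hloc : Loc1 ρ β h c₀ := hLoc h (by linarith)
  -- the exponents
  obtain ⟨y, hyd⟩ : ∃ y : ℝ, y = min x 1 := ⟨_, rfl⟩
  have hyx : y ≤ x := hyd ▸ min_le_left _ _
  have hy1 : y ≤ 1 := hyd ▸ min_le_right _ _
  have hyδ : 2 * δ < y := by
    rw [hyd]
    exact lt_min hx (by linarith)
  obtain ⟨γ, hγ⟩ : ∃ γ : ℝ, γ = δ / 2 + y / 4 := ⟨_, rfl⟩
  obtain ⟨η, hη⟩ : ∃ η : ℝ, η = (y - 2 * γ) / 2 := ⟨_, rfl⟩
  have hγδ : δ < γ := by linarith
  have hγ1 : γ < 1 / 2 := by linarith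
  have hγ0 : 0 ≤ γ := by linarith
  have hη0 : 0 < η := by linarith
  have hz : 2 * γ + η < y := by linarith
  obtain ⟨b, hb⟩ : ∃ b : ℝ, b = ((1 / 2 + δ) / 2 + 1 / 2) / 2 := ⟨_, rfl⟩
  obtain ⟨a, ha⟩ : ∃ a : ℝ, a = (b + 1 / 2) / 2 := ⟨_, rfl⟩
  have hb1 : (1 / 2 + δ) / 2 < b := by linarith
  have hb2 : b < 1 / 2 := by linarith
  have hba : b < a := by linarith
  have ha2 : a < 1 / 2 := by linarith
  have hb0 : 0 < b := by linarith
  have ha0 : 0 < a := by linarith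
  -- the leaves
  have hRS : RSa ρ β h γ := hv h δ γ hδ0 hγδ hγ1 hHalf
  obtain ⟨K, D, C, hK1, hD1, hDom⟩ := hD h γ η hγ0 hη0 (by linarith) hRS
  obtain ⟨δ₀, κ, C₁, hδ₀, hκ, hκ1, hRec⟩ := hR c₀ D K hc₀ hD1 hK1
  obtain ⟨K', hK', hRS'⟩ := hRS κ δ₀ hκ hκ1 hδ₀
  obtain ⟨L₀, hL₀⟩ := eventually_atTop.1 hRS'
  obtain ⟨C₂, hC₂, hVar⟩ := hV c₀ a hc₀ ha0 ha2
  obtain ⟨C₃, hC₃, hPri⟩ := hP h v δ b hδ0 hδ1 hHalf hb1
  have hP1 : ∀ n, 1 ≤ Ps ρ β h n := one_le_Ps32 h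
  have hrec := hRr a b (2 * C₃) (Ps ρ β h) hb0 hba (by positivity) hP1
    (Ps_le6 h hC₃ hb0.le hPri)
  -- the bound of `Ps` at a record
  obtain ⟨z, hzd⟩ : ∃ z : ℝ, z = 2 * γ + η := ⟨_, rfl⟩
  have hz0 : 0 < z := by linarith
  obtain ⟨C₄, hC₄⟩ : ∃ C₄ : ℝ, C₄ = |C| + D * (C₃ * (L₀ : ℝ) ^ b) +
      |C₁| * (K' * (2 * K : ℝ) ^ (2 * γ) + 1) := ⟨_, rfl⟩
  have hbd : ∀ᶠ n : ℕ in atTop, RRa a (Ps ρ β h) n → Ps ρ β h n ≤ C₄ * (n : ℝ) ^ z := by
    filter_upwards [hDom, eventually_ge_atTop 1] with n hn hn1 hra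
    have hn1' : (1 : ℝ) ≤ n := by exact_mod_cast hn1
    have hnz : (1 : ℝ) ≤ (n : ℝ) ^ z := Real.one_le_rpow hn1' hz0.le
    have hr : RRec (Ps ρ β h) n := rrec (by linarith) hP1 hra
    have hA : 0 ≤ |C| * (n : ℝ) ^ z := by positivity
    have hB : 0 ≤ D * (C₃ * (L₀ : ℝ) ^ b) * (n : ℝ) ^ z := by positivity
    have hE : 0 ≤ |C₁| * (K' * (2 * K : ℝ) ^ (2 * γ) + 1) * (n : ℝ) ^ z := by positivity
    have hsum : C₄ * (n : ℝ) ^ z = |C| * (n : ℝ) ^ z + D * (C₃ * (L₀ : ℝ) ^ b) * (n : ℝ) ^ z +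
        |C₁| * (K' * (2 * K : ℝ) ^ (2 * γ) + 1) * (n : ℝ) ^ z := by
      rw [hC₄]
      ring
    rw [hsum]
    rcases hn hr with h1 | ⟨m, hm1, hmK, hPm⟩
    · rw [← hzd] at h1
      have h2 : C * (n : ℝ) ^ z ≤ |C| * (n : ℝ) ^ z :=
        mul_le_mul_of_nonneg_right (le_abs_self C) (by positivity)
      linarith
    · by_cases hmL : m < L₀
      · have h1 : (m : ℝ) ^ b ≤ (L₀ : ℝ) ^ b :=
          Real.rpow_le_rpow (by positivity) (by exact_mod_cast hmL.le) hb0.le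
        have h2 : Fn ρ β h m ≤ C₃ * (L₀ : ℝ) ^ b :=
          (hPri m).2.trans (mul_le_mul_of_nonneg_left h1 hC₃)
        have h3 : Ps ρ β h n ≤ D * (C₃ * (L₀ : ℝ) ^ b) :=
          hPm.trans (mul_le_mul_of_nonneg_left h2 (by linarith))
        have h4 : D * (C₃ * (L₀ : ℝ) ^ b) ≤ D * (C₃ * (L₀ : ℝ) ^ b) * (n : ℝ) ^ z :=
          le_mul_of_one_le_right (by positivity) hnz
        linarith
      · push Not at hmL
        obtain ⟨M, hM⟩ : ∃ M : ℝ, M = K' * (2 * K * n : ℝ) ^ (2 * γ) := ⟨_, rfl⟩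
        have hK0 : (0 : ℝ) < K := by exact_mod_cast hK1
        have hM0 : 0 < M := by
          rw [hM]
          positivity
        have h1 := hRec h hloc n hr m hm1 hmK hPm M hM0 (fun L hL1 hL2 => by
          refine rs_mono6 ?_ (hL₀ L (hmL.trans hL1))
          rw [hM]
          refine mul_le_mul_of_nonneg_left (Real.rpow_le_rpow (by positivity) ?_ (by linarith))
            hK'.le
          have h2 : L ≤ 2 * (K * n) := hL2.trans (by omega)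
          have h3 : (L : ℝ) ≤ 2 * (K * n) := by exact_mod_cast h2
          linarith)
        have h2 : M = K' * (2 * K : ℝ) ^ (2 * γ) * (n : ℝ) ^ (2 * γ) := by
          rw [hM, Real.mul_rpow (by positivity) (by positivity)]
          ring
        have h3 : (n : ℝ) ^ (2 * γ) ≤ (n : ℝ) ^ z :=
          Real.rpow_le_rpow_of_exponent_le hn1' (by linarith)
        have h4 : M + 1 ≤ (K' * (2 * K : ℝ) ^ (2 * γ) + 1) * (n : ℝ) ^ z := by
          rw [h2, add_mul, one_mul]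
          exact add_le_add (mul_le_mul_of_nonneg_left h3 (by positivity)) hnz
        have h5 : C₁ * (M + 1) ≤ |C₁| * (M + 1) :=
          mul_le_mul_of_nonneg_right (le_abs_self _) (by linarith)
        have h6 : |C₁| * (M + 1) ≤ |C₁| * ((K' * (2 * K : ℝ) ^ (2 * γ) + 1) * (n : ℝ) ^ z) :=
          mul_le_mul_of_nonneg_left h4 (abs_nonneg _)
        rw [← mul_assoc] at h6
        linarith
  -- the end
  have hfreq : ∃ᶠ n : ℕ in atTop, RRa a (Ps ρ β h) n := by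
    rw [frequently_atTop]
    intro N
    obtain ⟨n, hn, hr⟩ := hrec N
    exact ⟨n, hn, hr⟩
  have hC₄0 : 0 ≤ C₄ := by
    rw [hC₄]
    positivity
  have hn1 := num6 (C := C₂ * C₄ ^ 2) (show 2 * z < 2 * x by linarith)
  have hn2 := num6 (C := C₄) (show z < x by linarith)
  refine (hfreq.and_eventually (hbd.and (hn1.and (hn2.and (eventually_ge_atTop 1))))).mono ?_
  rintro n ⟨hra, hb', h1, h2, h3⟩ m hm
  have hPn := hb' hra
  have hn0 : (0 : ℝ) ≤ n := by positivity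
  constructor
  · have h4 := hVar h hloc n hra m hm
    have h5 : Ps ρ β h n ^ 2 ≤ (C₄ * (n : ℝ) ^ z) ^ 2 :=
      pow_le_pow_left₀ (by linarith [hP1 n]) hPn 2
    have h6 : (C₄ * (n : ℝ) ^ z) ^ 2 = C₄ ^ 2 * (n : ℝ) ^ (2 * z) := by
      rw [mul_pow, ← Real.rpow_natCast ((n : ℝ) ^ z), ← Real.rpow_mul hn0]
      congr 2
      push_cast
      ring
    rw [h6] at h5
    calc Va ρ β h m ≤ C₂ * Ps ρ β h n ^ 2 := h4
      _ ≤ C₂ * (C₄ ^ 2 * (n : ℝ) ^ (2 * z)) := mul_le_mul_of_nonneg_left h5 (by linarith)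
      _ = C₂ * C₄ ^ 2 * (n : ℝ) ^ (2 * z) := by ring
      _ ≤ _ := h1
  · have h4 := En_le_Ps32 (ρ := ρ) (β := β) h hm
    linarith [hPn.trans h2]

end Pool.Agent.W_7d29a1_KZ
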