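import Pool.Agent.W_7d29a1_KZ.SelH70
import Pool.Agent.W_7d29a1_KZ.All27
import Pool.Agent.W_7d29a1_KZ.KzAll5

/-!
Theorem KZ at almost every tilt, every law: the bounds hold or the free energy is flat to second
order at the tilt.
-/

namespace Pool.Agent.W_7d29a1_KZ

open MeasureTheory ProbabilityTheory Filter Topology Pool.Agent.W_MP_7d29a1_pr
  Pool.Agent.W_7d29a1_h46 Pool.Agent.W_7d29a1_h46u Pool.Agent.W_7d29a1_D2.B35
  Pool.Agent.W_7d29a1_Q29 Pool.Agent.W_7d29a1_R34 Pool.Agent.W_7d29a1_SP Pool.Agent.W_7d29a1_SD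
  Pool.Agent.W_7d29a1_SQ

variable {d : ℕ} {ρ : Measure ℝ} {β : ℝ}

/-- The bounds at one tilt and one velocity. -/
def KzAt (ρ : Measure ℝ) (β : ℝ) (h v : Vec d) : Prop :=
  ∀ δ : ℝ, 0 ≤ δ → δ < 1 / 2 → HalfD ρ β h v δ → ∀ x : ℝ, 2 * δ < x → ∃ C : ℝ, 0 ≤ C ∧
    ∀ n : ℕ, 1 ≤ n → Va ρ β h n ≤ C * (n : ℝ) ^ (2 * x) ∧ En ρ β h n ≤ C * (n : ℝ) ^ x ∧
      Fn ρ β h n ≤ C * (n : ℝ) ^ x

/-- **THEOREM KZ at almost every tilt.** -/
def MainKH (d : ℕ) (ρ : Measure ℝ) (β : ℝ) : Prop := ∀ᵐ h : Vec d, ∀ v : Vec d,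
  (∀ k : Vec d, lam ρ β h + inner ℝ v k ≤ lam ρ β (h + k)) →
    Flat (lam ρ β) h v ∨ (VSD ρ β h → KzAt ρ β h v)

/-- The running maxima at one tilt and one velocity. -/
theorem psAt70 [IsProbabilityMeasure ρ] (hD : DomK d ρ β) (hR : RecK d ρ β) (hP : PriK d ρ β)
    {h v : Vec d} {c₀ : ℝ} (hc₀ : 0 < c₀) (hloc : Loc1 ρ β h c₀)
    (hv : ∀ δ γ : ℝ, 0 ≤ δ → δ < γ → γ < 1 / 2 → HalfD ρ β h v δ → RSa ρ β h γ) {δ x : ℝ}
    (hδ : 0 ≤ δ) (hδ2 : δ < 1 / 2) (hH : HalfD ρ β h v δ) (hx : 2 * δ < x) :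
    ∃ C : ℝ, 0 ≤ C ∧ ∀ n : ℕ, 1 ≤ n → Ps ρ β h n ≤ C * (n : ℝ) ^ x := by
  obtain ⟨b, hb⟩ : ∃ b : ℝ, b = ((1 / 2 + δ) / 2 + 1 / 2) / 2 := ⟨_, rfl⟩
  have hb1 : (1 / 2 + δ) / 2 < b := by
    rw [hb]
    linarith
  have hb2 : b < 1 / 2 := by
    rw [hb]
    linarith
  have hb0 : 0 < b := by linarith
  obtain ⟨C₀, hC₀, hpri⟩ := hP h v δ b hδ hδ2 hH hb1
  have hpol : ∀ n : ℕ, Ps ρ β h n ≤ 1 + (2 * C₀) * (n : ℝ) ^ b := fun n =>
    Ps_le58 h hb0 hC₀ hpri n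
  rcases lt_or_ge x (1 / 2) with hx2 | hx2
  · have hγ : δ < (2 * δ + x) / 4 := by linarith
    have hRS := hv δ ((2 * δ + x) / 4) hδ hγ (by linarith) hH
    obtain ⟨C₁, hC₁, hsm⟩ := A27.small27 (y := x) hc₀ (by linarith) (by linarith)
      (by linarith) hD hR hloc hRS
    obtain ⟨B, hB1, hB⟩ := A27.all27 hb0 (by linarith) (one_le_Ps32 h) hpol (by linarith)
      (by linarith) hC₁ hsm
    exact ⟨B, by linarith, hB⟩
  · refine ⟨1 + 2 * C₀, by linarith, fun n hn => ?_⟩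
    have hn1 : (1 : ℝ) ≤ n := by exact_mod_cast hn
    have hbx : (n : ℝ) ^ b ≤ (n : ℝ) ^ x := Real.rpow_le_rpow_of_exponent_le hn1 (by linarith)
    have h1x : (1 : ℝ) ≤ (n : ℝ) ^ x := Real.one_le_rpow hn1 (by linarith)
    have h6 : (2 * C₀) * (n : ℝ) ^ b ≤ (2 * C₀) * (n : ℝ) ^ x :=
      mul_le_mul_of_nonneg_left hbx (by linarith)
    have := hpol n
    linarith

/-- The variance of order `n ^ (2 y)` from the running maxima. -/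
lemma vaAt70 [IsProbabilityMeasure ρ] (hV : VarF d ρ β) {h : Vec d} {c₀ y B : ℝ} (hc₀ : 0 < c₀)
    (hloc : Loc1 ρ β h c₀) (hy : 0 < y) (hy2 : y < 1 / 2) (hB1 : 1 ≤ B)
    (hB : ∀ T : ℕ, 1 ≤ T → Ps ρ β h T ≤ B * (T : ℝ) ^ y) :
    ∃ C : ℝ, 0 ≤ C ∧ ∀ n : ℕ, 1 ≤ n → Va ρ β h n ≤ C * (n : ℝ) ^ (2 * y) := by
  obtain ⟨C, hC, H⟩ := hV c₀ y hc₀ hy hy2
  refine ⟨C * B ^ 2, by positivity, fun n hn => ?_⟩
  have hn1 : (1 : ℝ) ≤ n := by exact_mod_cast hn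
  have hn0 : (0 : ℝ) < n := by linarith
  have hp : 1 ≤ (n : ℝ) ^ y := Real.one_le_rpow hn1 hy.le
  have h1 := H h hloc n (B * (n : ℝ) ^ y) hn (by nlinarith) (fun T hT => by
    refine (hB T (hn.trans hT)).trans (le_of_eq ?_)
    rw [mul_assoc, ← Real.mul_rpow hn0.le (by positivity), mul_div_cancel₀ _ hn0.ne']) n le_rfl
  refine h1.trans (le_of_eq ?_)
  rw [mul_pow, ← mul_assoc]
  congr 1
  rw [← Real.rpow_natCast, ← Real.rpow_mul hn0.le]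
  congr 1
  push_cast
  ring

/-- The bounds at one tilt and one velocity, from the leaves. -/
theorem kzAt70 [IsProbabilityMeasure ρ] (hd : 0 < d) (hρ : EM ρ) (hD : DomK d ρ β)
    (hR : RecK d ρ β) (hP : PriK d ρ β) (hV : VarF d ρ β) {h v : Vec d} {c₀ : ℝ} (hc₀ : 0 < c₀)
    (hloc : Loc1 ρ β h c₀)
    (hv : ∀ δ γ : ℝ, 0 ≤ δ → δ < γ → γ < 1 / 2 → HalfD ρ β h v δ → RSa ρ β h γ) :
    KzAt ρ β h v := by
  intro δ hδ hδ2 hH x hx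
  rcases lt_or_ge x (1 / 2) with hx2 | hx2
  · obtain ⟨B₀, hB₀, hB'⟩ := psAt70 hD hR hP hc₀ hloc hv hδ hδ2 hH hx
    have hB : ∀ T : ℕ, 1 ≤ T → Ps ρ β h T ≤ (B₀ + 1) * (T : ℝ) ^ x := fun T hT =>
      (hB' T hT).trans (mul_le_mul_of_nonneg_right (by linarith) (by positivity))
    obtain ⟨C₃, hC₃, hVa⟩ := vaAt70 hV hc₀ hloc (by linarith) hx2 (by linarith) hB
    refine ⟨(B₀ + 1) + C₃, by linarith, fun n hn => ?_⟩
    have h5 := hB n hn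
    have h0 : 0 ≤ (n : ℝ) ^ x := by positivity
    have h0' : 0 ≤ (n : ℝ) ^ (2 * x) := by positivity
    have hEn := En_le_Ps32 (ρ := ρ) (β := β) h (le_refl n)
    have hFn := Fn_le_Ps32 (ρ := ρ) (β := β) h (le_refl n)
    have h6 := mul_nonneg hC₃ h0
    have h7 : 0 ≤ (B₀ + 1) * (n : ℝ) ^ (2 * x) := mul_nonneg (by linarith) h0'
    have h8 := hVa n hn
    rw [add_mul, add_mul]
    exact ⟨by linarith, by linarith, by linarith⟩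
  · obtain ⟨B, hB0, hB⟩ := psAt70 hD hR hP hc₀ hloc hv hδ hδ2 hH hx
    obtain ⟨C₂, hC₂, hmom⟩ := momU hd hρ β 2
    refine ⟨max B C₂, le_max_of_le_left hB0, fun n hn => ?_⟩
    have hn1 : (1 : ℝ) ≤ n := by exact_mod_cast hn
    have h5 := hB n hn
    have h6 : B * (n : ℝ) ^ x ≤ max B C₂ * (n : ℝ) ^ x :=
      mul_le_mul_of_nonneg_right (le_max_left _ _) (by positivity)
    have hEn := En_le_Ps32 (ρ := ρ) (β := β) h (le_refl n)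
    have hFn := Fn_le_Ps32 (ρ := ρ) (β := β) h (le_refl n)
    refine ⟨?_, by linarith, by linarith⟩
    have h7 := (hmom h n hn).2
    have h8 : ∫ η, |X β h η n - A ρ β h n| ^ 2 ∂(law d ρ) = Va ρ β h n := by
      unfold Va
      exact integral_congr_ae (Eventually.of_forall fun w => by
        simp only
        exact sq_abs _)
    rw [h8] at h7
    have h9 : (n : ℝ) ^ ((1 / 2 : ℝ) * ((2 : ℕ) : ℝ)) ≤ (n : ℝ) ^ (2 * x) :=
      Real.rpow_le_rpow_of_exponent_le hn1 (by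
        push_cast
        linarith)
    exact h7.trans (mul_le_mul (le_max_right _ _) h9 (by positivity) (le_max_of_le_left hB0))

/-- **THEOREM KZ at almost every tilt**, every law, no hypothesis left. -/
theorem mainKH70 [IsProbabilityMeasure ρ] (hd : 0 < d) (hρ : EM ρ) (hnc : ∀ c : ℝ, ρ {c} ≠ 1)
    (hβ : 0 < β) : MainKH d ρ β := by
  have hS : SelH d ρ β := selH70 hd hρ (pairS6 hd β)
  unfold SelH at hS
  unfold MainKH
  filter_upwards [hS] with h hh v hv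
  refine (hh v hv).imp id fun hsel hV => ?_
  obtain ⟨c₀, hc₀, hloc⟩ := Pool.Agent.W_7d29a1_UN.loc1N hd hρ hV
  exact kzAt70 hd hρ (domKAll5 hd hρ hnc hβ) (recKAll5 hd hρ hnc hβ) (P74.priK74 hd hρ β)
    (varFAll5 hd hρ hnc hβ) hc₀ hloc hsel

end Pool.Agent.W_7d29a1_KZ
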