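import Pool.Agent.W_7d29a1_Q29.Vsd61

/-!
The random walk with a tilt leaves every tube of radius smaller than `n ^ (1 / 2)`.
-/

namespace Pool.Agent.W_7d29a1_KZ.N20

open MeasureTheory ProbabilityTheory Filter Topology Pool.Agent.W_MP_7d29a1_pr
  Pool.Agent.W_7d29a1_h46 Pool.Agent.W_7d29a1_h46u Pool.Agent.W_7d29a1_Q29

variable {d : ℕ}

/-- The weight of a walk. -/
noncomputable def w0 (h : Vec d) {n : ℕ} (s : Fin n → Step d) : ℝ :=
  Real.exp (inner ℝ h (emb (pos s n)))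

lemma w0_pos (h : Vec d) {n : ℕ} (s : Fin n → Step d) : 0 < w0 h s := Real.exp_pos _

lemma w0_glue (h : Vec d) {i k : ℕ} (s : Fin i → Step d) (q : Fin k → Step d) :
    w0 h (Fin.append s q) = w0 h s * w0 h q := by
  unfold w0
  rw [pos_glue_add, Walk_emb_add, inner_add_right, Real.exp_add]

open Classical in
/-- The mass of the walks in a tube. -/
noncomputable def tm (h v : Vec d) (r : ℝ) (n : ℕ) (w : Vec d) : ℝ :=
  ∑ s : Fin n → Step d,
    if ∀ i ≤ n, ‖emb (pos s i) - (i : ℝ) • v + w‖ ≤ r then w0 h s else 0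

open Classical in
/-- The mass of the walks whose end point is close to `m v`. -/
noncomputable def bm (h v : Vec d) (r : ℝ) (m : ℕ) : ℝ :=
  ∑ q : Fin m → Step d, if ‖emb (pos q m) - (m : ℝ) • v‖ ≤ 2 * r then w0 h q else 0

lemma pos_zero20 {n : ℕ} (s : Fin n → Step d) : pos s 0 = 0 := by
  unfold pos
  exact Finset.sum_eq_zero fun j _ => if_neg (Nat.not_lt_zero _)

lemma bm_nonneg (h v : Vec d) (r : ℝ) (m : ℕ) : 0 ≤ bm h v r m := by
  classical
  unfold bm
  exact Finset.sum_nonneg fun q _ => by split_ifs; exacts [(w0_pos h q).le, le_rfl]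

lemma tm_step (h v : Vec d) (r : ℝ) (m n : ℕ) {B : ℝ} (hB : ∀ w, tm h v r n w ≤ B) (w : Vec d) :
    tm h v r (m + n) w ≤ bm h v r m * B := by
  classical
  have h1 : tm h v r (m + n) w ≤ ∑ s : Fin m → Step d,
      (if ‖emb (pos s m) - (m : ℝ) • v‖ ≤ 2 * r then w0 h s else 0) *
        tm h v r n (emb (pos s m) - (m : ℝ) • v + w) := by
    unfold tm
    rw [sum_glue]
    refine Finset.sum_le_sum fun s _ => ?_
    rw [Finset.mul_sum]
    refine Finset.sum_le_sum fun q _ => ?_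
    by_cases hc : ∀ i ≤ m + n, ‖emb (pos (Fin.append s q) i) - (i : ℝ) • v + w‖ ≤ r
    · rw [if_pos hc, w0_glue]
      have c0 := hc 0 (Nat.zero_le _)
      rw [pos_zero20, emb_zero61, Nat.cast_zero, zero_smul, sub_zero, zero_add] at c0
      have c1 := hc m (Nat.le_add_right m n)
      rw [pos_glue_le s q le_rfl] at c1
      have c2 : ‖emb (pos s m) - (m : ℝ) • v‖ ≤ 2 * r := by
        have e : emb (pos s m) - (m : ℝ) • v = (emb (pos s m) - (m : ℝ) • v + w) - w := by abel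
        rw [e]
        refine (norm_sub_le _ _).trans ?_
        linarith
      have c3 : ∀ i ≤ n, ‖emb (pos q i) - (i : ℝ) • v +
          (emb (pos s m) - (m : ℝ) • v + w)‖ ≤ r := by
        intro i hi
        have c4 := hc (m + i) (by omega)
        rw [pos_glue_add, Walk_emb_add] at c4
        have e : emb (pos q i) - (i : ℝ) • v + (emb (pos s m) - (m : ℝ) • v + w) =
            emb (pos s m) + emb (pos q i) - ((m + i : ℕ) : ℝ) • v + w := by
          rw [Nat.cast_add, add_smul]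
          abel
        rw [e]
        exact c4
      rw [if_pos c2, if_pos c3]
    · rw [if_neg hc]
      refine mul_nonneg ?_ ?_
      · split_ifs
        exacts [(w0_pos h s).le, le_rfl]
      · split_ifs
        exacts [(w0_pos h q).le, le_rfl]
  refine h1.trans ?_
  unfold bm
  rw [Finset.sum_mul]
  refine Finset.sum_le_sum fun s _ => mul_le_mul_of_nonneg_left (hB _) ?_
  split_ifs
  exacts [(w0_pos h s).le, le_rfl]

lemma tm_le_Phi (h v : Vec d) (r : ℝ) (n : ℕ) (w : Vec d) : tm h v r n w ≤ Phi h ^ n := by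
  classical
  rw [← sum_walks61]
  unfold tm
  refine Finset.sum_le_sum fun s _ => ?_
  split_ifs
  · exact le_rfl
  · exact (Real.exp_pos _).le

lemma tm_blocks (h v : Vec d) (r : ℝ) (m k j : ℕ) : ∀ w,
    tm h v r (j * m + k) w ≤ bm h v r m ^ j * Phi h ^ k := by
  induction j with
  | zero =>
    intro w
    rw [Nat.zero_mul, Nat.zero_add, pow_zero, one_mul]
    exact tm_le_Phi h v r k w
  | succ j ih =>
    intro w
    have e : (j + 1) * m + k = m + (j * m + k) := by ring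
    rw [e, pow_succ', mul_assoc]
    exact tm_step h v r m (j * m + k) ih w

/-- The characteristic function. -/
lemma char20 (h : Vec d) (j : Fin d) (θ : ℝ) (m : ℕ) :
    ∑ q : Fin m → Step d, ((w0 h q : ℝ) : ℂ) *
        Complex.exp (((θ * (pos q m j : ℝ) : ℝ) : ℂ) * Complex.I) =
      (∑ e : Step d, ((Real.exp (inner ℝ h (emb (vec e))) : ℝ) : ℂ) *
        Complex.exp (((θ * (vec e j : ℝ) : ℝ) : ℂ) * Complex.I)) ^ m := by
  rw [Fintype.sum_pow]
  refine Finset.sum_congr rfl fun q _ => ?_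
  rw [Finset.prod_mul_distrib]
  congr 1
  · rw [← Complex.ofReal_prod]
    congr 1
    unfold w0
    rw [emb_pos61, inner_sum, Real.exp_sum]
  · rw [← Complex.exp_sum]
    congr 1
    rw [← Finset.sum_mul]
    congr 1
    rw [← Complex.ofReal_sum]
    congr 1
    rw [← Finset.mul_sum]
    congr 1
    have e : pos q m = ∑ i, vec (q i) := Finset.sum_congr rfl fun i _ => if_pos i.2
    rw [e, Finset.sum_apply, Int.cast_sum]

lemma step_norm {A B θ : ℝ} (hA : 0 < A) (hB : 0 < B) :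
    ‖((A : ℝ) : ℂ) * Complex.exp ((θ : ℂ) * Complex.I) +
      ((B : ℝ) : ℂ) * Complex.exp (((-θ : ℝ) : ℂ) * Complex.I)‖ ≤
      A + B - 2 * (A * B) / (A + B) * Real.sin θ ^ 2 := by
  have hAB : 0 < A + B := by linarith
  have h1 : ((A : ℝ) : ℂ) * Complex.exp ((θ : ℂ) * Complex.I) +
      ((B : ℝ) : ℂ) * Complex.exp (((-θ : ℝ) : ℂ) * Complex.I) =
      (((A + B) * Real.cos θ : ℝ) : ℂ) + (((A - B) * Real.sin θ : ℝ) : ℂ) * Complex.I := by
    rw [Complex.exp_mul_I, Complex.exp_mul_I, ← Complex.ofReal_cos, ← Complex.ofReal_sin,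
      ← Complex.ofReal_cos, ← Complex.ofReal_sin, Real.cos_neg, Real.sin_neg]
    push_cast
    ring
  rw [h1, Complex.norm_add_mul_I]
  have hs := Real.sin_sq_add_cos_sq θ
  have hs1 : Real.sin θ ^ 2 ≤ 1 := Real.sin_sq_le_one θ
  have hs0 : 0 ≤ Real.sin θ ^ 2 := sq_nonneg _
  have ht : 2 * (A * B) / (A + B) ≤ A + B := by
    rw [div_le_iff₀ hAB]
    nlinarith [sq_nonneg (A - B), mul_pos hA hB]
  have ht0 : 0 ≤ 2 * (A * B) / (A + B) := by positivity
  have h2 : 0 ≤ A + B - 2 * (A * B) / (A + B) * Real.sin θ ^ 2 := by nlinarith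
  refine Real.sqrt_le_iff.2 ⟨h2, ?_⟩
  have h3 : 2 * (A * B) / (A + B) * (A + B) = 2 * (A * B) := by field_simp
  have h4 : ((A + B) * Real.cos θ) ^ 2 + ((A - B) * Real.sin θ) ^ 2 =
      (A + B) ^ 2 - 4 * (A * B) * Real.sin θ ^ 2 := by
    have : Real.cos θ ^ 2 = 1 - Real.sin θ ^ 2 := by linarith
    rw [mul_pow, mul_pow, this]
    ring
  rw [h4]
  have h5 : 2 * (A + B) * (2 * (A * B) / (A + B) * Real.sin θ ^ 2) =
      4 * (A * B) * Real.sin θ ^ 2 := by
    rw [← mul_assoc, show 2 * (A + B) * (2 * (A * B) / (A + B)) =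
      2 * (2 * (A * B) / (A + B) * (A + B)) by ring, h3]
    ring
  nlinarith [sq_nonneg (2 * (A * B) / (A + B) * Real.sin θ ^ 2)]

/-- The characteristic function of one step. -/
lemma phi20 (hd : 0 < d) (h : Vec d) (j : Fin d) : ∃ c : ℝ, 0 < c ∧ ∀ θ : ℝ, 0 ≤ θ → θ ≤ 1 →
    ‖∑ e : Step d, ((Real.exp (inner ℝ h (emb (vec e))) : ℝ) : ℂ) *
        Complex.exp (((θ * (vec e j : ℝ) : ℝ) : ℂ) * Complex.I)‖ ≤
      Phi h * Real.exp (-(c * θ ^ 2)) := by
  classical
  set g : Step d → ℝ := fun e => Real.exp (inner ℝ h (emb (vec e))) with hg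
  have hg0 : ∀ e, 0 < g e := fun e => Real.exp_pos _
  set f : ℝ → Step d → ℂ := fun θ e => ((g e : ℝ) : ℂ) *
    Complex.exp (((θ * (vec e j : ℝ) : ℝ) : ℂ) * Complex.I) with hf
  set a : Step d := (j, true) with ha
  set b : Step d := (j, false) with hb
  have hab : a ≠ b := by
    intro h1
    have := congrArg Prod.snd h1
    simp [ha, hb] at this
  have hΦ := Phi_pos61 hd h
  obtain ⟨t, ht⟩ : ∃ t : ℝ, t = 2 * (g a * g b) / (g a + g b) := ⟨_, rfl⟩
  have ht0 : 0 < t := by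
    rw [ht]
    have := hg0 a
    have := hg0 b
    positivity
  refine ⟨t / (4 * Phi h), by positivity, fun θ h0 h1 => ?_⟩
  have e1 : ∑ e : Step d, f θ e = (f θ a + f θ b) +
      ∑ e ∈ ({a, b} : Finset (Step d))ᶜ, f θ e := by
    rw [← Finset.sum_pair hab, Finset.sum_add_sum_compl]
  have e2 : Phi h = (g a + g b) + ∑ e ∈ ({a, b} : Finset (Step d))ᶜ, g e := by
    rw [← Finset.sum_pair hab, Finset.sum_add_sum_compl]
    rfl
  have e3 : ‖∑ e ∈ ({a, b} : Finset (Step d))ᶜ, f θ e‖ ≤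
      ∑ e ∈ ({a, b} : Finset (Step d))ᶜ, g e := by
    refine (norm_sum_le _ _).trans (Finset.sum_le_sum fun e _ => ?_)
    show ‖((g e : ℝ) : ℂ) * Complex.exp (((θ * (vec e j : ℝ) : ℝ) : ℂ) * Complex.I)‖ ≤ g e
    rw [norm_mul, Complex.norm_exp_ofReal_mul_I, mul_one, Complex.norm_real,
      Real.norm_eq_abs, abs_of_pos (hg0 e)]
  have va : ((vec a j : ℤ) : ℝ) = 1 := by
    rw [ha]
    simp [vec]
  have vb : ((vec b j : ℤ) : ℝ) = -1 := by
    rw [hb]
    simp [vec]
  have e4 : ‖f θ a + f θ b‖ ≤ g a + g b - t * Real.sin θ ^ 2 := by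
    have h3 := step_norm (θ := θ) (hg0 a) (hg0 b)
    rw [← ht] at h3
    refine le_trans (le_of_eq ?_) h3
    show ‖((g a : ℝ) : ℂ) * Complex.exp (((θ * (vec a j : ℝ) : ℝ) : ℂ) * Complex.I) +
      ((g b : ℝ) : ℂ) * Complex.exp (((θ * (vec b j : ℝ) : ℝ) : ℂ) * Complex.I)‖ = _
    rw [va, vb, mul_one, mul_neg_one]
  have e5 : θ ^ 2 / 4 ≤ Real.sin θ ^ 2 := by
    have h3 : θ / 2 ≤ Real.sin θ := by
      rcases eq_or_lt_of_le h0 with h4 | h4
      · rw [← h4]
        simp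
      · have h5 := Real.sin_gt_sub_cube h4
        have h6 : θ ^ 3 ≤ θ := by
          have : θ ^ 2 ≤ 1 := by nlinarith
          nlinarith
        linarith
    have h4 := pow_le_pow_left₀ (by linarith) h3 2
    linarith [h4, show (θ / 2) ^ 2 = θ ^ 2 / 4 by ring]
  have e6 : ‖∑ e : Step d, f θ e‖ ≤ Phi h - t * (θ ^ 2 / 4) := by
    rw [e1, e2]
    refine (norm_add_le _ _).trans ?_
    have := mul_le_mul_of_nonneg_left e5 ht0.le
    linarith
  refine e6.trans ?_
  have h3 := Real.add_one_le_exp (-(t / (4 * Phi h) * θ ^ 2))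
  have h4 := mul_le_mul_of_nonneg_left h3 hΦ.le
  refine le_trans (le_of_eq ?_) h4
  field_simp
  ring

/-- A block of length `m ≥ C r ^ 2` leaves the ball of radius `2 r` with a positive probability. -/
theorem bm_le (hd : 0 < d) (h : Vec d) : ∃ C : ℝ, 0 < C ∧ ∀ (v : Vec d) (r : ℝ) (m : ℕ),
    1 / 2 ≤ r → C * r ^ 2 ≤ m → bm h v r m ≤ 4 / 5 * Phi h ^ m := by
  classical
  obtain ⟨c, hc0, hc⟩ := phi20 hd h ⟨0, hd⟩
  refine ⟨8 / c, by positivity, fun v r m hr hm => ?_⟩
  set j : Fin d := ⟨0, hd⟩ with hj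
  have hΦ := Phi_pos61 hd h
  have hr0 : 0 < r := by linarith
  obtain ⟨θ, hθ⟩ : ∃ θ : ℝ, θ = 1 / (2 * r) := ⟨_, rfl⟩
  have hθ0 : 0 < θ := by rw [hθ]; positivity
  have hθ1 : θ ≤ 1 := by
    rw [hθ, div_le_one (by positivity)]
    linarith
  set F : ℂ := ∑ e : Step d, ((Real.exp (inner ℝ h (emb (vec e))) : ℝ) : ℂ) *
    Complex.exp (((θ * (vec e j : ℝ) : ℝ) : ℂ) * Complex.I) with hF
  have hFn : ‖F‖ ≤ Phi h * Real.exp (-(c * θ ^ 2)) := hc θ hθ0.le hθ1
  obtain ⟨k, hk⟩ : ∃ k : ℝ, k = (m : ℝ) * v j := ⟨_, rfl⟩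
  -- the cosine sum
  have h1 : ∑ q : Fin m → Step d, w0 h q * Real.cos (θ * (pos q m j : ℝ) - θ * k) ≤
      ‖F‖ ^ m := by
    have h2 : ((∑ q : Fin m → Step d, w0 h q * Real.cos (θ * (pos q m j : ℝ) - θ * k) : ℝ)) =
        (F ^ m * Complex.exp (((-(θ * k) : ℝ) : ℂ) * Complex.I)).re := by
      rw [hF, ← char20, Finset.sum_mul, Complex.re_sum]
      refine Finset.sum_congr rfl fun q _ => ?_
      rw [mul_assoc, ← Complex.exp_add, ← add_mul, ← Complex.ofReal_add, Complex.re_ofReal_mul,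
        Complex.exp_ofReal_mul_I_re]
      congr 1
    rw [h2]
    refine (Complex.re_le_norm _).trans ?_
    rw [norm_mul, Complex.norm_exp_ofReal_mul_I, mul_one, norm_pow]
  -- the lower bound
  have h2 : 3 / 2 * bm h v r m ≤ ∑ q : Fin m → Step d,
      (w0 h q + w0 h q * Real.cos (θ * (pos q m j : ℝ) - θ * k)) := by
    unfold bm
    rw [Finset.mul_sum]
    refine Finset.sum_le_sum fun q _ => ?_
    have hw := w0_pos h q
    split_ifs with hq
    · have h3 : |θ * (pos q m j : ℝ) - θ * k| ≤ 1 := by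
        rw [← mul_sub, abs_mul, abs_of_pos hθ0]
        have h4 : |(pos q m j : ℝ) - k| ≤ 2 * r := by
          refine le_trans ?_ hq
          have h5 := PiLp.norm_apply_le (emb (pos q m) - (m : ℝ) • v) j
          refine le_trans (le_of_eq ?_) h5
          rw [Real.norm_eq_abs, hk]
          rfl
        calc θ * |(pos q m j : ℝ) - k| ≤ θ * (2 * r) := mul_le_mul_of_nonneg_left h4 hθ0.le
          _ = 1 := by rw [hθ]; field_simp
      have h4 := Real.one_sub_sq_div_two_le_cos (x := θ * (pos q m j : ℝ) - θ * k)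
      have h5 : (θ * (pos q m j : ℝ) - θ * k) ^ 2 ≤ 1 := by
        have := pow_le_pow_left₀ (abs_nonneg _) h3 2
        rwa [sq_abs, one_pow] at this
      nlinarith
    · have h4 := Real.neg_one_le_cos (θ * (pos q m j : ℝ) - θ * k)
      nlinarith
  rw [Finset.sum_add_distrib] at h2
  have h3 : ∑ q : Fin m → Step d, w0 h q = Phi h ^ m := sum_walks61 h m
  rw [h3] at h2
  have h4 : ‖F‖ ^ m ≤ Phi h ^ m * (1 / 5) := by
    refine (pow_le_pow_left₀ (norm_nonneg _) hFn m).trans ?_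
    rw [mul_pow]
    refine mul_le_mul_of_nonneg_left ?_ (pow_pos hΦ m).le
    rw [← Real.exp_nat_mul]
    have h5 : (2 : ℝ) ≤ m * (c * θ ^ 2) := by
      have h6 : c * θ ^ 2 = c / (4 * r ^ 2) := by
        rw [hθ]
        field_simp
        norm_num
      rw [h6, mul_div_assoc', le_div_iff₀ (by positivity)]
      have h7 : 8 / c * r ^ 2 * c ≤ m * c := mul_le_mul_of_nonneg_right hm hc0.le
      have h8 : 8 / c * r ^ 2 * c = 8 * r ^ 2 := by field_simp
      linarith
    have h6 : Real.exp ((m : ℝ) * -(c * θ ^ 2)) ≤ Real.exp (-2) :=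
      Real.exp_le_exp.2 (by linarith)
    refine h6.trans ?_
    have h7 : (5 : ℝ) ≤ Real.exp 2 := by
      have h8 := Real.exp_one_gt_d9
      have h9 : Real.exp 2 = Real.exp 1 * Real.exp 1 := by
        rw [← Real.exp_add]
        norm_num
      rw [h9]
      nlinarith
    rw [Real.exp_neg, ← one_div]
    exact one_div_le_one_div_of_le (by norm_num) h7
  have h5 := h1.trans h4
  linarith

end Pool.Agent.W_7d29a1_KZ.N20
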