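import Pool.Agent.W_7d29a1_KZ.Nvs20
import Pool.Agent.W_7d29a1_KZ.Walk20
import Pool.Agent.W_7d29a1_KZ.TrZ19

/-!
When disorder is not very strong at the tilt `h`, the wandering exponent is at least `1 / 2`
around every direction.
-/

namespace Pool.Agent.W_7d29a1_KZ.N20

open MeasureTheory ProbabilityTheory Filter Topology Pool.Agent.W_MP_7d29a1_pr
  Pool.Agent.W_7d29a1_h46 Pool.Agent.W_7d29a1_h46u Pool.Agent.W_7d29a1_D2
  Pool.Agent.W_7d29a1_D2.B35 Pool.Agent.W_7d29a1_Q29 Pool.Agent.W_7d29a1_AM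

variable {d : ℕ} {ρ : Measure ℝ} [IsProbabilityMeasure ρ] {β : ℝ}

/-- The mean weight of a tube. -/
lemma annT20 (hρ : EM ρ) (β : ℝ) (h v : Vec d) (n : ℕ) (r : ℝ) :
    Integrable (fun η : Env d => ZT β h η (tube d n v r)) (law d ρ) ∧
      ∫ η, ZT β h η (tube d n v r) ∂(law d ρ) =
        (∫ t, Real.exp (β * t) ∂ρ) ^ n * tm h v r n 0 := by
  classical
  have hE : ∀ s : Fin n → Step d, Integrable (fun η : Env d => Real.exp (β * energy η s))
      (law d ρ) ∧ ∫ η : Env d, Real.exp (β * energy η s) ∂(law d ρ) =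
        (∫ t, Real.exp (β * t) ∂ρ) ^ n := fun s =>
    (FreeV_iid (d := d) (ρ := ρ)).integral_exp_energy (hρ β) s
  have hz : (fun η : Env d => ZT β h η (tube d n v r)) = fun η => ∑ s : Fin n → Step d,
      (if ∀ i ≤ n, ‖emb (pos s i) - (i : ℝ) • v + 0‖ ≤ r then w0 h s else 0) *
        Real.exp (β * energy η s) := by
    funext η
    unfold ZT
    refine Finset.sum_congr rfl fun s _ => ?_
    by_cases hs : s ∈ tube d n v r
    · rw [if_pos hs, if_pos (fun i hi => by rw [add_zero]; exact hs i hi)]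
      unfold wgt w0
      rw [Real.exp_add]
    · rw [if_neg hs, if_neg (fun hc => hs fun i hi => by
        have := hc i hi
        rwa [add_zero] at this), zero_mul]
  rw [hz]
  refine ⟨integrable_finsetSum _ fun s _ => (hE s).1.const_mul _, ?_⟩
  rw [integral_finsetSum _ fun s _ => (hE s).1.const_mul _]
  unfold tm
  rw [Finset.mul_sum]
  refine Finset.sum_congr rfl fun s _ => ?_
  rw [integral_const_mul, (hE s).2, mul_comm]

/-- The mean weight of a narrow tube, relative to the mean partition function. -/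
lemma annU20 (hd : 0 < d) (hρ : EM ρ) (h v : Vec d) {r : ℝ} {m n : ℕ} (hm : 0 < m)
    (hb : bm h v r m ≤ 4 / 5 * Phi h ^ m) :
    ∫ η, ZT β h η (tube d n v r) ∂(law d ρ) ≤
      Real.exp (n * an ρ β h) * (4 / 5) ^ (n / m) := by
  have hm0 : 0 < ∫ t, Real.exp (β * t) ∂ρ := integral_exp_pos (hρ β)
  have hΦ := Phi_pos61 hd h
  rw [(annT20 hρ β h v n r).2, ← an_exp hd hρ h n, (annealed61 (d := d) hρ β h n).2]
  have h1 : tm h v r n 0 ≤ (4 / 5) ^ (n / m) * Phi h ^ n := by
    have h2 := tm_blocks h v r m (n % m) (n / m) 0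
    have e : n / m * m + n % m = n := Nat.div_add_mod' n m
    rw [e] at h2
    refine h2.trans ?_
    have h3 := pow_le_pow_left₀ (bm_nonneg h v r m) hb (n / m)
    refine (mul_le_mul_of_nonneg_right h3 (pow_pos hΦ _).le).trans (le_of_eq ?_)
    rw [mul_pow, mul_assoc, ← pow_mul, ← pow_add]
    congr 2
    rw [mul_comm m, e]
  rw [mul_pow, mul_assoc, mul_comm (Phi h ^ n)]
  refine (mul_le_mul_of_nonneg_left h1 (pow_pos hm0 n).le).trans (le_of_eq ?_)
  ring

/-- Outside very strong disorder the narrow tubes have a small mass. -/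
theorem tubeN20 (hd : 0 < d) (hρ : EM ρ) (hA : AmpU ρ β d) {h : Vec d} (hv : ¬ VSD ρ β h)
    (v : Vec d) {a : ℝ} (ha0 : 0 < a) (ha : a < 1 / 2) : ∀ᶠ n : ℕ in atTop,
      ∫ η, PolT β h η (tube d n v ((n : ℝ) ^ a)) ∂(law d ρ) ≤ 1 / 2 := by
  obtain ⟨K, hK1, hK⟩ := low20 (β := β) hd hρ hA
  obtain ⟨C, hC0, hC⟩ := bm_le hd h
  have hKp : 0 < K := by linarith
  have hd0 : (0 : ℝ) ≤ d := Nat.cast_nonneg d
  obtain ⟨D, hD⟩ : ∃ D : ℝ, D = K * (8 + 2 * d) + 6 := ⟨_, rfl⟩
  have hD0 : 0 ≤ D := by rw [hD]; positivity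
  filter_upwards [log_pow19 (by linarith : 0 < 1 - 2 * a) (5 * (C + 1) * D),
    eventually_ge_atTop 1] with n hn hn1
  have hlog := hn.1
  have hn' : (1 : ℝ) ≤ n := by exact_mod_cast hn1
  have hn0 : (0 : ℝ) < n := by linarith
  obtain ⟨r, hr⟩ : ∃ r : ℝ, r = (n : ℝ) ^ a := ⟨_, rfl⟩
  have hr1 : 1 ≤ r := by rw [hr]; exact Real.one_le_rpow hn' ha0.le
  have hrr : r ^ 2 = (n : ℝ) ^ (2 * a) := by
    rw [hr, ← Real.rpow_natCast, ← Real.rpow_mul hn0.le]
    congr 1
    push_cast
    ring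
  rw [← hr]
  obtain ⟨m, hm⟩ : ∃ m : ℕ, m = ⌈C * r ^ 2⌉₊ := ⟨_, rfl⟩
  have hm1 : C * r ^ 2 ≤ m := by rw [hm]; exact Nat.le_ceil _
  have hr2 : 1 ≤ r ^ 2 := one_le_pow₀ hr1
  have hm0 : (0 : ℝ) < m := lt_of_lt_of_le (by positivity) hm1
  have hmN : 0 < m := by exact_mod_cast hm0
  have hm2 : (m : ℝ) ≤ (C + 1) * r ^ 2 := by
    have h1 : (m : ℝ) < C * r ^ 2 + 1 := by
      rw [hm]
      exact Nat.ceil_lt_add_one (by positivity)
    nlinarith
  have hann := annU20 (β := β) (n := n) hd hρ h v hmN (hC v r m (by linarith) hm1)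
  obtain ⟨b, hb⟩ : ∃ b : ℝ, b = ((boxF d n).card : ℝ) := ⟨_, rfl⟩
  have hlow := hK h hv n (2 * K) (by positivity)
  rw [← hb] at hlow
  obtain ⟨L, hL⟩ : ∃ L : ℝ, L = Real.log (4 * b) := ⟨_, rfl⟩
  rw [← hL] at hlow
  obtain ⟨x, hx⟩ : ∃ x : ℝ, x = K * (L + 1) + 2 * K := ⟨_, rfl⟩
  have hset : {η : Env d | X β h η n ≤ n * an ρ β h - K * (L + 1) - 2 * K} =
      {η | X β h η n ≤ n * an ρ β h - x} := by
    ext η
    show X β h η n ≤ n * an ρ β h - K * (L + 1) - 2 * K ↔ X β h η n ≤ n * an ρ β h - x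
    rw [hx, sub_sub]
  rw [hset, mul_div_assoc, div_self hKp.ne', mul_one] at hlow
  have he4 : Real.exp (-2) ≤ 1 / 4 := by
    have h7 : (4 : ℝ) ≤ Real.exp 2 := by
      have h8 := Real.exp_one_gt_d9
      have h9 : Real.exp 2 = Real.exp 1 * Real.exp 1 := by
        rw [← Real.exp_add]
        norm_num
      rw [h9]
      nlinarith
    rw [Real.exp_neg, ← one_div]
    exact one_div_le_one_div_of_le (by norm_num) h7
  set S : Set (Env d) := {η | X β h η n ≤ n * an ρ β h - x} with hS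
  have mS : MeasurableSet S := measurableSet_le (measurable_X β h n) measurable_const
  -- pointwise
  have hpt : ∀ η : Env d, PolT β h η (tube d n v r) ≤ S.indicator (fun _ => (1 : ℝ)) η +
      Real.exp (x - n * an ρ β h) * ZT β h η (tube d n v r) := by
    intro η
    have hT0 : 0 ≤ ZT β h η (tube d n v r) := ZT_nonneg β h η _
    by_cases hη : η ∈ S
    · rw [Set.indicator_of_mem hη]
      have h1 := PolT_le_one β h η (tube d n v r)
      have h2 : 0 ≤ Real.exp (x - n * an ρ β h) * ZT β h η (tube d n v r) := by positivity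
      linarith
    · rw [Set.indicator_of_notMem hη, zero_add]
      have h1 : n * an ρ β h - x < X β h η n := not_le.1 hη
      have h2 : Real.exp (n * an ρ β h - x) ≤ Z β h η n := by
        rw [← Real.le_log_iff_exp_le (Z_pos hd β h η n)]
        exact h1.le
      have h3 : PolT β h η (tube d n v r) = ZT β h η (tube d n v r) / Z β h η n := rfl
      rw [h3, div_le_iff₀ (Z_pos hd β h η n)]
      have h4 : 1 ≤ Real.exp (x - n * an ρ β h) * Z β h η n := by
        calc (1 : ℝ) = Real.exp (x - n * an ρ β h) * Real.exp (n * an ρ β h - x) := by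
              rw [← Real.exp_add]
              simp
          _ ≤ _ := mul_le_mul_of_nonneg_left h2 (Real.exp_pos _).le
      calc ZT β h η (tube d n v r) = 1 * ZT β h η (tube d n v r) := (one_mul _).symm
        _ ≤ (Real.exp (x - n * an ρ β h) * Z β h η n) * ZT β h η (tube d n v r) :=
            mul_le_mul_of_nonneg_right h4 hT0
        _ = _ := by ring
  have iS : Integrable (S.indicator fun _ : Env d => (1 : ℝ)) (law d ρ) :=
    (integrable_const _).indicator mS
  have iT := (annT20 (d := d) hρ β h v n r).1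
  have iP : Integrable (fun η : Env d => PolT β h η (tube d n v r)) (law d ρ) := by
    refine Integrable.mono' (integrable_const (1 : ℝ))
      (measurable_PolT β h _).aestronglyMeasurable (Eventually.of_forall fun η => ?_)
    rw [Real.norm_eq_abs, abs_of_nonneg (PolT_nonneg β h η _)]
    exact PolT_le_one β h η _
  have h1 := integral_mono iP (iS.add (iT.const_mul (Real.exp (x - n * an ρ β h)))) hpt
  have h2 : ∫ η, (S.indicator (fun _ => (1 : ℝ)) η +
      Real.exp (x - n * an ρ β h) * ZT β h η (tube d n v r)) ∂(law d ρ) =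
      (law d ρ).real S + Real.exp (x - n * an ρ β h) *
        ∫ η, ZT β h η (tube d n v r) ∂(law d ρ) := by
    rw [integral_add iS (iT.const_mul _), integral_const_mul, integral_indicator_const _ mS,
      smul_eq_mul, mul_one]
  -- the second part
  have h3 : Real.exp (x - n * an ρ β h) * ∫ η, ZT β h η (tube d n v r) ∂(law d ρ) ≤
      Real.exp (-2) := by
    refine (mul_le_mul_of_nonneg_left hann (Real.exp_pos _).le).trans ?_
    have e1 : Real.exp (x - n * an ρ β h) * (Real.exp (n * an ρ β h) * (4 / 5) ^ (n / m)) =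
        Real.exp x * (4 / 5) ^ (n / m) := by
      rw [← mul_assoc, ← Real.exp_add]
      congr 2
      ring
    rw [e1]
    have e2 : ((4 : ℝ) / 5) ^ (n / m) ≤ Real.exp (-(((n / m : ℕ) : ℝ) / 5)) := by
      have e3 : (4 : ℝ) / 5 ≤ Real.exp (-(1 / 5)) := by
        have := Real.add_one_le_exp (-(1 / 5 : ℝ))
        linarith
      refine (pow_le_pow_left₀ (by norm_num) e3 _).trans (le_of_eq ?_)
      rw [← Real.exp_nat_mul]
      congr 1
      ring
    refine (mul_le_mul_of_nonneg_left e2 (Real.exp_pos x).le).trans ?_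
    rw [← Real.exp_add, Real.exp_le_exp]
    -- the numbers
    obtain ⟨l, hl⟩ : ∃ l : ℝ, l = Real.log ((n : ℝ) + 2) := ⟨_, rfl⟩
    rw [← hl] at hlog
    have hl2 : Real.log 2 ≤ l := by
      rw [hl]
      exact Real.log_le_log (by norm_num) (by linarith)
    have hl3 := Real.log_two_gt_d9
    have hl1 : 1 / 2 ≤ l := by linarith
    have hb' : b = (2 * (n : ℝ) + 1) ^ d := by
      rw [hb, card_boxF]
      push_cast
      rfl
    have hLl : L + 3 ≤ (8 + 2 * d) * l := by
      have g1 : L = 2 * Real.log 2 + d * Real.log (2 * (n : ℝ) + 1) := by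
        rw [hL, hb', Real.log_mul (by norm_num) (by positivity), Real.log_pow,
          show (4 : ℝ) = 2 ^ 2 by norm_num, Real.log_pow]
        norm_num
      have g2 : Real.log (2 * (n : ℝ) + 1) ≤ 2 * l := by
        rw [hl, show (2 : ℝ) * Real.log ((n : ℝ) + 2) = Real.log (((n : ℝ) + 2) ^ 2) by
          rw [Real.log_pow]; norm_num]
        exact Real.log_le_log (by linarith) (by nlinarith)
      have g3 := mul_le_mul_of_nonneg_left g2 hd0
      rw [g1]
      nlinarith
    have hxl : x + 3 ≤ D * l := by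
      have g1 := mul_le_mul_of_nonneg_left hLl hKp.le
      rw [hx, hD]
      nlinarith
    have hdiv : (n : ℝ) / m - 1 ≤ ((n / m : ℕ) : ℝ) := by
      have g1 : n < m * (n / m + 1) := by
        have g2 := Nat.div_add_mod n m
        have g3 := Nat.mod_lt n hmN
        calc n = m * (n / m) + n % m := g2.symm
          _ < m * (n / m) + m := by omega
          _ = m * (n / m + 1) := by ring
      have g2 : (n : ℝ) < m * (((n / m : ℕ) : ℝ) + 1) := by exact_mod_cast g1
      rw [sub_le_iff_le_add, div_le_iff₀ hm0]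
      linarith
    have hnm : (n : ℝ) ^ (1 - 2 * a) ≤ (C + 1) * ((n : ℝ) / m) := by
      rw [Real.rpow_sub hn0, Real.rpow_one, ← hrr, mul_div_assoc',
        div_le_div_iff₀ (by positivity) hm0]
      nlinarith [mul_le_mul_of_nonneg_left hm2 hn0.le]
    have hfin : 5 * (D * l) ≤ (n : ℝ) / m := by
      have g1 : (C + 1) * (5 * (D * l)) ≤ (C + 1) * ((n : ℝ) / m) := by
        refine le_trans (le_of_eq ?_) (hlog.trans hnm)
        ring
      exact le_of_mul_le_mul_left g1 (by linarith)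
    linarith
  have h4 : (law d ρ).real S ≤ 1 / 4 := hlow.trans he4
  calc ∫ η, PolT β h η (tube d n v r) ∂(law d ρ)
      ≤ (law d ρ).real S + Real.exp (x - n * an ρ β h) *
        ∫ η, ZT β h η (tube d n v r) ∂(law d ρ) := by
        rw [← h2]
        exact h1
    _ ≤ 1 / 4 + 1 / 4 := add_le_add h4 (h3.trans he4)
    _ = 1 / 2 := by norm_num

end Pool.Agent.W_7d29a1_KZ.N20

namespace Pool.Agent.W_7d29a1_KZ

open MeasureTheory ProbabilityTheory Filter Topology Pool.Agent.W_MP_7d29a1_pr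
  Pool.Agent.W_7d29a1_h46 Pool.Agent.W_7d29a1_h46u Pool.Agent.W_7d29a1_Q29

/-- **Outside very strong disorder the wandering exponent is at least `1 / 2`** around every
direction, every law. -/
theorem nuNvs20 {d : ℕ} {Ω : Type*} [MeasurableSpace Ω] {μ : Measure Ω} [IsProbabilityMeasure μ]
    {ρ : Measure ℝ} [IsProbabilityMeasure ρ] {ω : ℕ × Site d → Ω → ℝ} {β : ℝ} (hd : 0 < d)
    (hω : IID μ ρ ω) (hρ : EM ρ) (hnc : ∀ c : ℝ, ρ {c} ≠ 1) (hβ : 0 < β) (h : Vec d)
    (hv : ¬ VSD ρ β h) (v : Vec d) : 1 / 2 ≤ nuT μ β ω h v := by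
  by_contra hcon
  push Not at hcon
  obtain ⟨a, ha, ha1⟩ := exists_between
    (max_lt hcon (by norm_num : (1 : ℝ) / 4 < 1 / 2))
  have ha2 : nuT μ β ω h v < a := (le_max_left _ _).trans_lt ha
  have ha3 : 0 < a := by linarith [(le_max_right (nuT μ β ω h v) (1 / 4)).trans_lt ha]
  have h1 := tube0_19 hd hω ha2 (ε := 1 / 4) (by norm_num)
  have h2 := N20.tubeN20 (β := β) hd hρ (W_7d29a1_AM.ampAll hd hρ hnc hβ) hv v ha3 ha1
  obtain ⟨n, hn1, hn2⟩ := (h1.and h2).exists
  have iP : Integrable (fun η : Env d => PolT β h η (tube d n v ((n : ℝ) ^ a))) (law d ρ) := by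
    refine Integrable.mono' (integrable_const (1 : ℝ))
      (measurable_PolT β h _).aestronglyMeasurable (Eventually.of_forall fun η => ?_)
    rw [Real.norm_eq_abs, abs_of_nonneg (PolT_nonneg β h η _)]
    exact PolT_le_one β h η _
  rw [integral_sub (integrable_const 1) iP, integral_const, probReal_univ, one_smul] at hn1
  linarith

end Pool.Agent.W_7d29a1_KZ
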