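import Pool.Agent.W_7d29a1_KZ.DefsA70
import Pool.Agent.W_7d29a1_WP.TrWP52
import Pool.Agent.W_7d29a1_WP.Main80
import Pool.Agent.W_7d29a1_SW.WDat98

/-!
`d = 2`: the exponent `ν(h, v)` of the problem is larger than `1 / 2` at almost every velocity and
every tilt, from Theorem KZ for all large `n` and the core of the power law.
-/

namespace Pool.Agent.W_7d29a1_KZ

open MeasureTheory ProbabilityTheory Filter Topology Pool.Agent.W_MP_7d29a1_pr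
  Pool.Agent.W_7d29a1_h46 Pool.Agent.W_7d29a1_h46u Pool.Agent.W_7d29a1_D2.B35
  Pool.Agent.W_7d29a1_Q29 Pool.Agent.W_7d29a1_R34 Pool.Agent.W_7d29a1_SP Pool.Agent.W_7d29a1_SD
  Pool.Agent.W_7d29a1_SQ Pool.Agent.W_7d29a1_SW Pool.Agent.W_7d29a1_WP

/-- Superdiffusivity with a power: the tube of radius `n ^ (1 / 2 + δ)` is not typical. -/
def NuP (ρ : Measure ℝ) (β : ℝ) : Prop := ∀ᵐ v : Vec 2, ∀ h : Vec 2, VSD ρ β h →
  ∃ δ : ℝ, 0 < δ ∧ ¬ HalfD ρ β h v δ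

/-- The radius. -/
lemma rad52 {e : ℝ} (he : e ≤ 1 / 4) : ∀ᶠ n : ℕ in atTop,
    Real.sqrt n * ((n : ℝ) + 1) ^ e ≤ (n : ℝ) ^ (9 / 10 : ℝ) := by
  have h1 : ∀ᶠ n : ℕ in atTop, (2 : ℝ) ≤ (n : ℝ) ^ (1 / 10 : ℝ) :=
    ((tendsto_rpow_atTop (by norm_num)).comp tendsto_natCast_atTop_atTop).eventually_ge_atTop 2
  filter_upwards [h1, eventually_ge_atTop 1] with n hn hn1
  have hn0 : (1 : ℝ) ≤ n := by exact_mod_cast hn1
  have hn0' : (0 : ℝ) < n := by linarith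
  have h2 : ((n : ℝ) + 1) ^ e ≤ (2 * (n : ℝ)) ^ (1 / 4 : ℝ) :=
    (Real.rpow_le_rpow_of_exponent_le (by linarith) he).trans
      (Real.rpow_le_rpow (by linarith) (by linarith) (by norm_num))
  have h3 : (2 * (n : ℝ)) ^ (1 / 4 : ℝ) ≤ 2 * (n : ℝ) ^ (1 / 4 : ℝ) := by
    rw [Real.mul_rpow (by norm_num) hn0'.le]
    refine mul_le_mul_of_nonneg_right ?_ (by positivity)
    calc (2 : ℝ) ^ (1 / 4 : ℝ) ≤ (2 : ℝ) ^ (1 : ℝ) :=
          Real.rpow_le_rpow_of_exponent_le (by norm_num) (by norm_num)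
      _ = 2 := Real.rpow_one 2
  calc Real.sqrt n * ((n : ℝ) + 1) ^ e ≤ (n : ℝ) ^ (1 / 2 : ℝ) * (2 * (n : ℝ) ^ (1 / 4 : ℝ)) := by
        rw [Real.sqrt_eq_rpow]
        exact mul_le_mul_of_nonneg_left (h2.trans h3) (by positivity)
    _ ≤ (n : ℝ) ^ (1 / 2 : ℝ) * ((n : ℝ) ^ (1 / 10 : ℝ) * (n : ℝ) ^ (1 / 4 : ℝ)) :=
        mul_le_mul_of_nonneg_left (mul_le_mul_of_nonneg_right hn (by positivity)) (by positivity)
    _ = (n : ℝ) ^ (17 / 20 : ℝ) := by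
        rw [← Real.rpow_add hn0', ← Real.rpow_add hn0']
        norm_num
    _ ≤ (n : ℝ) ^ (9 / 10 : ℝ) := Real.rpow_le_rpow_of_exponent_le hn0 (by norm_num)

/-- **`d = 2`, almost every velocity, every tilt of very strong disorder: superdiffusive.** -/
theorem nuP52 {ρ : Measure ℝ} [IsProbabilityMeasure ρ] (hρ : EM ρ) {β : ℝ} (hK : MainKA 2 ρ β)
    (hP : PointPL ρ β) : NuP ρ β := by
  filter_upwards [hK] with v hv h hV
  obtain ⟨g, hg⟩ : ∃ g : ℝ, g = Real.log (Phi h) + Real.log (∫ t, Real.exp (β * t) ∂ρ) -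
    lam ρ β h := ⟨_, rfl⟩
  have hg0 : 0 < g := by
    unfold VSD at hV
    linarith
  obtain ⟨ε, hε0, hε1, hno⟩ := hP g hg0
  by_contra hcon
  have hHD : ∀ δ : ℝ, 0 < δ → HalfD ρ β h v δ := fun δ hδ => by
    by_contra h1
    exact hcon ⟨δ, hδ, h1⟩
  obtain ⟨e, he⟩ : ∃ e : ℝ, e = min ε (1 / 4) := ⟨_, rfl⟩
  have he0 : 0 < e := by
    rw [he]
    exact lt_min hε0 (by norm_num)
  have heε : e ≤ ε := he ▸ min_le_left _ _
  have he4 : e ≤ 1 / 4 := he ▸ min_le_right _ _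
  have hA := hv h hV (e / 8) (by linarith) (by linarith) (hHD (e / 8) (by linarith)) (e / 3)
    (by linarith)
  obtain ⟨Q, R, hQ, hD⟩ := dat98 two_pos hρ (β := β) h v (fun n : ℕ => ((n : ℝ) + 1) ^ e)
    (fun n => Real.one_le_rpow (by linarith [Nat.cast_nonneg (α := ℝ) n]) he0.le) (rad52 he4)
    (fun η hη => by
      filter_upwards [hA, hHD (e / 8) (by linarith) (η / 2) (by linarith), eventually_ge_atTop 1]
        with n hn1 hn2 hn3
      have hn0 : (1 : ℝ) ≤ n := by exact_mod_cast hn3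
      refine ⟨hn1.1.trans ?_, ?_⟩
      · exact (Real.rpow_le_rpow_of_exponent_le hn0 (by linarith)).trans
          (Real.rpow_le_rpow (by linarith) (by linarith) he0.le)
      · have h3 : (n : ℝ) ^ (e / 8) * Real.sqrt n ≤ Real.sqrt n * ((n : ℝ) + 1) ^ e := by
          rw [mul_comm]
          refine mul_le_mul_of_nonneg_left ?_ (Real.sqrt_nonneg _)
          exact (Real.rpow_le_rpow_of_exponent_le hn0 (by linarith)).trans
            (Real.rpow_le_rpow (by linarith) (by linarith) he0.le)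
        have h4 := tb_mono52 (ρ := ρ) (β := β) two_pos h v n h3
        unfold Tb at hn2
        linarith)
  refine hno h v Q R hQ ⟨by linarith, fun n t ht => ?_, fun t => ?_, hD.rate⟩
  · exact (loc_mono80 β h v ht (mul_le_mul_of_nonneg_right
      (pg_mono80 (by linarith) le_rfl heε n) (Real.sqrt_nonneg _))).trans (hD.loc n t ht)
  · exact (hD.var t).trans (pg_mono80 (by linarith) le_rfl heε t)

variable {Ω : Type*} [MeasurableSpace Ω] {μ : Measure Ω} [IsProbabilityMeasure μ] {d : ℕ}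
  {ρ : Measure ℝ} [IsProbabilityMeasure ρ] {ω : ℕ × Site d → Ω → ℝ} {β : ℝ}

/-- The tube is not typical: the exponent of the problem. -/
theorem nuT_half52 (hd : 0 < d) (hω : IID μ ρ ω) {h v : Vec d} {δ : ℝ}
    (H : ¬ HalfD ρ β h v δ) : 1 / 2 + δ ≤ nuT μ β ω h v := by
  have H' : ∃ ε : ℝ, 0 < ε ∧ ∃ᶠ n : ℕ in atTop, ε ≤ Tb ρ β h v ((n : ℝ) ^ δ) n := by
    by_contra hcon
    refine H fun ε hε => ?_
    by_contra h1
    refine hcon ⟨ε, hε, fun h2 => h1 ?_⟩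
    filter_upwards [h2] with n hn
    exact (not_le.1 hn).le
  obtain ⟨ε, hε, h1⟩ := H'
  refine nuT_fr52 hd hω hε ((h1.and_eventually (eventually_ge_atTop 1)).mono fun n hn => ?_)
  have hn0 : (0 : ℝ) < n := by exact_mod_cast hn.2
  have e1 : (n : ℝ) ^ (1 / 2 + δ) = (n : ℝ) ^ δ * Real.sqrt n := by
    rw [Real.sqrt_eq_rpow, ← Real.rpow_add hn0]
    congr 1
    ring
  rw [e1]
  exact hn.1

/-- **`d = 2`, every `β > 0`: `ν(h, v) > 1 / 2` for the exponent of the problem, at almost every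
velocity and every tilt.** -/
theorem trNuP52 (hω : IID μ ρ ω) (hρ : EM ρ) (hnc : ∀ c : ℝ, ρ {c} ≠ 1) (hβ : 0 < β)
    (hd : d = 2) (hM : NuP ρ β) : ∀ᵐ v : Vec d, ∀ h : Vec d, 1 / 2 < nuT μ β ω h v := by
  subst hd
  filter_upwards [hM] with v hv h
  obtain ⟨δ, hδ, H⟩ := hv h (W_7d29a1_L2.vsd2 hρ hnc hβ h)
  have := nuT_half52 two_pos hω H
  linarith

/-- Numbers: `1 ≤ d ν + 2 χ` and `χ ≤ 2 ν - 1` give `3 ≤ (d + 4) ν`. -/
theorem nu35_52 {n : ℕ} {ν χ : ℝ} (h1 : 1 ≤ n * ν + 2 * χ) (h2 : χ ≤ 2 * ν - 1) :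
    3 ≤ ((n : ℝ) + 4) * ν ∧ (1 - n * ν) / 2 ≤ χ := by
  constructor <;> linarith

/-- `d = 1`: `3 / 5 ≤ ν` and `(1 - ν) / 2 ≤ χ`. -/
theorem nu35_one52 {ν χ : ℝ} (h1 : 1 ≤ ((1 : ℕ) : ℝ) * ν + 2 * χ) (h2 : χ ≤ 2 * ν - 1) :
    3 / 5 ≤ ν ∧ (1 - ν) / 2 ≤ χ := by
  push_cast at h1
  constructor <;> linarith

end Pool.Agent.W_7d29a1_KZ
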