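import Pool.Agent.W_7d29a1_KZ.DefsZ70
import Pool.Agent.W_7d29a1_SQ.SscF35

/-!
Theorem KZ: at a right record the random fluctuation is lucky for free, and the same scale counting
bounds it by the resampling bound.
-/

namespace Pool.Agent.W_7d29a1_KZ

open MeasureTheory ProbabilityTheory Filter Topology Pool.Agent.W_MP_7d29a1_pr
  Pool.Agent.W_7d29a1_h46 Pool.Agent.W_7d29a1_h46u Pool.Agent.W_7d29a1_D2 Pool.Agent.W_7d29a1_Q29
  Pool.Agent.W_7d29a1_R34 Pool.Agent.W_7d29a1_SP Pool.Agent.W_7d29a1_SD Pool.Agent.W_7d29a1_SQ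

variable {d : ℕ} {ρ : Measure ℝ} {β : ℝ}

/-- **Leaf REC.** -/
theorem recK70 [IsProbabilityMeasure ρ] (hF : FluP d ρ β) (hB : BalP d ρ β) (hA : AmpP d ρ β)
    (hS : SscF d ρ β) (hPs : ∀ (h : Vec d) (n : ℕ), 1 ≤ Ps ρ β h n)
    (hle : ∀ (h : Vec d) (k n : ℕ), k ≤ n → En ρ β h k ≤ Ps ρ β h n ∧ Fn ρ β h k ≤ Ps ρ β h n) :
    RecK d ρ β := by
  intro c₀ D K hc hD hK
  have hKR : (1 : ℝ) ≤ K := by exact_mod_cast hK
  obtain ⟨Cs, δs, hCs, hδs, kS⟩ := hS c₀ hc
  have hD0 : 0 < D := by linarith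
  have hCs0 : 0 < Cs := by linarith
  obtain ⟨c₁, hc₁, kF⟩ := hF c₀ (1 / D) hc (by positivity) K
  obtain ⟨c₂, hc₂, kB⟩ := hB c₀ (1 / (16 * D)) hc (by positivity) K
  have hCK : 1 ≤ Cs * K := one_le_mul_of_one_le_of_one_le hCs hKR
  have hCKD : 1 ≤ Cs * K * D := one_le_mul_of_one_le_of_one_le hCK hD
  obtain ⟨Ca, ca, hCa, hca, kA⟩ := hA (32 * (Cs * K * D)) (by linarith)
  set q : ℝ := min c₁ c₂ with hq
  have hq0 : 0 < q := lt_min hc₁ hc₂
  set q' : ℝ := ca * q ^ Ca with hq'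
  have hq'0 : 0 < q' := mul_pos hca (Real.rpow_pos_of_pos hq0 _)
  refine ⟨min δs (q' / Cs), min (c₀ / 4) 1, 1, lt_min hδs (by positivity),
    lt_min (by positivity) one_pos, min_le_right _ _, ?_⟩
  intro h hL n hn m hm hmn hDF M hM hRS
  have hP1 := hPs h n
  set P : ℝ := Ps ρ β h n with hP
  have hP0 : 0 < P := by linarith
  have hFm : 1 / D * P ≤ Fn ρ β h m := by
    rw [div_mul_eq_mul_div, one_mul, div_le_iff₀ hD0]
    linarith
  have h1 := kF h hL n hn m hm hmn hFm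
  have h2 := kB h hL n hn m hm hmn
  have h3 : q ≤ (law d ρ).real {η | A ρ β h m + 1 / (8 * D) * P < X β h η m} := by
    refine (min_le_left _ _).trans (h1.trans (measureReal_mono fun η hη => ?_))
    have hη1 : A ρ β h m + Fn ρ β h m / 8 < X β h η m := hη
    show A ρ β h m + 1 / (8 * D) * P < X β h η m
    have e : 1 / (8 * D) * P = 1 / D * P / 8 := by
      field_simp
    rw [e]
    linarith
  have h4 : q ≤ (law d ρ).real {η | X β h η m ≤ A ρ β h m + 1 / (16 * D) * P} :=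
    (min_le_right _ _).trans h2
  have e0 : 1 / (8 * D) * P = 2 * (1 / (16 * D) * P) := by
    field_simp
    ring
  have hx0 : 0 < 1 / (16 * D) * P := by positivity
  have h5 := kA h m (A ρ β h m + 1 / (16 * D) * P) (A ρ β h m + 1 / (8 * D) * P) q hq0
    (by linarith) h4 h3
  rw [← hq'] at h5
  have h6 : Cs * min δs (q' / Cs) ≤
      (law d ρ).real {η | A ρ β h m + 2 * Cs * K * P ≤ X β h η m} := by
    have h7 : Cs * min δs (q' / Cs) ≤ q' := by
      calc Cs * min δs (q' / Cs) ≤ Cs * (q' / Cs) :=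
            mul_le_mul_of_nonneg_left (min_le_right _ _) hCs0.le
        _ = q' := by field_simp
    refine h7.trans (h5.trans (measureReal_mono fun η hη => ?_))
    have hη1 : A ρ β h m + 1 / (8 * D) * P + 32 * (Cs * K * D) *
      (A ρ β h m + 1 / (8 * D) * P - (A ρ β h m + 1 / (16 * D) * P)) < X β h η m := hη
    show A ρ β h m + 2 * Cs * K * P ≤ X β h η m
    have e : 32 * (Cs * K * D) *
        (A ρ β h m + 1 / (8 * D) * P - (A ρ β h m + 1 / (16 * D) * P)) = 2 * Cs * K * P := by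
      field_simp
      ring
    rw [e] at hη1
    linarith [show 0 < 1 / (8 * D) * P by positivity]
  -- the fluctuations up to `m`
  have hn1 : 1 ≤ n := hn.1
  have hn0 : (0 : ℝ) < n := by exact_mod_cast hn1
  have hnK : n ≤ K * n := by nlinarith
  have hPK : Ps ρ β h (K * n) ≤ K * P := by
    have h7 := hn.2 (K * n) hnK
    have e : (((K * n : ℕ) : ℝ) / n) = K := by
      push_cast
      field_simp
    rw [e] at h7
    have h8 : (K : ℝ) ^ (2 / 3 : ℝ) ≤ (K : ℝ) ^ (1 : ℝ) :=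
      Real.rpow_le_rpow_of_exponent_le hKR (by norm_num)
    rw [Real.rpow_one] at h8
    calc Ps ρ β h (K * n) ≤ P * (K : ℝ) ^ (2 / 3 : ℝ) := h7
      _ ≤ P * K := mul_le_mul_of_nonneg_left h8 hP0.le
      _ = K * P := mul_comm _ _
  have h7 := kS h hL (min (c₀ / 4) 1) m (2 * Cs * K * P) M (min δs (q' / Cs)) (K * P)
    (lt_min (by positivity) one_pos) (min_le_left _ _) hm hM (lt_min hδs (by positivity))
    (min_le_left _ _) hRS (fun k hk => ⟨(hle h k (K * n) (hk.trans hmn)).1.trans hPK,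
      (hle h k (K * n) (hk.trans hmn)).2.trans hPK⟩) h6
  have h8 : Cs * (2 * (K * P)) ≤ Cs * (K * P + M + 1) := by
    calc Cs * (2 * (K * P)) = 2 * Cs * K * P := by ring
      _ ≤ _ := h7
  have h9 := le_of_mul_le_mul_left h8 hCs0
  have h10 : P ≤ K * P := le_mul_of_one_le_left hP0.le hKR
  linarith

end Pool.Agent.W_7d29a1_KZ
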