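import Pool.Agent.W_7d29a1_KZ.SelK70
import Pool.Agent.W_7d29a1_KZ.RecK70
import Pool.Agent.W_7d29a1_KZ.Dom44
import Pool.Agent.W_7d29a1_KZ.Gap42
import Pool.Agent.W_7d29a1_KZ.PriK74
import Pool.Agent.W_7d29a1_KZ.All27
import Pool.Agent.W_7d29a1_KZ.DefsA70
import Pool.Agent.W_7d29a1_UN.FinN70
import Pool.Agent.W_7d29a1_SQ.Flu78
import Pool.Agent.W_7d29a1_SQ.Tai94
import Pool.Agent.W_7d29a1_SQ.BalP62
import Pool.Agent.W_7d29a1_SQ.Ehl84
import Pool.Agent.W_7d29a1_SD.Rs6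
import Pool.Agent.W_7d29a1_SD.MainS70

/-!
Theorem KZ: no hypothesis left, for the laws of the convex functions of a Gaussian variable.
-/

namespace Pool.Agent.W_7d29a1_KZ

open MeasureTheory ProbabilityTheory Filter Topology Pool.Agent.W_MP_7d29a1_pr
  Pool.Agent.W_7d29a1_h46 Pool.Agent.W_7d29a1_h46u Pool.Agent.W_7d29a1_D2.B35
  Pool.Agent.W_7d29a1_Q29 Pool.Agent.W_7d29a1_R34 Pool.Agent.W_7d29a1_SP Pool.Agent.W_7d29a1_SD
  Pool.Agent.W_7d29a1_SQ

variable {d : ℕ} {ρ : Measure ℝ} {β : ℝ}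

/-- Leaf REC for the laws in `GC`. -/
theorem recKF70 [IsProbabilityMeasure ρ] (hd : 0 < d) (hρ : EM ρ) (hG : GC ρ) (hβ : 0 < β) :
    RecK d ρ β := by
  have hT : TaiP d ρ β := tai94 (cnt79 hd hρ β)
  exact recK70 (flu78 hd hρ hT) (balP62 hd hρ hT (ehl84 hd hG hβ.le)) (amp84 hd hG hβ.le)
    (sscF35 hd hρ β) (fun h n => one_le_Ps32 h n) fun h k n hk =>
      ⟨(En_le_Ps32 h hk).trans (by linarith), (Fn_le_Ps32 h hk).trans (by linarith)⟩

/-- The running maxima of the two fluctuations at all lengths. -/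
theorem psKCF70 [IsProbabilityMeasure ρ] (hd : 0 < d) (hρ : EM ρ) (hG : GC ρ) (hβ : 0 < β) :
    PsKC d ρ β :=
  psKC27 (selK70 hd hρ (pairS6 hd β)) (domK44 hd hρ (gapK42 hd hρ hG hβ.le))
    (recKF70 hd hρ hG hβ) (P74.priK74 hd hρ β) fun _ hV => Pool.Agent.W_7d29a1_UN.loc1N hd hρ hV

/-- **THEOREM KZ** at all lengths, with constants, no hypothesis left (laws in `GC`). -/
theorem mainKCF70 [IsProbabilityMeasure ρ] (hd : 0 < d) (hρ : EM ρ) (hG : GC ρ) (hβ : 0 < β) :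
    MainKC d ρ β :=
  mainKCs27 hd hρ (psKCF70 hd hρ hG hβ) (cnt79 hd hρ β) (ehl84 hd hG hβ.le) fun _ hV =>
    Pool.Agent.W_7d29a1_UN.loc1N hd hρ hV

/-- The form without constants. -/
theorem mainKA_of70 (H : MainKC d ρ β) : MainKA d ρ β := by
  unfold MainKC at H
  unfold MainKA
  filter_upwards [H] with v hv h hV δ h0 h1 hT x hx
  obtain ⟨y, hy⟩ : ∃ y : ℝ, y = (2 * δ + x) / 2 := ⟨_, rfl⟩
  obtain ⟨C, hC, hK⟩ := hv h hV δ h0 h1 hT y (by linarith)
  have hxy : 0 < x - y := by linarith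
  have hlim := ((tendsto_rpow_atTop hxy).comp tendsto_natCast_atTop_atTop).eventually
    (eventually_ge_atTop C)
  filter_upwards [hlim, eventually_ge_atTop 1] with n hn hn1
  have hn' : C ≤ (n : ℝ) ^ (x - y) := hn
  have hnR : (1 : ℝ) ≤ n := by exact_mod_cast hn1
  have hn0 : (0 : ℝ) < n := by linarith
  obtain ⟨e1, e2, -⟩ := hK n hn1
  constructor
  · refine e1.trans ((mul_le_mul_of_nonneg_right hn' (by positivity)).trans ?_)
    rw [← Real.rpow_add hn0]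
    exact Real.rpow_le_rpow_of_exponent_le hnR (by linarith)
  · refine e2.trans ((mul_le_mul_of_nonneg_right hn' (by positivity)).trans ?_)
    rw [← Real.rpow_add hn0]
    exact Real.rpow_le_rpow_of_exponent_le hnR (by linarith)

/-- **THEOREM KZ** at all large lengths, no hypothesis left (laws in `GC`). -/
theorem mainKAF70 [IsProbabilityMeasure ρ] (hd : 0 < d) (hρ : EM ρ) (hG : GC ρ) (hβ : 0 < β) :
    MainKA d ρ β :=
  mainKA_of70 (mainKCF70 hd hρ hG hβ)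

end Pool.Agent.W_7d29a1_KZ
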