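import Pool.Agent.W_7d29a1_KZ.SelG5
import Pool.Agent.W_7d29a1_KZ.FinG5
import Pool.Agent.W_7d29a1_QM.GamU42

/-!
The KPZ relation with the growth exponent, every law, every dimension: at almost every tilt `h` and
every slope `v`, and at almost every velocity `v` and every tilt `h` with slope `v`, if the limiting
free energy grows at `h` with the exponent `G > 1` then `(G - 1) χ' = max (G ν - 1) 0` (helper5).
-/

set_option autoImplicit false

namespace Pool.Agent.W_7d29a1_KZ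

open MeasureTheory ProbabilityTheory Filter Topology Pool.Agent.W_MP_7d29a1_pr
  Pool.Agent.W_7d29a1_h46 Pool.Agent.W_7d29a1_h46u Pool.Agent.W_7d29a1_D2
  Pool.Agent.W_7d29a1_D2.B35 Pool.Agent.W_7d29a1_Q29 Pool.Agent.W_7d29a1_R34
  Pool.Agent.W_7d29a1_SP Pool.Agent.W_7d29a1_SD Pool.Agent.W_7d29a1_UC
  Pool.Agent.W_7d29a1_KL Pool.Agent.W_7d29a1_KP

variable {d : ℕ} {ρ : Measure ℝ} [IsProbabilityMeasure ρ] {β : ℝ}

/-- The bound is uniform in the powers. -/
lemma rat5b {G a X : ℝ} (hG : 1 < G) (h : (G * a - 1) / (G - 1) < X) :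
    ∃ p p' : ℝ, G < p ∧ 0 < p' ∧ p' < G ∧
      1 - X < (1 / 2 - (a - 1 / 2)) * p' / (p - 1) ∧
      1 / 2 + (a - 1 / 2) - X < (1 / 2 - (a - 1 / 2)) / (p - 1) := by
  have hG1 : 0 < G - 1 := by linarith
  rw [div_lt_iff₀ hG1] at h
  obtain ⟨D, hD⟩ : ∃ D : ℝ, D = 1 - a * G + X * (G - 1) := ⟨_, rfl⟩
  have hD0 : 0 < D := by
    rw [hD]
    linarith
  obtain ⟨M, hM⟩ : ∃ M : ℝ, M = |1 - a| + |1 - X| + |a - X| + 1 := ⟨_, rfl⟩
  have hM0 : 0 < M := by
    rw [hM]
    positivity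
  obtain ⟨t, ht⟩ : ∃ t : ℝ, t = min (D / (2 * M)) ((G - 1) / 2) := ⟨_, rfl⟩
  have ht0 : 0 < t := by
    rw [ht]
    exact lt_min (by positivity) (by linarith)
  have ht1 : t ≤ (G - 1) / 2 := by
    rw [ht]
    exact min_le_right _ _
  have ht2 : t * M ≤ D / 2 := by
    have h1 : t ≤ D / (2 * M) := by
      rw [ht]
      exact min_le_left _ _
    rw [le_div_iff₀ (by positivity)] at h1
    linarith
  have a1 := abs_nonneg (1 - a)
  have a2 := abs_nonneg (1 - X)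
  have a3 := abs_nonneg (a - X)
  have b1 := le_abs_self (1 - a)
  have b2 := le_abs_self (1 - X)
  have b3 := le_abs_self (a - X)
  have c1 : t * ((1 - a) + (1 - X)) ≤ t * M :=
    mul_le_mul_of_nonneg_left (by rw [hM]; linarith) ht0.le
  have c2 : t * (a - X) ≤ t * M := mul_le_mul_of_nonneg_left (by rw [hM]; linarith) ht0.le
  refine ⟨G + t, G - t, by linarith, by linarith, by linarith, ?_, ?_⟩
  · rw [lt_div_iff₀ (by linarith)]
    nlinarith
  · rw [lt_div_iff₀ (by linarith)]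
    nlinarith

variable {Ω : Type*} [MeasurableSpace Ω] {μ : Measure Ω} [IsProbabilityMeasure μ]
  {ω : ℕ × Site d → Ω → ℝ}

/-- The upper bound of the fluctuations at one tilt. -/
theorem upG5 (hd : 0 < d) (hω : IID μ ρ ω) (hρ : EM ρ) (hnc : ∀ c : ℝ, ρ {c} ≠ 1)
    (hβ : 0 < β) {h v : Vec d} {G : ℝ} (hG : 1 < G)
    (hS : ∀ a X : ℝ, a < 1 → 0 ≤ X → (G * a - 1) / (G - 1) < X → HalfD ρ β h v (a - 1 / 2) →
      RSa ρ β h (X / 2)) (hν : nuP μ β ω h v < 1) {x : ℝ}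
    (hx : max ((G * nuP μ β ω h v - 1) / (G - 1)) 0 < x) :
    FlucLe μ β ω h (lamN ρ β h) x := by
  have hG1 : 0 < G - 1 := by linarith
  have hG0 : 0 < G := by linarith
  have hx0 : 0 < x := (le_max_right _ _).trans_lt hx
  have key : ∀ᶠ n : ℕ in atTop, Va ρ β h n ≤ (n : ℝ) ^ (2 * x) ∧ En ρ β h n ≤ (n : ℝ) ^ x := by
    by_cases hV : VSD ρ β h
    · obtain ⟨c₀, hc₀, hloc⟩ := W_7d29a1_UN.loc1N hd hρ hV
      have h1 : max ((G * nuP μ β ω h v - 1) / (G - 1)) 0 < 1 := by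
        refine max_lt ?_ one_pos
        rw [div_lt_iff₀ hG1]
        nlinarith
      obtain ⟨X, hX1, hX2⟩ := exists_between (lt_min hx h1)
      have hX0 : 0 ≤ X := (le_max_right _ _).trans hX1.le
      have hX3 : (G * nuP μ β ω h v - 1) / (G - 1) < X := (le_max_left _ _).trans_lt hX1
      have hXx : X < x := hX2.trans_le (min_le_left _ _)
      have hXo : X < 1 := hX2.trans_le (min_le_right _ _)
      have h2 : nuP μ β ω h v < (X * (G - 1) + 1) / G := by
        rw [div_lt_iff₀ hG1] at hX3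
        rw [lt_div_iff₀ hG0]
        linarith
      obtain ⟨a, ha1, ha2⟩ := exists_between (lt_min hν h2)
      have ha3 : a < 1 := ha2.trans_le (min_le_left _ _)
      have ha4 : (G * a - 1) / (G - 1) < X := by
        have h3 := ha2.trans_le (min_le_right _ _)
        rw [lt_div_iff₀ hG0] at h3
        rw [div_lt_iff₀ hG1]
        linarith
      have hH := halfP19 hd hω ha1
      have hH' : HalfD ρ β h v (max (a - 1 / 2) 0) := by
        intro ε hε
        filter_upwards [hH ε hε, eventually_ge_atTop 1] with n hn hn1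
        have hnR : (1 : ℝ) ≤ n := by exact_mod_cast hn1
        exact (Tb_antiZ β h v n
          (Real.rpow_le_rpow_of_exponent_le hnR (le_max_left _ _))).trans hn
      exact ptG5 (domKAll5 hd hρ hnc hβ) (recKAll5 hd hρ hnc hβ) (varFAll5 hd hρ hnc hβ)
        (P74.priK74 hd hρ β) hc₀ hloc (le_max_right _ _)
        (max_lt (by linarith) (by norm_num)) hH' (by linarith) (by linarith)
        (hS a X ha3 hX0 ha4 hH) (by linarith)
    · obtain ⟨C, hC⟩ := nvsP20 hd hρ hnc hβ h hV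
      filter_upwards [log_pow19 hx0 C] with n hn
      exact ⟨(hC n).1.trans hn.2, (hC n).2.trans hn.1⟩
  unfold FlucLe
  filter_upwards [key] with n h2
  rw [varV19 hd hω hρ, en19 hd hω hρ]
  exact ⟨h2.1, En_nonneg15 hd hρ β h n, h2.2⟩

/-- A bound for all smaller powers is a bound for the power. -/
lemma limG5 {G a b : ℝ} (hG : 1 < G) (h0 : 0 ≤ b) (H : ∀ p : ℝ, 1 ≤ p → p < G → p * a ≤ b) :
    G * a ≤ b := by
  rcases le_or_gt a 0 with ha | ha
  · exact (mul_nonpos_of_nonneg_of_nonpos (by linarith) ha).trans h0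
  · rw [← le_div_iff₀ ha]
    refine le_of_forall_lt_imp_le_of_dense fun p hp => ?_
    refine (le_max_left p 1).trans ?_
    rw [le_div_iff₀ ha]
    exact H _ (le_max_right _ _) (max_lt hp hG)

/-- The relation at one tilt, and the upper bound of the fluctuations. -/
theorem eqG5 (hd : 0 < d) (hω : IID μ ρ ω) (hρ : EM ρ) (hnc : ∀ c : ℝ, ρ {c} ≠ 1)
    (hβ : 0 < β) {h v : Vec d} {G : ℝ} (hG : 1 < G)
    (hU : ∀ p : ℝ, p < G → UpG (lam ρ β) h v p)
    (hS : ∀ a X : ℝ, a < 1 → 0 ≤ X → (G * a - 1) / (G - 1) < X → HalfD ρ β h v (a - 1 / 2) →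
      RSa ρ β h (X / 2)) :
    (G - 1) * chiV μ β ω h = max (G * nuT μ β ω h v - 1) 0 ∧
    (G - 1) * chiV μ β ω h = max (G * nuP μ β ω h v - 1) 0 ∧
    ∀ x : ℝ, chiV μ β ω h < x → FlucLe μ β ω h (lamN ρ β h) x := by
  have hG1 : 0 < G - 1 := by linarith
  have hc := chiV_le_half19 (μ := μ) (β := β) hd hω hρ h
  have hc0 : 0 ≤ chiV μ β ω h := Real.sInf_nonneg fun b hb => hb.1.le
  have hPT := nuP_le_nuT19 (μ := μ) (β := β) (ρ := ρ) hd hω h v
  have hT : G * nuT μ β ω h v ≤ 1 + (G - 1) * chiV μ β ω h := by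
    have h1 : G * (nuT μ β ω h v - chiV μ β ω h) ≤ 1 - chiV μ β ω h := by
      refine limG5 hG (by linarith) fun p hp1 hp2 => ?_
      have h2 := W_7d29a1_CV.upTU42 (μ := μ) (ω := ω) hd hω hρ hnc hβ h v p hp1 (hU p hp2)
      linarith
    linarith
  have hP : G * nuP μ β ω h v ≤ 1 + (G - 1) * chiV μ β ω h := by
    have := mul_le_mul_of_nonneg_left hPT (show 0 ≤ G by linarith)
    linarith
  have hν : nuP μ β ω h v < 1 := by
    by_contra hcon
    rw [not_lt] at hcon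
    nlinarith
  have hup : chiV μ β ω h ≤ max ((G * nuP μ β ω h v - 1) / (G - 1)) 0 := by
    refine le_of_forall_gt_imp_ge_of_dense fun x hx => ?_
    exact csInf_le ⟨0, fun b hb => hb.1.le⟩ ⟨(le_max_right _ _).trans_lt hx,
      (upG5 hd hω hρ hnc hβ hG hS hν hx).mono fun n h3 => h3.1⟩
  have hup2 : (G - 1) * chiV μ β ω h ≤ max (G * nuP μ β ω h v - 1) 0 := by
    have h1 := mul_le_mul_of_nonneg_left hup hG1.le
    rwa [mul_max_of_nonneg _ _ hG1.le, mul_div_cancel₀ _ hG1.ne', mul_zero] at h1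
  have h0 : 0 ≤ (G - 1) * chiV μ β ω h := mul_nonneg hG1.le hc0
  have eP : (G - 1) * chiV μ β ω h = max (G * nuP μ β ω h v - 1) 0 :=
    le_antisymm hup2 (max_le (by linarith) h0)
  have eT : (G - 1) * chiV μ β ω h = max (G * nuT μ β ω h v - 1) 0 := by
    refine le_antisymm (hup2.trans (max_le_max ?_ le_rfl)) (max_le (by linarith) h0)
    have := mul_le_mul_of_nonneg_left hPT (show 0 ≤ G by linarith)
    linarith
  refine ⟨eT, eP, fun x hx => ?_⟩
  refine upG5 hd hω hρ hnc hβ hG hS hν ?_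
  have e : max ((G * nuP μ β ω h v - 1) / (G - 1)) 0 = chiV μ β ω h := by
    have h1 : (G - 1) * max ((G * nuP μ β ω h v - 1) / (G - 1)) 0 =
        (G - 1) * chiV μ β ω h := by
      rw [eP, mul_max_of_nonneg _ _ hG1.le, mul_div_cancel₀ _ hG1.ne', mul_zero]
    exact mul_left_cancel₀ hG1.ne' h1
  rw [e]
  exact hx

/-- **THEOREM KPG, almost every tilt.** -/
theorem kpgH5 (hd : 0 < d) (hω : IID μ ρ ω) (hρ : EM ρ) (hnc : ∀ c : ℝ, ρ {c} ≠ 1)
    (hβ : 0 < β) : ∀ᵐ h : Vec d, ∀ v : Vec d,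
      (∀ k : Vec d, lam ρ β h + inner ℝ v k ≤ lam ρ β (h + k)) → ∀ G : ℝ, 1 < G →
      (∀ p : ℝ, p < G → UpG (lam ρ β) h v p) → (∀ p : ℝ, G < p → LoA (lam ρ β) h v p) →
        (G - 1) * chiV μ β ω h = max (G * nuT μ β ω h v - 1) 0 ∧
        (G - 1) * chiV μ β ω h = max (G * nuP μ β ω h v - 1) 0 ∧
        ∀ x : ℝ, chiV μ β ω h < x → FlucLe μ β ω h (lamN ρ β h) x := by
  filter_upwards [selHG5 hd hρ (pairS6 hd β)] with h hh v hv G hG hU hL
  refine eqG5 hd hω hρ hnc hβ hG hU fun a X ha hX haX hH => ?_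
  obtain ⟨p, p', h1, h2, h3, h4, h5⟩ := rat5b hG haX
  exact hh v hv p p' (a - 1 / 2) X (hG.trans h1) h2 (hU p' h3) (hL p h1) hX (by linarith) h4 h5 hH

/-- **THEOREM KPG, almost every velocity.** -/
theorem kpgV5 (hd : 0 < d) (hω : IID μ ρ ω) (hρ : EM ρ) (hnc : ∀ c : ℝ, ρ {c} ≠ 1)
    (hβ : 0 < β) : ∀ᵐ v : Vec d, ∀ h : Vec d,
      (∀ k : Vec d, lam ρ β h + inner ℝ v k ≤ lam ρ β (h + k)) → ∀ G : ℝ, 1 < G →
      (∀ p : ℝ, p < G → UpG (lam ρ β) h v p) → (∀ p : ℝ, G < p → LoE5 (lam ρ β) h v p) →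
        (G - 1) * chiV μ β ω h = max (G * nuT μ β ω h v - 1) 0 ∧
        (G - 1) * chiV μ β ω h = max (G * nuP μ β ω h v - 1) 0 ∧
        ∀ x : ℝ, chiV μ β ω h < x → FlucLe μ β ω h (lamN ρ β h) x := by
  filter_upwards [selVG5 hd hρ (pairS6 hd β)] with v hh h hv G hG hU hL
  refine eqG5 hd hω hρ hnc hβ hG hU fun a X ha hX haX hH => ?_
  obtain ⟨p, p', h1, h2, h3, h4, h5⟩ := rat5b hG haX
  exact hh h hv p (a - 1 / 2) X (hG.trans h1) (hL p h1) hX (by linarith) h5 hH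

end Pool.Agent.W_7d29a1_KZ
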