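import Pool.Agent.W_7d29a1_KZ.DefsZ70

/-! Theorem KZ, leaf RRA: right records with the exponent `a` (helper44). -/

set_option autoImplicit false

namespace Pool.Agent.W_7d29a1_KZ

open Filter Topology

/-- **Leaf RRA.** -/
theorem rraP44 : RraP := by
  intro a b C f hb hba hC hf1 hf N
  set N' : ℕ := max N 1 with hN'
  have hN1 : 1 ≤ N' := le_max_right _ _
  set g : ℕ → ℝ := fun n => f n / (n : ℝ) ^ a with hg
  have ha : 0 < a := hb.trans hba
  have hlim : Tendsto (fun n : ℕ => (n : ℝ) ^ (-a) + C * (n : ℝ) ^ (b - a)) atTop (𝓝 (0 + C * 0)) := by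
    have h1 : Tendsto (fun n : ℕ => (n : ℝ) ^ (-a)) atTop (𝓝 0) :=
      (tendsto_rpow_neg_atTop ha).comp tendsto_natCast_atTop_atTop
    have h2 : Tendsto (fun n : ℕ => (n : ℝ) ^ (b - a)) atTop (𝓝 0) := by
      have h3 := (tendsto_rpow_neg_atTop (show 0 < a - b by linarith)).comp
        (tendsto_natCast_atTop_atTop (R := ℝ))
      refine h3.congr fun n => ?_
      simp only [Function.comp]
      congr 1
      ring
    exact h1.add (h2.const_mul C)
  rw [mul_zero, add_zero] at hlim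
  have hN'0 : (0 : ℝ) < N' := by exact_mod_cast hN1
  have hgpos : 0 < g N' := div_pos (lt_of_lt_of_le one_pos (hf1 N')) (Real.rpow_pos_of_pos hN'0 a)
  obtain ⟨n₁, hn₁⟩ := eventually_atTop.1 (hlim.eventually (gt_mem_nhds hgpos))
  have hgle : ∀ n : ℕ, 1 ≤ n → g n ≤ (n : ℝ) ^ (-a) + C * (n : ℝ) ^ (b - a) := by
    intro n hn
    have hn0 : (0 : ℝ) < n := by exact_mod_cast hn
    have hp := Real.rpow_pos_of_pos hn0 a
    have h1 : g n ≤ (1 + C * (n : ℝ) ^ b) / (n : ℝ) ^ a :=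
      div_le_div_of_nonneg_right (hf n) hp.le
    refine h1.trans (le_of_eq ?_)
    rw [Real.rpow_neg hn0.le, Real.rpow_sub hn0, add_div]
    ring
  set s : Finset ℕ := Finset.Icc N' (max n₁ N') with hs
  obtain ⟨n, hn, hmax⟩ := s.exists_max_image g ⟨N', Finset.mem_Icc.2 ⟨le_rfl, le_max_right _ _⟩⟩
  have hn2 := Finset.mem_Icc.1 hn
  have hN'n : N' ≤ n := hn2.1
  have hn1 : 1 ≤ n := hN1.trans hN'n
  refine ⟨n, (le_max_left _ _).trans hN'n, hn1, fun T hT => ?_⟩
  have hT1 : 1 ≤ T := hn1.trans hT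
  have hn0 : (0 : ℝ) < n := by exact_mod_cast hn1
  have hT0 : (0 : ℝ) < T := by exact_mod_cast hT1
  have hgT : g T ≤ g n := by
    rcases le_or_gt T (max n₁ N') with h | h
    · exact hmax T (Finset.mem_Icc.2 ⟨hN'n.trans hT, h⟩)
    · have h1 := hn₁ T ((le_max_left _ _).trans h.le)
      have h2 := hmax N' (Finset.mem_Icc.2 ⟨le_rfl, le_max_right _ _⟩)
      exact ((hgle T hT1).trans h1.le).trans h2
  have hpT := Real.rpow_pos_of_pos hT0 a
  have hpn := Real.rpow_pos_of_pos hn0 a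
  have h3 : f T / (T : ℝ) ^ a ≤ f n / (n : ℝ) ^ a := hgT
  rw [div_le_iff₀ hpT] at h3
  refine h3.trans (le_of_eq ?_)
  rw [Real.div_rpow hT0.le hn0.le]
  field_simp

end Pool.Agent.W_7d29a1_KZ
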