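import Pool.Agent.W_7d29a1_KZ.DefsZ70

/-!
Theorem KZ, leaf RRA: right records with the exponent `a`.
-/

namespace Pool.Agent.W_7d29a1_KZ

open MeasureTheory ProbabilityTheory Filter Topology

/-- **Leaf RRA.** -/
theorem rraP45 : RraP := by
  intro a b C f hb hba hC hf1 hpol N
  have ha : 0 < a := hb.trans hba
  obtain ⟨n, hn⟩ : ∃ n : ℕ, n = max N 1 := ⟨_, rfl⟩
  have hnN : N ≤ n := by rw [hn]; exact le_max_left _ _
  have hn1 : 1 ≤ n := by rw [hn]; exact le_max_right _ _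
  obtain ⟨g, hg⟩ : ∃ g : ℕ → ℝ, g = fun T => f T * (T : ℝ) ^ (-a) := ⟨_, rfl⟩
  have hcast : Tendsto (fun T : ℕ => (T : ℝ)) atTop atTop := tendsto_natCast_atTop_atTop
  have h1 : Tendsto (fun T : ℕ => (T : ℝ) ^ (-a)) atTop (𝓝 0) :=
    (tendsto_rpow_neg_atTop ha).comp hcast
  have h2 : Tendsto (fun T : ℕ => (T : ℝ) ^ (-(a - b))) atTop (𝓝 0) :=
    (tendsto_rpow_neg_atTop (by linarith)).comp hcast
  have hlim : Tendsto g atTop (𝓝 0) := by
    have h3 : Tendsto (fun T : ℕ => (T : ℝ) ^ (-a) + C * (T : ℝ) ^ (-(a - b))) atTop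
        (𝓝 (0 + C * 0)) := h1.add (h2.const_mul C)
    rw [mul_zero, add_zero] at h3
    refine squeeze_zero' (Eventually.of_forall fun T => ?_) ?_ h3
    · rw [hg]
      have := hf1 T
      have h4 : (0 : ℝ) ≤ (T : ℝ) ^ (-a) := by positivity
      exact mul_nonneg (by linarith) h4
    · filter_upwards [eventually_ge_atTop 1] with T hT
      have hT0 : (0 : ℝ) < T := by exact_mod_cast hT
      have h4 : (0 : ℝ) ≤ (T : ℝ) ^ (-a) := by positivity
      have h5 := mul_le_mul_of_nonneg_right (hpol T) h4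
      have h6 : (T : ℝ) ^ b * (T : ℝ) ^ (-a) = (T : ℝ) ^ (-(a - b)) := by
        rw [← Real.rpow_add hT0]
        congr 1
        ring
      have h7 : (1 + C * (T : ℝ) ^ b) * (T : ℝ) ^ (-a) =
          (T : ℝ) ^ (-a) + C * ((T : ℝ) ^ b * (T : ℝ) ^ (-a)) := by
        ring
      rw [h7, h6] at h5
      rw [hg]
      exact h5
  have hn0 : (0 : ℝ) < n := by exact_mod_cast hn1
  have hgn : 0 < g n := by
    rw [hg]
    have := hf1 n
    have h4 : (0 : ℝ) < (n : ℝ) ^ (-a) := by positivity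
    exact mul_pos (by linarith) h4
  obtain ⟨N', hN'⟩ := eventually_atTop.1 (hlim.eventually (gt_mem_nhds hgn))
  obtain ⟨n', hn', hmax⟩ := Finset.exists_max_image (Finset.Icc n (max N' n)) g
    ⟨n, Finset.mem_Icc.2 ⟨le_rfl, le_max_right _ _⟩⟩
  have hnn : n ≤ n' := (Finset.mem_Icc.1 hn').1
  have hall : ∀ T : ℕ, n ≤ T → g T ≤ g n' := by
    intro T hT
    rcases le_or_gt T (max N' n) with h | h
    · exact hmax T (Finset.mem_Icc.2 ⟨hT, h⟩)
    · have h3 := hN' T ((le_max_left _ _).trans h.le)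
      have h4 := hmax n (Finset.mem_Icc.2 ⟨le_rfl, le_max_right _ _⟩)
      linarith
  refine ⟨n', hnN.trans hnn, hn1.trans hnn, fun T hT => ?_⟩
  have h3 := hall T (hnn.trans hT)
  have hn'0 : (0 : ℝ) < n' := by exact_mod_cast (hn1.trans hnn)
  have hT0 : (0 : ℝ) < T := by exact_mod_cast (hn1.trans (hnn.trans hT))
  rw [hg] at h3
  have h4 : (0 : ℝ) < (T : ℝ) ^ a := by positivity
  have h5 := mul_le_mul_of_nonneg_right h3 h4.le
  have h6 : (T : ℝ) ^ (-a) * (T : ℝ) ^ a = 1 := by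
    rw [← Real.rpow_add hT0]
    norm_num
  have h7 : f T * (T : ℝ) ^ (-a) * (T : ℝ) ^ a = f T := by
    rw [mul_assoc, h6, mul_one]
  have h8 : f n' * (n' : ℝ) ^ (-a) * (T : ℝ) ^ a = f n' * ((T : ℝ) / n') ^ a := by
    rw [Real.div_rpow hT0.le hn'0.le, Real.rpow_neg hn'0.le]
    ring
  simp only at h5
  rw [h7, h8] at h5
  exact h5

end Pool.Agent.W_7d29a1_KZ
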