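import Pool.Agent.W_7d29a1_KZ.SelH70

/-!
Theorem KZ with a growth exponent: the selection of the partners at almost every tilt and at almost
every velocity, when the limiting free energy grows with any power (helper5, after SelH70 and
SelK70).
-/

set_option autoImplicit false

namespace Pool.Agent.W_7d29a1_KZ

open MeasureTheory ProbabilityTheory Filter Topology Pool.Agent.W_MP_7d29a1_pr
  Pool.Agent.W_7d29a1_h46 Pool.Agent.W_7d29a1_h46u Pool.Agent.W_7d29a1_D2 Pool.Agent.W_7d29a1_Q29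
  Pool.Agent.W_7d29a1_SP Pool.Agent.W_7d29a1_SD

variable {d : ℕ} {ρ : Measure ℝ} {β : ℝ}

/-- `c ‖r‖ ^ p ≤ L (h + r) - L h - ⟨v, r⟩` for all small `r`. -/
def LoE5 (L : Vec d → ℝ) (h v : Vec d) (p : ℝ) : Prop :=
  ∃ c : ℝ, 0 < c ∧ ∃ δ : ℝ, 0 < δ ∧ ∀ r : Vec d, ‖r‖ ≤ δ → c * ‖r‖ ^ p ≤ gap L h v r

lemma subUp5 {L : Vec d → ℝ} {h v r y : Vec d} {C s δ p : ℝ} (hC : 0 ≤ C) (hp : 0 < p)
    (hs : 0 < s) (hr : ‖r‖ ≤ 3 * s) (hδ : 4 * s ≤ δ)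
    (hU : ∀ r : Vec d, ‖r‖ ≤ δ → gap L h v r ≤ C * ‖r‖ ^ p)
    (hv : ∀ k : Vec d, L h + inner ℝ v k ≤ L (h + k))
    (hy : ∀ k : Vec d, L (h + r) + inner ℝ y k ≤ L (h + r + k)) :
    ‖y - v‖ ≤ C * (4 * s) ^ p / s := by
  obtain ⟨w, hw⟩ : ∃ w : Vec d, w = y - v := ⟨_, rfl⟩
  rw [← hw]
  rcases (norm_nonneg w).eq_or_lt with h0 | h0
  · rw [← h0]
    positivity
  have hn : ‖(s / ‖w‖) • w‖ = s := by
    rw [norm_smul, Real.norm_eq_abs, abs_of_pos (by positivity), div_mul_cancel₀ _ h0.ne']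
  have h1 := hy ((s / ‖w‖) • w)
  have h2 : ‖r + (s / ‖w‖) • w‖ ≤ 4 * s := by
    refine (norm_add_le _ _).trans ?_
    rw [hn]
    linarith
  have h3 := hU (r + (s / ‖w‖) • w) (h2.trans hδ)
  have h4 := hv r
  unfold gap at h3
  rw [inner_add_right, inner_smul_right, ← add_assoc] at h3
  rw [inner_smul_right] at h1
  have h5 : inner ℝ y w - inner ℝ v w = ‖w‖ ^ 2 := by
    rw [← inner_sub_left, ← hw, real_inner_self_eq_norm_sq]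
  have h6 : s / ‖w‖ * ‖w‖ ^ 2 = s * ‖w‖ := by
    field_simp
  have h7 : C * ‖r + (s / ‖w‖) • w‖ ^ p ≤ C * (4 * s) ^ p :=
    mul_le_mul_of_nonneg_left (Real.rpow_le_rpow (norm_nonneg _) h2 hp.le) hC
  rw [le_div_iff₀ hs]
  have h8 : s * ‖w‖ ≤ C * (4 * s) ^ p := by
    rw [← h6, ← h5]
    nlinarith
  linarith

/-- The tilts of near velocities are near. -/
lemma dual5 {L : Vec d → ℝ} (hL : ConvexOn ℝ Set.univ L) {h v g y : Vec d} {c δ p τ : ℝ}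
    (hc : 0 < c) (hδ : 0 < δ) (hp : 1 < p)
    (hLo : ∀ r : Vec d, ‖r‖ ≤ δ → c * ‖r‖ ^ p ≤ gap L h v r)
    (hy : ∀ k : Vec d, L g + inner ℝ y k ≤ L (g + k)) (hyv : ‖y - v‖ ≤ τ)
    (hτ : τ < c * δ ^ (p - 1)) : ‖g - h‖ ≤ (τ / c) ^ (1 / (p - 1)) := by
  have hp1 : 0 < p - 1 := by linarith
  have hτ0 : 0 ≤ τ := (norm_nonneg _).trans hyv
  obtain ⟨D, hD⟩ : ∃ D : ℝ, D = ‖g - h‖ := ⟨_, rfl⟩
  have hD0 : 0 ≤ D := by rw [hD]; exact norm_nonneg _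
  rw [← hD]
  rcases hD0.eq_or_lt with h0 | h0
  · rw [← h0]
    positivity
  have hgap : gap L h v (g - h) ≤ τ * D := by
    have h1 := hy (h - g)
    have e1 : g + (h - g) = h := by abel
    have e2 : h + (g - h) = g := by abel
    rw [e1] at h1
    unfold gap
    rw [e2]
    have h2 : inner ℝ (y - v) (g - h) ≤ ‖y - v‖ * ‖g - h‖ := real_inner_le_norm _ _
    have h3 : inner ℝ y (h - g) = -inner ℝ y (g - h) := by
      rw [← inner_neg_right]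
      congr 1
      abel
    rw [inner_sub_left] at h2
    have h4 : ‖y - v‖ * ‖g - h‖ ≤ τ * D := by
      rw [← hD]
      exact mul_le_mul_of_nonneg_right hyv hD0
    linarith
  rcases le_or_gt D δ with hle | hgt
  · have h1 := hLo (g - h) (by rw [← hD]; exact hle)
    rw [← hD] at h1
    have h2 : D ^ p = D ^ (p - 1) * D := by
      rw [← Real.rpow_add_one h0.ne']
      congr 1
      ring
    rw [h2] at h1
    have h3 : (c * D ^ (p - 1)) * D ≤ τ * D := by linarith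
    have h4 := le_of_mul_le_mul_right h3 h0
    have h5 : D ^ (p - 1) ≤ τ / c := by
      rw [le_div_iff₀ hc]
      linarith
    have h6 := Real.rpow_le_rpow (Real.rpow_nonneg hD0 _) h5
      (show 0 ≤ 1 / (p - 1) by positivity)
    rwa [← Real.rpow_mul hD0, mul_one_div_cancel hp1.ne', Real.rpow_one] at h6
  · exfalso
    obtain ⟨l, hl⟩ : ∃ l : ℝ, l = δ / D := ⟨_, rfl⟩
    have hl0 : 0 < l := by rw [hl]; positivity
    have hl1 : l ≤ 1 := by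
      rw [hl, div_le_one h0]
      exact hgt.le
    have hn : ‖l • (g - h)‖ = δ := by
      rw [norm_smul, Real.norm_eq_abs, abs_of_pos hl0, ← hD, hl, div_mul_cancel₀ _ h0.ne']
    have h1 := hLo (l • (g - h)) (by rw [hn])
    rw [hn] at h1
    have h2 : gap L h v (l • (g - h)) ≤ l * gap L h v (g - h) := by
      have h3 := hL.2 (Set.mem_univ h) (Set.mem_univ g) (show 0 ≤ 1 - l by linarith) hl0.le
        (by ring)
      have e1 : (1 - l) • h + l • g = h + l • (g - h) := by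
        rw [smul_sub, sub_smul, one_smul]
        abel
      have e2 : h + (g - h) = g := by abel
      rw [e1, smul_eq_mul, smul_eq_mul] at h3
      unfold gap
      rw [e2, inner_smul_right]
      nlinarith
    have h3 : c * δ ^ p ≤ δ * τ := by
      have h4 := mul_le_mul_of_nonneg_left hgap hl0.le
      have h5 : l * (τ * D) = δ * τ := by
        rw [hl]
        field_simp
      linarith
    have h4 : δ ^ p = δ ^ (p - 1) * δ := by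
      rw [← Real.rpow_add_one hδ.ne']
      congr 1
      ring
    rw [h4] at h3
    have h5 : (c * δ ^ (p - 1)) * δ ≤ τ * δ := by linarith
    have h6 := le_of_mul_le_mul_right h5 hδ
    linarith

/-- A rational exponent of the tube. -/
lemma rat5 {δ X p p' : ℝ} (hp : 1 < p) (hp' : 0 < p') (hδ : δ < 1 / 2)
    (hX1 : 1 - X < (1 / 2 - δ) * p' / (p - 1))
    (hX2 : 1 / 2 + δ - X < (1 / 2 - δ) / (p - 1)) : ∃ q : ℚ, δ < (q : ℝ) ∧ (q : ℝ) < 1 / 2 ∧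
      1 - (1 / 2 - (q : ℝ)) / (p - 1) * p' ≤ X ∧
      1 / 2 + (q : ℝ) - (1 / 2 - (q : ℝ)) / (p - 1) ≤ X := by
  have hp1 : 0 < p - 1 := by linarith
  have h1 : δ < 1 / 2 - (1 - X) * (p - 1) / p' := by
    rw [lt_div_iff₀ hp1] at hX1
    have h2 : (1 - X) * (p - 1) / p' < 1 / 2 - δ := by
      rw [div_lt_iff₀ hp']
      exact hX1
    linarith
  have h2 : δ < ((X - 1 / 2) * (p - 1) + 1 / 2) / p := by
    rw [lt_div_iff₀ hp1] at hX2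
    rw [lt_div_iff₀ (by linarith)]
    nlinarith
  obtain ⟨q, hq1, hq2⟩ := exists_rat_btwn (lt_min hδ (lt_min h1 h2))
  have k1 := hq2.trans_le (min_le_left _ _)
  have k2 := hq2.trans_le ((min_le_right _ _).trans (min_le_left _ _))
  have k3 := hq2.trans_le ((min_le_right _ _).trans (min_le_right _ _))
  refine ⟨q, hq1, k1, ?_, ?_⟩
  · have h3 : (1 - X) * (p - 1) / p' < 1 / 2 - (q : ℝ) := by linarith
    rw [div_lt_iff₀ hp'] at h3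
    have h4 : 1 - X ≤ (1 / 2 - (q : ℝ)) * p' / (p - 1) := by
      rw [le_div_iff₀ hp1]
      exact h3.le
    have e : (1 / 2 - (q : ℝ)) / (p - 1) * p' = (1 / 2 - (q : ℝ)) * p' / (p - 1) := by ring
    rw [e]
    linarith
  · rw [lt_div_iff₀ (by linarith)] at k3
    have h4 : 1 / 2 + (q : ℝ) - X ≤ (1 / 2 - (q : ℝ)) / (p - 1) := by
      rw [le_div_iff₀ hp1]
      nlinarith
    linarith

lemma pow5a {L q : ℝ} (hL : 0 < L) : L ^ q / Real.sqrt L = L ^ (-(1 / 2 - q) : ℝ) := by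
  rw [Real.sqrt_eq_rpow, ← Real.rpow_sub hL]
  congr 1
  ring

lemma pow5b {L q t : ℝ} (hL : 0 < L) :
    L ^ (-t) * Real.sqrt L * L ^ q = L ^ (1 / 2 + q - t) := by
  rw [Real.sqrt_eq_rpow, ← Real.rpow_add hL, ← Real.rpow_add hL]
  congr 1
  ring

/-- The resampling bound at almost every tilt, growth with the powers `p'`, `p`. -/
theorem selHG5 [IsProbabilityMeasure ρ] (hd : 0 < d) (hρ : EM ρ) (hP : PairS d ρ β) :
    ∀ᵐ h : Vec d, ∀ v : Vec d, (∀ k : Vec d, lam ρ β h + inner ℝ v k ≤ lam ρ β (h + k)) →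
      ∀ p p' δ X : ℝ, 1 < p → 0 < p' → UpG (lam ρ β) h v p' → LoA (lam ρ β) h v p → 0 ≤ X →
        δ < 1 / 2 → 1 - X < (1 / 2 - δ) * p' / (p - 1) →
        1 / 2 + δ - X < (1 / 2 - δ) / (p - 1) → HalfD ρ β h v δ → RSa ρ β h (X / 2) := by
  classical
  obtain ⟨E, hE⟩ : ∃ E : ℕ → ℚ → ℕ → Set (Vec d), E = fun (j : ℕ) (q : ℚ) (N : ℕ) =>
    {h | ∃ v : Vec d, (∀ k : Vec d, lam ρ β h + inner ℝ v k ≤ lam ρ β (h + k)) ∧
      ∀ n : ℕ, N ≤ n → Tb ρ β h v ((n : ℝ) ^ (q : ℝ)) n ≤ 1 / ((j : ℝ) + 1)} := ⟨_, rfl⟩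
  have hden : ∀ᵐ h : Vec d, ∀ (j : ℕ) (q : ℚ) (N : ℕ), h ∈ E j q N → ∀ ε : ℝ, 0 < ε →
      ∃ δ : ℝ, 0 < δ ∧ ∀ r : Vec d, 0 < ‖r‖ → ‖r‖ < δ → ∃ k ∈ E j q N,
        ‖k - (h + r)‖ ≤ ε * ‖r‖ :=
    ae_all_iff.2 fun j => ae_all_iff.2 fun q => ae_all_iff.2 fun N => ae_den70 (E j q N)
  filter_upwards [hden] with h hd1 v hsub p p' δ X hp hp' hUp hLo hX hδ hX1 hX2 hT₁
  intro κ ε hκ hκ1 hε
  have hp1 : 0 < p - 1 := by linarith
  obtain ⟨C₀, δu, hδu, HU₀⟩ := hUp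
  obtain ⟨C, hC⟩ : ∃ C : ℝ, C = max C₀ 0 := ⟨_, rfl⟩
  have hC0 : 0 ≤ C := by
    rw [hC]
    exact le_max_right _ _
  have HU : ∀ r : Vec d, ‖r‖ ≤ δu → gap (lam ρ β) h v r ≤ C * ‖r‖ ^ p' := by
    intro r hr
    refine (HU₀ r hr).trans (mul_le_mul_of_nonneg_right ?_ (Real.rpow_nonneg (norm_nonneg _) _))
    rw [hC]
    exact le_max_left _ _
  obtain ⟨q, hq1, hq2, hA1, hA2⟩ := rat5 hp hp' hδ hX1 hX2
  obtain ⟨j, hj⟩ := exists_nat_ge (10 / ε)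
  have hj0 : (0 : ℝ) < (j : ℝ) + 1 := by positivity
  obtain ⟨γ, hγ⟩ : ∃ γ : ℝ, γ = (q : ℝ) := ⟨_, rfl⟩
  rw [← hγ] at hq1 hq2 hA1 hA2
  have hjε : 10 * (1 / ((j : ℝ) + 1)) ≤ ε := by
    rw [div_le_iff₀ hε] at hj
    rw [mul_one_div, div_le_iff₀ hj0]
    nlinarith
  have hTγ : ∀ᶠ n : ℕ in atTop, Tb ρ β h v ((n : ℝ) ^ γ) n ≤ 1 / ((j : ℝ) + 1) := by
    filter_upwards [hT₁ (1 / ((j : ℝ) + 1)) (by positivity), eventually_ge_atTop 1] with n hn hn1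
    have hnR : (1 : ℝ) ≤ n := by exact_mod_cast hn1
    exact (Tb_antiZ β h v n (Real.rpow_le_rpow_of_exponent_le hnR hq1.le)).trans hn
  obtain ⟨N, hN⟩ := eventually_atTop.1 hTγ
  have hmem : h ∈ E j q N := by
    rw [hE]
    refine ⟨v, hsub, fun n hn => ?_⟩
    rw [← hγ]
    exact hN n hn
  have hDn : DnK (fun _ : ℕ => E j q N) h := fun _ => ⟨hmem, hd1 j q N hmem⟩
  obtain ⟨c, hc, H⟩ := loAK36 (lam_convex hd hρ β) hDn hLo
  obtain ⟨δa, hδa, H⟩ := H 0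
  obtain ⟨B₀, hB₀⟩ : ∃ B₀ : ℝ, B₀ = 15 / (κ * c) := ⟨_, rfl⟩
  have hB00 : 0 < B₀ := by
    rw [hB₀]
    positivity
  obtain ⟨B₁, hB₁⟩ : ∃ B₁ : ℝ, B₁ = B₀ ^ (1 / (p - 1)) := ⟨_, rfl⟩
  have hB10 : 0 < B₁ := by
    rw [hB₁]
    positivity
  obtain ⟨t, ht⟩ : ∃ t : ℝ, t = (1 / 2 - γ) / (p - 1) := ⟨_, rfl⟩
  have ht0 : 0 < t := by
    rw [ht]
    exact div_pos (by linarith) hp1
  rw [← ht] at hA1 hA2
  refine ⟨3 * C * 4 ^ p' * B₁ ^ p' + 6 * B₁ + 6, by positivity, ?_⟩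
  have hlim : Tendsto (fun L : ℕ => B₁ * (L : ℝ) ^ (-t)) atTop (𝓝 (B₁ * 0)) :=
    (((tendsto_rpow_neg_atTop ht0).comp tendsto_natCast_atTop_atTop)).const_mul B₁
  rw [mul_zero] at hlim
  have hmin : 0 < min δa (δu / 4) := lt_min hδa (by positivity)
  have hc2 : ∀ᶠ L : ℕ in atTop, 2 / κ ≤ (L : ℝ) :=
    tendsto_natCast_atTop_atTop.eventually (eventually_ge_atTop _)
  filter_upwards [hlim.eventually (gt_mem_nhds hmin), hc2, eventually_ge_atTop 1,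
    eventually_ge_atTop N] with L h1 h2 h3 h4
  have hL1 : (1 : ℝ) ≤ L := by exact_mod_cast h3
  have hL0 : (0 : ℝ) < L := by linarith
  obtain ⟨σ, hσ⟩ : ∃ σ : ℝ, σ = Real.sqrt L := ⟨_, rfl⟩
  have hσ0 : 0 < σ := by
    rw [hσ]
    exact Real.sqrt_pos.2 hL0
  have hσσ : σ * σ = L := by
    rw [hσ]
    exact Real.mul_self_sqrt hL0.le
  obtain ⟨P, hP'⟩ : ∃ P : ℝ, P = (L : ℝ) ^ γ := ⟨_, rfl⟩
  have hP0 : 0 < P := by
    rw [hP']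
    positivity
  obtain ⟨s, hs⟩ : ∃ s : ℝ, s = B₁ * (L : ℝ) ^ (-t) := ⟨_, rfl⟩
  have hs0 : 0 < s := by
    rw [hs]
    positivity
  have hsr : s ≤ min δa (δu / 4) := by
    rw [hs]
    exact h1.le
  have hsp : s ^ (p - 1) = B₀ * (P / σ) := by
    rw [hs, Real.mul_rpow hB10.le (by positivity), hB₁, ← Real.rpow_mul hB00.le,
      one_div_mul_cancel hp1.ne', Real.rpow_one, ← Real.rpow_mul hL0.le, hP', hσ, pow5a hL0, ht]
    congr 2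
    field_simp
  obtain ⟨r, hr1, hr2, hrK, hrg⟩ := H s hs0 (hsr.trans (min_le_left _ _))
  have hrE : h + r ∈ E j q N := hrK
  rw [hE] at hrE
  obtain ⟨y, hys, hyT⟩ := hrE
  have hu := subUp5 hC0 hp' hs0 hr2 (by linarith [hsr.trans (min_le_right _ _)]) HU hsub hys
  have hl := subLo70 (c := c * s ^ p / s ^ 2) hs0 hr2 (by
    rw [div_mul_cancel₀ _ (by positivity)]
    exact hrg) hys
  have hl2 : 10 / κ * P / σ / 2 ≤ ‖y - v‖ := by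
    refine le_trans (le_of_eq ?_) hl
    have e1 : s ^ p = s ^ (p - 1) * s := by
      rw [← Real.rpow_add_one hs0.ne']
      congr 1
      ring
    rw [e1, hsp, hB₀]
    field_simp
    ring
  have h6 : ‖y - v‖ * Real.sqrt L ≤ C * (4 * s) ^ p' / s * σ := by
    rw [← hσ]
    exact mul_le_mul_of_nonneg_right hu hσ0.le
  have h7 : ‖h + r - h‖ * Real.sqrt L ≤ 3 * s * σ := by
    rw [← hσ, add_sub_cancel_left]
    exact mul_le_mul_of_nonneg_right hr2 hσ0.le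
  have h8 : 2 * P * Real.sqrt L < ((⌊κ * L⌋₊ : ℕ) : ℝ) * ‖y - v‖ := by
    rw [← hσ]
    exact algB70 hκ hσ0 hP0 hσσ h2 hl2
  have h5 : Tb ρ β h v P L ≤ 1 / ((j : ℝ) + 1) := by
    rw [hP']
    exact hN L h4
  have h5' : Tb ρ β (h + r) y P L ≤ 1 / ((j : ℝ) + 1) := by
    rw [hP', hγ]
    exact hyT L h4
  have h9 := hP h (h + r) v y L ⌊κ * L⌋₊ P (C * (4 * s) ^ p' / s * σ) (3 * s * σ)
    (1 / ((j : ℝ) + 1)) hP0.le (by positivity) (by positivity) h6 h7 h8 h5 h5'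
  refine RS_mono2 ?_ hjε h9
  have hX2' : 2 * (X / 2) = X := by ring
  rw [hX2']
  have hLX : 1 ≤ (L : ℝ) ^ X := Real.one_le_rpow hL1 hX
  have e1 : 3 * s * σ * (C * (4 * s) ^ p' / s * σ) = 3 * C * 4 ^ p' * (s ^ p' * L) := by
    rw [Real.mul_rpow (by norm_num) hs0.le, ← hσσ]
    field_simp
  have e2 : s ^ p' * L = B₁ ^ p' * (L : ℝ) ^ (1 - t * p') := by
    rw [hs, Real.mul_rpow hB10.le (by positivity), ← Real.rpow_mul hL0.le, mul_assoc,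
      ← Real.rpow_add_one hL0.ne']
    congr 2
    ring
  have e3 : 2 * (3 * s * σ) * P = 6 * B₁ * (L : ℝ) ^ (1 / 2 + γ - t) := by
    rw [← pow5b hL0, hs, hσ, hP']
    ring
  have k1 : (L : ℝ) ^ (1 - t * p') ≤ (L : ℝ) ^ X := Real.rpow_le_rpow_of_exponent_le hL1 hA1
  have k2 : (L : ℝ) ^ (1 / 2 + γ - t) ≤ (L : ℝ) ^ X := Real.rpow_le_rpow_of_exponent_le hL1 hA2
  rw [e1, e2, e3]
  have k3 : 3 * C * 4 ^ p' * (B₁ ^ p' * (L : ℝ) ^ (1 - t * p')) ≤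
      3 * C * 4 ^ p' * (B₁ ^ p' * (L : ℝ) ^ X) :=
    mul_le_mul_of_nonneg_left (mul_le_mul_of_nonneg_left k1 (by positivity)) (by positivity)
  have k4 : 6 * B₁ * (L : ℝ) ^ (1 / 2 + γ - t) ≤ 6 * B₁ * (L : ℝ) ^ X :=
    mul_le_mul_of_nonneg_left k2 (by positivity)
  have e4 : (3 * C * 4 ^ p' * B₁ ^ p' + 6 * B₁ + 6) * (L : ℝ) ^ X =
      3 * C * 4 ^ p' * (B₁ ^ p' * (L : ℝ) ^ X) + 6 * B₁ * (L : ℝ) ^ X + 6 * (L : ℝ) ^ X := by
    ring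
  rw [e4]
  linarith

/-- The resampling bound at almost every velocity, growth at least with the power `p`. -/
theorem selVG5 [IsProbabilityMeasure ρ] (hd : 0 < d) (hρ : EM ρ) (hP : PairS d ρ β) :
    ∀ᵐ v : Vec d, ∀ h : Vec d, (∀ k : Vec d, lam ρ β h + inner ℝ v k ≤ lam ρ β (h + k)) →
      ∀ p δ X : ℝ, 1 < p → LoE5 (lam ρ β) h v p → 0 ≤ X → δ < 1 / 2 →
        1 / 2 + δ - X < (1 / 2 - δ) / (p - 1) → HalfD ρ β h v δ → RSa ρ β h (X / 2) := by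
  classical
  obtain ⟨E, hE⟩ : ∃ E : ℕ → ℚ → ℕ → Set (Vec d), E = fun (j : ℕ) (q : ℚ) (N : ℕ) =>
    {v | ∃ h : Vec d, (∀ k : Vec d, lam ρ β h + inner ℝ v k ≤ lam ρ β (h + k)) ∧
      ∀ n : ℕ, N ≤ n → Tb ρ β h v ((n : ℝ) ^ (q : ℝ)) n ≤ 1 / ((j : ℝ) + 1)} := ⟨_, rfl⟩
  have hann : ∀ᵐ v : Vec d, ∀ (j : ℕ) (q : ℚ) (N : ℕ), v ∈ E j q N → Sel70.Ann (E j q N) v :=
    ae_all_iff.2 fun j => ae_all_iff.2 fun q => ae_all_iff.2 fun N => Sel70.ae_ann hd (E j q N)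
  filter_upwards [hann] with v hv1 h hsub p δ X hp hLo hX hδ hX2 hT₁
  intro κ ε hκ hκ1 hε
  have hp1 : 0 < p - 1 := by linarith
  obtain ⟨c, hc, δ₀, hδ₀, hLo⟩ := hLo
  obtain ⟨q, hq1, hq2, -, hA2⟩ := rat5 (p' := 1 + (1 + |1 - X|) * (p - 1) / (1 / 2 - δ)) hp
    (by
      have : 0 < 1 / 2 - δ := by linarith
      positivity) hδ (by
      have h1 : 0 < 1 / 2 - δ := by linarith
      rw [lt_div_iff₀ hp1]
      have h2 : (1 / 2 - δ) * (1 + (1 + |1 - X|) * (p - 1) / (1 / 2 - δ)) =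
          (1 / 2 - δ) + (1 + |1 - X|) * (p - 1) := by
        rw [mul_add, mul_one, mul_div_cancel₀ _ h1.ne']
      rw [h2]
      have h3 := le_abs_self (1 - X)
      nlinarith) hX2
  obtain ⟨j, hj⟩ := exists_nat_ge (10 / ε)
  have hj0 : (0 : ℝ) < (j : ℝ) + 1 := by positivity
  obtain ⟨γ, hγ⟩ : ∃ γ : ℝ, γ = (q : ℝ) := ⟨_, rfl⟩
  rw [← hγ] at hq1 hq2 hA2
  have hjε : 10 * (1 / ((j : ℝ) + 1)) ≤ ε := by
    rw [div_le_iff₀ hε] at hj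
    rw [mul_one_div, div_le_iff₀ hj0]
    nlinarith
  have hTγ : ∀ᶠ n : ℕ in atTop, Tb ρ β h v ((n : ℝ) ^ γ) n ≤ 1 / ((j : ℝ) + 1) := by
    filter_upwards [hT₁ (1 / ((j : ℝ) + 1)) (by positivity), eventually_ge_atTop 1] with n hn hn1
    have hnR : (1 : ℝ) ≤ n := by exact_mod_cast hn1
    exact (Tb_antiZ β h v n (Real.rpow_le_rpow_of_exponent_le hnR hq1.le)).trans hn
  obtain ⟨N, hN⟩ := eventually_atTop.1 hTγ
  have hmem : v ∈ E j q N := by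
    rw [hE]
    refine ⟨h, hsub, fun n hn => ?_⟩
    rw [← hγ]
    exact hN n hn
  obtain ⟨r₀, hr₀, hA⟩ := hv1 j q N hmem
  obtain ⟨a₀, ha₀⟩ : ∃ a₀ : ℝ, a₀ = 10 / κ := ⟨_, rfl⟩
  have ha0 : 0 < a₀ := by
    rw [ha₀]
    positivity
  obtain ⟨B₁, hB₁⟩ : ∃ B₁ : ℝ, B₁ = (a₀ / c) ^ (1 / (p - 1)) := ⟨_, rfl⟩
  have hB10 : 0 < B₁ := by
    rw [hB₁]
    positivity
  obtain ⟨t, ht⟩ : ∃ t : ℝ, t = (1 / 2 - γ) / (p - 1) := ⟨_, rfl⟩
  rw [← ht] at hA2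
  refine ⟨(a₀ + 2) * B₁ + 6, by positivity, ?_⟩
  have hlim : Tendsto (fun L : ℕ => a₀ * (L : ℝ) ^ (-(1 / 2 - γ) : ℝ)) atTop (𝓝 (a₀ * 0)) :=
    (((tendsto_rpow_neg_atTop (by linarith)).comp tendsto_natCast_atTop_atTop)).const_mul a₀
  rw [mul_zero] at hlim
  have hmin : 0 < min r₀ (c * δ₀ ^ (p - 1)) := lt_min hr₀ (by positivity)
  have hc2 : ∀ᶠ L : ℕ in atTop, 2 / κ ≤ (L : ℝ) :=
    tendsto_natCast_atTop_atTop.eventually (eventually_ge_atTop _)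
  filter_upwards [hlim.eventually (gt_mem_nhds hmin), hc2, eventually_ge_atTop 1,
    eventually_ge_atTop N] with L h1 h2 h3 h4
  have hL1 : (1 : ℝ) ≤ L := by exact_mod_cast h3
  have hL0 : (0 : ℝ) < L := by linarith
  obtain ⟨σ, hσ⟩ : ∃ σ : ℝ, σ = Real.sqrt L := ⟨_, rfl⟩
  have hσ0 : 0 < σ := by
    rw [hσ]
    exact Real.sqrt_pos.2 hL0
  have hσσ : σ * σ = L := by
    rw [hσ]
    exact Real.mul_self_sqrt hL0.le
  obtain ⟨P, hP'⟩ : ∃ P : ℝ, P = (L : ℝ) ^ γ := ⟨_, rfl⟩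
  have hP0 : 0 < P := by
    rw [hP']
    positivity
  obtain ⟨τ, hτ⟩ : ∃ τ : ℝ, τ = a₀ * P / σ := ⟨_, rfl⟩
  have hτ0 : 0 < τ := by
    rw [hτ]
    positivity
  have hτe : τ = a₀ * (L : ℝ) ^ (-(1 / 2 - γ) : ℝ) := by
    rw [hτ, mul_div_assoc, hP', hσ, pow5a hL0]
  have hτr : τ < min r₀ (c * δ₀ ^ (p - 1)) := by
    rw [hτe]
    exact h1
  obtain ⟨y, hyE, hy1, hy2⟩ := hA τ hτ0 (hτr.le.trans (min_le_left _ _))
  rw [hE] at hyE
  obtain ⟨g, hgs, hgT⟩ := hyE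
  have h5 := dual5 (lam_convex hd hρ β) hc hδ₀ hp hLo hgs hy2
    (hτr.trans_le (min_le_right _ _))
  have h5e : (τ / c) ^ (1 / (p - 1)) = B₁ * (L : ℝ) ^ (-t) := by
    have e1 : τ / c = a₀ / c * (L : ℝ) ^ (-(1 / 2 - γ) : ℝ) := by
      rw [hτe]
      ring
    rw [e1, Real.mul_rpow (by positivity) (by positivity), hB₁, ← Real.rpow_mul hL0.le, ht]
    congr 2
    ring
  rw [h5e] at h5
  have h6 : ‖y - v‖ * Real.sqrt L ≤ a₀ * P := by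
    rw [← hσ]
    rw [hτ, le_div_iff₀ hσ0] at hy2
    exact hy2
  have h7 : ‖g - h‖ * Real.sqrt L ≤ B₁ * (L : ℝ) ^ (-t) * σ := by
    rw [← hσ]
    exact mul_le_mul_of_nonneg_right h5 hσ0.le
  have h8 : 2 * P * Real.sqrt L < ((⌊κ * L⌋₊ : ℕ) : ℝ) * ‖y - v‖ := by
    rw [← hσ]
    refine algB70 hκ hσ0 hP0 hσσ h2 ?_
    rw [← ha₀, ← hτ]
    exact hy1
  have h10 : Tb ρ β h v P L ≤ 1 / ((j : ℝ) + 1) := by
    rw [hP']
    exact hN L h4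
  have h10' : Tb ρ β g y P L ≤ 1 / ((j : ℝ) + 1) := by
    rw [hP', hγ]
    exact hgT L h4
  have h9 := hP h g v y L ⌊κ * L⌋₊ P (a₀ * P) (B₁ * (L : ℝ) ^ (-t) * σ)
    (1 / ((j : ℝ) + 1)) hP0.le (by positivity) (by positivity) h6 h7 h8 h10 h10'
  refine RS_mono2 ?_ hjε h9
  have hX2' : 2 * (X / 2) = X := by ring
  rw [hX2']
  have hLX : 1 ≤ (L : ℝ) ^ X := Real.one_le_rpow hL1 hX
  have k2 : (L : ℝ) ^ (1 / 2 + γ - t) ≤ (L : ℝ) ^ X := Real.rpow_le_rpow_of_exponent_le hL1 hA2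
  have e1 : B₁ * (L : ℝ) ^ (-t) * σ * (a₀ * P) + 2 * (B₁ * (L : ℝ) ^ (-t) * σ) * P + 6 =
      (a₀ + 2) * B₁ * (L : ℝ) ^ (1 / 2 + γ - t) + 6 := by
    rw [← pow5b hL0, hσ, hP']
    ring
  rw [e1]
  have k3 : (a₀ + 2) * B₁ * (L : ℝ) ^ (1 / 2 + γ - t) ≤ (a₀ + 2) * B₁ * (L : ℝ) ^ X :=
    mul_le_mul_of_nonneg_left k2 (by positivity)
  rw [add_mul]
  linarith

end Pool.Agent.W_7d29a1_KZ
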