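import Pool.Agent.W_7d29a1_KZ.SelK70
import Pool.Agent.W_7d29a1_D2.Dens36
import Pool.Agent.W_7d29a1_D2.Dich31
import Pool.Agent.W_7d29a1_Q29.Den65

/-!
Theorem KZ at almost every tilt: the selection of the partners at a density point in the space of
the tilts.
-/

namespace Pool.Agent.W_7d29a1_KZ

open MeasureTheory ProbabilityTheory Filter Topology Pool.Agent.W_MP_7d29a1_pr
  Pool.Agent.W_7d29a1_h46 Pool.Agent.W_7d29a1_h46u Pool.Agent.W_7d29a1_D2 Pool.Agent.W_7d29a1_Q29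
  Pool.Agent.W_7d29a1_SP Pool.Agent.W_7d29a1_SD

variable {d : ℕ} {ρ : Measure ℝ} {β : ℝ}

/-- Flat to second order. -/
def Flat (L : Vec d → ℝ) (h v : Vec d) : Prop :=
  ∀ ε : ℝ, 0 < ε → ∃ δ : ℝ, 0 < δ ∧ ∀ r : Vec d, ‖r‖ ≤ δ → gap L h v r ≤ ε * ‖r‖ ^ 2

/-- Near almost every point of an arbitrary set there are points of the set in every direction. -/
lemma ae_den70 (s : Set (Vec d)) : ∀ᵐ h : Vec d, h ∈ s → ∀ ε : ℝ, 0 < ε → ∃ δ : ℝ, 0 < δ ∧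
    ∀ r : Vec d, 0 < ‖r‖ → ‖r‖ < δ → ∃ k ∈ s, ‖k - (h + r)‖ ≤ ε * ‖r‖ := by
  have h1 := Besicovitch.ae_tendsto_measure_inter_div (volume : Measure (Vec d)) s
  have h2 : ∀ᵐ h ∂(volume : Measure (Vec d)).restrict s, ∀ ε : ℝ, 0 < ε → ∃ δ : ℝ, 0 < δ ∧
      ∀ r : Vec d, 0 < ‖r‖ → ‖r‖ < δ → ∃ k ∈ s, ‖k - (h + r)‖ ≤ ε * ‖r‖ := by
    filter_upwards [h1] with x hx ε hε
    have hfrac : 0 < ENNReal.ofReal ((ε / (1 + ε)) ^ Module.finrank ℝ (Vec d)) :=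
      ENNReal.ofReal_pos.mpr (by positivity)
    have hlt : 1 - ENNReal.ofReal ((ε / (1 + ε)) ^ Module.finrank ℝ (Vec d)) < 1 :=
      ENNReal.sub_lt_self ENNReal.one_ne_top one_ne_zero hfrac.ne'
    have hev := hx.eventually (lt_mem_nhds hlt)
    rw [eventually_nhdsWithin_iff, Metric.eventually_nhds_iff] at hev
    obtain ⟨δ, hδ, hball⟩ := hev
    refine ⟨δ / (1 + ε), by positivity, fun r hr0 hr => ?_⟩
    by_contra hno
    push Not at hno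
    have hv : r ≠ 0 := norm_pos_iff.1 hr0
    have hle := D65.miss (volume : Measure (Vec d)) s hε x r hv fun y hy => by
      have e : y - x - r = y - (x + r) := by abel
      rw [e]
      exact hno y hy
    have hR : (1 + ε) * ‖r‖ < δ := by
      rw [lt_div_iff₀ (by positivity)] at hr
      linarith
    have h3 := hball (y := (1 + ε) * ‖r‖) (by
      rw [Real.dist_eq, sub_zero, abs_of_pos (by positivity)]
      exact hR) (Set.mem_Ioi.mpr (by positivity))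
    exact absurd hle (not_le.mpr h3)
  rw [ae_iff] at h2 ⊢
  refine measure_mono_null (fun v hv => ?_)
    (le_antisymm ((Measure.le_restrict_apply s {a | ¬ ∀ ε : ℝ, 0 < ε → ∃ δ : ℝ, 0 < δ ∧
      ∀ r : Vec d, 0 < ‖r‖ → ‖r‖ < δ → ∃ k ∈ s, ‖k - (a + r)‖ ≤ ε * ‖r‖}).trans h2.le) bot_le)
  rw [Set.mem_ofPred_eq, Classical.not_imp] at hv
  exact ⟨hv.2, hv.1⟩

/-- The slope is unique where there is an upper bound of second order. -/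
lemma slope_unique70 {L : Vec d → ℝ} {h v v' : Vec d} {C δ : ℝ} (hC : 0 ≤ C) (hδ : 0 < δ)
    (hU : ∀ r : Vec d, ‖r‖ ≤ δ → gap L h v' r ≤ C * ‖r‖ ^ 2)
    (hv : ∀ k : Vec d, L h + inner ℝ v k ≤ L (h + k)) : v = v' := by
  obtain ⟨w, hw⟩ : ∃ w : Vec d, w = v - v' := ⟨_, rfl⟩
  by_contra hne
  have hw0 : w ≠ 0 := by
    rw [hw]
    exact sub_ne_zero.2 hne
  have hwn : 0 < ‖w‖ := norm_pos_iff.2 hw0
  obtain ⟨t, ht⟩ : ∃ t : ℝ, t = min (δ / ‖w‖) (1 / (2 * C + 1)) := ⟨_, rfl⟩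
  have ht0 : 0 < t := by
    rw [ht]
    exact lt_min (by positivity) (by positivity)
  have ht1 : t * ‖w‖ ≤ δ := by
    rw [← le_div_iff₀ hwn, ht]
    exact min_le_left _ _
  have ht2 : t * (2 * C + 1) ≤ 1 := by
    rw [← le_div_iff₀ (by positivity), ht]
    exact min_le_right _ _
  have hn : ‖t • w‖ = t * ‖w‖ := by rw [norm_smul, Real.norm_eq_abs, abs_of_pos ht0]
  have h1 := hU (t • w) (by rw [hn]; exact ht1)
  have h2 := hv (t • w)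
  unfold gap at h1
  rw [hn] at h1
  rw [inner_smul_right] at h1 h2
  have h3 : inner ℝ v w - inner ℝ v' w = ‖w‖ ^ 2 := by
    rw [← inner_sub_left, ← hw, real_inner_self_eq_norm_sq]
  have h4 : t * ‖w‖ ^ 2 ≤ C * (t * ‖w‖) ^ 2 := by
    rw [← h3]
    linarith
  have h5 : C * (t * ‖w‖) ^ 2 = (C * t) * (t * ‖w‖ ^ 2) := by ring
  rw [h5] at h4
  have h6 : 0 < t * ‖w‖ ^ 2 := by positivity
  have h7 : C * t < 1 := by nlinarith
  nlinarith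

lemma subUp70 {L : Vec d → ℝ} {h v r y : Vec d} {C s δ : ℝ} (hC : 0 ≤ C) (hs : 0 < s)
    (hr : ‖r‖ ≤ 3 * s) (hδ : 4 * s ≤ δ)
    (hU : ∀ r : Vec d, ‖r‖ ≤ δ → gap L h v r ≤ C * ‖r‖ ^ 2)
    (hv : ∀ k : Vec d, L h + inner ℝ v k ≤ L (h + k))
    (hy : ∀ k : Vec d, L (h + r) + inner ℝ y k ≤ L (h + r + k)) : ‖y - v‖ ≤ 16 * C * s := by
  obtain ⟨w, hw⟩ : ∃ w : Vec d, w = y - v := ⟨_, rfl⟩
  rw [← hw]
  rcases (norm_nonneg w).eq_or_lt with h0 | h0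
  · rw [← h0]
    positivity
  have hn : ‖(s / ‖w‖) • w‖ = s := by
    rw [norm_smul, Real.norm_eq_abs, abs_of_pos (by positivity), div_mul_cancel₀ _ h0.ne']
  have h1 := hy ((s / ‖w‖) • w)
  have h2 : ‖r + (s / ‖w‖) • w‖ ≤ 4 * s := by
    refine (norm_add_le _ _).trans ?_
    rw [hn]
    linarith
  have h3 := hU (r + (s / ‖w‖) • w) (h2.trans hδ)
  have h4 := hv r
  unfold gap at h3
  rw [inner_add_right, inner_smul_right, ← add_assoc] at h3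
  rw [inner_smul_right] at h1
  have h5 : inner ℝ y w - inner ℝ v w = ‖w‖ ^ 2 := by
    rw [← inner_sub_left, ← hw, real_inner_self_eq_norm_sq]
  have h6 : s / ‖w‖ * ‖w‖ ^ 2 = s * ‖w‖ := by
    field_simp
  have h7 : C * ‖r + (s / ‖w‖) • w‖ ^ 2 ≤ C * (4 * s) ^ 2 :=
    mul_le_mul_of_nonneg_left (pow_le_pow_left₀ (norm_nonneg _) h2 2) hC
  have h8 : s * ‖w‖ ≤ 16 * C * s * s := by
    rw [← h6, ← h5]
    nlinarith
  have h9 : ‖w‖ * s ≤ 16 * C * s * s := by linarith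
  exact le_of_mul_le_mul_right h9 hs

lemma subLo70 {L : Vec d → ℝ} {h v r y : Vec d} {c s : ℝ} (hs : 0 < s) (hr : ‖r‖ ≤ 3 * s)
    (hg : c * s ^ 2 ≤ gap L h v r)
    (hy : ∀ k : Vec d, L (h + r) + inner ℝ y k ≤ L (h + r + k)) : c * s / 3 ≤ ‖y - v‖ := by
  have h1 := hy (-r)
  have e : h + r + -r = h := by abel
  rw [e, inner_neg_right] at h1
  unfold gap at hg
  have h2 : inner ℝ (y - v) r ≤ ‖y - v‖ * ‖r‖ := real_inner_le_norm _ _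
  rw [inner_sub_left] at h2
  have h3 : ‖y - v‖ * ‖r‖ ≤ ‖y - v‖ * (3 * s) := mul_le_mul_of_nonneg_left hr (norm_nonneg _)
  have h4 : c * s / 3 * (3 * s) ≤ ‖y - v‖ * (3 * s) := by nlinarith
  exact le_of_mul_le_mul_right h4 (by positivity)

/-- Leaf SEL at almost every tilt. -/
def SelH (d : ℕ) (ρ : Measure ℝ) (β : ℝ) : Prop := ∀ᵐ h : Vec d, ∀ v : Vec d,
  (∀ k : Vec d, lam ρ β h + inner ℝ v k ≤ lam ρ β (h + k)) → Flat (lam ρ β) h v ∨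
    ∀ δ γ : ℝ, 0 ≤ δ → δ < γ → γ < 1 / 2 → HalfD ρ β h v δ → RSa ρ β h γ

lemma algD70 {κ c P s : ℝ} (hκ : 0 < κ) (hc : 0 < c) :
    c * (15 / (κ * c) * P / s) / 3 = 10 / κ * P / s / 2 := by
  rcases eq_or_ne s 0 with h0 | h0
  · rw [h0]
    simp
  · field_simp
    ring

lemma algE70 {C a P : ℝ} (hP : 1 ≤ P * P) :
    3 * (a * P) * (16 * C * (a * P)) + 2 * (3 * (a * P)) * P + 6 ≤
      (48 * C * a ^ 2 + 6 * a + 6) * (P * P) := by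
  have e1 : 3 * (a * P) * (16 * C * (a * P)) = 48 * C * a ^ 2 * (P * P) := by ring
  have e2 : 2 * (3 * (a * P)) * P = 6 * a * (P * P) := by ring
  have e3 : (48 * C * a ^ 2 + 6 * a + 6) * (P * P) =
      48 * C * a ^ 2 * (P * P) + 6 * a * (P * P) + 6 * (P * P) := by ring
  rw [e1, e2, e3]
  linarith

/-- **Leaf SEL at almost every tilt.** -/
theorem selH70 [IsProbabilityMeasure ρ] (hd : 0 < d) (hρ : EM ρ) (hP : PairS d ρ β) :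
    SelH d ρ β := by
  classical
  obtain ⟨E, hE⟩ : ∃ E : ℕ → ℚ → ℕ → Set (Vec d), E = fun (j : ℕ) (q : ℚ) (N : ℕ) =>
    {h | ∃ v : Vec d, (∀ k : Vec d, lam ρ β h + inner ℝ v k ≤ lam ρ β (h + k)) ∧
      ∀ n : ℕ, N ≤ n → Tb ρ β h v ((n : ℝ) ^ (q : ℝ)) n ≤ 1 / ((j : ℝ) + 1)} := ⟨_, rfl⟩
  have hden : ∀ᵐ h : Vec d, ∀ (j : ℕ) (q : ℚ) (N : ℕ), h ∈ E j q N → ∀ ε : ℝ, 0 < ε →
      ∃ δ : ℝ, 0 < δ ∧ ∀ r : Vec d, 0 < ‖r‖ → ‖r‖ < δ → ∃ k ∈ E j q N,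
        ‖k - (h + r)‖ ≤ ε * ‖r‖ :=
    ae_all_iff.2 fun j => ae_all_iff.2 fun q => ae_all_iff.2 fun N => ae_den70 (E j q N)
  unfold SelH
  filter_upwards [hden, Dich31.ae_dich31 (lam_convex hd hρ β)] with h hd1 hd2 v hsub
  obtain ⟨v₀, -, hUp, hLo⟩ := hd2
  obtain ⟨C₀, δu, hδu, HU₀⟩ := hUp
  obtain ⟨C, hC⟩ : ∃ C : ℝ, C = max C₀ 0 := ⟨_, rfl⟩
  have hC0 : 0 ≤ C := by
    rw [hC]
    exact le_max_right _ _
  have HU : ∀ r : Vec d, ‖r‖ ≤ δu → gap (lam ρ β) h v₀ r ≤ C * ‖r‖ ^ 2 := by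
    intro r hr
    have h1 := HU₀ r hr
    rw [Real.rpow_two] at h1
    refine h1.trans (mul_le_mul_of_nonneg_right ?_ (sq_nonneg _))
    rw [hC]
    exact le_max_left _ _
  have hvv : v = v₀ := slope_unique70 hC0 hδu HU hsub
  rw [← hvv] at HU hLo
  rcases hLo with hLo | hfl
  swap
  · exact Or.inl hfl
  right
  intro δ₁ γ₁ hδ₁ hδγ hγ1 hT₁ κ ε hκ hκ1 hε
  obtain ⟨q, hq1, hq2⟩ := exists_rat_btwn hδγ
  obtain ⟨j, hj⟩ := exists_nat_ge (10 / ε)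
  have hj0 : (0 : ℝ) < (j : ℝ) + 1 := by positivity
  obtain ⟨γ, hγ⟩ : ∃ γ : ℝ, γ = (q : ℝ) := ⟨_, rfl⟩
  rw [← hγ] at hq1 hq2
  have hγ0 : 0 < γ := lt_of_le_of_lt hδ₁ hq1
  have hjε : 10 * (1 / ((j : ℝ) + 1)) ≤ ε := by
    rw [div_le_iff₀ hε] at hj
    rw [mul_one_div, div_le_iff₀ hj0]
    nlinarith
  have hTγ : ∀ᶠ n : ℕ in atTop, Tb ρ β h v ((n : ℝ) ^ γ) n ≤ 1 / ((j : ℝ) + 1) := by
    filter_upwards [hT₁ (1 / ((j : ℝ) + 1)) (by positivity), eventually_ge_atTop 1] with n hn hn1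
    have hnR : (1 : ℝ) ≤ n := by exact_mod_cast hn1
    exact (Tb_antiZ β h v n (Real.rpow_le_rpow_of_exponent_le hnR hq1.le)).trans hn
  obtain ⟨N, hN⟩ := eventually_atTop.1 hTγ
  have hmem : h ∈ E j q N := by
    rw [hE]
    refine ⟨v, hsub, fun n hn => ?_⟩
    rw [← hγ]
    exact hN n hn
  have hDn : DnK (fun _ : ℕ => E j q N) h := fun _ => ⟨hmem, hd1 j q N hmem⟩
  obtain ⟨c, hc, H⟩ := loAK36 (lam_convex hd hρ β) hDn hLo
  obtain ⟨δa, hδa, H⟩ := H 0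
  obtain ⟨a₀, ha₀⟩ : ∃ a₀ : ℝ, a₀ = 15 / (κ * c) := ⟨_, rfl⟩
  have ha0 : 0 < a₀ := by
    rw [ha₀]
    positivity
  refine ⟨48 * C * a₀ ^ 2 + 6 * a₀ + 6, by positivity, ?_⟩
  have hlim : Tendsto (fun L : ℕ => a₀ * (L : ℝ) ^ (-(1 / 2 - γ) : ℝ)) atTop (𝓝 (a₀ * 0)) :=
    (((tendsto_rpow_neg_atTop (by linarith)).comp tendsto_natCast_atTop_atTop)).const_mul a₀
  rw [mul_zero] at hlim
  have hmin : 0 < min δa (δu / 4) := lt_min hδa (by positivity)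
  have hc2 : ∀ᶠ L : ℕ in atTop, 2 / κ ≤ (L : ℝ) :=
    tendsto_natCast_atTop_atTop.eventually (eventually_ge_atTop _)
  filter_upwards [hlim.eventually (gt_mem_nhds hmin), hc2, eventually_ge_atTop 1,
    eventually_ge_atTop N] with L h1 h2 h3 h4
  have hL1 : (1 : ℝ) ≤ L := by exact_mod_cast h3
  have hL0 : (0 : ℝ) < L := by linarith
  obtain ⟨σ, hσ⟩ : ∃ σ : ℝ, σ = Real.sqrt L := ⟨_, rfl⟩
  have hσ0 : 0 < σ := by
    rw [hσ]
    exact Real.sqrt_pos.2 hL0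
  have hσσ : σ * σ = L := by
    rw [hσ]
    exact Real.mul_self_sqrt hL0.le
  obtain ⟨P, hP'⟩ : ∃ P : ℝ, P = (L : ℝ) ^ γ := ⟨_, rfl⟩
  have hP1 : 1 ≤ P := by
    rw [hP']
    exact Real.one_le_rpow hL1 hγ0.le
  have hP0 : 0 < P := by linarith
  obtain ⟨s, hs⟩ : ∃ s : ℝ, s = a₀ * P / σ := ⟨_, rfl⟩
  have hs0 : 0 < s := by
    rw [hs]
    positivity
  have hsr : s ≤ min δa (δu / 4) := by
    rw [hs, hP', hσ]
    exact algC70 hL1 ha0 h1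
  have hsσ : s * σ = a₀ * P := by
    rw [hs]
    exact div_mul_cancel₀ _ hσ0.ne'
  obtain ⟨r, hr1, hr2, hrK, hrg⟩ := H s hs0 (hsr.trans (min_le_left _ _))
  have hrE : h + r ∈ E j q N := hrK
  rw [hE] at hrE
  obtain ⟨y, hys, hyT⟩ := hrE
  rw [Real.rpow_two] at hrg
  have hu := subUp70 hC0 hs0 hr2 (by linarith [hsr.trans (min_le_right _ _)]) HU hsub hys
  have hl := subLo70 hs0 hr2 hrg hys
  have h6 : ‖y - v‖ * Real.sqrt L ≤ 16 * C * (a₀ * P) := by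
    rw [← hσ]
    calc ‖y - v‖ * σ ≤ 16 * C * s * σ := mul_le_mul_of_nonneg_right hu hσ0.le
      _ = 16 * C * (s * σ) := by ring
      _ = 16 * C * (a₀ * P) := by rw [hsσ]
  have h7 : ‖h + r - h‖ * Real.sqrt L ≤ 3 * (a₀ * P) := by
    rw [← hσ, add_sub_cancel_left]
    calc ‖r‖ * σ ≤ 3 * s * σ := mul_le_mul_of_nonneg_right hr2 hσ0.le
      _ = 3 * (s * σ) := by ring
      _ = 3 * (a₀ * P) := by rw [hsσ]
  have h8 : 2 * P * Real.sqrt L < ((⌊κ * L⌋₊ : ℕ) : ℝ) * ‖y - v‖ := by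
    rw [← hσ]
    refine algB70 hκ hσ0 hP0 hσσ h2 ?_
    rw [← algD70 hκ hc, ← ha₀, ← hs]
    exact hl
  have h5 : Tb ρ β h v P L ≤ 1 / ((j : ℝ) + 1) := by
    rw [hP']
    exact hN L h4
  have h5' : Tb ρ β (h + r) y P L ≤ 1 / ((j : ℝ) + 1) := by
    rw [hP', hγ]
    exact hyT L h4
  have h9 := hP h (h + r) v y L ⌊κ * L⌋₊ P (16 * C * (a₀ * P)) (3 * (a₀ * P))
    (1 / ((j : ℝ) + 1)) hP0.le (by positivity) (by positivity) h6 h7 h8 h5 h5'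
  refine RS_mono2 ?_ hjε h9
  have h10 : P * P ≤ (L : ℝ) ^ (2 * γ₁) := by
    rw [hP', ← Real.rpow_add hL0]
    exact Real.rpow_le_rpow_of_exponent_le hL1 (by linarith)
  have h11 : (1 : ℝ) ≤ P * P := by nlinarith
  exact (algE70 h11).trans (mul_le_mul_of_nonneg_left h10 (by positivity))

end Pool.Agent.W_7d29a1_KZ
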