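import Pool.Agent.W_7d29a1_KZ.NuP52

/-!
The mean square of the maximal displacement, from the tube.
-/

namespace Pool.Agent.W_7d29a1_KZ

open MeasureTheory ProbabilityTheory Filter Topology Pool.Agent.W_MP_7d29a1_pr
  Pool.Agent.W_7d29a1_h46 Pool.Agent.W_7d29a1_h46u Pool.Agent.W_7d29a1_D2.B35
  Pool.Agent.W_7d29a1_Q29 Pool.Agent.W_7d29a1_R34 Pool.Agent.W_7d29a1_SP Pool.Agent.W_7d29a1_SD
  Pool.Agent.W_7d29a1_SQ Pool.Agent.W_7d29a1_SW Pool.Agent.W_7d29a1_WP

/-- `E E_n^h (max_{i ≤ n} |S_i - i v|²)`: the mean square of the maximal displacement around the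
direction `v` of the polymer of length `n` with the tilt `h`. -/
noncomputable def Mq {Ω : Type*} [MeasurableSpace Ω] (μ : Measure Ω) {d : ℕ}
    (ω : ℕ × Site d → Ω → ℝ) (β : ℝ) (h v : Vec d) (n : ℕ) : ℝ :=
  ∫ x, ∑ s : Fin n → Step d, PolT β h (fun p => ω p x) {s} *
    (⨆ i : Fin (n + 1), ‖emb (pos s i) - (i : ℝ) • v‖) ^ 2 ∂μ

variable {Ω : Type*} [MeasurableSpace Ω] {μ : Measure Ω} [IsProbabilityMeasure μ] {d : ℕ}
  {ρ : Measure ℝ} [IsProbabilityMeasure ρ] {ω : ℕ × Site d → Ω → ℝ} {β : ℝ}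

/-- Outside of the tube the maximal displacement is larger than the radius. -/
lemma mx_tube52 {n : ℕ} {v : Vec d} {r : ℝ} {s : Fin n → Step d} (hs : s ∉ tube d n v r) :
    r < ⨆ i : Fin (n + 1), ‖emb (pos s i) - (i : ℝ) • v‖ := by
  have h1 : ∃ i ≤ n, r < ‖emb (pos s i) - (i : ℝ) • v‖ := by
    by_contra hcon
    refine hs fun i hi => ?_
    by_contra h2
    exact hcon ⟨i, hi, not_le.1 h2⟩
  obtain ⟨i, hi, h2⟩ := h1
  refine h2.trans_le ?_
  exact le_ciSup (f := fun i : Fin (n + 1) => ‖emb (pos s i) - (i : ℝ) • v‖)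
    (Set.finite_range _).bddAbove ⟨i, by omega⟩

/-- The weight of one walk. -/
lemma ZT_single52 (h : Vec d) (η : Env d) {n : ℕ} (s : Fin n → Step d) :
    ZT β h η ({s} : Set (Fin n → Step d)) = wgt β h η s := by
  classical
  unfold ZT
  rw [Finset.sum_eq_single s]
  · rw [if_pos (Set.mem_singleton s)]
  · intro t _ ht
    rw [if_neg (by simpa using ht)]
  · intro hs
    exact absurd (Finset.mem_univ s) hs

/-- The mass outside of a set of walks. -/
lemma compl_sum52 (hd : 0 < d) (h : Vec d) (η : Env d) {n : ℕ} (E : Set (Fin n → Step d)) :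
    1 - PolT β h η E = ∑ s : Fin n → Step d, PolT β h η {s} * Eᶜ.indicator (fun _ => (1 : ℝ)) s := by
  classical
  rw [← Pool.Agent.W_7d29a1_PL.polc52 hd h η E]
  unfold PolT
  simp only [div_mul_eq_mul_div, ← Finset.sum_div]
  congr 1
  simp only [ZT_single52]
  unfold ZT
  refine Finset.sum_congr rfl fun s _ => ?_
  by_cases hs : s ∈ Eᶜ
  · rw [if_pos hs, Set.indicator_of_mem hs, mul_one]
  · rw [if_neg hs, Set.indicator_of_notMem hs, mul_zero]

/-- The mean square of the maximal displacement is at least `r ²` times the mass outside of the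
tube. -/
lemma mq_le52 (hd : 0 < d) (hω : IID μ ρ ω) (h v : Vec d) (n : ℕ) {r : ℝ} (hr : 0 ≤ r) :
    r ^ 2 * ∫ η, (1 - PolT β h η (tube d n v r)) ∂(law d ρ) ≤ Mq μ ω β h v n := by
  have e1 : ∫ η, (1 - PolT β h η (tube d n v r)) ∂(law d ρ) =
      ∫ x, (1 - PolT β h (fun p => ω p x) (tube d n v r)) ∂μ :=
    (StrA_int hω (F := fun η : Env d => 1 - PolT β h η (tube d n v r))
      ((measurable_PolT β h _).const_sub 1)).symm
  have hme : ∀ E : Set (Fin n → Step d), Measurable fun x => PolT β h (fun p => ω p x) E :=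
    fun E => (measurable_PolT β h E).comp (measurable_pi_iff.2 hω.meas)
  have hin : ∀ E : Set (Fin n → Step d), Integrable (fun x => PolT β h (fun p => ω p x) E) μ := by
    intro E
    refine Integrable.mono' (integrable_const (1 : ℝ)) (hme E).aestronglyMeasurable
      (Eventually.of_forall fun x => ?_)
    rw [Real.norm_eq_abs, abs_of_nonneg (PolT_nonneg β h _ _)]
    exact PolT_le_one β h _ _
  rw [e1, ← integral_const_mul]
  unfold Mq
  refine integral_mono (((integrable_const (1 : ℝ)).sub (hin _)).const_mul _)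
    (integrable_finsetSum _ fun s _ => (hin {s}).mul_const _) fun x => ?_
  show r ^ 2 * (1 - PolT β h (fun p => ω p x) (tube d n v r)) ≤ _
  rw [compl_sum52 hd, Finset.mul_sum]
  refine Finset.sum_le_sum fun s _ => ?_
  have h0 := PolT_nonneg β h (fun p => ω p x) ({s} : Set (Fin n → Step d))
  by_cases hs : s ∈ tube d n v r
  · rw [Set.indicator_of_notMem (by simpa using hs)]
    simp only [mul_zero]
    exact mul_nonneg h0 (sq_nonneg _)
  · rw [Set.indicator_of_mem (by simpa using hs), mul_one, mul_comm]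
    exact mul_le_mul_of_nonneg_left (pow_le_pow_left₀ hr (mx_tube52 hs).le 2) h0

/-- Infinitely often the polymer leaves the tube of radius `n ^ b` with a probability bounded below:
the mean square of the maximal displacement is at least `n ^ c`, `c < 2 b`. -/
theorem sq_fr52 (hd : 0 < d) (hω : IID μ ρ ω) {h v : Vec d} {b c ε : ℝ} (hε : 0 < ε)
    (hc : c < 2 * b) (H : ∃ᶠ n : ℕ in atTop,
      ε ≤ ∫ η, (1 - PolT β h η (tube d n v ((n : ℝ) ^ b))) ∂(law d ρ)) :
    ∃ᶠ n : ℕ in atTop, (n : ℝ) ^ c ≤ Mq μ ω β h v n := by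
  have h1 : ∀ᶠ n : ℕ in atTop, 1 / ε ≤ (n : ℝ) ^ (2 * b - c) :=
    ((tendsto_rpow_atTop (by linarith)).comp tendsto_natCast_atTop_atTop).eventually_ge_atTop _
  refine (H.and_eventually (h1.and (eventually_ge_atTop 1))).mono fun n hn => ?_
  obtain ⟨h2, h3, h4⟩ := hn
  have hn0 : (0 : ℝ) < n := by exact_mod_cast h4
  refine le_trans ?_ (mq_le52 hd hω h v n (r := (n : ℝ) ^ b) (Real.rpow_nonneg hn0.le _))
  have e1 : ((n : ℝ) ^ b) ^ 2 = (n : ℝ) ^ (2 * b - c) * (n : ℝ) ^ c := by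
    rw [← Real.rpow_natCast, ← Real.rpow_mul hn0.le, ← Real.rpow_add hn0]
    congr 1
    push_cast
    ring
  rw [div_le_iff₀ hε] at h3
  have hp : 0 ≤ (n : ℝ) ^ c := Real.rpow_nonneg hn0.le _
  have hq : 0 ≤ (n : ℝ) ^ (2 * b - c) := Real.rpow_nonneg hn0.le _
  calc (n : ℝ) ^ c = 1 * (n : ℝ) ^ c := (one_mul _).symm
    _ ≤ ((n : ℝ) ^ (2 * b - c) * ε) * (n : ℝ) ^ c := mul_le_mul_of_nonneg_right h3 hp
    _ = ((n : ℝ) ^ b) ^ 2 * ε := by
        rw [e1]
        ring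
    _ ≤ _ := mul_le_mul_of_nonneg_left h2 (by positivity)

/-- The tube is not typical: the mean square of the maximal displacement. -/
theorem sqH52 (hd : 0 < d) (hω : IID μ ρ ω) {h v : Vec d} {δ c : ℝ} (hc : c < 2 * δ)
    (H : ¬ HalfD ρ β h v δ) : ∃ᶠ n : ℕ in atTop, (n : ℝ) ^ (1 + c) ≤ Mq μ ω β h v n := by
  have H' : ∃ ε : ℝ, 0 < ε ∧ ∃ᶠ n : ℕ in atTop, ε ≤ Tb ρ β h v ((n : ℝ) ^ δ) n := by
    by_contra hcon
    refine H fun ε hε => ?_
    by_contra h1
    refine hcon ⟨ε, hε, fun h2 => h1 ?_⟩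
    filter_upwards [h2] with n hn
    exact (not_le.1 hn).le
  obtain ⟨ε, hε, h1⟩ := H'
  refine sq_fr52 hd hω (b := 1 / 2 + δ) hε (by linarith)
    ((h1.and_eventually (eventually_ge_atTop 1)).mono fun n hn => ?_)
  have hn0 : (0 : ℝ) < n := by exact_mod_cast hn.2
  have e1 : (n : ℝ) ^ (1 / 2 + δ) = (n : ℝ) ^ δ * Real.sqrt n := by
    rw [Real.sqrt_eq_rpow, ← Real.rpow_add hn0]
    congr 1
    ring
  rw [e1]
  exact hn.1

/-- **`d = 2`, every `β > 0`, almost every velocity, every tilt: `E E_n^h (max |S_i - i v|²)` is at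
least `n ^ (1 + c)` infinitely often.** -/
theorem sqNuP52 (hω : IID μ ρ ω) (hρ : EM ρ) (hnc : ∀ c : ℝ, ρ {c} ≠ 1) (hβ : 0 < β)
    (hd : d = 2) (hM : NuP ρ β) : ∀ᵐ v : Vec d, ∀ h : Vec d, ∃ c : ℝ, 0 < c ∧
      ∃ᶠ n : ℕ in atTop, (n : ℝ) ^ (1 + c) ≤ Mq μ ω β h v n := by
  subst hd
  filter_upwards [hM] with v hv h
  obtain ⟨δ, hδ, H⟩ := hv h (W_7d29a1_L2.vsd2 hρ hnc hβ h)
  exact ⟨δ, hδ, sqH52 two_pos hω (by linarith) H⟩

end Pool.Agent.W_7d29a1_KZ
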