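import Pool.Agent.W_7d29a1_KZ.Sq52
import Pool.Agent.W_7d29a1_PL.NuTr32

/-!
The mean square of the maximal displacement, uniformly over bounded sets of tilts, `d = 2`.
-/

namespace Pool.Agent.W_7d29a1_KZ

open MeasureTheory ProbabilityTheory Filter Topology Pool.Agent.W_MP_7d29a1_pr
  Pool.Agent.W_7d29a1_h46 Pool.Agent.W_7d29a1_h46u Pool.Agent.W_7d29a1_D2.B35
  Pool.Agent.W_7d29a1_Q29 Pool.Agent.W_7d29a1_R34 Pool.Agent.W_7d29a1_SP Pool.Agent.W_7d29a1_SD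
  Pool.Agent.W_7d29a1_SQ Pool.Agent.W_7d29a1_SW Pool.Agent.W_7d29a1_WP Pool.Agent.W_7d29a1_PL

variable {Ω : Type*} [MeasurableSpace Ω] {μ : Measure Ω} [IsProbabilityMeasure μ] {d : ℕ}
  {ρ : Measure ℝ} [IsProbabilityMeasure ρ] {ω : ℕ × Site d → Ω → ℝ} {β : ℝ}

/-- **`d = 2`, on every ball of tilts: at almost every velocity `E E_n^h (max |S_i - i v|²)` is at
least `n ^ (1 + c)` infinitely often, and `ν(h, v) ≥ (1 + c) / 2`.** -/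
theorem sqU52 (hω : IID μ ρ ω) (hρ : EM ρ) (hnc : ∀ c : ℝ, ρ {c} ≠ 1) (hβ : 0 < β) (hd : d = 2)
    (hK : MainKA 2 ρ β) (hPt : PointPL ρ β) (K : ℝ) :
    ∃ c : ℝ, 0 < c ∧ ∀ᵐ v : Vec d, ∀ h : Vec d, ‖h‖ ≤ K →
      (1 + c) / 2 ≤ nuT μ β ω h v ∧
        ∃ᶠ n : ℕ in atTop, (n : ℝ) ^ (1 + c) ≤ Mq μ ω β h v n := by
  subst hd
  obtain ⟨g, hg, hgap⟩ := gap32 (ρ := ρ) hρ hnc hβ K
  obtain ⟨c, hc, hv⟩ := nuT32 hρ hK hPt g hg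
  refine ⟨c, hc, ?_⟩
  filter_upwards [hv] with v hv h hh
  have h1 := hv h (hgap h hh)
  have h2 := nuH32 (μ := μ) (ω := ω) two_pos hω h1
  exact ⟨by linarith, sqH52 two_pos hω (by linarith) h1⟩

end Pool.Agent.W_7d29a1_KZ
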