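import Pool.Agent.W_7d29a1_KZ.DefsA70
import Pool.Agent.W_7d29a1_KZ.VarK62

/-!
Leaf VAR of Theorem KZ with a free bound.
-/

set_option autoImplicit false

namespace Pool.Agent.W_7d29a1_KZ

open MeasureTheory ProbabilityTheory Filter Topology Pool.Agent.W_MP_7d29a1_pr
  Pool.Agent.W_7d29a1_h46 Pool.Agent.W_7d29a1_h46u Pool.Agent.W_7d29a1_D2.B35
  Pool.Agent.W_7d29a1_Q29 Pool.Agent.W_7d29a1_R34 Pool.Agent.W_7d29a1_SP Pool.Agent.W_7d29a1_SD
  Pool.Agent.W_7d29a1_SQ

variable {d : ℕ} {ρ : Measure ℝ} {β : ℝ}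

/-- The upper tail with a free bound. -/
theorem tailF62 [IsProbabilityMeasure ρ] (hC : CntP d ρ β) (c₀ a : ℝ) (hc₀ : 0 < c₀)
    (ha : 0 < a) (ha1 : a ≤ 1) : ∃ C : ℝ, 1 ≤ C ∧ ∀ h : Vec d, Loc1 ρ β h c₀ →
      ∀ (n : ℕ) (P : ℝ), 1 ≤ n → 1 ≤ P →
      (∀ T : ℕ, n ≤ T → Ps ρ β h T ≤ P * ((T : ℝ) / n) ^ a) →
      ∀ m : ℕ, 1 ≤ m → m ≤ n → ∀ x : ℝ, 0 < x →
        (law d ρ).real {η | A ρ β h m + x ≤ X β h η m} ≤ (C * P / x) ^ (1 / a) := by
  obtain ⟨C₀, hC₀, hcnt⟩ := hC c₀ hc₀
  have hC₀0 : 0 < C₀ := by linarith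
  set B : ℝ := 2 + C₀ with hB
  have hB0 : 0 < B := by linarith
  have hB1 : 1 ≤ B := by linarith
  refine ⟨2 * C₀ * B, by nlinarith, fun h hloc n P hn1 hP1 hrec m hm1 hmn x hx => ?_⟩
  set q : ℝ := (law d ρ).real {η | A ρ β h m + x ≤ X β h η m} with hq
  have hP0 : 0 < P := by linarith
  have hr0 : 0 ≤ 2 * C₀ * B * P / x := by positivity
  have hq0' : 0 ≤ q := measureReal_nonneg
  have hq1 : q ≤ 1 := measureReal_le_one
  rcases hq0'.eq_or_lt with hq0 | hq0
  · rw [← hq0]
    exact Real.rpow_nonneg hr0 _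
  have hn0 : (1 : ℝ) ≤ n := by exact_mod_cast hn1
  have hnn : (0 : ℝ) < n := by linarith
  have hmn' : (m : ℝ) ≤ n := by exact_mod_cast hmn
  set T : ℕ := max n ⌈C₀ * m / q⌉₊ with hT
  have hT1 : C₀ * m / q ≤ T := (Nat.le_ceil _).trans (by exact_mod_cast le_max_right _ _)
  have hT2 : n ≤ T := le_max_left _ _
  have h1 := hcnt h hloc m T x q (Ps ρ β h T) hm1 hq0 le_rfl hT1
    fun k hk => ⟨(En_le_Ps32 h hk).trans (by linarith), (Fn_le_Ps32 h hk).trans (by linarith)⟩
  have hPT := one_le_Ps32 (ρ := ρ) (β := β) h T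
  have h2 : x ≤ 2 * C₀ * Ps ρ β h T := by nlinarith
  have h3 := hrec T hT2
  have hnq : (n : ℝ) ≤ n / q := by
    rw [le_div_iff₀ hq0]
    nlinarith
  have h4 : (T : ℝ) ≤ B * (n / q) := by
    have h5 : (⌈C₀ * m / q⌉₊ : ℝ) ≤ C₀ * m / q + 1 := (Nat.ceil_lt_add_one (by positivity)).le
    have h6 : C₀ * m / q ≤ C₀ * (n / q) := by
      rw [mul_div_assoc', div_le_div_iff_of_pos_right hq0]
      nlinarith
    have h7 : (T : ℝ) = max (n : ℝ) (⌈C₀ * m / q⌉₊ : ℝ) := by
      rw [hT]
      push_cast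
      rfl
    rw [h7]
    refine max_le ?_ ?_
    · nlinarith
    · rw [hB]
      nlinarith
  have h8 : (T : ℝ) / n ≤ B / q := by
    rw [div_le_iff₀ hnn]
    calc (T : ℝ) ≤ B * (n / q) := h4
      _ = B / q * n := by ring
  have h9 : ((T : ℝ) / n) ^ a ≤ (B / q) ^ a :=
    Real.rpow_le_rpow (by positivity) h8 ha.le
  set y : ℝ := 2 * C₀ * P / x with hy
  have hy0 : 0 < y := by positivity
  have h10 : 1 ≤ y * (B / q) ^ a := by
    rw [hy, div_mul_eq_mul_div, le_div_iff₀ hx, one_mul]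
    calc x ≤ 2 * C₀ * Ps ρ β h T := h2
      _ ≤ 2 * C₀ * (P * (B / q) ^ a) := by
          refine mul_le_mul_of_nonneg_left ?_ (by positivity)
          exact h3.trans (mul_le_mul_of_nonneg_left h9 hP0.le)
      _ = _ := by ring
  have h11 : 1 ≤ y ^ (1 / a) * (B / q) := by
    have h12 : (1 : ℝ) ≤ (y * (B / q) ^ a) ^ (1 / a) :=
      Real.one_le_rpow h10 (by positivity)
    rw [Real.mul_rpow hy0.le (by positivity), ← Real.rpow_mul (by positivity),
      mul_one_div_cancel ha.ne', Real.rpow_one] at h12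
    exact h12
  have h13 : q ≤ y ^ (1 / a) * B := by
    rw [← mul_div_assoc, le_div_iff₀ hq0, one_mul] at h11
    exact h11
  refine h13.trans ?_
  have h14 : B ≤ B ^ (1 / a) := by
    conv_lhs => rw [← Real.rpow_one B]
    refine Real.rpow_le_rpow_of_exponent_le hB1 ?_
    rw [le_div_iff₀ ha]
    linarith
  have h15 : 2 * C₀ * B * P / x = y * B := by
    rw [hy]
    ring
  rw [h15, Real.mul_rpow hy0.le hB0.le]
  exact mul_le_mul_of_nonneg_left h14 (by positivity)

/-- **Leaf VAR with a free bound.** -/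
theorem varF62 [IsProbabilityMeasure ρ] (hd : 0 < d) (hρ : EM ρ) (hC : CntP d ρ β)
    (hE : EhlP d ρ β) : VarF d ρ β := by
  intro c₀ a hc₀ ha ha2
  obtain ⟨C₁, hC₁, htail⟩ := tailF62 (d := d) (ρ := ρ) (β := β) hC c₀ a hc₀ ha (by linarith)
  have hC₁0 : 0 < C₁ := by linarith
  have hb : 2 < 1 / a := by
    rw [lt_div_iff₀ ha]
    linarith
  have hb2 : 0 < 1 / a - 2 := by linarith
  set K₁ : ℝ := 1 / a / (1 / a - 2) * C₁ ^ 2 with hK₁
  have hK₁0 : 0 < K₁ := by positivity
  refine ⟨1 + K₁ + 2 * 34 ^ 2, by nlinarith, fun h hloc n P hn1 hP1 hrec m hmn => ?_⟩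
  have hP0 : 0 < P := by linarith
  have hn0 : (n : ℝ) ≠ 0 := by
    have : 0 < n := hn1
    exact_mod_cast this.ne'
  have hPn : Ps ρ β h n ≤ P := by
    have h1 := hrec n le_rfl
    rwa [div_self hn0, Real.one_rpow, mul_one] at h1
  rcases Nat.eq_zero_or_pos m with h0 | hm
  · subst h0
    have h1 : Va ρ β h 0 = 0 := by
      unfold Va
      have h2 : ∀ η : Env d, X β h η 0 = 0 := by
        intro η
        unfold X
        rw [Z_zero, Real.log_one]
      simp [h2, A_zero15]
    rw [h1]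
    positivity
  have hm1 : 1 ≤ m := hm
  have hF : Fn ρ β h m ≤ P := by
    have := Fn_le_Ps32 (ρ := ρ) (β := β) h hmn
    linarith
  have hF0 : 0 ≤ Fn ρ β h m := Fn_nonneg15 β h m
  have hmeas : Measurable fun η : Env d => X β h η m - A ρ β h m :=
    (measurable_X β h m).sub_const _
  have hsq := N85.Va_int (ρ := ρ) hd hρ β h m
  -- the upper part
  have hup := E62.sqp (μ := law d ρ) hmeas hsq (P := C₁ * P) (b := 1 / a) (by positivity) hb
    fun x hx => by
      have hx0 : 0 < x := lt_of_lt_of_le (by positivity) hx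
      have e1 : {w : Env d | x ≤ X β h w m - A ρ β h m} = {η | A ρ β h m + x ≤ X β h η m} := by
        ext w
        simp only [Set.mem_ofPred_eq]
        constructor <;> intro h3 <;> linarith
      rw [e1]
      exact htail h hloc n P hn1 hP1 hrec m hm1 hmn x hx0
  -- the lower part
  have hs0 : (law d ρ).real {η | X β h η m ≤ A ρ β h m - 2 * P} ≤ 1 / 2 := by
    refine (measureReal_mono (s₂ := {η | 2 * P ≤ |X β h η m - A ρ β h m|}) ?_).trans
      ((mkF62 hd hρ h m (show 0 < 2 * P by positivity)).trans ?_)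
    · intro η hη
      have h3 : X β h η m ≤ A ρ β h m - 2 * P := hη
      show 2 * P ≤ |X β h η m - A ρ β h m|
      rw [abs_of_nonpos (by linarith)]
      linarith
    · rw [div_le_iff₀ (by positivity)]
      linarith
  have hs1 : (law d ρ).real {η | A ρ β h m + 5 * P < X β h η m} ≤ 1 / 5 := by
    refine (measureReal_mono (s₂ := {η | 5 * P ≤ |X β h η m - A ρ β h m|}) ?_).trans
      ((mkF62 hd hρ h m (show 0 < 5 * P by positivity)).trans ?_)
    · intro η hη
      have h3 : A ρ β h m + 5 * P < X β h η m := hη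
      show 5 * P ≤ |X β h η m - A ρ β h m|
      rw [abs_of_nonneg (by linarith)]
      linarith
    · rw [div_le_iff₀ (by positivity)]
      linarith
  have hlow := E62.sqp (μ := law d ρ) hmeas.neg (by
      refine hsq.congr (Eventually.of_forall fun η => ?_)
      show (X β h η m - A ρ β h m) ^ 2 = (-(X β h η m - A ρ β h m)) ^ 2
      ring) (P := 34 * P) (b := 4) (by positivity) (by norm_num)
    fun x hx => by
      have hx0 : 0 < x := lt_of_lt_of_le (by positivity) hx
      have h1 := hE h m (A ρ β h m - 2 * P) (A ρ β h m + 5 * P) ((x - 2 * P) / (7 * P))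
        (div_nonneg (by linarith) (by positivity)) (by linarith) hs0 hs1
      have e1 : A ρ β h m - 2 * P - (x - 2 * P) / (7 * P) *
          (A ρ β h m + 5 * P - (A ρ β h m - 2 * P)) = A ρ β h m - x := by
        have : (x - 2 * P) / (7 * P) * (A ρ β h m + 5 * P - (A ρ β h m - 2 * P)) = x - 2 * P := by
          field_simp
          ring
        rw [this]
        ring
      rw [e1] at h1
      have e2 : {w : Env d | x ≤ -(X β h w m - A ρ β h m)} = {η | X β h η m ≤ A ρ β h m - x} := by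
        ext w
        simp only [Set.mem_ofPred_eq]
        constructor <;> intro h3 <;> linarith
      have e3 : {w : Env d | x ≤ (-fun η : Env d => X β h η m - A ρ β h m) w} =
          {w : Env d | x ≤ -(X β h w m - A ρ β h m)} := rfl
      rw [e3, e2]
      refine h1.trans ?_
      set t := (x - 2 * P) / (7 * P) with ht
      have ht1 : x / (14 * P) ≤ t := by
        rw [ht, div_le_div_iff₀ (by positivity) (by positivity)]
        nlinarith
      have ht0 : 0 < x / (14 * P) := by positivity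
      have htp : 0 < t := ht0.trans_le ht1
      have h4 : Real.exp (-(t ^ 2 / 4)) ≤ 32 / t ^ 4 := by
        have h5 : (t ^ 2 / 4) ^ 2 / 2 ≤ Real.exp (t ^ 2 / 4) := by
          have := Real.quadratic_le_exp_of_nonneg (show 0 ≤ t ^ 2 / 4 by positivity)
          nlinarith [sq_nonneg t]
        rw [Real.exp_neg, inv_eq_one_div, div_le_div_iff₀ (Real.exp_pos _) (by positivity)]
        nlinarith
      refine h4.trans ?_
      have h6 : 32 / t ^ 4 ≤ 32 / (x / (14 * P)) ^ 4 := by gcongr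
      refine h6.trans ?_
      have e4 : (34 * P / x) ^ (4 : ℝ) = (34 * P / x) ^ (4 : ℕ) := by
        rw [← Real.rpow_natCast]
        norm_num
      rw [e4]
      have e5 : 32 / (x / (14 * P)) ^ 4 = 32 * 14 ^ 4 * (P / x) ^ 4 := by
        field_simp
      have e6 : (34 * P / x) ^ 4 = 34 ^ 4 * (P / x) ^ 4 := by
        rw [mul_div_assoc, mul_pow]
      rw [e5, e6]
      refine mul_le_mul_of_nonneg_right (by norm_num) (by positivity)
  -- the sum
  have hsum : Va ρ β h m = ∫ η, max (X β h η m - A ρ β h m) 0 ^ 2 ∂(law d ρ) +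
      ∫ η, max ((-fun η : Env d => X β h η m - A ρ β h m) η) 0 ^ 2 ∂(law d ρ) := by
    have i1 : Integrable (fun η => max (X β h η m - A ρ β h m) 0 ^ 2) (law d ρ) := by
      refine hsq.mono ((hmeas.max measurable_const).pow_const 2).aestronglyMeasurable
        (Eventually.of_forall fun w => ?_)
      rw [Real.norm_eq_abs, Real.norm_eq_abs, abs_of_nonneg (sq_nonneg _),
        abs_of_nonneg (sq_nonneg _)]
      rcases le_total (X β h w m - A ρ β h m) 0 with h3 | h3
      · rw [max_eq_right h3]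
        nlinarith [sq_nonneg (X β h w m - A ρ β h m)]
      · rw [max_eq_left h3]
    have i2 : Integrable (fun η => max ((-fun η : Env d => X β h η m - A ρ β h m) η) 0 ^ 2)
        (law d ρ) := by
      refine hsq.mono ((hmeas.neg.max measurable_const).pow_const 2).aestronglyMeasurable
        (Eventually.of_forall fun w => ?_)
      rw [Real.norm_eq_abs, Real.norm_eq_abs, abs_of_nonneg (sq_nonneg _),
        abs_of_nonneg (sq_nonneg _)]
      show max (-(X β h w m - A ρ β h m)) 0 ^ 2 ≤ _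
      rcases le_total (-(X β h w m - A ρ β h m)) 0 with h3 | h3
      · rw [max_eq_right h3]
        nlinarith [sq_nonneg (X β h w m - A ρ β h m)]
      · rw [max_eq_left h3]
        nlinarith
    rw [← integral_add i1 i2]
    unfold Va
    refine integral_congr_ae (Eventually.of_forall fun η => ?_)
    show (X β h η m - A ρ β h m) ^ 2 = max (X β h η m - A ρ β h m) 0 ^ 2 +
      max (-(X β h η m - A ρ β h m)) 0 ^ 2
    rcases le_total (X β h η m - A ρ β h m) 0 with h3 | h3
    · rw [max_eq_right h3, max_eq_left (by linarith : 0 ≤ -(X β h η m - A ρ β h m))]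
      ring
    · rw [max_eq_left h3, max_eq_right (by linarith : -(X β h η m - A ρ β h m) ≤ 0)]
      ring
  rw [hsum]
  have e7 : 1 / a / (1 / a - 2) * (C₁ * P) ^ 2 = K₁ * P ^ 2 := by
    rw [hK₁]
    ring
  rw [e7] at hup
  have e8 : (4 : ℝ) / (4 - 2) * (34 * P) ^ 2 = 2 * 34 ^ 2 * P ^ 2 := by ring
  rw [e8] at hlow
  have hPP : 0 ≤ P ^ 2 := sq_nonneg P
  linarith

end Pool.Agent.W_7d29a1_KZ
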